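import Pool.Agent.Run7.h536.PW3
import Pool.Agent.TH212.EH.A2

set_option autoImplicit false

/-! Prime values with almost all constant terms, for arguments from thin families: the first moment over the constant
terms; systems. -/

namespace Pool.Agent.Run7.h536.QC
open Finset
open Pool.Agent.TH212.EH (En S1 base dI_le large)
open Pool.Agent.W93.AU (dI)
open Pool.Agent.H373R2.T7

/-- the first moment over the constant terms -/
theorem dualc (p B C T U : ℕ) : ∃ B0 : ℕ, ∀ E : ℕ, ∃ N0 : ℕ, ∀ N : ℕ, N0 ≤ N → ∀ (ι : Type) [Fintype ι] (v : ι → ℤ),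
    (∀ i, |v i| ≤ B * N) → (En p v : ℝ) * N ≤ Real.log N ^ C * (Fintype.card ι : ℝ) ^ (2 * p) →
    ∀ z : ℕ, Real.log N ^ B0 ≤ z → (z : ℝ) ≤ Real.log N ^ E → ∀ w : ι → ℝ, (∀ i, |w i| ≤ Real.log N ^ T) →
    ∑ c ∈ Icc 1 (B * N), |∑ i, w i * dI z ((c : ℤ) + v i)| ≤ N * Fintype.card ι / Real.log N ^ U := by
  obtain ⟨B0, h0⟩ := base p B C (T + U)
  refine ⟨B0, fun E => ?_⟩
  obtain ⟨N0, h1⟩ := h0 E
  obtain ⟨n1, h2⟩ := large 1 N0
  refine ⟨n1, fun N hN ι _ v hv hE z hz1 hz2 w hw => ?_⟩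
  obtain ⟨hN0, hL1, _⟩ := h2 N hN
  have hL0 : (0 : ℝ) < Real.log N := by linarith
  obtain ⟨G, hG⟩ : ∃ G : ℕ → ℝ, ∀ c, G c = if 0 ≤ ∑ i, w i * dI z ((c : ℤ) + v i) then 1 else -1 := ⟨_, fun _ => rfl⟩
  have hG1 : ∀ n, |G n| ≤ 1 := by
    intro n
    rw [hG]
    split_ifs <;> simp
  have h3 := (h1 N hN0 ι v hv hE z hz1 hz2 (B * N) (by exact_mod_cast le_rfl) G hG1).1
  have h4 : ∑ c ∈ Icc 1 (B * N), |∑ i, w i * dI z ((c : ℤ) + v i)| = ∑ i, w i * S1 G z (B * N) (v i) := by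
    have e1 : ∀ c : ℕ, |∑ i, w i * dI z ((c : ℤ) + v i)| = ∑ i, w i * (G c * dI z ((c : ℤ) + v i)) := by
      intro c
      have e2 : ∑ i, w i * (G c * dI z ((c : ℤ) + v i)) = G c * ∑ i, w i * dI z ((c : ℤ) + v i) := by
        rw [mul_sum]
        apply sum_congr rfl
        intro i _
        ring
      rw [e2, hG]
      split_ifs with h
      · rw [abs_of_nonneg h, one_mul]
      · rw [abs_of_neg (not_le.1 h), neg_one_mul]
    simp only [e1]
    rw [sum_comm]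
    apply sum_congr rfl
    intro i _
    unfold S1
    rw [mul_sum]
  rw [h4]
  calc ∑ i, w i * S1 G z (B * N) (v i) ≤ ∑ i, Real.log N ^ T * |S1 G z (B * N) (v i)| := by
        apply sum_le_sum
        intro i _
        refine (le_abs_self _).trans ?_
        rw [abs_mul]
        exact mul_le_mul_of_nonneg_right (hw i) (abs_nonneg _)
    _ = Real.log N ^ T * ∑ i, |S1 G z (B * N) (v i)| := by rw [mul_sum]
    _ ≤ Real.log N ^ T * (N * Fintype.card ι / Real.log N ^ (T + U)) := mul_le_mul_of_nonneg_left h3 (by positivity)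
    _ = _ := by
        rw [pow_add]
        field_simp

/-- the same in terms of powers of `k`, where `k ≤ log N ≤ k ^ 2` -/
theorem dualk (p B C T U : ℕ) : ∃ B0 : ℕ, ∀ E : ℕ, ∃ k0 : ℕ, ∀ k : ℕ, k0 ≤ k → ∀ N : ℕ, (k : ℝ) ≤ Real.log N →
    Real.log N ≤ (k : ℝ) ^ 2 → ∀ (ι : Type) [Fintype ι] (v : ι → ℤ),
    (∀ i, |v i| ≤ B * N) → (En p v : ℝ) * N ≤ (k : ℝ) ^ C * (Fintype.card ι : ℝ) ^ (2 * p) →
    ∀ z : ℕ, (k : ℝ) ^ B0 ≤ z → (z : ℝ) ≤ (k : ℝ) ^ E → ∀ w : ι → ℝ, (∀ i, |w i| ≤ (k : ℝ) ^ T) →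
    ∑ c ∈ Icc 1 (B * N), |∑ i, w i * dI z ((c : ℤ) + v i)| ≤ N * Fintype.card ι / (k : ℝ) ^ U := by
  obtain ⟨B0, h0⟩ := dualc p B C T U
  refine ⟨2 * B0, fun E => ?_⟩
  obtain ⟨N0, h1⟩ := h0 E
  refine ⟨N0 + 1, fun k hk N hkN hNk ι _ v hv hE z hz1 hz2 w hw => ?_⟩
  have hk1 : (1 : ℝ) ≤ k := by exact_mod_cast (by omega : 1 ≤ k)
  have hk0 : (0 : ℝ) < k := by linarith
  have hL0 : (0 : ℝ) < Real.log N := by linarith
  have hN1 : k ≤ N := by
    rcases Nat.eq_zero_or_pos N with h | h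
    · rw [h, Nat.cast_zero, Real.log_zero] at hL0
      exact absurd hL0 (lt_irrefl _)
    · have h3 : (0 : ℝ) < N := by exact_mod_cast h
      have h4 := Real.log_le_sub_one_of_pos h3
      have h5 : (k : ℝ) ≤ N := by linarith
      exact_mod_cast h5
  have h3 := h1 N (by omega) ι v hv (hE.trans (mul_le_mul_of_nonneg_right (pow_le_pow_left₀ hk0.le hkN C) (by positivity)))
    z ?_ (hz2.trans (pow_le_pow_left₀ hk0.le hkN E)) w (fun i => (hw i).trans (pow_le_pow_left₀ hk0.le hkN T))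
  · refine h3.trans ?_
    apply div_le_div_of_nonneg_left (by positivity) (by positivity)
    exact pow_le_pow_left₀ hk0.le hkN U
  · refine le_trans ?_ hz1
    rw [pow_mul]
    exact pow_le_pow_left₀ hL0.le hNk B0

end Pool.Agent.Run7.h536.QC
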