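import Pool.Agent.Run7.h536.PW2
import Pool.Agent.TH872.GQ.En

set_option autoImplicit false

/-! The additive energy of the values of polynomials of any degree at integers with restricted digits. -/

namespace Pool.Agent.Run7.h536
open Finset Polynomial
open Pool.Agent.H807R2.Dav
open Pool.Agent.TH872.Sq
open Pool.Agent.TH212.EH (En)

/-- **The values of polynomials at integers with restricted digits have nearly minimal energy**, uniformly in the polynomial. -/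
theorem poly_energy (b : ℕ) (hb : 2 ≤ b) (d : ℕ) (hd : 2 ≤ d) : ∃ p : ℕ, ∃ C : ℝ, 1 ≤ p ∧ 0 < C ∧ ∀ k : ℕ,
    ∀ D : ℕ → Finset ℕ, (∀ i < k, D i ⊆ range b ∧ 2 ≤ (D i).card) → ∀ f : ℤ[X], f.natDegree = d →
    (En p (fun i : {n // n ∈ SD b D k} => f.eval ((i.1 : ℕ) : ℤ)) : ℝ) * ((b ^ (d * k) : ℕ) : ℝ) ≤
      C * (Fintype.card {n // n ∈ SD b D k} : ℝ) ^ (2 * p) := by
  classical
  obtain ⟨e, he⟩ : ∃ e, d = e + 2 := ⟨d - 2, by omega⟩
  subst he
  obtain ⟨p, C, hp, hC, hmom⟩ := poly_moment b hb (1 / 2) (by norm_num) e 1 le_rfl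
  refine ⟨p, C, hp, hC, fun k D hD f hf => ?_⟩
  obtain ⟨κ', hκ'⟩ : ∃ κ' : ℕ, κ' = f.leadingCoeff.natAbs := ⟨_, rfl⟩
  have hκ1 : 1 ≤ κ' := by
    rw [hκ']
    apply Int.natAbs_pos.2
    rw [leadingCoeff_ne_zero]
    intro h
    rw [h, natDegree_zero] at hf
    omega
  obtain ⟨M', hM'⟩ : ∃ M', M' = b ^ ((e + 2) * k) := ⟨_, rfl⟩
  have hM1 : 1 ≤ M' := by rw [hM']; exact Nat.one_le_pow _ _ (by omega)
  obtain ⟨M, hM⟩ : ∃ M, M = M' * κ' := ⟨_, rfl⟩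
  have hM0 : 1 ≤ M := by rw [hM]; exact Nat.mul_pos hM1 hκ1
  have hcard := SD_card_pos b hb D k hD
  have hfc : Fintype.card {n // n ∈ SD b D k} = (SD b D k).card := Fintype.card_coe _
  have hne : Nonempty {n // n ∈ SD b D k} := by
    rw [← Fintype.card_pos_iff, hfc]
    exact_mod_cast hcard
  have h1 := Pool.Agent.TH872.GQ.En_le p (fun i : {n // n ∈ SD b D k} => f.eval ((i.1 : ℕ) : ℤ)) M hM0
  have h2 := hmom k M' (by rw [hM']) (by rw [hM', one_mul]) (wD D k) (dig_wD b hb D k hD) 0 f hf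
  rw [← hκ', ← hM] at h2
  obtain ⟨Z, hZ⟩ : ∃ Z : ℝ, Z = ((SD b D k).card : ℝ) := ⟨_, rfl⟩
  rw [← hZ] at hcard
  rw [← hM', hfc, ← hZ]
  have h3 : ∀ t ∈ range M, ‖∑ i : {n // n ∈ SD b D k}, ee ((t : ℝ) * (((f.eval ((i.1 : ℕ) : ℤ) : ℤ) : ℝ) / M))‖ ^ (2 * p) =
      Z ^ (2 * p) * ‖∑ n ∈ range (b ^ k), ((P b (wD D k) 0 k n : ℝ) : ℂ) * ee ((t : ℝ) * (((f.eval (n : ℤ) : ℤ) : ℝ) / M))‖ ^ (2 * p) := by
    intro t _
    have e1 : ∑ i : {n // n ∈ SD b D k}, ee ((t : ℝ) * (((f.eval ((i.1 : ℕ) : ℤ) : ℤ) : ℝ) / M)) =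
        ∑ n ∈ SD b D k, ee ((t : ℝ) * (((f.eval (n : ℤ) : ℤ) : ℝ) / M)) := by
      rw [← sum_coe_sort (SD b D k) (fun n => ee ((t : ℝ) * (((f.eval (n : ℤ) : ℤ) : ℝ) / M)))]
    have e3 : ∑ n ∈ range (b ^ k), ((P b (wD D k) 0 k n : ℝ) : ℂ) * ee ((t : ℝ) * (((f.eval (n : ℤ) : ℤ) : ℝ) / M)) =
        (((1 / Z : ℝ)) : ℂ) * ∑ n ∈ SD b D k, ee ((t : ℝ) * (((f.eval (n : ℤ) : ℤ) : ℝ) / M)) := by
      have h4 : ∀ n ∈ range (b ^ k), ((P b (wD D k) 0 k n : ℝ) : ℂ) * ee ((t : ℝ) * (((f.eval (n : ℤ) : ℤ) : ℝ) / M)) =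
          if n ∈ SD b D k then ((1 / Z : ℝ) : ℂ) * ee ((t : ℝ) * (((f.eval (n : ℤ) : ℤ) : ℝ) / M)) else 0 := by
        intro n hn
        rw [P_wD b hb D k hD n hn, ← hZ]
        split_ifs
        · rfl
        · simp
      rw [sum_congr rfl h4, ← sum_filter, mul_sum]
      apply sum_congr _ fun _ _ => rfl
      ext n
      rw [mem_filter]
      refine ⟨fun h => h.2, fun h => ⟨?_, h⟩⟩
      unfold SD at h
      exact (mem_filter.1 h).1
    have e4 : ‖(((1 / Z : ℝ)) : ℂ)‖ = 1 / Z := by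
      rw [Complex.norm_real, Real.norm_eq_abs, abs_of_pos (by positivity)]
    rw [e1, e3, norm_mul, mul_pow, ← mul_assoc, e4, ← mul_pow, mul_one_div_cancel hcard.ne', one_pow, one_mul]
  rw [sum_congr rfl h3, ← mul_sum] at h1
  obtain ⟨E, hE⟩ : ∃ E : ℝ, E = (En p (fun i : {n // n ∈ SD b D k} => f.eval ((i.1 : ℕ) : ℤ)) : ℝ) := ⟨_, rfl⟩
  rw [← hE] at h1 ⊢
  have hκr : (0 : ℝ) < κ' := by exact_mod_cast hκ1
  have h5 : (κ' : ℝ) * (E * M') ≤ κ' * (C * Z ^ (2 * p)) := by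
    calc (κ' : ℝ) * (E * M') = (M : ℝ) * E := by rw [hM]; push_cast; ring
      _ ≤ _ := h1
      _ ≤ Z ^ (2 * p) * (κ' * C) := mul_le_mul_of_nonneg_left h2 (by positivity)
      _ = _ := by ring
  exact le_of_mul_le_mul_left h5 hκr

lemma En_mono (h : ℕ) {ι ι' : Type} [Fintype ι] [Fintype ι'] (v : ι → ℤ) (e : ι' → ι) (he : Function.Injective e) :
    En h (fun j => v (e j)) ≤ En h v := by
  classical
  unfold En
  apply Nat.card_le_card_of_injective (fun q : {q : (Fin h → ι') × (Fin h → ι') // ∑ j, v (e (q.1 j)) = ∑ j, v (e (q.2 j))} =>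
    (⟨(fun j => e (q.1.1 j), fun j => e (q.1.2 j)), q.2⟩ : {q : (Fin h → ι) × (Fin h → ι) // ∑ j, v (q.1 j) = ∑ j, v (q.2 j)}))
  rintro ⟨⟨a, c⟩, h1⟩ ⟨⟨a', c'⟩, h2⟩ h3
  simp only [Subtype.mk.injEq, Prod.mk.injEq] at h3 ⊢
  constructor
  · funext j
    exact he (congrFun h3.1 j)
  · funext j
    exact he (congrFun h3.2 j)

lemma log_N (b B d : ℕ) (hb : 2 ≤ b) (hd : 2 ≤ d) : ∃ K₀ : ℕ, ∀ k : ℕ, K₀ ≤ k →
    (k : ℝ) ≤ Real.log ((k ^ B * b ^ (d * k) : ℕ) : ℝ) ∧ Real.log ((k ^ B * b ^ (d * k) : ℕ) : ℝ) ≤ (k : ℝ) ^ 2 := by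
  refine ⟨B + d * b + 1, fun k hk => ?_⟩
  have hk1 : (1 : ℝ) ≤ k := by exact_mod_cast (by omega : 1 ≤ k)
  have hk0 : (0 : ℝ) < k := by linarith
  have hb2 : (2 : ℝ) ≤ b := by exact_mod_cast hb
  have hd2 : (2 : ℝ) ≤ d := by exact_mod_cast hd
  have e1 : Real.log ((k ^ B * b ^ (d * k) : ℕ) : ℝ) = B * Real.log k + (d * k) * Real.log b := by
    push_cast
    rw [Real.log_mul (by positivity) (by positivity), Real.log_pow, Real.log_pow]
    push_cast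
    ring
  have h1 : 0 ≤ Real.log k := Real.log_nonneg hk1
  have h2 : Real.log k ≤ k := by
    have := Real.log_le_sub_one_of_pos hk0
    linarith
  have h3 : Real.log 2 ≤ Real.log b := Real.log_le_log (by norm_num) hb2
  have h4 : 1 / 2 ≤ Real.log 2 := by have := Real.log_two_gt_d9; linarith
  have h5 : Real.log b ≤ b := by
    have := Real.log_le_sub_one_of_pos (show (0 : ℝ) < b by linarith)
    linarith
  rw [e1]
  constructor
  · have h6 : 0 ≤ (B : ℝ) * Real.log k := by positivity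
    have h7 : (2 * k) * (1 / 2 : ℝ) ≤ (d * k) * Real.log b :=
      mul_le_mul (mul_le_mul_of_nonneg_right hd2 hk0.le) (by linarith) (by norm_num) (by positivity)
    linarith
  · have h6 : (B : ℝ) * Real.log k ≤ B * k := mul_le_mul_of_nonneg_left h2 (Nat.cast_nonneg _)
    have h7 : (d * k) * Real.log b ≤ (d * k) * b := mul_le_mul_of_nonneg_left h5 (by positivity)
    have h8 : (B : ℝ) + d * b ≤ k := by exact_mod_cast (by omega : B + d * b ≤ k)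
    nlinarith

/-- **From thin families to the values of polynomials at integers with restricted digits.** -/
theorem wrap (b : ℕ) (hb : 2 ≤ b) (d : ℕ) (hd : 2 ≤ d) (B U : ℕ) (Rg Bad : ℕ → ℤ → Prop)
    (H : ∀ h C : ℕ, 1 ≤ h → ∃ N₀ : ℕ, ∀ N : ℕ, N₀ ≤ N → ∀ (ι : Type) [Fintype ι] (v : ι → ℤ), (∀ i, Rg N (v i)) →
      (En h v : ℝ) * N ≤ Real.log N ^ C * (Fintype.card ι : ℝ) ^ (2 * h) →
      ∀ S : Finset ι, (∀ i ∈ S, Bad N (v i)) → (S.card : ℝ) ≤ Fintype.card ι / Real.log N ^ U) :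
    ∃ k₀ : ℕ, ∀ k : ℕ, k₀ ≤ k → ∀ D : ℕ → Finset ℕ, (∀ i < k, D i ⊆ range b ∧ 2 ≤ (D i).card) → ∀ f : ℤ[X], f.natDegree = d →
      ∀ P : ℕ → Prop, [DecidablePred P] → (∀ n, P n → Rg (k ^ B * b ^ (d * k)) (f.eval (n : ℤ)) ∧ Bad (k ^ B * b ^ (d * k)) (f.eval (n : ℤ))) →
      (((SD b D k).filter P).card : ℝ) ≤ (SD b D k).card / (k : ℝ) ^ U := by
  classical
  obtain ⟨p, C, hp, hC, hE⟩ := poly_energy b hb d hd
  obtain ⟨N₀, hN₀⟩ := H p (1 + B + 2 * p * U) hp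
  obtain ⟨K1, hK1⟩ := log_N b B d hb hd
  obtain ⟨K2, hK2⟩ := exists_nat_ge C
  refine ⟨K1 + K2 + N₀ + 1, fun k hk D hD f hf P _ hP => ?_⟩
  obtain ⟨hl1, hl2⟩ := hK1 k (by omega)
  obtain ⟨N, hN⟩ : ∃ N, N = k ^ B * b ^ (d * k) := ⟨_, rfl⟩
  rw [← hN] at hl1 hl2 hP
  have hk1 : 1 ≤ k := by omega
  have hk1r : (1 : ℝ) ≤ k := by exact_mod_cast hk1
  have hk0 : (0 : ℝ) < k := by linarith
  have hN0 : N₀ ≤ N := by
    rw [hN]
    calc N₀ ≤ k := by omega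
      _ ≤ d * k := Nat.le_mul_of_pos_left _ (by omega)
      _ ≤ b ^ (d * k) := (Nat.lt_pow_self (by omega)).le
      _ ≤ _ := Nat.le_mul_of_pos_left _ (by positivity)
  obtain ⟨S', hS'⟩ : ∃ S' : Finset ℕ, S' = (SD b D k).filter (fun n : ℕ => Rg N (f.eval (n : ℤ))) := ⟨_, rfl⟩
  have hmS : ∀ n, n ∈ S' ↔ n ∈ SD b D k ∧ Rg N (f.eval (n : ℤ)) := fun n => by rw [hS', mem_filter]
  have hsub : (SD b D k).filter P ⊆ S' := by
    intro n hn
    rw [mem_filter] at hn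
    exact (hmS n).2 ⟨hn.1, (hP n hn.2).1⟩
  have hc0 : (0 : ℝ) ≤ (SD b D k).card := Nat.cast_nonneg _
  rcases le_or_gt (S'.card : ℝ) ((SD b D k).card / (k : ℝ) ^ U) with hsm | hlg
  · refine le_trans ?_ hsm
    exact_mod_cast card_le_card hsub
  have hfc : Fintype.card {n // n ∈ SD b D k} = (SD b D k).card := Fintype.card_coe _
  have hfc' : Fintype.card {n // n ∈ S'} = S'.card := Fintype.card_coe _
  have hen : (En p (fun i : {n // n ∈ S'} => f.eval ((i.1 : ℕ) : ℤ)) : ℝ) * N ≤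
      Real.log N ^ (1 + B + 2 * p * U) * (Fintype.card {n // n ∈ S'} : ℝ) ^ (2 * p) := by
    have h1 := hE k D hD f hf
    have h2 : En p (fun i : {n // n ∈ S'} => f.eval ((i.1 : ℕ) : ℤ)) ≤ En p (fun i : {n // n ∈ SD b D k} => f.eval ((i.1 : ℕ) : ℤ)) := by
      apply En_mono p (fun i : {n // n ∈ SD b D k} => f.eval ((i.1 : ℕ) : ℤ)) (fun i : {n // n ∈ S'} =>
        (⟨i.1, ((hmS i.1).1 i.2).1⟩ : {n // n ∈ SD b D k}))
      intro i j hij
      simp only [Subtype.mk.injEq] at hij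
      exact Subtype.ext hij
    have h3 : ((SD b D k).card : ℝ) ≤ (k : ℝ) ^ U * S'.card := by
      rw [div_lt_iff₀ (by positivity)] at hlg
      linarith
    rw [hfc] at h1
    rw [hfc']
    obtain ⟨E, hEd⟩ : ∃ E : ℝ, E = (En p (fun i : {n // n ∈ S'} => f.eval ((i.1 : ℕ) : ℤ)) : ℝ) := ⟨_, rfl⟩
    have h2r : E ≤ (En p (fun i : {n // n ∈ SD b D k} => f.eval ((i.1 : ℕ) : ℤ)) : ℝ) := by rw [hEd]; exact_mod_cast h2
    rw [← hEd]
    have hKC : C ≤ k := hK2.trans (by exact_mod_cast (by omega : K2 ≤ k))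
    calc E * N = (k : ℝ) ^ B * (E * ((b ^ (d * k) : ℕ) : ℝ)) := by rw [hN]; push_cast; ring
      _ ≤ (k : ℝ) ^ B * (C * ((SD b D k).card : ℝ) ^ (2 * p)) := by
          apply mul_le_mul_of_nonneg_left _ (by positivity)
          exact (mul_le_mul_of_nonneg_right h2r (Nat.cast_nonneg _)).trans h1
      _ ≤ (k : ℝ) ^ B * (k * ((k : ℝ) ^ U * S'.card) ^ (2 * p)) := by
          apply mul_le_mul_of_nonneg_left _ (by positivity)
          apply mul_le_mul hKC (pow_le_pow_left₀ hc0 h3 _) (by positivity) hk0.le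
      _ = (k : ℝ) ^ (1 + B + 2 * p * U) * (S'.card : ℝ) ^ (2 * p) := by
          rw [mul_pow, ← pow_mul]
          ring
      _ ≤ _ := by
          apply mul_le_mul_of_nonneg_right _ (by positivity)
          exact pow_le_pow_left₀ hk0.le hl1 _
  have hmain := hN₀ N hN0 {n // n ∈ S'} (fun i : {n // n ∈ S'} => f.eval ((i.1 : ℕ) : ℤ)) (fun i => ((hmS i.1).1 i.2).2) hen (univ.filter (fun i : {n // n ∈ S'} => P i.1)) (by
      intro i hi
      rw [mem_filter] at hi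
      exact (hP i.1 hi.2).2)
  have hcardeq : ((SD b D k).filter P).card ≤ (univ.filter (fun i : {n // n ∈ S'} => P i.1)).card := by
    have e : (SD b D k).filter P ⊆ (univ.filter (fun i : {n // n ∈ S'} => P i.1)).image (fun i => i.1) := by
      intro n hn
      rw [mem_image]
      exact ⟨⟨n, hsub hn⟩, mem_filter.2 ⟨mem_univ _, (mem_filter.1 hn).2⟩, rfl⟩
    exact (card_le_card e).trans card_image_le
  have h4 : (((SD b D k).filter P).card : ℝ) ≤ (univ.filter (fun i : {n // n ∈ S'} => P i.1)).card := by exact_mod_cast hcardeq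
  refine h4.trans (hmain.trans ?_)
  rw [hfc']
  have h5 : (S'.card : ℝ) ≤ (SD b D k).card := by
    rw [hS']
    exact_mod_cast card_le_card (filter_subset _ _)
  have hL0 : (0 : ℝ) < Real.log N := by linarith
  apply div_le_div₀ hc0 h5 (by positivity)
  exact pow_le_pow_left₀ hk0.le hl1 _

end Pool.Agent.Run7.h536
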