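import Pool.Agent.Run7.h536.CE8

set_option autoImplicit false

/-! Almost all leading coefficients, all other coefficients, ALL weights, almost all constant terms, all initial segments;
residue classes to large moduli. -/

namespace Pool.Agent.Run7.h536.CE
open Finset Polynomial
open Pool.Agent.H373R2.T7
open Pool.Agent.TH872.Sq
open Pool.Agent.TH212.EH (En enum)
open Pool.Agent.Run7.h536.RD
open Pool.Agent.Run7.h536.QC (LI pow_lt_two SD_large)

open Classical in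
/-- **All arguments up to `X`, ALL weights**, main term in sieve form. -/
theorem cross_W (s : ℕ) (d h : Fin s → ℕ) (hd : ∀ l, 2 ≤ d l) (hh : ∀ l, 1 ≤ h l) (r B C T U : ℕ) (hr : 2 ≤ r) (hB : 1 ≤ B) :
    ∃ B0 : ℕ, ∀ E : ℕ, ∃ x₀ : ℕ, ∀ X : ℕ, x₀ ≤ X → ∀ H : Fin s → ℕ, (∀ l, H l ≤ X ^ (d l * (r - 1))) →
    (∀ l, X ^ d l ≤ H l ^ (r - 1)) → ∀ (ι : Type) [Fintype ι] (v : Fin s → ι → ℤ), (∀ l i, |v l i| ≤ B * H l) →
    (∀ l, (En (h l) (v l) : ℝ) * H l ≤ Real.log X ^ C * (Fintype.card ι : ℝ) ^ (2 * h l)) →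
    ∀ κ : Fin s → ℤ, (∀ l, κ l ≠ 0) → ∀ z : ℕ, Real.log X ^ B0 ≤ z → (z : ℝ) ≤ Real.log X ^ E →
    ∀ L : ℕ → ℝ, (∀ n, th n ≤ L n ∧ L n ≤ ArithmeticFunction.vonMangoldt n) →
    ((univ.filter (fun i : ι => ∃ f : Fin s → ℤ[X], ∃ w : ℕ → ℝ, (∀ m ∈ Icc 1 X, |w m| ≤ Real.log X ^ T) ∧
      (∀ l, (f l).natDegree ≤ d l) ∧ (∀ l, (f l).coeff (d l) = κ l * v l i) ∧
      (∀ l, ∀ m ∈ range (2 * X), |(f l).eval (m : ℤ)| ≤ B * ((H l * X ^ d l : ℕ) : ℤ)) ∧
      (∏ l, ((H l * X ^ d l : ℕ) : ℝ)) / Real.log X ^ U <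
        (((Fintype.piFinset (fun l => Icc (-((B : ℤ) * ((H l * X ^ d l : ℕ) : ℤ))) ((B : ℤ) * ((H l * X ^ d l : ℕ) : ℤ)))).filter
        (fun c : Fin s → ℤ => ∃ M : ℕ, M ≤ X ∧ (X : ℝ) / Real.log X ^ U <
          |∑ m ∈ Icc 1 M, w m * (∏ l, L ((f l).eval (m : ℤ) + c l).natAbs - ∏ l, AM z ((f l).eval (m : ℤ) + c l))|)).card : ℝ))).card : ℝ) ≤
      Fintype.card ι / Real.log X ^ U := by
  obtain ⟨x1, hx1⟩ := dyadic
  obtain ⟨Dg, hDg⟩ : ∃ Dg, Dg = ∑ l, d l := ⟨_, rfl⟩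
  obtain ⟨B0, h0⟩ := cross_all 2 le_rfl s ∅ (fun _ _ => 0) (fun l hl => absurd hl (notMem_empty l)) d h hd hh (2 * r) B C T (U + 1) (by omega) hB
  refine ⟨2 * B0, fun E => ?_⟩
  obtain ⟨k0, h1⟩ := h0 E
  obtain ⟨n1, hn1⟩ := ev_L' ((2 : ℝ) ^ Dg + k0 + 8)
  refine ⟨x1 + n1 + 3, fun X hX H hH1 hH2 ι _ v hv hE κ hκ z hz1 hz2 L hL => ?_⟩
  obtain ⟨k, hk1, hk2, hk3, hk4⟩ := hx1 X (by omega)
  have hlog := hn1 X (by omega)
  obtain ⟨ℓ, hℓ⟩ : ∃ ℓ, ℓ = Real.log X := ⟨_, rfl⟩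
  rw [← hℓ] at hk3 hk4 hlog hE hz1 hz2 ⊢
  have p1 : (0 : ℝ) < (2 : ℝ) ^ Dg := by positivity
  have p2 : (0 : ℝ) ≤ k0 := Nat.cast_nonneg _
  have hℓ8 : 8 ≤ ℓ := by linarith
  have hℓ1 : 1 ≤ ℓ := by linarith
  have hℓ0 : 0 < ℓ := by linarith
  have hkp : (0 : ℝ) < k := by linarith
  have hk0 : k0 ≤ k := by
    have : (k0 : ℝ) ≤ k := by linarith
    exact_mod_cast this
  have hXr : (0 : ℝ) < X := by exact_mod_cast (by omega : 0 < X)
  have hX1 : 1 ≤ X := by omega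
  have hd1 : ∀ l, 1 ≤ d l := fun l => by have := hd l; omega
  have hHpos : ∀ l, 1 ≤ H l := by
    intro l
    have h3 := hH2 l
    have h4 : 1 ≤ X ^ d l := Nat.one_le_pow _ _ (by omega)
    rcases Nat.eq_zero_or_pos (H l) with h0 | h0
    · rw [h0, zero_pow (by omega)] at h3
      omega
    · exact h0
  have hXk : ∀ l, X ^ d l ≤ 2 ^ (d l * k) := by
    intro l
    rw [mul_comm, pow_mul]
    exact Nat.pow_le_pow_left hk1.le _
  have hkX : ∀ l, 2 ^ (d l * k) ≤ 2 ^ d l * X ^ d l := by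
    intro l
    rw [mul_comm (d l) k, pow_mul, ← mul_pow]
    exact Nat.pow_le_pow_left hk2 _
  have hX2 : 2 ≤ X := by omega
  have key := h1 k hk0 H (fun l => by
      calc H l ≤ X ^ (d l * (r - 1)) := hH1 l
        _ = (X ^ d l) ^ (r - 1) := by rw [pow_mul]
        _ ≤ (2 ^ (d l * k)) ^ (r - 1) := Nat.pow_le_pow_left (hXk l) _
        _ ≤ _ := Nat.pow_le_pow_right (Nat.one_le_pow _ _ (by norm_num)) (by omega)) (fun l => by
      calc 2 ^ (d l * k) ≤ 2 ^ d l * X ^ d l := hkX l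
        _ ≤ X ^ d l * X ^ d l := Nat.mul_le_mul_right _ (Nat.pow_le_pow_left hX2 _)
        _ ≤ H l ^ (r - 1) * H l ^ (r - 1) := Nat.mul_le_mul (hH2 l) (hH2 l)
        _ = H l ^ (2 * (r - 1)) := by rw [two_mul, pow_add]
        _ ≤ _ := Nat.pow_le_pow_right (hHpos l) (by omega)) (fun _ => range 2) (fun i _ => ⟨subset_rfl, by simp⟩) ι v hv (fun l => by
      refine (hE l).trans ?_
      apply mul_le_mul_of_nonneg_right _ (by positivity)
      exact pow_le_pow_left₀ hℓ0.le hk3 C) κ hκ z (by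
      refine le_trans ?_ hz1
      rw [pow_mul]
      exact pow_le_pow_left₀ hkp.le hk4 B0) (hz2.trans (pow_le_pow_left₀ hℓ0.le hk3 E)) L hL
  rw [SD_two] at key
  have hfin : (Fintype.card ι : ℝ) / (k : ℝ) ^ (U + 1) ≤ Fintype.card ι / ℓ ^ U := by
    apply div_le_div_of_nonneg_left (Nat.cast_nonneg _) (by positivity)
    calc ℓ ^ U ≤ (k : ℝ) ^ U := pow_le_pow_left₀ hℓ0.le hk3 U
      _ ≤ _ := pow_le_pow_right₀ (by linarith) (by omega)
  refine le_trans ?_ (key.trans hfin)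
  apply Nat.cast_le.2
  apply card_le_card
  intro i hi
  rw [mem_filter] at hi ⊢
  obtain ⟨_, f, w, hw, hf1, hf2, hf3, hf4⟩ := hi
  have hNN : ∀ l, H l * X ^ d l ≤ H l * 2 ^ (d l * k) := fun l => Nat.mul_le_mul_left _ (hXk l)
  refine ⟨mem_univ _, f, fun m => if 1 ≤ m ∧ m ≤ X then w m else 0, hf1, hf2, ?_, ?_, ?_⟩
  · intro l m hm
    rw [mem_range] at hm
    refine (hf3 l m (mem_range.2 (by omega))).trans ?_
    have h5 : ((H l * X ^ d l : ℕ) : ℤ) ≤ ((H l * 2 ^ (d l * k) : ℕ) : ℤ) := by exact_mod_cast hNN l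
    exact mul_le_mul_of_nonneg_left h5 (Int.natCast_nonneg _)
  · intro m
    beta_reduce
    split_ifs with h
    · exact (hw m (mem_Icc.2 h)).trans (pow_le_pow_left₀ hℓ0.le hk3 T)
    · rw [abs_zero]; positivity
  · -- the numbers of the exceptional constant terms
    have e1 : (∏ l, ((H l * 2 ^ (d l * k) : ℕ) : ℝ)) / (k : ℝ) ^ (U + 1) ≤ (∏ l, ((H l * X ^ d l : ℕ) : ℝ)) / ℓ ^ U := by
      have e2 : ∏ l, ((H l * 2 ^ (d l * k) : ℕ) : ℝ) ≤ (2 : ℝ) ^ Dg * ∏ l, ((H l * X ^ d l : ℕ) : ℝ) := by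
        rw [hDg, ← prod_pow_eq_pow_sum, ← prod_mul_distrib]
        apply prod_le_prod
        · intro l _
          exact Nat.cast_nonneg _
        · intro l _
          have h6 : H l * 2 ^ (d l * k) ≤ 2 ^ d l * (H l * X ^ d l) := by
            calc H l * 2 ^ (d l * k) ≤ H l * (2 ^ d l * X ^ d l) := Nat.mul_le_mul_left _ (hkX l)
              _ = _ := by ring
          exact_mod_cast h6
      have hP0 : 0 ≤ ∏ l, ((H l * X ^ d l : ℕ) : ℝ) := prod_nonneg fun l _ => Nat.cast_nonneg _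
      calc (∏ l, ((H l * 2 ^ (d l * k) : ℕ) : ℝ)) / (k : ℝ) ^ (U + 1) ≤ ((2 : ℝ) ^ Dg * ∏ l, ((H l * X ^ d l : ℕ) : ℝ)) / ℓ ^ (U + 1) := by
            apply div_le_div₀ (by positivity) e2 (by positivity)
            exact pow_le_pow_left₀ hℓ0.le hk3 _
        _ = (∏ l, ((H l * X ^ d l : ℕ) : ℝ)) / ℓ ^ U * ((2 : ℝ) ^ Dg / ℓ) := by
            rw [pow_succ]
            field_simp
        _ ≤ (∏ l, ((H l * X ^ d l : ℕ) : ℝ)) / ℓ ^ U * 1 := by
            apply mul_le_mul_of_nonneg_left _ (by positivity)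
            rw [div_le_one hℓ0]
            linarith
        _ = _ := mul_one _
    refine lt_of_le_of_lt e1 (lt_of_lt_of_le hf4 ?_)
    apply Nat.cast_le.2
    unfold exc
    apply card_le_card
    intro c hc
    rw [mem_filter, Fintype.mem_piFinset] at hc ⊢
    obtain ⟨hc1, M, hM1, hM2⟩ := hc
    refine ⟨fun l => ?_, M + 1, ?_⟩
    · have h5 := mem_Icc.1 (hc1 l)
      have h6 : ((H l * X ^ d l : ℕ) : ℤ) ≤ ((H l * 2 ^ (d l * k) : ℕ) : ℤ) := by exact_mod_cast hNN l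
      have h7 := mul_le_mul_of_nonneg_left h6 (Int.natCast_nonneg B)
      rw [mem_Icc]
      constructor <;> linarith [h5.1, h5.2]
    · have hsum : ∑ m ∈ (range (2 ^ k)).filter (fun m => m < M + 1), (if 1 ≤ m ∧ m ≤ X then w m else 0) *
          (∏ l, MA ∅ (fun _ _ => 0) L l ((f l).eval (m : ℤ) + c l) - ∏ l, MM ∅ z l ((f l).eval (m : ℤ) + c l)) =
          ∑ m ∈ Icc 1 M, w m * (∏ l, L ((f l).eval (m : ℤ) + c l).natAbs - ∏ l, AM z ((f l).eval (m : ℤ) + c l)) := by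
        symm
        apply sum_subset_zero_on_sdiff
        · intro m hm
          rw [mem_Icc] at hm
          rw [mem_filter, mem_range]
          omega
        · intro m hm
          rw [mem_sdiff, mem_filter, mem_range, mem_Icc] at hm
          rw [if_neg (by omega), zero_mul]
        · intro m hm
          rw [mem_Icc] at hm
          rw [if_pos ⟨hm.1, by omega⟩]
          unfold MA MM
          simp only [notMem_empty, if_false, AL_natAbs L hL]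
      rw [hsum]
      have h10 : (X : ℝ) / ℓ ^ (U + 1) ≤ X / ℓ ^ U * (1 / 8) := by
        rw [pow_succ, ← div_div, div_eq_mul_one_div (X / ℓ ^ U) ℓ]
        apply mul_le_mul_of_nonneg_left _ (by positivity)
        exact one_div_le_one_div_of_le (by norm_num) hℓ8
      have h11 : ((range (2 ^ k)).card : ℝ) / (k : ℝ) ^ (U + 1) ≤ 2 * (X / ℓ ^ (U + 1)) := by
        rw [card_range]
        have h12 : ((2 ^ k : ℕ) : ℝ) ≤ 2 * X := by exact_mod_cast hk2
        calc ((2 ^ k : ℕ) : ℝ) / (k : ℝ) ^ (U + 1) ≤ (2 * X) / ℓ ^ (U + 1) := by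
              apply div_le_div₀ (by positivity) h12 (by positivity)
              exact pow_le_pow_left₀ hℓ0.le hk3 _
          _ = _ := by ring
      have h13 : 0 < (X : ℝ) / ℓ ^ U := by positivity
      linarith

open Classical in
/-- **Residue classes to large moduli**: ALL weights. -/
theorem ap_W (s : ℕ) (d : Fin s → ℕ) (hd : ∀ l, 2 ≤ d l) (r B C T U : ℕ) (hr : 2 ≤ r) (hB : 1 ≤ B) :
    ∃ B0 : ℕ, ∀ E : ℕ, ∃ x₀ : ℕ, ∀ X : ℕ, x₀ ≤ X → ∀ Q : ℕ, Q ≤ X ^ (r - 1) → X ≤ Q ^ (r - 1) →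
    ∀ A : Finset ℕ, A ⊆ Icc 1 Q → (Q : ℝ) ≤ Real.log X ^ C * A.card →
    ∀ κ : Fin s → ℤ, (∀ l, κ l ≠ 0) → ∀ z : ℕ, Real.log X ^ B0 ≤ z → (z : ℝ) ≤ Real.log X ^ E →
    ∀ L : ℕ → ℝ, (∀ n, th n ≤ L n ∧ L n ≤ ArithmeticFunction.vonMangoldt n) →
    ((A.filter (fun q : ℕ => ∃ F : Fin s → ℤ[X], ∃ ρ : ℤ, ∃ w : ℕ → ℝ, (∀ m ∈ Icc 1 X, |w m| ≤ Real.log X ^ T) ∧ (∀ l, (F l).natDegree ≤ d l) ∧ (∀ l, (F l).coeff (d l) = κ l) ∧
      (∀ l, ∀ n ∈ range (2 * X), |(F l).eval (q * (n : ℤ) + ρ)| ≤ B * (((Q * X) ^ d l : ℕ) : ℤ)) ∧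
      (∏ l, (((Q * X) ^ d l : ℕ) : ℝ)) / Real.log X ^ U <
        (((Fintype.piFinset (fun l => Icc (-((B : ℤ) * (((Q * X) ^ d l : ℕ) : ℤ))) ((B : ℤ) * (((Q * X) ^ d l : ℕ) : ℤ)))).filter
        (fun c : Fin s → ℤ => ∃ M : ℕ, M ≤ X ∧ (X : ℝ) / Real.log X ^ U <
          |∑ n ∈ Icc 1 M, w n * (∏ l, L ((F l).eval (q * (n : ℤ) + ρ) + c l).natAbs -
            ∏ l, AM z ((F l).eval (q * (n : ℤ) + ρ) + c l))|)).card : ℝ))).card : ℝ) ≤
      A.card / Real.log X ^ U := by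
  choose p C' n1 hp hen using fun l => energy_moduli (d l) C (hd l)
  obtain ⟨B0, h0⟩ := cross_W s d p hd hp r B (∑ l, C' l) T U hr hB
  refine ⟨B0, fun E => ?_⟩
  obtain ⟨x0, h1⟩ := h0 E
  obtain ⟨n2, hn2⟩ := ev_L' 1
  refine ⟨x0 + ∑ l, n1 l + n2, fun X hX Q hQ1 hQ2 A hA hAQ κ hκ z hz1 hz2 L hL => ?_⟩
  have hl1 := hn2 X (by omega)
  have hs1 : ∀ l, n1 l ≤ X := by
    intro l
    have : n1 l ≤ ∑ l, n1 l := single_le_sum (f := n1) (fun _ _ => Nat.zero_le _) (mem_univ l)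
    omega
  have hmul : ∀ l, Q ^ d l * X ^ d l = (Q * X) ^ d l := fun l => (mul_pow Q X (d l)).symm
  have hA1 : Fintype.card {n : ℕ // n ∈ A} = A.card := Fintype.card_coe _
  have key := h1 X (by omega) (fun l => Q ^ d l) (fun l => by
      rw [mul_comm (d l), pow_mul]
      exact Nat.pow_le_pow_left hQ1 _) (fun l => by
      rw [← pow_mul, mul_comm (d l), pow_mul]
      exact Nat.pow_le_pow_left hQ2 _) {n : ℕ // n ∈ A} (fun l i => ((i.1 : ℕ) : ℤ) ^ d l) (fun l i => by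
      have h3 := mem_Icc.1 (hA i.2)
      rw [abs_of_nonneg (by positivity)]
      have h4 : i.1 ^ d l ≤ B * Q ^ d l := (Nat.pow_le_pow_left h3.2 _).trans (Nat.le_mul_of_pos_left _ hB)
      exact_mod_cast h4) (fun l => by
      refine (hen l X (hs1 l) Q A hA hAQ).trans ?_
      apply mul_le_mul_of_nonneg_right _ (by positivity)
      apply pow_le_pow_right₀ hl1
      exact single_le_sum (f := C') (fun _ _ => Nat.zero_le _) (mem_univ l)) κ hκ z hz1 hz2 L hL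
  simp only [hmul, hA1] at key
  refine le_trans ?_ key
  apply Nat.cast_le.2
  have hsub : ∀ P : ℕ → Prop, ∀ P' : {n : ℕ // n ∈ A} → Prop, (∀ i, P i.1 → P' i) → (A.filter P).card ≤ (univ.filter P').card := by
    intro P P' hPP
    have e : A.filter P ⊆ (univ.filter P').image (fun i => i.1) := by
      intro n hn
      rw [mem_filter] at hn
      rw [mem_image]
      exact ⟨⟨n, hn.1⟩, mem_filter.2 ⟨mem_univ _, hPP ⟨n, hn.1⟩ hn.2⟩, rfl⟩
    exact (card_le_card e).trans card_image_le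
  apply hsub
  rintro ⟨q, hq⟩ ⟨F, ρ, w, hw, hF1, hF2, hF3, hF4⟩
  have hlin : ∀ l, ((F l).comp (Polynomial.C (q : ℤ) * Polynomial.X + Polynomial.C ρ)).natDegree ≤ d l := by
    intro l
    refine natDegree_comp_le.trans ?_
    calc (F l).natDegree * (Polynomial.C (q : ℤ) * Polynomial.X + Polynomial.C ρ).natDegree ≤ d l * 1 := by
          apply Nat.mul_le_mul (hF1 l)
          exact natDegree_linear_le
      _ = d l := mul_one _
  have heval : ∀ l (n : ℤ), ((F l).comp (Polynomial.C (q : ℤ) * Polynomial.X + Polynomial.C ρ)).eval n = (F l).eval (q * n + ρ) := by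
    intro l n
    rw [eval_comp, eval_add, eval_mul, eval_C, eval_X, eval_C]
  refine ⟨fun l => (F l).comp (Polynomial.C (q : ℤ) * Polynomial.X + Polynomial.C ρ), w, hw, hlin, ?_, ?_, ?_⟩
  · intro l
    have h3 : ((F l).comp (Polynomial.C (q : ℤ) * Polynomial.X + Polynomial.C ρ)).coeff (d l) = κ l * (q : ℤ) ^ d l := by
      have hdeg : (F l).natDegree = d l := by
        apply le_antisymm (hF1 l)
        apply le_natDegree_of_ne_zero
        rw [hF2 l]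
        exact hκ l
      have hq0 : (q : ℤ) ≠ 0 := by
        have := (mem_Icc.1 (hA hq)).1
        omega
      have hn1 : (Polynomial.C (q : ℤ) * Polynomial.X + Polynomial.C ρ).natDegree = 1 := natDegree_linear hq0
      have h4 := coeff_comp_degree_mul_degree (p := F l) (q := Polynomial.C (q : ℤ) * Polynomial.X + Polynomial.C ρ) (by rw [hn1]; norm_num)
      rw [hn1, mul_one, hdeg, leadingCoeff_linear hq0, leadingCoeff, hdeg, hF2 l] at h4
      exact h4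
    exact h3
  · intro l m hm
    rw [heval]
    exact hF3 l m hm
  · refine lt_of_lt_of_le hF4 (le_of_eq ?_)
    congr 2
    apply filter_congr
    intro c _
    simp only [heval]

end Pool.Agent.Run7.h536.CE
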