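import Pool.Agent.Run7.h536.TB2
import Pool.Agent.Run7.h536.PW3

set_option autoImplicit false

/-! Thin families are closed under bilinear combinations with arbitrary perturbations. -/

namespace Pool.Agent.Run7.h536.TB
open Finset
open Pool.Agent.TH212.EH (En)
open Pool.Agent.Run7.h536 (En_mono)

lemma df_le {ι : Type} [Fintype ι] (h : ℕ) (v : ι → ℤ) (V : ℕ) (hv : ∀ i, |v i| ≤ V) (x : (Fin h → ι) × (Fin h → ι)) :
    |df h v x| ≤ ((2 * h * V : ℕ) : ℤ) := by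
  have key : ∀ a : Fin h → ι, |∑ j, v (a j)| ≤ h * V := by
    intro a
    refine (abs_sum_le_sum_abs _ _).trans ((sum_le_sum fun j _ => hv (a j)).trans ?_)
    rw [sum_const, card_univ, Fintype.card_fin, nsmul_eq_mul]
  have h1 := abs_le.1 (key x.1)
  have h2 := abs_le.1 (key x.2)
  unfold df
  rw [abs_le]
  push_cast
  constructor <;> nlinarith [h1.1, h1.2, h2.1, h2.2]

lemma En_empty {ι : Type} [Fintype ι] [IsEmpty ι] (p : ℕ) (hp : 1 ≤ p) (v : ι → ℤ) : En p v = 0 := by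
  unfold En
  have : IsEmpty {q : (Fin p → ι) × (Fin p → ι) // ∑ j, v (q.1 j) = ∑ j, v (q.2 j)} := by
    refine ⟨fun q => ?_⟩
    exact IsEmpty.false (q.1.1 ⟨0, by omega⟩)
  exact Nat.card_of_isEmpty

/-- the energy of a bilinear combination, one order of the scales -/
theorem bilin (h h' r B : ℕ) (hh : 1 ≤ h) (hh' : 1 ≤ h') (hr : 2 ≤ r) : ∃ C : ℝ, 1 ≤ C ∧ ∀ X Y : ℕ, 1 ≤ Y → Y ≤ X →
    X ≤ Y ^ (r - 1) → ∀ (ι ι' : Type) [Fintype ι] [Fintype ι'] (v : ι → ℤ) (v' : ι' → ℤ), (∀ i, |v i| ≤ B * X) →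
    (∀ j, |v' j| ≤ B * Y) → ∀ K K' : ℝ, 1 ≤ K → 1 ≤ K' → (En h v : ℝ) * X ≤ K * (Fintype.card ι : ℝ) ^ (2 * h) →
    (En h' v' : ℝ) * Y ≤ K' * (Fintype.card ι' : ℝ) ^ (2 * h') → ∀ (F : ι → ℤ) (G : ι' → ℤ) (κ : ℤ), κ ≠ 0 →
    (En (2 * h * h' * r) (fun p : ι × ι' => κ * v p.1 * v' p.2 + F p.1 + G p.2) : ℝ) * ((X * Y : ℕ) : ℝ) ≤
      C * (K * K') ^ r * (1 + Real.log ((X * Y : ℕ) : ℝ)) ^ 4 * (Fintype.card (ι × ι') : ℝ) ^ (2 * (2 * h * h' * r)) := by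
  classical
  obtain ⟨c0, hc0⟩ : ∃ c0 : ℕ, c0 = (2 * h * (B + 1)) * (2 * h' * (B + 1)) := ⟨_, rfl⟩
  have hc01 : 1 ≤ c0 := by rw [hc0]; exact Nat.mul_pos (by positivity) (by positivity)
  have hc0r : (1 : ℝ) ≤ c0 := by exact_mod_cast hc01
  have hlc0 : 0 ≤ Real.log c0 := Real.log_nonneg hc0r
  obtain ⟨C1, hC1⟩ : ∃ C1 : ℝ, C1 = 4 * ((2 * h' * (B + 1) : ℕ) : ℝ) ^ 2 + 16 * (c0 * (1 + Real.log c0) ^ 4) := ⟨_, rfl⟩
  have hC10 : 0 ≤ C1 := by rw [hC1]; positivity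
  refine ⟨2 ^ (r - 1) * (1 + C1), ?_, fun X Y hY1 hYX hXY ι ι' _ _ v v' hv hv' K K' hK hK' hE hE' F G κ hκ => ?_⟩
  · have : (1 : ℝ) ≤ 2 ^ (r - 1) := one_le_pow₀ (by norm_num)
    nlinarith
  have hX1 : 1 ≤ X := hY1.trans hYX
  have hKK : 1 ≤ K * K' := one_le_mul_of_one_le_of_one_le hK hK'
  obtain ⟨N, hN⟩ : ∃ N, N = X * Y := ⟨_, rfl⟩
  have hN1 : 1 ≤ N := by rw [hN]; exact Nat.mul_pos hX1 hY1
  have hN1r : (1 : ℝ) ≤ N := by exact_mod_cast hN1
  have hlN : 0 ≤ Real.log N := Real.log_nonneg hN1r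
  rw [← hN]
  obtain ⟨ell, hell⟩ : ∃ ell : ℝ, ell = (1 + Real.log N) ^ 4 := ⟨_, rfl⟩
  have hell1 : 1 ≤ ell := by rw [hell]; exact one_le_pow₀ (by linarith)
  rw [← hell]
  have hp1 : 1 ≤ 2 * h * h' * r := by
    have : 0 < 2 * h * h' * r := by positivity
    omega
  rcases isEmpty_or_nonempty ι with hι | hι
  · have : IsEmpty (ι × ι') := inferInstance
    rw [En_empty _ hp1, Nat.cast_zero, zero_mul]
    positivity
  rcases isEmpty_or_nonempty ι' with hι' | hι'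
  · have : IsEmpty (ι × ι') := inferInstance
    rw [En_empty _ hp1, Nat.cast_zero, zero_mul]
    positivity
  have hmain := energy_ineq h h' r hh hh' hr v v' F G κ hκ (2 * h * (B + 1) * X) (2 * h' * (B + 1) * Y) (by
    intro x
    refine (df_le h v (B * X) (by push_cast; exact hv) x).trans ?_
    have : 2 * h * (B * X) ≤ 2 * h * (B + 1) * X := by nlinarith
    exact_mod_cast this) (by
    intro y
    refine (df_le h' v' (B * Y) (by push_cast; exact hv') y).trans ?_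
    have : 2 * h' * (B * Y) ≤ 2 * h' * (B + 1) * Y := by nlinarith
    exact_mod_cast this)
  have hQ : ((QQ (2 * h * (B + 1) * X) (2 * h' * (B + 1) * Y)).card : ℝ) ≤ C1 * (N * ell) := by
    have q1 : 0 < 2 * h * (B + 1) * X := Nat.mul_pos (by positivity) (by omega)
    have q2 : 0 < 2 * h' * (B + 1) * Y := Nat.mul_pos (by positivity) (by omega)
    refine (QQ_card _ _ q1 q2).trans ?_
    have e1 : (2 * h * (B + 1) * X) * (2 * h' * (B + 1) * Y) = c0 * N := by rw [hc0, hN]; ring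
    rw [e1]
    have e2 : Real.log ((c0 * N : ℕ) : ℝ) = Real.log c0 + Real.log N := by
      push_cast
      rw [Real.log_mul (by positivity) (by positivity)]
    rw [e2]
    have e3 : (1 + (Real.log c0 + Real.log N)) ^ 4 ≤ (1 + Real.log c0) ^ 4 * ell := by
      rw [hell, ← mul_pow]
      apply pow_le_pow_left₀ (by positivity)
      nlinarith [mul_nonneg hlc0 hlN]
    have e4 : ((2 * h' * (B + 1) * Y : ℕ) : ℝ) ^ 2 ≤ ((2 * h' * (B + 1) : ℕ) : ℝ) ^ 2 * N := by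
      have e5 : ((2 * h' * (B + 1) * Y : ℕ) : ℝ) ^ 2 = ((2 * h' * (B + 1) : ℕ) : ℝ) ^ 2 * ((Y * Y : ℕ) : ℝ) := by
        push_cast
        ring
      rw [e5]
      apply mul_le_mul_of_nonneg_left _ (by positivity)
      rw [hN]
      exact_mod_cast Nat.mul_le_mul_right Y hYX
    calc 4 * ((2 * h' * (B + 1) * Y : ℕ) : ℝ) ^ 2 + 16 * (((c0 * N : ℕ) : ℝ) * (1 + (Real.log c0 + Real.log N)) ^ 4) ≤
        4 * (((2 * h' * (B + 1) : ℕ) : ℝ) ^ 2 * N) + 16 * (((c0 * N : ℕ) : ℝ) * ((1 + Real.log c0) ^ 4 * ell)) := by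
          apply add_le_add
          · exact mul_le_mul_of_nonneg_left e4 (by norm_num)
          · apply mul_le_mul_of_nonneg_left _ (by norm_num)
            exact mul_le_mul_of_nonneg_left e3 (Nat.cast_nonneg _)
      _ ≤ 4 * (((2 * h' * (B + 1) : ℕ) : ℝ) ^ 2 * (N * ell)) + 16 * (((c0 * N : ℕ) : ℝ) * ((1 + Real.log c0) ^ 4 * ell)) := by
          apply add_le_add _ le_rfl
          apply mul_le_mul_of_nonneg_left _ (by norm_num)
          apply mul_le_mul_of_nonneg_left _ (by positivity)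
          nlinarith
      _ = _ := by rw [hC1]; push_cast; ring
  -- names
  obtain ⟨a, ha⟩ : ∃ a : ℝ, a = (Fintype.card ι : ℝ) := ⟨_, rfl⟩
  obtain ⟨a', ha'⟩ : ∃ a' : ℝ, a' = (Fintype.card ι' : ℝ) := ⟨_, rfl⟩
  have ha0 : 0 ≤ a := by rw [ha]; exact Nat.cast_nonneg _
  have ha'0 : 0 ≤ a' := by rw [ha']; exact Nat.cast_nonneg _
  obtain ⟨E, hEd⟩ : ∃ E : ℝ, E = (En h v : ℝ) := ⟨_, rfl⟩
  obtain ⟨E', hE'd⟩ : ∃ E' : ℝ, E' = (En h' v' : ℝ) := ⟨_, rfl⟩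
  have hE0 : 0 ≤ E := by rw [hEd]; exact Nat.cast_nonneg _
  have hE'0 : 0 ≤ E' := by rw [hE'd]; exact Nat.cast_nonneg _
  obtain ⟨Q, hQd⟩ : ∃ Q : ℝ, Q = ((QQ (2 * h * (B + 1) * X) (2 * h' * (B + 1) * Y)).card : ℝ) := ⟨_, rfl⟩
  have hQ0 : 0 ≤ Q := by rw [hQd]; exact Nat.cast_nonneg _
  rw [← ha, ← ha', ← hEd, ← hE'd, ← hQd] at hmain
  rw [← ha, ← hEd] at hE
  rw [← ha', ← hE'd] at hE'
  rw [← hQd] at hQ
  rw [Fintype.card_prod, Nat.cast_mul, ← ha, ← ha']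
  obtain ⟨P, hP⟩ : ∃ P : ℝ, P = a ^ (2 * h) := ⟨_, rfl⟩
  obtain ⟨P', hP'⟩ : ∃ P' : ℝ, P' = a' ^ (2 * h') := ⟨_, rfl⟩
  have hP0 : 0 ≤ P := by rw [hP]; positivity
  have hP'0 : 0 ≤ P' := by rw [hP']; positivity
  rw [← hP, ← hP'] at hmain
  rw [← hP] at hE
  rw [← hP'] at hE'
  have hXr : (0 : ℝ) < X := by exact_mod_cast hX1
  have hYr : (0 : ℝ) < Y := by exact_mod_cast hY1
  have hNr : (0 : ℝ) < N := by linarith
  have hNXY : (N : ℝ) = X * Y := by rw [hN]; push_cast; ring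
  have hNY : (N : ℝ) ≤ (Y : ℝ) ^ r := by
    have : X * Y ≤ Y ^ r := by
      calc X * Y ≤ Y ^ (r - 1) * Y := Nat.mul_le_mul_right _ hXY
        _ = Y ^ r := by rw [← pow_succ]; congr 1; omega
    rw [hN]
    exact_mod_cast this
  have t1 : (P * E') ^ r * N ≤ (P * P') ^ r * (K * K') ^ r := by
    calc (P * E') ^ r * N ≤ (P * E') ^ r * (Y : ℝ) ^ r := mul_le_mul_of_nonneg_left hNY (by positivity)
      _ = P ^ r * (E' * Y) ^ r := by rw [mul_pow, mul_pow]; ring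
      _ ≤ P ^ r * (K' * P') ^ r := by
          apply mul_le_mul_of_nonneg_left _ (by positivity)
          exact pow_le_pow_left₀ (by positivity) hE' r
      _ ≤ P ^ r * ((K * K') * P') ^ r := by
          apply mul_le_mul_of_nonneg_left _ (by positivity)
          apply pow_le_pow_left₀ (by positivity)
          apply mul_le_mul_of_nonneg_right _ hP'0
          nlinarith
      _ = _ := by rw [mul_pow, mul_pow P]; ring
  have t2 : (P * P') ^ (r - 2) * ((E * E') ^ 2 * Q) * N ≤ (P * P') ^ r * (K * K') ^ r * (C1 * ell) := by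
    have e1 : E * E' * N ≤ (K * K') * (P * P') := by
      rw [hNXY]
      calc E * E' * (X * Y) = (E * X) * (E' * Y) := by ring
        _ ≤ (K * P) * (K' * P') := mul_le_mul hE hE' (by positivity) (by positivity)
        _ = _ := by ring
    have e2 : (E * E') ^ 2 * Q * N ≤ ((K * K') * (P * P')) ^ 2 * (C1 * ell) := by
      calc (E * E') ^ 2 * Q * N ≤ (E * E') ^ 2 * (C1 * (N * ell)) * N := by
            apply mul_le_mul_of_nonneg_right _ hNr.le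
            exact mul_le_mul_of_nonneg_left hQ (by positivity)
        _ = (E * E' * N) ^ 2 * (C1 * ell) := by ring
        _ ≤ _ := by
            apply mul_le_mul_of_nonneg_right _ (by positivity)
            exact pow_le_pow_left₀ (by positivity) e1 2
    calc (P * P') ^ (r - 2) * ((E * E') ^ 2 * Q) * N = (P * P') ^ (r - 2) * ((E * E') ^ 2 * Q * N) := by ring
      _ ≤ (P * P') ^ (r - 2) * (((K * K') * (P * P')) ^ 2 * (C1 * ell)) := mul_le_mul_of_nonneg_left e2 (by positivity)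
      _ = ((P * P') ^ (r - 2) * (P * P') ^ 2) * ((K * K') ^ 2 * (C1 * ell)) := by rw [mul_pow (K * K')]; ring
      _ = (P * P') ^ r * ((K * K') ^ 2 * (C1 * ell)) := by rw [← pow_add]; congr 2; omega
      _ ≤ (P * P') ^ r * ((K * K') ^ r * (C1 * ell)) := by
          apply mul_le_mul_of_nonneg_left _ (by positivity)
          apply mul_le_mul_of_nonneg_right _ (by positivity)
          exact pow_le_pow_right₀ hKK hr
      _ = _ := by ring
  obtain ⟨K0, hK0⟩ : ∃ K0 : ℝ, K0 = a' ^ ((2 * h - 1) * (2 * h')) * a ^ (2 * h * (2 * h' - 1)) := ⟨_, rfl⟩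
  have hK00 : 0 ≤ K0 := by rw [hK0]; positivity
  rw [← hK0] at hmain
  have hall : (K0 * (P * P')) ^ r = (a * a') ^ (2 * (2 * h * h' * r)) := by
    have e1 : K0 * (P * P') = (a * a') ^ (2 * h * (2 * h')) := by
      rw [hK0, hP, hP', mul_pow]
      have s1 : a ^ (2 * h * (2 * h')) = a ^ (2 * h * (2 * h' - 1)) * a ^ (2 * h) := by
        rw [← pow_add]
        congr 1
        have : 2 * h' = (2 * h' - 1) + 1 := by omega
        nth_rewrite 1 [this]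
        ring
      have s2 : a' ^ (2 * h * (2 * h')) = a' ^ ((2 * h - 1) * (2 * h')) * a' ^ (2 * h') := by
        rw [← pow_add]
        congr 1
        have : 2 * h = (2 * h - 1) + 1 := by omega
        nth_rewrite 1 [this]
        ring
      rw [s1, s2]
      ring
    rw [e1, ← pow_mul]
    congr 1
    ring
  calc (En (2 * h * h' * r) (fun p : ι × ι' => κ * v p.1 * v' p.2 + F p.1 + G p.2) : ℝ) * N ≤
      (K0 ^ r * (2 ^ (r - 1) * ((P * E') ^ r + (P * P') ^ (r - 2) * ((E * E') ^ 2 * Q)))) * N :=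
        mul_le_mul_of_nonneg_right hmain hNr.le
    _ = K0 ^ r * 2 ^ (r - 1) * ((P * E') ^ r * N + (P * P') ^ (r - 2) * ((E * E') ^ 2 * Q) * N) := by ring
    _ ≤ K0 ^ r * 2 ^ (r - 1) * ((P * P') ^ r * (K * K') ^ r + (P * P') ^ r * (K * K') ^ r * (C1 * ell)) :=
        mul_le_mul_of_nonneg_left (add_le_add t1 t2) (by positivity)
    _ ≤ K0 ^ r * 2 ^ (r - 1) * ((P * P') ^ r * (K * K') ^ r * ell + (P * P') ^ r * (K * K') ^ r * (C1 * ell)) := by
        apply mul_le_mul_of_nonneg_left _ (by positivity)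
        apply add_le_add _ le_rfl
        apply le_mul_of_one_le_right (by positivity) hell1
    _ = 2 ^ (r - 1) * (1 + C1) * (K * K') ^ r * ell * (K0 * (P * P')) ^ r := by rw [mul_pow K0]; ring
    _ = _ := by rw [hall]

/-- **Closure.** Bilinear combinations, with arbitrary perturbations, of two thin families are thin. -/
theorem closure (h h' r B C : ℕ) (hh : 1 ≤ h) (hh' : 1 ≤ h') (hr : 2 ≤ r) : ∃ p C' N₀ : ℕ, 1 ≤ p ∧ ∀ X Y : ℕ, N₀ ≤ X * Y →
    X ≤ Y ^ (r - 1) → Y ≤ X ^ (r - 1) → ∀ (ι ι' : Type) [Fintype ι] [Fintype ι'] (v : ι → ℤ) (v' : ι' → ℤ),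
    (∀ i, |v i| ≤ B * X) → (∀ j, |v' j| ≤ B * Y) →
    (En h v : ℝ) * X ≤ Real.log ((X * Y : ℕ) : ℝ) ^ C * (Fintype.card ι : ℝ) ^ (2 * h) →
    (En h' v' : ℝ) * Y ≤ Real.log ((X * Y : ℕ) : ℝ) ^ C * (Fintype.card ι' : ℝ) ^ (2 * h') →
    ∀ (F : ι → ℤ) (G : ι' → ℤ) (κ : ℤ), κ ≠ 0 →
    (En p (fun q : ι × ι' => κ * v q.1 * v' q.2 + F q.1 + G q.2) : ℝ) * ((X * Y : ℕ) : ℝ) ≤
      Real.log ((X * Y : ℕ) : ℝ) ^ C' * (Fintype.card (ι × ι') : ℝ) ^ (2 * p) := by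
  classical
  obtain ⟨C1, hC1, h1⟩ := bilin h h' r B hh hh' hr
  obtain ⟨C2, hC2, h2⟩ := bilin h' h r B hh' hh hr
  obtain ⟨N1, hN1⟩ := Pool.Agent.H373R2.T7.ev_L' (16 * (C1 + C2) + 1)
  refine ⟨2 * h * h' * r, 2 * C * r + 5, N1 + 1, ?_, fun X Y hN hXY hYX ι ι' _ _ v v' hv hv' hE hE' F G κ hκ => ?_⟩
  · have : 0 < 2 * h * h' * r := by positivity
    omega
  have hL := hN1 (X * Y) (by omega)
  obtain ⟨L, hLd⟩ : ∃ L, L = Real.log ((X * Y : ℕ) : ℝ) := ⟨_, rfl⟩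
  rw [← hLd] at hL hE hE' ⊢
  have hL1 : 1 ≤ L := by linarith
  have hLC : 1 ≤ L ^ C := one_le_pow₀ hL1
  have hX1 : 1 ≤ X := by
    rcases Nat.eq_zero_or_pos X with h | h
    · rw [h, zero_mul] at hN; omega
    · exact h
  have hY1 : 1 ≤ Y := by
    rcases Nat.eq_zero_or_pos Y with h | h
    · rw [h, mul_zero] at hN; omega
    · exact h
  have hfin : ∀ C3 : ℝ, 1 ≤ C3 → C3 ≤ C1 + C2 → C3 * (L ^ C * L ^ C) ^ r * (1 + L) ^ 4 ≤ L ^ (2 * C * r + 5) := by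
    intro C3 hC3 hC32
    have e1 : (1 + L) ^ 4 ≤ 16 * L ^ 4 := by
      calc (1 + L) ^ 4 ≤ (2 * L) ^ 4 := pow_le_pow_left₀ (by linarith) (by linarith) 4
        _ = _ := by ring
    calc C3 * (L ^ C * L ^ C) ^ r * (1 + L) ^ 4 ≤ C3 * (L ^ C * L ^ C) ^ r * (16 * L ^ 4) :=
          mul_le_mul_of_nonneg_left e1 (by positivity)
      _ = (16 * C3) * (L ^ (2 * C * r) * L ^ 4) := by
          rw [← pow_add, ← pow_mul]
          ring
      _ ≤ L * (L ^ (2 * C * r) * L ^ 4) := by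
          apply mul_le_mul_of_nonneg_right _ (by positivity)
          linarith
      _ = _ := by ring
  have hcard : (0 : ℝ) ≤ (Fintype.card (ι × ι') : ℝ) ^ (2 * (2 * h * h' * r)) := by positivity
  rcases le_total Y X with hle | hle
  · have h3 := h1 X Y hY1 hle hXY ι ι' v v' hv hv' (L ^ C) (L ^ C) hLC hLC hE hE' F G κ hκ
    rw [← hLd] at h3
    exact h3.trans (mul_le_mul_of_nonneg_right (hfin C1 hC1 (by linarith)) hcard)
  · have h3 := h2 Y X hX1 hle hYX ι' ι v' v hv' hv (L ^ C) (L ^ C) hLC hLC hE' hE G F κ hκ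
    have e1 : 2 * h' * h * r = 2 * h * h' * r := by ring
    rw [mul_comm Y X, ← hLd, e1] at h3
    have e2 : En (2 * h * h' * r) (fun q : ι × ι' => κ * v q.1 * v' q.2 + F q.1 + G q.2) ≤
        En (2 * h * h' * r) (fun q : ι' × ι => κ * v' q.1 * v q.2 + G q.1 + F q.2) := by
      have e3 := En_mono (2 * h * h' * r) (fun q : ι' × ι => κ * v' q.1 * v q.2 + G q.1 + F q.2) (Equiv.prodComm ι ι')
        (Equiv.prodComm ι ι').injective
      refine le_trans (le_of_eq ?_) e3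
      congr 1
      funext q
      simp only [Equiv.prodComm_apply, Prod.fst_swap, Prod.snd_swap]
      ring
    have e4 : Fintype.card (ι' × ι) = Fintype.card (ι × ι') := by
      rw [Fintype.card_prod, Fintype.card_prod, mul_comm]
    rw [e4] at h3
    have e5 : (En (2 * h * h' * r) (fun q : ι × ι' => κ * v q.1 * v' q.2 + F q.1 + G q.2) : ℝ) ≤
        En (2 * h * h' * r) (fun q : ι' × ι => κ * v' q.1 * v q.2 + G q.1 + F q.2) := by exact_mod_cast e2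
    refine (mul_le_mul_of_nonneg_right e5 (Nat.cast_nonneg _)).trans (h3.trans ?_)
    exact mul_le_mul_of_nonneg_right (hfin C2 hC2 (by linarith)) hcard

/-- members outside a given range are ignored -/
theorem sub_transfer (h C U : ℕ) (Rg Bad : ℕ → ℤ → Prop)
    (H : ∃ N₀ : ℕ, ∀ N : ℕ, N₀ ≤ N → ∀ (ι : Type) [Fintype ι] (v : ι → ℤ), (∀ i, Rg N (v i)) →
      (En h v : ℝ) * N ≤ Real.log N ^ (C + 2 * h * U) * (Fintype.card ι : ℝ) ^ (2 * h) →
      ∀ S : Finset ι, (∀ i ∈ S, Bad N (v i)) → (S.card : ℝ) ≤ Fintype.card ι / Real.log N ^ U) :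
    ∃ N₀ : ℕ, ∀ N : ℕ, N₀ ≤ N → ∀ (ι : Type) [Fintype ι] (v : ι → ℤ),
      (En h v : ℝ) * N ≤ Real.log N ^ C * (Fintype.card ι : ℝ) ^ (2 * h) →
      ∀ S : Finset ι, (∀ i ∈ S, Rg N (v i) ∧ Bad N (v i)) → (S.card : ℝ) ≤ Fintype.card ι / Real.log N ^ U := by
  classical
  obtain ⟨N₀, hN₀⟩ := H
  obtain ⟨N1, hN1⟩ := Pool.Agent.H373R2.T7.ev_L' 1
  refine ⟨N₀ + N1, fun N hN ι _ v hE S hS => ?_⟩
  have hL := hN1 N (by omega)
  have hL0 : 0 < Real.log (N : ℝ) := by linarith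
  obtain ⟨S', hS'⟩ : ∃ S' : Finset ι, S' = univ.filter (fun i => Rg N (v i)) := ⟨_, rfl⟩
  have hmS : ∀ i, i ∈ S' ↔ Rg N (v i) := fun i => by rw [hS', mem_filter]; exact ⟨fun h => h.2, fun h => ⟨mem_univ _, h⟩⟩
  have hsub : S ⊆ S' := fun i hi => (hmS i).2 (hS i hi).1
  have hc0 : (0 : ℝ) ≤ Fintype.card ι := Nat.cast_nonneg _
  rcases le_or_gt (S'.card : ℝ) (Fintype.card ι / Real.log N ^ U) with hsm | hlg
  · refine le_trans ?_ hsm
    exact_mod_cast card_le_card hsub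
  have hfc' : Fintype.card {i // i ∈ S'} = S'.card := Fintype.card_coe _
  have hen : (En h (fun i : {i // i ∈ S'} => v i.1) : ℝ) * N ≤
      Real.log N ^ (C + 2 * h * U) * (Fintype.card {i // i ∈ S'} : ℝ) ^ (2 * h) := by
    have h2 : En h (fun i : {i // i ∈ S'} => v i.1) ≤ En h v := En_mono h v (fun i : {i // i ∈ S'} => i.1) Subtype.val_injective
    have h3 : (Fintype.card ι : ℝ) ≤ Real.log N ^ U * S'.card := by
      rw [div_lt_iff₀ (by positivity)] at hlg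
      linarith
    rw [hfc']
    have h2r : (En h (fun i : {i // i ∈ S'} => v i.1) : ℝ) ≤ (En h v : ℝ) := by exact_mod_cast h2
    calc (En h (fun i : {i // i ∈ S'} => v i.1) : ℝ) * N ≤ (En h v : ℝ) * N := mul_le_mul_of_nonneg_right h2r (Nat.cast_nonneg _)
      _ ≤ _ := hE
      _ ≤ Real.log N ^ C * (Real.log N ^ U * S'.card) ^ (2 * h) := by
          apply mul_le_mul_of_nonneg_left _ (by positivity)
          exact pow_le_pow_left₀ hc0 h3 _
      _ = _ := by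
          rw [mul_pow, ← pow_mul, pow_add]
          ring
  have hmain := hN₀ N (by omega) {i // i ∈ S'} (fun i => v i.1) (fun i => (hmS i.1).1 i.2) hen
    (univ.filter (fun i : {i // i ∈ S'} => i.1 ∈ S)) (by
      intro i hi
      rw [mem_filter] at hi
      exact (hS i.1 hi.2).2)
  have hcardeq : S.card ≤ (univ.filter (fun i : {i // i ∈ S'} => i.1 ∈ S)).card := by
    have e : S ⊆ (univ.filter (fun i : {i // i ∈ S'} => i.1 ∈ S)).image (fun i => i.1) := by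
      intro n hn
      rw [mem_image]
      exact ⟨⟨n, hsub hn⟩, mem_filter.2 ⟨mem_univ _, hn⟩, rfl⟩
    exact (card_le_card e).trans card_image_le
  have h4 : (S.card : ℝ) ≤ (univ.filter (fun i : {i // i ∈ S'} => i.1 ∈ S)).card := by exact_mod_cast hcardeq
  refine h4.trans (hmain.trans ?_)
  rw [hfc']
  apply div_le_div_of_nonneg_right _ (by positivity)
  exact_mod_cast card_le_univ S'

/-- **From thin families to bilinear combinations with arbitrary perturbations.** -/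
theorem wrapB (h h' r B C U : ℕ) (hh : 1 ≤ h) (hh' : 1 ≤ h') (hr : 2 ≤ r) (Rg Bad : ℕ → ℤ → Prop)
    (H : ∀ h C : ℕ, 1 ≤ h → ∃ N₀ : ℕ, ∀ N : ℕ, N₀ ≤ N → ∀ (ι : Type) [Fintype ι] (v : ι → ℤ), (∀ i, Rg N (v i)) →
      (En h v : ℝ) * N ≤ Real.log N ^ C * (Fintype.card ι : ℝ) ^ (2 * h) →
      ∀ S : Finset ι, (∀ i ∈ S, Bad N (v i)) → (S.card : ℝ) ≤ Fintype.card ι / Real.log N ^ U) :
    ∃ N₀ : ℕ, ∀ X Y : ℕ, N₀ ≤ X * Y → X ≤ Y ^ (r - 1) → Y ≤ X ^ (r - 1) →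
      ∀ (ι ι' : Type) [Fintype ι] [Fintype ι'] (v : ι → ℤ) (v' : ι' → ℤ),
      (∀ i, |v i| ≤ B * X) → (∀ j, |v' j| ≤ B * Y) →
      (En h v : ℝ) * X ≤ Real.log ((X * Y : ℕ) : ℝ) ^ C * (Fintype.card ι : ℝ) ^ (2 * h) →
      (En h' v' : ℝ) * Y ≤ Real.log ((X * Y : ℕ) : ℝ) ^ C * (Fintype.card ι' : ℝ) ^ (2 * h') →
      ∀ (F : ι → ℤ) (G : ι' → ℤ) (κ : ℤ), κ ≠ 0 → ∀ S : Finset (ι × ι'),
      (∀ q ∈ S, Rg (X * Y) (κ * v q.1 * v' q.2 + F q.1 + G q.2) ∧ Bad (X * Y) (κ * v q.1 * v' q.2 + F q.1 + G q.2)) →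
      (S.card : ℝ) ≤ (Fintype.card ι : ℝ) * Fintype.card ι' / Real.log ((X * Y : ℕ) : ℝ) ^ U := by
  obtain ⟨p, C', N1, hp, h1⟩ := closure h h' r B C hh hh' hr
  obtain ⟨N2, h2⟩ := sub_transfer p C' U Rg Bad (H p (C' + 2 * p * U) hp)
  refine ⟨N1 + N2, fun X Y hN hXY hYX ι ι' _ _ v v' hv hv' hE hE' F G κ hκ S hS => ?_⟩
  have h3 := h1 X Y (by omega) hXY hYX ι ι' v v' hv hv' hE hE' F G κ hκ
  have h4 := h2 (X * Y) (by omega) (ι × ι') (fun q => κ * v q.1 * v' q.2 + F q.1 + G q.2) h3 S hS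
  rw [Fintype.card_prod, Nat.cast_mul] at h4
  exact h4

end Pool.Agent.Run7.h536.TB
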