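import Pool.Agent.Run7.h536.PW3
import Pool.Agent.Run7.h536.TB3

set_option autoImplicit false

/-! Families of polynomials with leading coefficients in a thin family: the frequencies near rationals. -/

namespace Pool.Agent.Run7.h536.CE
open Finset Polynomial
open Pool.Agent.H807R2.Dav
open Pool.Agent.TH872.Sq
open Pool.Agent.TH212.EH (En enum)
open Pool.Agent.H373R2.T7 (energy moment_energy conj_ee)
open Pool.Agent.Run7.h536.TB (closure)

/-- a lower bound for short geometric sums -/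
lemma fejer (Y : ℕ) (θ : ℝ) (h : nn θ * Y ≤ 1 / 8) : (Y : ℝ) ^ 2 ≤ 4 * ‖∑ y ∈ range Y, ee ((y : ℝ) * θ)‖ ^ 2 := by
  obtain ⟨φ, hφ⟩ : ∃ φ, φ = θ - round θ := ⟨_, rfl⟩
  have hφn : |φ| = nn θ := by rw [hφ]; rfl
  have h1 : ∀ y ∈ range Y, (1 / 2 : ℝ) ≤ (ee ((y : ℝ) * θ)).re := by
    intro y hy
    have e1 : ee ((y : ℝ) * θ) = ee ((y : ℝ) * φ) := by
      have : (y : ℝ) * θ = (y : ℝ) * φ + ((((y : ℤ) * round θ : ℤ)) : ℝ) := by
        rw [hφ]
        push_cast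
        ring
      rw [this, ee_add_int]
    rw [e1, ee_eq, Complex.exp_ofReal_mul_I_re]
    have h2 : |2 * Real.pi * (y * φ)| ≤ Real.pi / 3 := by
      rw [abs_mul, abs_mul (y : ℝ), abs_of_pos (by positivity : (0 : ℝ) < 2 * Real.pi), hφn, abs_of_nonneg (Nat.cast_nonneg y)]
      have h3 : (y : ℝ) * nn θ ≤ 1 / 8 := by
        refine le_trans ?_ h
        rw [mul_comm]
        apply mul_le_mul_of_nonneg_left _ (nn_nonneg θ)
        exact_mod_cast (mem_range.1 hy).le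
      nlinarith [Real.pi_pos]
    rw [← Real.cos_abs, ← Real.cos_pi_div_three]
    apply Real.cos_le_cos_of_nonneg_of_le_pi (abs_nonneg _) _ h2
    linarith [Real.pi_pos]
  have h3 : (Y : ℝ) / 2 ≤ ‖∑ y ∈ range Y, ee ((y : ℝ) * θ)‖ := by
    refine le_trans ?_ (Complex.re_le_norm _)
    rw [Complex.re_sum]
    calc (Y : ℝ) / 2 = ∑ _y ∈ range Y, (1 / 2 : ℝ) := by rw [sum_const, card_range, nsmul_eq_mul]; ring
      _ ≤ _ := sum_le_sum h1
  have h4 : (0 : ℝ) ≤ (Y : ℝ) / 2 := by positivity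
  nlinarith

/-- even moments over a large modulus -/
lemma moment_le {ι : Type} [Fintype ι] [Nonempty ι] (p : ℕ) (v : ι → ℤ) (M R : ℕ) (hM : 1 ≤ M) (hR : ∀ i, |v i| ≤ R) (hMR : 2 * p * R < M) :
    ∑ t ∈ range M, ‖∑ i, ee ((t : ℝ) * ((v i : ℝ) / M))‖ ^ (2 * p) ≤ (M : ℝ) * En p v := by
  classical
  obtain ⟨f, hinj, hsurj⟩ := enum ι
  have hsum : ∀ F : ι → ℂ, ∑ m ∈ Icc 1 (Fintype.card ι), F (f m) = ∑ i, F i := by
    intro F
    apply sum_bij (fun m _ => f m)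
    · intro m _; exact mem_univ _
    · intro m hm m' hm' h; exact hinj (by exact_mod_cast hm) (by exact_mod_cast hm') h
    · intro i _
      obtain ⟨m, hm, h⟩ := hsurj i
      exact ⟨m, hm, h⟩
    · intro m _; rfl
  have h1 : energy p (Fintype.card ι) (fun m => v (f m)) ≤ En p v := by
    unfold energy En
    rw [Nat.card_eq_fintype_card, Fintype.card_subtype]
    apply card_le_card_of_injOn (fun q => (fun j => f (q.1 j), fun j => f (q.2 j)))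
    · intro q hq
      rw [mem_coe, mem_filter, mem_product, Fintype.mem_piFinset, Fintype.mem_piFinset] at hq
      rw [mem_coe, mem_filter]
      exact ⟨mem_univ _, hq.2⟩
    · intro q hq q' hq' h2
      rw [mem_coe, mem_filter, mem_product, Fintype.mem_piFinset, Fintype.mem_piFinset] at hq hq'
      simp only [Prod.mk.injEq] at h2
      apply Prod.ext
      · funext j
        exact hinj (by exact_mod_cast hq.1.1 j) (by exact_mod_cast hq'.1.1 j) (congrFun h2.1 j)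
      · funext j
        exact hinj (by exact_mod_cast hq.1.2 j) (by exact_mod_cast hq'.1.2 j) (congrFun h2.2 j)
  have h2 := moment_energy p (Fintype.card ι) (fun m => v (f m)) M R hM (fun m _ => hR _) hMR
  have h3 : ∀ t ∈ range M, ‖∑ m ∈ Icc 1 (Fintype.card ι), ee ((t : ℝ) * ((v (f m) : ℝ) / M))‖ ^ (2 * p) =
      ‖∑ i, ee ((t : ℝ) * ((v i : ℝ) / M))‖ ^ (2 * p) := by
    intro t _
    rw [hsum (fun i => ee ((t : ℝ) * ((v i : ℝ) / M)))]
  rw [sum_congr rfl h3] at h2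
  rw [h2]
  apply mul_le_mul_of_nonneg_left _ (Nat.cast_nonneg _)
  exact_mod_cast h1

/-- the squares of the geometric sums, on average over the family -/
noncomputable def Zq {ι : Type} [Fintype ι] (v : ι → ℤ) (Y M : ℕ) (q : ℤ) (t : ℕ) : ℝ :=
  (1 / (Fintype.card ι * (Y : ℝ) ^ 2)) * ∑ i, ‖∑ y ∈ range Y, ee ((y : ℝ) * ((t : ℝ) * ((q * v i : ℤ) : ℝ) / M))‖ ^ 2

lemma Zq_eq {ι : Type} [Fintype ι] (v : ι → ℤ) (Y M : ℕ) (q : ℤ) (t : ℕ) :
    ((∑ i, ‖∑ y ∈ range Y, ee ((y : ℝ) * ((t : ℝ) * ((q * v i : ℤ) : ℝ) / M))‖ ^ 2 : ℝ) : ℂ) =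
      ∑ x : ι × (Fin Y × Fin Y), ee ((t : ℝ) * (((q * v x.1 * (((x.2.1 : ℕ) : ℤ) - ((x.2.2 : ℕ) : ℤ)) : ℤ) : ℝ) / M)) := by
  rw [Fintype.sum_prod_type]
  push_cast
  apply sum_congr rfl
  intro i _
  rw [← Complex.mul_conj', map_sum, sum_mul_sum, Fintype.sum_prod_type, ← Fin.sum_univ_eq_sum_range (fun y => ∑ j ∈ range Y,
    ee ((y : ℝ) * ((t : ℝ) * ((q : ℝ) * (v i : ℝ)) / M)) * (starRingEnd ℂ) (ee ((j : ℝ) * ((t : ℝ) * ((q : ℝ) * (v i : ℝ)) / M))))]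
  apply sum_congr rfl
  intro y _
  rw [← Fin.sum_univ_eq_sum_range (fun j => ee (((y : ℕ) : ℝ) * ((t : ℝ) * ((q : ℝ) * (v i : ℝ)) / M)) *
    (starRingEnd ℂ) (ee ((j : ℝ) * ((t : ℝ) * ((q : ℝ) * (v i : ℝ)) / M))))]
  apply sum_congr rfl
  intro y' _
  rw [conj_ee, ← ee_add]
  congr 1
  push_cast
  ring

/-- moments of `Zq` from the energy of the bilinear family -/
lemma Zq_moment {ι : Type} [Fintype ι] [Nonempty ι] (p : ℕ) (v : ι → ℤ) (Y M R : ℕ) (hY : 1 ≤ Y) (hM : 1 ≤ M) (q : ℤ)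
    (hR : ∀ i, |q * v i| * Y ≤ R) (hMR : 2 * p * R < M) :
    ∑ t ∈ range M, Zq v Y M q t ^ (2 * p) ≤
      (M : ℝ) * En p (fun x : ι × (Fin Y × Fin Y) => q * v x.1 * (((x.2.1 : ℕ) : ℤ) - ((x.2.2 : ℕ) : ℤ))) /
        (Fintype.card (ι × (Fin Y × Fin Y)) : ℝ) ^ (2 * p) := by
  classical
  have : Nonempty (Fin Y) := ⟨⟨0, hY⟩⟩
  have hc : (Fintype.card (ι × (Fin Y × Fin Y)) : ℝ) = Fintype.card ι * (Y : ℝ) ^ 2 := by
    rw [Fintype.card_prod, Fintype.card_prod, Fintype.card_fin]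
    push_cast
    ring
  have hc0 : (0 : ℝ) < Fintype.card ι * (Y : ℝ) ^ 2 := by
    have h1 : (0 : ℝ) < Fintype.card ι := by exact_mod_cast Fintype.card_pos
    have h2 : (0 : ℝ) < Y := by exact_mod_cast hY
    positivity
  have h1 := moment_le p (fun x : ι × (Fin Y × Fin Y) => q * v x.1 * (((x.2.1 : ℕ) : ℤ) - ((x.2.2 : ℕ) : ℤ))) M R hM (fun x => by
    rw [abs_mul]
    refine le_trans ?_ (hR x.1)
    apply mul_le_mul_of_nonneg_left _ (abs_nonneg _)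
    have a1 := x.2.1.2
    have a2 := x.2.2.2
    rw [abs_le]
    constructor <;> omega) hMR
  rw [hc, le_div_iff₀ (by positivity)]
  refine le_trans (le_of_eq ?_) h1
  rw [sum_mul]
  apply sum_congr rfl
  intro t _
  have h2 := Zq_eq v Y M q t
  have h3 : ‖∑ x : ι × (Fin Y × Fin Y), ee ((t : ℝ) * (((q * v x.1 * (((x.2.1 : ℕ) : ℤ) - ((x.2.2 : ℕ) : ℤ)) : ℤ) : ℝ) / M))‖ =
      ∑ i, ‖∑ y ∈ range Y, ee ((y : ℝ) * ((t : ℝ) * ((q * v i : ℤ) : ℝ) / M))‖ ^ 2 := by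
    rw [← h2, Complex.norm_real, Real.norm_of_nonneg (sum_nonneg fun i _ => sq_nonneg _)]
  rw [h3]
  unfold Zq
  obtain ⟨G, hG⟩ : ∃ G : ℝ, G = ∑ i, ‖∑ y ∈ range Y, ee ((y : ℝ) * ((t : ℝ) * ((q * v i : ℤ) : ℝ) / M))‖ ^ 2 := ⟨_, rfl⟩
  rw [← hG, ← mul_pow]
  congr 1
  field_simp

lemma Zq_nonneg {ι : Type} [Fintype ι] (v : ι → ℤ) (Y M : ℕ) (q : ℤ) (t : ℕ) : 0 ≤ Zq v Y M q t := by
  unfold Zq
  exact mul_nonneg (by positivity) (sum_nonneg fun i _ => sq_nonneg _)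

/-- the energy of `y - y'` -/
lemma En_sub (Y : ℕ) : (En 1 (fun x : Fin Y × Fin Y => ((x.1 : ℕ) : ℤ) - ((x.2 : ℕ) : ℤ)) : ℝ) * Y ≤ (Fintype.card (Fin Y × Fin Y) : ℝ) ^ (2 * 1) := by
  classical
  have h1 : En 1 (fun x : Fin Y × Fin Y => ((x.1 : ℕ) : ℤ) - ((x.2 : ℕ) : ℤ)) ≤ Y ^ 3 := by
    unfold En
    have h2 : Nat.card (Fin Y × Fin Y × Fin Y) = Y ^ 3 := by
      rw [Nat.card_eq_fintype_card, Fintype.card_prod, Fintype.card_prod, Fintype.card_fin]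
      ring
    rw [← h2]
    apply Nat.card_le_card_of_injective (fun q : {q : (Fin 1 → Fin Y × Fin Y) × (Fin 1 → Fin Y × Fin Y) //
      ∑ j, ((((q.1 j).1 : ℕ) : ℤ) - (((q.1 j).2 : ℕ) : ℤ)) = ∑ j, ((((q.2 j).1 : ℕ) : ℤ) - (((q.2 j).2 : ℕ) : ℤ))} =>
      ((q.1.1 0).1, (q.1.1 0).2, (q.1.2 0).1))
    rintro ⟨⟨a, c⟩, h1⟩ ⟨⟨a', c'⟩, h2⟩ h3
    simp only [Fin.sum_univ_one] at h1 h2
    simp only [Prod.mk.injEq] at h3
    obtain ⟨e1, e2, e3⟩ := h3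
    simp only [Subtype.mk.injEq, Prod.mk.injEq]
    rw [← e1, ← e2, ← e3] at h2
    have e4 : (c 0).2 = (c' 0).2 := by
      apply Fin.ext
      omega
    constructor
    · funext j
      have : j = 0 := Subsingleton.elim _ _
      rw [this]
      exact Prod.ext e1 e2
    · funext j
      have : j = 0 := Subsingleton.elim _ _
      rw [this]
      exact Prod.ext e3 e4
  calc (En 1 (fun x : Fin Y × Fin Y => ((x.1 : ℕ) : ℤ) - ((x.2 : ℕ) : ℤ)) : ℝ) * Y ≤ ((Y ^ 3 : ℕ) : ℝ) * Y :=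
        mul_le_mul_of_nonneg_right (by exact_mod_cast h1) (Nat.cast_nonneg _)
    _ = _ := by
        rw [Fintype.card_prod, Fintype.card_fin]
        push_cast
        ring

end Pool.Agent.Run7.h536.CE
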