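import Pool.Agent.Run7.h536.TB3
import Pool.Agent.R459.Nbhd

set_option autoImplicit false

/-! Transfer of statements on thin families: general forms. -/

namespace Pool.Agent.Run7.h536.TB
open Finset
open Pool.Agent.TH212.EH (En)
open Pool.Agent.Run7.h536 (En_mono)

/-- members outside a given range are ignored; with a parameter -/
theorem subG (h C U : ℕ) (Λ : Type) (Rg : ℕ → ℤ → Prop) (Bad : Λ → ℕ → ℤ → Prop)
    (H : ∃ N₀ : ℕ, ∀ N : ℕ, N₀ ≤ N → ∀ l : Λ, ∀ (ι : Type) [Fintype ι] (v : ι → ℤ), (∀ i, Rg N (v i)) →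
      (En h v : ℝ) * N ≤ Real.log N ^ (C + 2 * h * U) * (Fintype.card ι : ℝ) ^ (2 * h) →
      ∀ S : Finset ι, (∀ i ∈ S, Bad l N (v i)) → (S.card : ℝ) ≤ Fintype.card ι / Real.log N ^ U) :
    ∃ N₀ : ℕ, ∀ N : ℕ, N₀ ≤ N → ∀ l : Λ, ∀ (ι : Type) [Fintype ι] (v : ι → ℤ),
      (En h v : ℝ) * N ≤ Real.log N ^ C * (Fintype.card ι : ℝ) ^ (2 * h) →
      ∀ S : Finset ι, (∀ i ∈ S, Rg N (v i) ∧ Bad l N (v i)) → (S.card : ℝ) ≤ Fintype.card ι / Real.log N ^ U := by
  classical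
  obtain ⟨N₀, hN₀⟩ := H
  obtain ⟨N1, hN1⟩ := Pool.Agent.H373R2.T7.ev_L' 1
  refine ⟨N₀ + N1, fun N hN l ι _ v hE S hS => ?_⟩
  have hL := hN1 N (by omega)
  have hL0 : 0 < Real.log (N : ℝ) := by linarith
  obtain ⟨S', hS'⟩ : ∃ S' : Finset ι, S' = univ.filter (fun i => Rg N (v i)) := ⟨_, rfl⟩
  have hmS : ∀ i, i ∈ S' ↔ Rg N (v i) := fun i => by rw [hS', mem_filter]; exact ⟨fun h => h.2, fun h => ⟨mem_univ _, h⟩⟩
  have hsub : S ⊆ S' := fun i hi => (hmS i).2 (hS i hi).1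
  have hc0 : (0 : ℝ) ≤ Fintype.card ι := Nat.cast_nonneg _
  rcases le_or_gt (S'.card : ℝ) (Fintype.card ι / Real.log N ^ U) with hsm | hlg
  · refine le_trans ?_ hsm
    exact_mod_cast card_le_card hsub
  have hfc' : Fintype.card {i // i ∈ S'} = S'.card := Fintype.card_coe _
  have hen : (En h (fun i : {i // i ∈ S'} => v i.1) : ℝ) * N ≤
      Real.log N ^ (C + 2 * h * U) * (Fintype.card {i // i ∈ S'} : ℝ) ^ (2 * h) := by
    have h2 : En h (fun i : {i // i ∈ S'} => v i.1) ≤ En h v := En_mono h v (fun i : {i // i ∈ S'} => i.1) Subtype.val_injective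
    have h3 : (Fintype.card ι : ℝ) ≤ Real.log N ^ U * S'.card := by
      rw [div_lt_iff₀ (by positivity)] at hlg
      linarith
    rw [hfc']
    have h2r : (En h (fun i : {i // i ∈ S'} => v i.1) : ℝ) ≤ (En h v : ℝ) := by exact_mod_cast h2
    calc (En h (fun i : {i // i ∈ S'} => v i.1) : ℝ) * N ≤ (En h v : ℝ) * N := mul_le_mul_of_nonneg_right h2r (Nat.cast_nonneg _)
      _ ≤ _ := hE
      _ ≤ Real.log N ^ C * (Real.log N ^ U * S'.card) ^ (2 * h) := by
          apply mul_le_mul_of_nonneg_left _ (by positivity)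
          exact pow_le_pow_left₀ hc0 h3 _
      _ = _ := by
          rw [mul_pow, ← pow_mul, pow_add]
          ring
  have hmain := hN₀ N (by omega) l {i // i ∈ S'} (fun i => v i.1) (fun i => (hmS i.1).1 i.2) hen
    (univ.filter (fun i : {i // i ∈ S'} => i.1 ∈ S)) (by
      intro i hi
      rw [mem_filter] at hi
      exact (hS i.1 hi.2).2)
  have hcardeq : S.card ≤ (univ.filter (fun i : {i // i ∈ S'} => i.1 ∈ S)).card := by
    have e : S ⊆ (univ.filter (fun i : {i // i ∈ S'} => i.1 ∈ S)).image (fun i => i.1) := by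
      intro n hn
      rw [mem_image]
      exact ⟨⟨n, hsub hn⟩, mem_filter.2 ⟨mem_univ _, hn⟩, rfl⟩
    exact (card_le_card e).trans card_image_le
  have h4 : (S.card : ℝ) ≤ (univ.filter (fun i : {i // i ∈ S'} => i.1 ∈ S)).card := by exact_mod_cast hcardeq
  refine h4.trans (hmain.trans ?_)
  rw [hfc']
  apply div_le_div_of_nonneg_right _ (by positivity)
  exact_mod_cast card_le_univ S'

open Classical in
/-- **Uniformity.** If all families `κ v i v' j + F i + G j` have few bad members, then for almost all `i` and for ALL integers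
`s` only few of the `κ v i v' j + s + G j` are bad. -/
theorem unif {ι ι' : Type} [Fintype ι] [Fintype ι'] (w : ι → ι' → ℤ) (B : ℤ → Prop) (L : ℝ) (hL : 0 < L)
    (H : ∀ F : ι → ℤ, ∀ S : Finset (ι × ι'), (∀ q ∈ S, B (w q.1 q.2 + F q.1)) → (S.card : ℝ) ≤ Fintype.card ι * Fintype.card ι' / (L * L)) :
    ((univ.filter (fun i : ι => ∃ s : ℤ, (Fintype.card ι' : ℝ) / L < (univ.filter (fun j : ι' => B (w i j + s))).card)).card : ℝ) ≤
      Fintype.card ι / L := by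
  obtain ⟨E, hE⟩ : ∃ E : Finset ι, E = univ.filter (fun i : ι => ∃ s : ℤ, (Fintype.card ι' : ℝ) / L <
    (univ.filter (fun j : ι' => B (w i j + s))).card) := ⟨_, rfl⟩
  have hmE : ∀ i, i ∈ E → ∃ s : ℤ, (Fintype.card ι' : ℝ) / L < (univ.filter (fun j : ι' => B (w i j + s))).card := by
    intro i hi
    rw [hE, mem_filter] at hi
    exact hi.2
  rw [← hE]
  have hch : ∀ i, ∃ s : ℤ, i ∈ E → (Fintype.card ι' : ℝ) / L < (univ.filter (fun j : ι' => B (w i j + s))).card := by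
    intro i
    by_cases h : i ∈ E
    · obtain ⟨s, hs⟩ := hmE i h
      exact ⟨s, fun _ => hs⟩
    · exact ⟨0, fun h' => absurd h' h⟩
  choose F hF using hch
  obtain ⟨S, hS⟩ : ∃ S : Finset (ι × ι'), S = (E ×ˢ univ).filter (fun q => B (w q.1 q.2 + F q.1)) := ⟨_, rfl⟩
  have h1 := H F S (fun q hq => by rw [hS, mem_filter] at hq; exact hq.2)
  have h2 : (S.card : ℝ) = ∑ i ∈ E, ((univ.filter (fun j : ι' => B (w i j + F i))).card : ℝ) := by
    rw [hS, card_filter, sum_product]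
    push_cast
    apply sum_congr rfl
    intro i _
    rw [card_filter]
    push_cast
    rfl
  have h3 : (E.card : ℝ) * (Fintype.card ι' / L) ≤ S.card := by
    rw [h2, ← nsmul_eq_mul, ← sum_const]
    exact sum_le_sum fun i hi => (hF i hi).le
  rcases Nat.eq_zero_or_pos (Fintype.card ι') with h0 | h0
  · have hE0 : E = ∅ := by
      rw [eq_empty_iff_forall_notMem]
      intro i hi
      obtain ⟨s, hs⟩ := hmE i hi
      have h4 : (univ.filter (fun j : ι' => B (w i j + s))).card ≤ 0 := by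
        rw [← h0]
        exact card_le_univ _
      rw [Nat.le_zero.1 h4, h0] at hs
      simp at hs
    rw [hE0, card_empty, Nat.cast_zero]
    positivity
  · have h0r : (0 : ℝ) < Fintype.card ι' := by exact_mod_cast h0
    have h4 := h3.trans h1
    have e1 : (E.card : ℝ) * (Fintype.card ι' / L) = (E.card * L) * (Fintype.card ι' / (L * L)) := by field_simp
    have e2 : (Fintype.card ι : ℝ) * Fintype.card ι' / (L * L) = Fintype.card ι * (Fintype.card ι' / (L * L)) := by ring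
    rw [e1, e2] at h4
    have h5 := le_of_mul_le_mul_right h4 (by positivity)
    rw [le_div_iff₀ hL]
    exact h5

/-- the general transfer for bilinear combinations -/
theorem wrapBG (h h' r B C U : ℕ) (hh : 1 ≤ h) (hh' : 1 ≤ h') (hr : 2 ≤ r) (Λ : Type) (Rg : ℕ → ℤ → Prop)
    (Bad : ℕ → Λ → ℕ → ℤ → Prop)
    (H : ∀ h C : ℕ, 1 ≤ h → ∃ K N₀ : ℕ, ∀ N : ℕ, N₀ ≤ N → ∀ l : Λ, ∀ (ι : Type) [Fintype ι] (v : ι → ℤ), (∀ i, Rg N (v i)) →
      (En h v : ℝ) * N ≤ Real.log N ^ C * (Fintype.card ι : ℝ) ^ (2 * h) →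
      ∀ S : Finset ι, (∀ i ∈ S, Bad K l N (v i)) → (S.card : ℝ) ≤ Fintype.card ι / Real.log N ^ (U + U)) :
    ∃ K N₀ : ℕ, ∀ X Y : ℕ, N₀ ≤ X * Y → X ≤ Y ^ (r - 1) → Y ≤ X ^ (r - 1) → ∀ l : Λ,
      ∀ (ι ι' : Type) [Fintype ι] [Fintype ι'] (v : ι → ℤ) (v' : ι' → ℤ),
      (∀ i, |v i| ≤ B * X) → (∀ j, |v' j| ≤ B * Y) →
      (En h v : ℝ) * X ≤ Real.log ((X * Y : ℕ) : ℝ) ^ C * (Fintype.card ι : ℝ) ^ (2 * h) →
      (En h' v' : ℝ) * Y ≤ Real.log ((X * Y : ℕ) : ℝ) ^ C * (Fintype.card ι' : ℝ) ^ (2 * h') →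
      ∀ (G : ι' → ℤ) (κ : ℤ), κ ≠ 0 → ∀ (P : ι → ℤ → Prop) [DecidablePred (fun i => ∃ s : ℤ, P i s)],
      (∀ i s, P i s → (Fintype.card ι' : ℝ) / Real.log ((X * Y : ℕ) : ℝ) ^ U <
        ({j : ι' | Rg (X * Y) (κ * v i * v' j + G j + s) ∧ Bad K l (X * Y) (κ * v i * v' j + G j + s)}.ncard : ℝ)) →
      ((univ.filter (fun i : ι => ∃ s : ℤ, P i s)).card : ℝ) ≤ Fintype.card ι / Real.log ((X * Y : ℕ) : ℝ) ^ U := by
  classical
  obtain ⟨p, C', N1, hp, h1⟩ := closure h h' r B C hh hh' hr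
  obtain ⟨K, N2', h2'⟩ := H p (C' + 2 * p * (U + U)) hp
  obtain ⟨N2, h2⟩ := subG p C' (U + U) Λ Rg (Bad K) ⟨N2', h2'⟩
  obtain ⟨N3, hN3⟩ := Pool.Agent.H373R2.T7.ev_L' 1
  refine ⟨K, N1 + N2 + N3, fun X Y hN hXY hYX l ι ι' _ _ v v' hv hv' hE hE' G κ hκ P _ hP => ?_⟩
  have hL := hN3 (X * Y) (by omega)
  have hL0 : 0 < Real.log ((X * Y : ℕ) : ℝ) := by linarith
  have key := unif (fun i j => κ * v i * v' j + G j) (fun z => Rg (X * Y) z ∧ Bad K l (X * Y) z) (Real.log ((X * Y : ℕ) : ℝ) ^ U)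
    (by positivity) (by
      intro F S hS
      have h3 := h1 X Y (by omega) hXY hYX ι ι' v v' hv hv' hE hE' F G κ hκ
      have h4 := h2 (X * Y) (by omega) l (ι × ι') (fun q => κ * v q.1 * v' q.2 + F q.1 + G q.2) h3 S (by
        intro q hq
        have h5 := hS q hq
        have e : κ * v q.1 * v' q.2 + F q.1 + G q.2 = κ * v q.1 * v' q.2 + G q.2 + F q.1 := by ring
        simp only [e]
        exact h5)
      rw [Fintype.card_prod, Nat.cast_mul, pow_add] at h4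
      exact h4)
  refine le_trans ?_ key
  apply Nat.cast_le.2
  apply card_le_card
  intro i hi
  rw [mem_filter] at hi ⊢
  obtain ⟨s, hs⟩ := hi.2
  refine ⟨hi.1, s, ?_⟩
  have h6 := hP i s hs
  have e : ({j : ι' | Rg (X * Y) (κ * v i * v' j + G j + s) ∧ Bad K l (X * Y) (κ * v i * v' j + G j + s)}.ncard : ℝ) =
      ((univ.filter (fun j : ι' => Rg (X * Y) (κ * v i * v' j + G j + s) ∧ Bad K l (X * Y) (κ * v i * v' j + G j + s))).card : ℝ) := by
    rw [← Set.ncard_coe_finset]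
    congr 2
    ext j
    simp
  rw [e] at h6
  convert h6

end Pool.Agent.Run7.h536.TB
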