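import Pool.Agent.Run7.h536.PW4
import Pool.Agent.Run7.h536.TB4

set_option autoImplicit false

/-! The energy hypothesis for the values of polynomials at integers with restricted digits, in logarithmic form. -/

namespace Pool.Agent.Run7.h536
open Finset Polynomial
open Pool.Agent.TH212.EH (En)
open Pool.Agent.TH872.GQ (S)

/-- the hypothesis of the theorems on thin families, at the scale `k ^ B * b ^ (d * k)` -/
theorem poly_thin (b : ℕ) (hb : 2 ≤ b) (d : ℕ) (hd : 2 ≤ d) (B : ℕ) : ∃ p C k₀ : ℕ, 1 ≤ p ∧ ∀ k : ℕ, k₀ ≤ k →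
    (∀ D : ℕ → Finset ℕ, (∀ i < k, D i ⊆ range b ∧ 2 ≤ (D i).card) → ∀ f : ℤ[X], f.natDegree = d →
    (En p (fun i : {n // n ∈ S b D k} => f.eval ((i.1 : ℕ) : ℤ)) : ℝ) * ((k ^ B * b ^ (d * k) : ℕ) : ℝ) ≤
      Real.log ((k ^ B * b ^ (d * k) : ℕ) : ℝ) ^ C * (Fintype.card {n // n ∈ S b D k} : ℝ) ^ (2 * p)) ∧
    (k : ℝ) ≤ Real.log ((k ^ B * b ^ (d * k) : ℕ) : ℝ) ∧ Real.log ((k ^ B * b ^ (d * k) : ℕ) : ℝ) ≤ (k : ℝ) ^ 2 ∧
    k ≤ k ^ B * b ^ (d * k) := by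
  classical
  obtain ⟨p, C, hp, hC, hE⟩ := poly_energy b hb d hd
  obtain ⟨K1, hK1⟩ := log_N b B d hb hd
  obtain ⟨K2, hK2⟩ := exists_nat_ge C
  refine ⟨p, B + 1, K1 + K2 + 1, hp, fun k hk => ?_⟩
  obtain ⟨hl1, hl2⟩ := hK1 k (by omega)
  refine ⟨fun D hD f hf => ?_, hl1, hl2, ?_⟩
  · have h1 := hE k D hD f hf
    have hk1 : (1 : ℝ) ≤ k := by exact_mod_cast (by omega : 1 ≤ k)
    have hKC : C ≤ k := hK2.trans (by exact_mod_cast (by omega : K2 ≤ k))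
    obtain ⟨E, hEd⟩ : ∃ E : ℝ, E = (En p (fun i : {n // n ∈ S b D k} => f.eval ((i.1 : ℕ) : ℤ)) : ℝ) := ⟨_, rfl⟩
    obtain ⟨Z, hZ⟩ : ∃ Z : ℝ, Z = (Fintype.card {n // n ∈ S b D k} : ℝ) ^ (2 * p) := ⟨_, rfl⟩
    have hZ0 : 0 ≤ Z := by rw [hZ]; positivity
    have h2 : E * ((b ^ (d * k) : ℕ) : ℝ) ≤ C * Z := by rw [hEd, hZ]; exact h1
    rw [← hEd, ← hZ]
    calc E * ((k ^ B * b ^ (d * k) : ℕ) : ℝ) = (k : ℝ) ^ B * (E * ((b ^ (d * k) : ℕ) : ℝ)) := by push_cast; ring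
      _ ≤ (k : ℝ) ^ B * (C * Z) := mul_le_mul_of_nonneg_left h2 (by positivity)
      _ ≤ (k : ℝ) ^ B * (k * Z) := by
          apply mul_le_mul_of_nonneg_left _ (by positivity)
          exact mul_le_mul_of_nonneg_right hKC hZ0
      _ = (k : ℝ) ^ (B + 1) * Z := by ring
      _ ≤ _ := mul_le_mul_of_nonneg_right (pow_le_pow_left₀ (by linarith) hl1 _) hZ0
  · calc k ≤ d * k := Nat.le_mul_of_pos_left _ (by omega)
      _ ≤ b ^ (d * k) := (Nat.lt_pow_self (by omega)).le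
      _ ≤ _ := Nat.le_mul_of_pos_left _ (Nat.pos_of_ne_zero (by
          have : k ≠ 0 := by omega
          positivity))

end Pool.Agent.Run7.h536
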