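import Pool.Agent.Run7.h536.CE5
import Pool.Agent.Run7.h536.PW5
import Pool.Agent.R459.Nbhd

set_option autoImplicit false

/-! Goldbach pairs near the values of polynomials with thin leading coefficients and arbitrary other coefficients. -/

namespace Pool.Agent.Run7.h536.CE
open Finset Polynomial
open Pool.Agent.TH872.Sq
open Pool.Agent.TH212.EH (En enum)
open Pool.Agent.Run7.h536 (En_mono)

open Classical in
/-- **All even numbers near almost all values of polynomials with thin leading coefficients and ARBITRARY other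
coefficients, at integers with restricted digits.** -/
theorem near_cross (b : ℕ) (hb : 2 ≤ b) (d : ℕ) (hd : 2 ≤ d) (h r B C A W U m₀ : ℕ) (hh : 1 ≤ h) (hr : 2 ≤ r) (hB : 1 ≤ B) (ε : ℝ)
    (hε : 0 < ε) (Q : ℕ → Prop) (hQ : ∀ m : ℕ, m₀ ≤ m → 2 ∣ m → Pool.Agent.W93.PG.WinP ε A m → Q m) :
    ∃ k₀ : ℕ, ∀ k : ℕ, k₀ ≤ k → ∀ X : ℕ, X ≤ (b ^ (d * k)) ^ (r - 1) → b ^ (d * k) ≤ X ^ (r - 1) →
    ∀ D : ℕ → Finset ℕ, (∀ i < k, D i ⊆ range b ∧ 2 ≤ (D i).card) → ∀ (ι : Type) [Fintype ι] (v : ι → ℤ),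
    (∀ i, |v i| ≤ B * X) → (En h v : ℝ) * X ≤ Real.log ((X * b ^ (d * k) : ℕ) : ℝ) ^ C * (Fintype.card ι : ℝ) ^ (2 * h) →
    ∀ κ : ℤ, κ ≠ 0 →
    ((univ.filter (fun i : ι => ∃ f : ℤ[X], f.natDegree ≤ d ∧ f.coeff d = κ * v i ∧
      (∀ m ∈ SD b D k, f.eval (m : ℤ) ≤ B * ((X * b ^ (d * k) : ℕ) : ℤ)) ∧
      ((SD b D k).card : ℝ) / Real.log ((X * b ^ (d * k) : ℕ) : ℝ) ^ U <
        (((SD b D k).filter (fun m : ℕ => ∃ n : ℕ, 0 < n ∧ Even n ∧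
          |(((n : ℤ) - f.eval (m : ℤ) : ℤ) : ℝ)| ≤ Real.log ((X * b ^ (d * k) : ℕ) : ℝ) ^ W ∧ ¬ Q n)).card : ℝ))).card : ℝ) ≤
      Fintype.card ι / Real.log ((X * b ^ (d * k) : ℕ) : ℝ) ^ U := by
  obtain ⟨e, rfl⟩ : ∃ e, d = e + 2 := ⟨d - 2, by omega⟩
  obtain ⟨p, C', k1, hp, hen⟩ := cross_energy b hb e h r B (C + 2 * h * U) hh hr hB
  obtain ⟨N₀, hnear⟩ := Pool.Agent.R459.near_even p A B C' W U m₀ hp ε hε Q hQ
  obtain ⟨K1, hK1⟩ := log_N b 0 (e + 2) hb (by omega)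
  refine ⟨k1 + N₀ + K1 + 2, fun k hk X hX1 hX2 D hD ι _ v hv hE κ hκ => ?_⟩
  obtain ⟨N, hN⟩ : ∃ N, N = X * b ^ ((e + 2) * k) := ⟨_, rfl⟩
  have hX1' := hX1
  have hG1 : k ≤ b ^ ((e + 2) * k) := by
    calc k ≤ (e + 2) * k := Nat.le_mul_of_pos_left _ (by omega)
      _ ≤ _ := (Nat.lt_pow_self (by omega)).le
  have hXpos : 1 ≤ X := by
    rcases Nat.eq_zero_or_pos X with h0 | h0
    · rw [h0, zero_pow (by omega)] at hX2
      have : 1 ≤ b ^ ((e + 2) * k) := Nat.one_le_pow _ _ (by omega)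
      omega
    · exact h0
  have hNk : k ≤ N := by
    rw [hN]
    calc k ≤ b ^ ((e + 2) * k) := hG1
      _ = 1 * b ^ ((e + 2) * k) := (one_mul _).symm
      _ ≤ _ := Nat.mul_le_mul_right _ hXpos
  have hlog1 : 1 ≤ Real.log (N : ℝ) := by
    obtain ⟨hl, _⟩ := hK1 k (by omega)
    have h1 : Real.log ((k ^ 0 * b ^ ((e + 2) * k) : ℕ) : ℝ) ≤ Real.log (N : ℝ) := by
      apply Real.log_le_log
      · have : 0 < k ^ 0 * b ^ ((e + 2) * k) := by positivity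
        exact_mod_cast this
      · have : k ^ 0 * b ^ ((e + 2) * k) ≤ N := by
          rw [hN, pow_zero]
          exact Nat.mul_le_mul_right _ hXpos
        exact_mod_cast this
    have h2 : (1 : ℝ) ≤ k := by exact_mod_cast (by omega : 1 ≤ k)
    linarith
  have hlog0 : 0 < Real.log (N : ℝ) := by linarith
  rw [← hN] at hE ⊢
  obtain ⟨Bd, hBd⟩ : ∃ Bd : Finset ι, Bd = univ.filter (fun i : ι => ∃ f : ℤ[X], f.natDegree ≤ e + 2 ∧ f.coeff (e + 2) = κ * v i ∧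
      (∀ m ∈ SD b D k, f.eval (m : ℤ) ≤ B * (N : ℤ)) ∧
      ((SD b D k).card : ℝ) / Real.log (N : ℝ) ^ U <
        (((SD b D k).filter (fun m : ℕ => ∃ n : ℕ, 0 < n ∧ Even n ∧
          |(((n : ℤ) - f.eval (m : ℤ) : ℤ) : ℝ)| ≤ Real.log (N : ℝ) ^ W ∧ ¬ Q n)).card : ℝ)) := ⟨_, rfl⟩
  have hgoal : (univ.filter (fun i : ι => ∃ f : ℤ[X], f.natDegree ≤ e + 2 ∧ f.coeff (e + 2) = κ * v i ∧
      (∀ m ∈ SD b D k, f.eval (m : ℤ) ≤ B * ((X * b ^ ((e + 2) * k) : ℕ) : ℤ)) ∧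
      ((SD b D k).card : ℝ) / Real.log (N : ℝ) ^ U <
        (((SD b D k).filter (fun m : ℕ => ∃ n : ℕ, 0 < n ∧ Even n ∧
          |(((n : ℤ) - f.eval (m : ℤ) : ℤ) : ℝ)| ≤ Real.log (N : ℝ) ^ W ∧ ¬ Q n)).card : ℝ))) = Bd := by
    rw [hBd, hN]
  first
    | rw [hgoal]
    | skip
  rw [← hBd]
  by_contra hcon
  push Not at hcon
  have hmem : ∀ x ∈ Bd, ∃ f : ℤ[X], f.natDegree ≤ e + 2 ∧ f.coeff (e + 2) = κ * v x ∧
      (∀ m ∈ SD b D k, f.eval (m : ℤ) ≤ B * (N : ℤ)) ∧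
      ((SD b D k).card : ℝ) / Real.log (N : ℝ) ^ U <
        (((SD b D k).filter (fun m : ℕ => ∃ n : ℕ, 0 < n ∧ Even n ∧
          |(((n : ℤ) - f.eval (m : ℤ) : ℤ) : ℝ)| ≤ Real.log (N : ℝ) ^ W ∧ ¬ Q n)).card : ℝ) := by
    intro x hx
    rw [hBd, mem_filter] at hx
    exact hx.2
  choose f hf1 hf2 hf3 hf4 using fun i : {i // i ∈ Bd} => hmem i.1 i.2
  have hcB : (Fintype.card {i // i ∈ Bd} : ℝ) = Bd.card := by rw [Fintype.card_coe]
  have hBpos : 0 < (Bd.card : ℝ) := lt_of_le_of_lt (by positivity) hcon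
  have hι : (Fintype.card ι : ℝ) ≤ Real.log (N : ℝ) ^ U * Bd.card := by
    rw [div_lt_iff₀ (by positivity)] at hcon
    linarith
  have hE' : (En h (fun i : {i // i ∈ Bd} => v i.1) : ℝ) * X ≤
      Real.log (N : ℝ) ^ (C + 2 * h * U) * (Fintype.card {i // i ∈ Bd} : ℝ) ^ (2 * h) := by
    have h1 : En h (fun i : {i // i ∈ Bd} => v i.1) ≤ En h v := En_mono h v (fun i : {i // i ∈ Bd} => i.1) Subtype.val_injective
    calc (En h (fun i : {i // i ∈ Bd} => v i.1) : ℝ) * X ≤ (En h v : ℝ) * X :=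
          mul_le_mul_of_nonneg_right (by exact_mod_cast h1) (Nat.cast_nonneg _)
      _ ≤ _ := hE
      _ ≤ Real.log (N : ℝ) ^ C * (Real.log (N : ℝ) ^ U * Bd.card) ^ (2 * h) := by
          apply mul_le_mul_of_nonneg_left _ (by positivity)
          exact pow_le_pow_left₀ (Nat.cast_nonneg _) hι _
      _ = _ := by
          rw [hcB, mul_pow, ← pow_mul, pow_add, mul_comm U (2 * h)]
          ring
  have key := hen k (by omega) X hX1 hX2 D hD {i // i ∈ Bd} (fun i => v i.1) (fun i => hv i.1) (by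
    rw [← hN]; exact hE') κ hκ f hf1 hf2
  rw [← hN] at key
  obtain ⟨T, hT⟩ : ∃ T : Finset ({i // i ∈ Bd} × {n // n ∈ SD b D k}), T = univ.filter (fun q => ∃ n : ℕ, 0 < n ∧ Even n ∧
      |(((n : ℤ) - (f q.1).eval ((q.2.1 : ℕ) : ℤ) : ℤ) : ℝ)| ≤ Real.log (N : ℝ) ^ W ∧ ¬ Q n) := ⟨_, rfl⟩
  have h2 := hnear N (by omega) ({i // i ∈ Bd} × {n // n ∈ SD b D k}) (fun q => (f q.1).eval ((q.2.1 : ℕ) : ℤ)) (fun q => by
      exact hf3 q.1 q.2.1 q.2.2) key T (fun q hq => by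
      rw [hT, mem_filter] at hq
      exact hq.2)
  have h3 : (Bd.card : ℝ) * ((SD b D k).card / Real.log (N : ℝ) ^ U) < T.card := by
    have h4 : T.card = ∑ i : {i // i ∈ Bd}, ((SD b D k).filter (fun m : ℕ => ∃ n : ℕ, 0 < n ∧ Even n ∧
          |(((n : ℤ) - (f i).eval (m : ℤ) : ℤ) : ℝ)| ≤ Real.log (N : ℝ) ^ W ∧ ¬ Q n)).card := by
      rw [hT, card_filter, ← univ_product_univ, sum_product]
      apply sum_congr rfl
      intro i _
      rw [card_filter, ← sum_coe_sort (SD b D k)]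
    rw [h4, Nat.cast_sum]
    have h5 : (Bd.card : ℝ) * ((SD b D k).card / Real.log (N : ℝ) ^ U) = ∑ _i : {i // i ∈ Bd}, ((SD b D k).card : ℝ) / Real.log (N : ℝ) ^ U := by
      rw [sum_const, card_univ, nsmul_eq_mul, hcB]
    rw [h5]
    have hne : (univ : Finset {i // i ∈ Bd}).Nonempty := by
      have : 0 < Bd.card := by exact_mod_cast hBpos
      obtain ⟨x, hx⟩ := card_pos.1 this
      exact ⟨⟨x, hx⟩, mem_univ _⟩
    exact sum_lt_sum_of_nonempty hne (fun i _ => hf4 i)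
  have h6 : ((Fintype.card ({i // i ∈ Bd} × {n // n ∈ SD b D k}) : ℕ) : ℝ) = (Bd.card : ℝ) * (SD b D k).card := by
    rw [Fintype.card_prod, Fintype.card_coe, Fintype.card_coe]
    push_cast
    rfl
  rw [h6] at h2
  have h7 : (Bd.card : ℝ) * (SD b D k).card / Real.log (N : ℝ) ^ U = Bd.card * ((SD b D k).card / Real.log (N : ℝ) ^ U) := by ring
  rw [h7] at h2
  linarith

end Pool.Agent.Run7.h536.CE
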