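import Pool.Agent.Run7.h536.CE7

set_option autoImplicit false

/-! Residue classes to large moduli. -/

namespace Pool.Agent.Run7.h536.CE
open Finset Polynomial
open Pool.Agent.H373R2.T7
open Pool.Agent.TH872.Sq
open Pool.Agent.TH212.EH (En enum)
open Pool.Agent.Run7.h536 (En_mono poly_energy)
open Pool.Agent.Run7.h536.RD
open Pool.Agent.Run7.h536.MT (rhos)

/-- the energy of the values of polynomials at the integers up to `X`, uniformly -/
theorem energy_Icc (d : ℕ) (hd : 2 ≤ d) : ∃ p : ℕ, ∃ C : ℝ, 1 ≤ p ∧ 0 < C ∧ ∀ X : ℕ, 1 ≤ X → ∀ f : ℤ[X], f.natDegree = d →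
    (En p (fun i : {n : ℕ // n ∈ (Icc 1 X : Finset ℕ)} => f.eval ((i.1 : ℕ) : ℤ)) : ℝ) * (X : ℝ) ^ d ≤ C * (X : ℝ) ^ (2 * p) := by
  classical
  obtain ⟨p, C, hp, hC, h⟩ := poly_energy 2 le_rfl d hd
  refine ⟨p, C * 2 ^ (2 * p), hp, by positivity, fun X hX f hf => ?_⟩
  obtain ⟨k, hk⟩ : ∃ k, k = Nat.log 2 X + 1 := ⟨_, rfl⟩
  have hk1 : X < 2 ^ k := by rw [hk]; exact Nat.lt_pow_succ_log_self (by norm_num) X
  have hk2 : 2 ^ k ≤ 2 * X := by
    rw [hk, pow_succ, mul_comm]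
    exact Nat.mul_le_mul_left _ (Nat.pow_log_le_self 2 (by omega))
  have h1 := h k (fun _ => range 2) (fun i _ => ⟨subset_rfl, by simp⟩) f hf
  have h2 : En p (fun i : {n : ℕ // n ∈ (Icc 1 X : Finset ℕ)} => f.eval ((i.1 : ℕ) : ℤ)) ≤
      En p (fun i : {n // n ∈ SD 2 (fun _ => range 2) k} => f.eval ((i.1 : ℕ) : ℤ)) := by
    apply En_mono p (fun i : {n // n ∈ SD 2 (fun _ => range 2) k} => f.eval ((i.1 : ℕ) : ℤ)) (fun i : {n : ℕ // n ∈ (Icc 1 X : Finset ℕ)} =>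
      (⟨i.1, by
        rw [SD_two, mem_range]
        have := mem_Icc.1 i.2
        omega⟩ : {n // n ∈ SD 2 (fun _ => range 2) k}))
    intro i j hij
    simp only [Subtype.mk.injEq] at hij
    exact Subtype.ext hij
  have hcS : (SD 2 (fun _ => range 2) k).card = 2 ^ k := by rw [SD_two, card_range]
  rw [Fintype.card_coe, hcS] at h1
  have h3 : ((2 ^ (d * k) : ℕ) : ℝ) = ((2 ^ k : ℕ) : ℝ) ^ d := by
    push_cast
    rw [← pow_mul, mul_comm]
  rw [h3] at h1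
  have h4 : (X : ℝ) ≤ ((2 ^ k : ℕ) : ℝ) := by exact_mod_cast hk1.le
  have h5 : ((2 ^ k : ℕ) : ℝ) ≤ 2 * X := by exact_mod_cast hk2
  have h2r : (En p (fun i : {n : ℕ // n ∈ (Icc 1 X : Finset ℕ)} => f.eval ((i.1 : ℕ) : ℤ)) : ℝ) ≤
      En p (fun i : {n // n ∈ SD 2 (fun _ => range 2) k} => f.eval ((i.1 : ℕ) : ℤ)) := by exact_mod_cast h2
  calc (En p (fun i : {n : ℕ // n ∈ (Icc 1 X : Finset ℕ)} => f.eval ((i.1 : ℕ) : ℤ)) : ℝ) * (X : ℝ) ^ d ≤
      (En p (fun i : {n // n ∈ SD 2 (fun _ => range 2) k} => f.eval ((i.1 : ℕ) : ℤ)) : ℝ) * ((2 ^ k : ℕ) : ℝ) ^ d := by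
        apply mul_le_mul h2r _ (by positivity) (Nat.cast_nonneg _)
        exact pow_le_pow_left₀ (Nat.cast_nonneg _) h4 d
    _ ≤ C * ((2 ^ k : ℕ) : ℝ) ^ (2 * p) := h1
    _ ≤ C * (2 * X) ^ (2 * p) := by
        apply mul_le_mul_of_nonneg_left _ hC.le
        exact pow_le_pow_left₀ (Nat.cast_nonneg _) h5 _
    _ = _ := by rw [mul_pow]; ring

/-- the energy of `q ^ d`, `q` in a set of at least `Q / log ^ C X` integers up to `Q` -/
theorem energy_moduli (d C : ℕ) (hd : 2 ≤ d) : ∃ p C' x₀ : ℕ, 1 ≤ p ∧ ∀ X : ℕ, x₀ ≤ X → ∀ Q : ℕ, ∀ A : Finset ℕ, A ⊆ Icc 1 Q →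
    (Q : ℝ) ≤ Real.log X ^ C * A.card →
    (En p (fun i : {n : ℕ // n ∈ A} => ((i.1 : ℕ) : ℤ) ^ d) : ℝ) * ((Q ^ d : ℕ) : ℝ) ≤ Real.log X ^ C' * (Fintype.card {n : ℕ // n ∈ A} : ℝ) ^ (2 * p) := by
  classical
  obtain ⟨p, C₁, hp, hC, h⟩ := energy_Icc d hd
  obtain ⟨n1, hn1⟩ := ev_L' (C₁ + 1)
  refine ⟨p, 1 + C * (2 * p), n1, hp, fun X hX Q A hA hAQ => ?_⟩
  have hlog := hn1 X hX
  have hl1 : 1 ≤ Real.log X := by linarith
  rcases Nat.eq_zero_or_pos Q with h0 | h0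
  · rw [h0, zero_pow (by omega), Nat.cast_zero, mul_zero]
    positivity
  have h1 := h Q h0 (Polynomial.X ^ d) (natDegree_X_pow d)
  have h2 : En p (fun i : {n : ℕ // n ∈ A} => ((i.1 : ℕ) : ℤ) ^ d) ≤
      En p (fun i : {n : ℕ // n ∈ (Icc 1 Q : Finset ℕ)} => (Polynomial.X ^ d : ℤ[X]).eval ((i.1 : ℕ) : ℤ)) := by
    have h3 := En_mono p (fun i : {n : ℕ // n ∈ (Icc 1 Q : Finset ℕ)} => (Polynomial.X ^ d : ℤ[X]).eval ((i.1 : ℕ) : ℤ)) (fun i : {n : ℕ // n ∈ A} =>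
      (⟨i.1, hA i.2⟩ : {n : ℕ // n ∈ (Icc 1 Q : Finset ℕ)})) (by
        intro i j hij
        simp only [Subtype.mk.injEq] at hij
        exact Subtype.ext hij)
    simp only [eval_pow, eval_X] at h3 ⊢
    exact h3
  rw [Fintype.card_coe]
  calc (En p (fun i : {n : ℕ // n ∈ A} => ((i.1 : ℕ) : ℤ) ^ d) : ℝ) * ((Q ^ d : ℕ) : ℝ) ≤
      (En p (fun i : {n : ℕ // n ∈ (Icc 1 Q : Finset ℕ)} => (Polynomial.X ^ d : ℤ[X]).eval ((i.1 : ℕ) : ℤ)) : ℝ) * (Q : ℝ) ^ d := by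
        push_cast
        exact mul_le_mul_of_nonneg_right (by exact_mod_cast h2) (by positivity)
    _ ≤ C₁ * (Q : ℝ) ^ (2 * p) := h1
    _ ≤ Real.log X * (Real.log X ^ C * A.card) ^ (2 * p) := by
        apply mul_le_mul (by linarith) _ (by positivity) (by linarith)
        exact pow_le_pow_left₀ (Nat.cast_nonneg _) hAQ _
    _ = _ := by rw [mul_pow, ← pow_mul, pow_add, pow_one]; ring

open Classical in
/-- **Residue classes to large moduli**: all arguments. -/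
theorem ap_int (s : ℕ) (d : Fin s → ℕ) (hd : ∀ l, 2 ≤ d l) (r B C U : ℕ) (hr : 2 ≤ r) (hB : 1 ≤ B) :
    ∃ B0 : ℕ, ∀ E : ℕ, ∃ x₀ : ℕ, ∀ X : ℕ, x₀ ≤ X → ∀ Q : ℕ, Q ≤ X ^ (r - 1) → X ≤ Q ^ (r - 1) →
    ∀ A : Finset ℕ, A ⊆ Icc 1 Q → (Q : ℝ) ≤ Real.log X ^ C * A.card →
    ∀ κ : Fin s → ℤ, (∀ l, κ l ≠ 0) → ∀ z : ℕ, Real.log X ^ B0 ≤ z → (z : ℝ) ≤ Real.log X ^ E →
    ∀ L : ℕ → ℝ, (∀ n, th n ≤ L n ∧ L n ≤ ArithmeticFunction.vonMangoldt n) →
    ((A.filter (fun q : ℕ => ∃ F : Fin s → ℤ[X], ∃ ρ : ℤ, (∀ l, (F l).natDegree ≤ d l) ∧ (∀ l, (F l).coeff (d l) = κ l) ∧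
      (∀ l, ∀ n ∈ range (2 * X), |(F l).eval (q * (n : ℤ) + ρ)| ≤ B * (((Q * X) ^ d l : ℕ) : ℤ)) ∧
      (∏ l, (((Q * X) ^ d l : ℕ) : ℝ)) / Real.log X ^ U <
        (((Fintype.piFinset (fun l => Icc (-((B : ℤ) * (((Q * X) ^ d l : ℕ) : ℤ))) ((B : ℤ) * (((Q * X) ^ d l : ℕ) : ℤ)))).filter
        (fun c : Fin s → ℤ => ∃ M : ℕ, M ≤ X ∧ (X : ℝ) / Real.log X ^ U <
          |∑ n ∈ Icc 1 M, ∏ l, L ((F l).eval (q * (n : ℤ) + ρ) + c l).natAbs -
            M * ∏ p ∈ pz z, (((1 - 1 / (p : ℝ)) ^ s)⁻¹ *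
              (1 - (MT.rho (∏ l, ((F l + Polynomial.C (c l)).comp (Polynomial.C (q : ℤ) * Polynomial.X + Polynomial.C ρ))) p : ℝ) / p))|)).card : ℝ))).card : ℝ) ≤
      A.card / Real.log X ^ U := by
  choose p C' n1 hp hen using fun l => energy_moduli (d l) C (hd l)
  obtain ⟨B0, h0⟩ := cross_int s d p hd hp r B (∑ l, C' l) U hr hB
  refine ⟨B0, fun E => ?_⟩
  obtain ⟨x0, h1⟩ := h0 E
  obtain ⟨n2, hn2⟩ := ev_L' 1
  refine ⟨x0 + ∑ l, n1 l + n2, fun X hX Q hQ1 hQ2 A hA hAQ κ hκ z hz1 hz2 L hL => ?_⟩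
  have hl1 := hn2 X (by omega)
  have hs1 : ∀ l, n1 l ≤ X := by
    intro l
    have : n1 l ≤ ∑ l, n1 l := single_le_sum (f := n1) (fun _ _ => Nat.zero_le _) (mem_univ l)
    omega
  have hmul : ∀ l, Q ^ d l * X ^ d l = (Q * X) ^ d l := fun l => (mul_pow Q X (d l)).symm
  have hA1 : Fintype.card {n : ℕ // n ∈ A} = A.card := Fintype.card_coe _
  have key := h1 X (by omega) (fun l => Q ^ d l) (fun l => by
      rw [mul_comm (d l), pow_mul]
      exact Nat.pow_le_pow_left hQ1 _) (fun l => by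
      rw [← pow_mul, mul_comm (d l), pow_mul]
      exact Nat.pow_le_pow_left hQ2 _) {n : ℕ // n ∈ A} (fun l i => ((i.1 : ℕ) : ℤ) ^ d l) (fun l i => by
      have h3 := mem_Icc.1 (hA i.2)
      rw [abs_of_nonneg (by positivity)]
      have h4 : i.1 ^ d l ≤ B * Q ^ d l := (Nat.pow_le_pow_left h3.2 _).trans (Nat.le_mul_of_pos_left _ hB)
      exact_mod_cast h4) (fun l => by
      refine (hen l X (hs1 l) Q A hA hAQ).trans ?_
      apply mul_le_mul_of_nonneg_right _ (by positivity)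
      apply pow_le_pow_right₀ hl1
      exact single_le_sum (f := C') (fun _ _ => Nat.zero_le _) (mem_univ l)) κ hκ z hz1 hz2 L hL
  simp only [hmul, hA1] at key
  refine le_trans ?_ key
  apply Nat.cast_le.2
  have hsub : ∀ P : ℕ → Prop, ∀ P' : {n : ℕ // n ∈ A} → Prop, (∀ i, P i.1 → P' i) → (A.filter P).card ≤ (univ.filter P').card := by
    intro P P' hPP
    have e : A.filter P ⊆ (univ.filter P').image (fun i => i.1) := by
      intro n hn
      rw [mem_filter] at hn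
      rw [mem_image]
      exact ⟨⟨n, hn.1⟩, mem_filter.2 ⟨mem_univ _, hPP ⟨n, hn.1⟩ hn.2⟩, rfl⟩
    exact (card_le_card e).trans card_image_le
  apply hsub
  rintro ⟨q, hq⟩ ⟨F, ρ, hF1, hF2, hF3, hF4⟩
  have hlin : ∀ l, ((F l).comp (Polynomial.C (q : ℤ) * Polynomial.X + Polynomial.C ρ)).natDegree ≤ d l := by
    intro l
    refine natDegree_comp_le.trans ?_
    calc (F l).natDegree * (Polynomial.C (q : ℤ) * Polynomial.X + Polynomial.C ρ).natDegree ≤ d l * 1 := by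
          apply Nat.mul_le_mul (hF1 l)
          exact natDegree_linear_le
      _ = d l := mul_one _
  have heval : ∀ l (n : ℤ), ((F l).comp (Polynomial.C (q : ℤ) * Polynomial.X + Polynomial.C ρ)).eval n = (F l).eval (q * n + ρ) := by
    intro l n
    rw [eval_comp, eval_add, eval_mul, eval_C, eval_X, eval_C]
  have hcomp : ∀ l (c : ℤ), (F l).comp (Polynomial.C (q : ℤ) * Polynomial.X + Polynomial.C ρ) + Polynomial.C c =
      (F l + Polynomial.C c).comp (Polynomial.C (q : ℤ) * Polynomial.X + Polynomial.C ρ) := by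
    intro l c
    rw [add_comp, C_comp]
  refine ⟨fun l => (F l).comp (Polynomial.C (q : ℤ) * Polynomial.X + Polynomial.C ρ), hlin, ?_, ?_, ?_⟩
  · intro l
    have h3 : ((F l).comp (Polynomial.C (q : ℤ) * Polynomial.X + Polynomial.C ρ)).coeff (d l) = κ l * (q : ℤ) ^ d l := by
      have hdeg : (F l).natDegree = d l := by
        apply le_antisymm (hF1 l)
        apply le_natDegree_of_ne_zero
        rw [hF2 l]
        exact hκ l
      have hq0 : (q : ℤ) ≠ 0 := by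
        have := (mem_Icc.1 (hA hq)).1
        omega
      have hn1 : (Polynomial.C (q : ℤ) * Polynomial.X + Polynomial.C ρ).natDegree = 1 := natDegree_linear hq0
      have h4 := coeff_comp_degree_mul_degree (p := F l) (q := Polynomial.C (q : ℤ) * Polynomial.X + Polynomial.C ρ) (by rw [hn1]; norm_num)
      rw [hn1, mul_one, hdeg, leadingCoeff_linear hq0, leadingCoeff, hdeg, hF2 l] at h4
      exact h4
    exact h3
  · intro l m hm
    rw [heval]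
    exact hF3 l m hm
  · refine lt_of_lt_of_le hF4 (le_of_eq ?_)
    congr 2
    apply filter_congr
    intro c _
    simp only [heval, hcomp]

end Pool.Agent.Run7.h536.CE
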