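import Pool.Agent.Run7.h536.CE10
import Pool.Agent.Run7.h536.CE8

set_option autoImplicit false

/-! Goldbach pairs near the values of polynomials in all residue classes to almost all large moduli. -/

namespace Pool.Agent.Run7.h536.CE
open Finset Polynomial
open Pool.Agent.H373R2.T7
open Pool.Agent.TH872.Sq
open Pool.Agent.TH212.EH (En enum)

lemma comp_lin_degree (F : ℤ[X]) (d q : ℕ) (ρ : ℤ) (hF : F.natDegree ≤ d) :
    (F.comp (Polynomial.C (q : ℤ) * Polynomial.X + Polynomial.C ρ)).natDegree ≤ d := by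
  refine natDegree_comp_le.trans ?_
  have h1 : (Polynomial.C (q : ℤ) * Polynomial.X + Polynomial.C ρ : ℤ[X]).natDegree ≤ 1 := by compute_degree
  calc F.natDegree * (Polynomial.C (q : ℤ) * Polynomial.X + Polynomial.C ρ).natDegree ≤ d * 1 := Nat.mul_le_mul hF h1
    _ = d := mul_one d

lemma comp_lin_coeff (F : ℤ[X]) (d q : ℕ) (ρ : ℤ) (hF : F.natDegree ≤ d) :
    (F.comp (Polynomial.C (q : ℤ) * Polynomial.X + Polynomial.C ρ)).coeff d = F.coeff d * (q : ℤ) ^ d := by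
  have h1 : (Polynomial.C (q : ℤ) * Polynomial.X + Polynomial.C ρ : ℤ[X]).natDegree ≤ 1 := by compute_degree
  rw [comp_eq_sum_left, sum_over_range' _ _ (d + 1) (by omega), finset_sum_coeff, sum_range_succ]
  · have h2 : ∀ i ∈ range d, (Polynomial.C (F.coeff i) * (Polynomial.C (q : ℤ) * Polynomial.X + Polynomial.C ρ) ^ i : ℤ[X]).coeff d = 0 := by
      intro i hi
      rw [mem_range] at hi
      rw [coeff_C_mul]
      have h3 : ((Polynomial.C (q : ℤ) * Polynomial.X + Polynomial.C ρ : ℤ[X]) ^ i).natDegree ≤ i := by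
        refine natDegree_pow_le.trans ?_
        calc i * (Polynomial.C (q : ℤ) * Polynomial.X + Polynomial.C ρ : ℤ[X]).natDegree ≤ i * 1 := Nat.mul_le_mul_left _ h1
          _ = i := mul_one i
      rw [coeff_eq_zero_of_natDegree_lt (lt_of_le_of_lt h3 hi), mul_zero]
    rw [sum_eq_zero h2, zero_add, coeff_C_mul]
    have h4 := coeff_pow_of_natDegree_le h1 (m := d)
    rw [mul_one] at h4
    rw [h4, coeff_add, coeff_C_mul, coeff_X_one, mul_one, coeff_C, if_neg one_ne_zero, add_zero]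
  · intro i
    rw [map_zero, zero_mul]

open Classical in
/-- **Goldbach near polynomial values in all residue classes to almost all large moduli.** -/
theorem near_ap (d : ℕ) (hd : 2 ≤ d) (r B C A W U m₀ : ℕ) (hr : 1 ≤ r) (hB : 1 ≤ B) (ε : ℝ)
    (hε : 0 < ε) (P : ℕ → Prop) (hP : ∀ m : ℕ, m₀ ≤ m → 2 ∣ m → Pool.Agent.W93.PG.WinP ε A m → P m) :
    ∃ x₀ : ℕ, ∀ X : ℕ, x₀ ≤ X → ∀ Q : ℕ, Q ≤ X ^ r → X ≤ Q ^ r →
    ∀ T : Finset ℕ, T ⊆ Icc 1 Q → (Q : ℝ) ≤ Real.log X ^ C * T.card → ∀ κ : ℤ, κ ≠ 0 →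
    ((T.filter (fun q : ℕ => ∃ F : ℤ[X], ∃ ρ : ℤ, F.natDegree ≤ d ∧ F.coeff d = κ ∧
      (∀ m ∈ range (2 * X), F.eval (q * (m : ℤ) + ρ) ≤ B * (((Q * X) ^ d : ℕ) : ℤ)) ∧
      (X : ℝ) / Real.log X ^ U <
        (((Icc 1 X).filter (fun m : ℕ => ∃ n : ℕ, 0 < n ∧ Even n ∧
          |(((n : ℤ) - F.eval (q * (m : ℤ) + ρ) : ℤ) : ℝ)| ≤ Real.log X ^ W ∧ ¬ P n)).card : ℝ))).card : ℝ) ≤
      T.card / Real.log X ^ U := by
  obtain ⟨p, C', n1, hp, hen⟩ := energy_moduli d C hd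
  obtain ⟨x1, hx1⟩ := dyadic
  obtain ⟨k0, h0⟩ := near_cross 2 le_rfl d hd p (2 * (r * d) + 2) B C' A W (U + 1) m₀ hp (by omega) hB ε hε P hP
  obtain ⟨n2, hn2⟩ := ev_L' (k0 + 2)
  refine ⟨x1 + n1 + n2 + 2, fun X hX Q hQ1 hQ2 T hT hTQ κ hκ => ?_⟩
  obtain ⟨k, hk1, hk2, hk3, hk4⟩ := hx1 X (by omega)
  have hlog := hn2 X (by omega)
  have hk00 : (0 : ℝ) ≤ k0 := Nat.cast_nonneg _
  have hl2 : 2 ≤ Real.log X := by linarith
  have hk0 : k0 ≤ k := by
    have : (k0 : ℝ) ≤ k := by linarith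
    exact_mod_cast this
  have hQpos : 1 ≤ Q := by
    rcases Nat.eq_zero_or_pos Q with h0 | h0
    · rw [h0, zero_pow (by omega)] at hQ2
      omega
    · exact h0
  have hX2 : 2 ≤ X := by omega
  obtain ⟨N, hN⟩ : ∃ N, N = Q ^ d * 2 ^ (d * k) := ⟨_, rfl⟩
  have hXN : X ≤ N := by
    rw [hN]
    calc X ≤ 2 ^ k := hk1.le
      _ ≤ 2 ^ (d * k) := Nat.pow_le_pow_right (by norm_num) (Nat.le_mul_of_pos_left _ (by omega))
      _ = 1 * 2 ^ (d * k) := (one_mul _).symm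
      _ ≤ _ := Nat.mul_le_mul_right _ (Nat.one_le_pow _ _ hQpos)
  have hlXN : Real.log X ≤ Real.log (N : ℝ) := Real.log_le_log (by exact_mod_cast (by omega : 0 < X)) (by exact_mod_cast hXN)
  have hl0 : 0 < Real.log (X : ℝ) := by linarith
  have hA1 : Fintype.card {n : ℕ // n ∈ T} = T.card := Fintype.card_coe _
  have key := h0 k hk0 (Q ^ d) (by
      rw [show 2 * (r * d) + 2 - 1 = 2 * (r * d) + 1 by omega]
      calc Q ^ d ≤ (X ^ r) ^ d := Nat.pow_le_pow_left hQ1 _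
        _ = X ^ (r * d) := by rw [← pow_mul]
        _ ≤ (2 ^ k) ^ (r * d) := Nat.pow_le_pow_left hk1.le _
        _ ≤ (2 ^ (d * k)) ^ (2 * (r * d) + 1) := by
            rw [← pow_mul, ← pow_mul]
            apply Nat.pow_le_pow_right (by norm_num)
            calc k * (r * d) = 1 * k * (r * d) := by ring
              _ ≤ d * k * (2 * (r * d) + 1) := Nat.mul_le_mul (Nat.mul_le_mul_right _ (by omega)) (by omega)) (by
      rw [show 2 * (r * d) + 2 - 1 = 2 * (r * d) + 1 by omega]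
      calc 2 ^ (d * k) = (2 ^ k) ^ d := by rw [← pow_mul, mul_comm]
        _ ≤ (X * X) ^ d := Nat.pow_le_pow_left (hk2.trans (Nat.mul_le_mul_right _ hX2)) _
        _ ≤ (Q ^ r * Q ^ r) ^ d := Nat.pow_le_pow_left (Nat.mul_le_mul hQ2 hQ2) _
        _ = (Q ^ d) ^ (2 * r) := by rw [← pow_add, ← pow_mul, ← pow_mul]; congr 1; ring
        _ ≤ (Q ^ d) ^ (2 * (r * d) + 1) := by
            apply Nat.pow_le_pow_right (Nat.one_le_pow _ _ hQpos)
            have : r * 1 ≤ r * d := Nat.mul_le_mul_left _ (by omega)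
            omega) (fun _ => range 2) (fun i _ => ⟨subset_rfl, by simp⟩) {n : ℕ // n ∈ T}
    (fun i => ((i.1 : ℕ) : ℤ) ^ d) (fun i => by
      have h3 := mem_Icc.1 (hT i.2)
      rw [abs_of_nonneg (by positivity)]
      have h4 : i.1 ^ d ≤ B * Q ^ d := (Nat.pow_le_pow_left h3.2 _).trans (Nat.le_mul_of_pos_left _ (by omega))
      exact_mod_cast h4) (by
      refine (hen X (by omega) Q T hT hTQ).trans ?_
      apply mul_le_mul_of_nonneg_right _ (by positivity)
      rw [← hN]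
      exact pow_le_pow_left₀ hl0.le hlXN _) κ hκ
  rw [← hN, hA1, SD_two] at key
  have hfin : (T.card : ℝ) / Real.log (N : ℝ) ^ (U + 1) ≤ T.card / Real.log X ^ U := by
    apply div_le_div_of_nonneg_left (Nat.cast_nonneg _) (by positivity)
    calc Real.log X ^ U ≤ Real.log (N : ℝ) ^ U := pow_le_pow_left₀ hl0.le hlXN U
      _ ≤ _ := pow_le_pow_right₀ (by linarith) (by omega)
  refine le_trans (Nat.cast_le.2 ?_) (key.trans hfin)
  have hsub : ∀ P : ℕ → Prop, ∀ P' : {n : ℕ // n ∈ T} → Prop, (∀ i, P i.1 → P' i) → (T.filter P).card ≤ (univ.filter P').card := by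
    intro P P' hPP
    have e : T.filter P ⊆ (univ.filter P').image (fun i => i.1) := by
      intro n hn
      rw [mem_filter] at hn
      rw [mem_image]
      exact ⟨⟨n, hn.1⟩, mem_filter.2 ⟨mem_univ _, hPP ⟨n, hn.1⟩ hn.2⟩, rfl⟩
    exact (card_le_card e).trans card_image_le
  apply hsub
  rintro ⟨q, hq⟩ ⟨F, ρ, hF1, hF2, hF3, hF4⟩
  have hev : ∀ m : ℕ, (F.comp (Polynomial.C (q : ℤ) * Polynomial.X + Polynomial.C ρ)).eval (m : ℤ) = F.eval (q * (m : ℤ) + ρ) := by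
    intro m
    simp only [eval_comp, eval_add, eval_mul, eval_C, eval_X]
  refine ⟨F.comp (Polynomial.C (q : ℤ) * Polynomial.X + Polynomial.C ρ), comp_lin_degree F d q ρ hF1, ?_, ?_, ?_⟩
  · rw [comp_lin_coeff F d q ρ hF1, hF2]
  · intro m hm
    rw [mem_range] at hm
    rw [hev]
    refine (hF3 m (mem_range.2 (by omega))).trans ?_
    have h5 : (((Q * X) ^ d : ℕ) : ℤ) ≤ ((N : ℕ) : ℤ) := by
      have : (Q * X) ^ d ≤ N := by
        rw [hN, mul_pow, mul_comm d k, pow_mul 2 k d]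
        exact Nat.mul_le_mul_left _ (Nat.pow_le_pow_left hk1.le _)
      exact_mod_cast this
    exact mul_le_mul_of_nonneg_left h5 (Int.natCast_nonneg _)
  · have h6 : ((range (2 ^ k)).card : ℝ) / Real.log (N : ℝ) ^ (U + 1) ≤ X / Real.log X ^ U := by
      rw [card_range]
      have h12 : ((2 ^ k : ℕ) : ℝ) ≤ 2 * X := by exact_mod_cast hk2
      calc ((2 ^ k : ℕ) : ℝ) / Real.log (N : ℝ) ^ (U + 1) ≤ (2 * X) / Real.log X ^ (U + 1) := by
            apply div_le_div₀ (by positivity) h12 (by positivity)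
            exact pow_le_pow_left₀ hl0.le hlXN _
        _ = X / Real.log X ^ U * (2 / Real.log X) := by rw [pow_succ]; field_simp
        _ ≤ X / Real.log X ^ U * 1 := by
            apply mul_le_mul_of_nonneg_left _ (by positivity)
            rw [div_le_one hl0]
            exact hl2
        _ = _ := mul_one _
    refine lt_of_le_of_lt h6 (lt_of_lt_of_le hF4 (Nat.cast_le.2 (card_le_card ?_)))
    intro m hm
    rw [mem_filter, mem_Icc] at hm
    obtain ⟨⟨hm1, hm2⟩, n, hn1, hn2, hn3, hn4⟩ := hm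
    rw [mem_filter, mem_range]
    refine ⟨by omega, n, hn1, hn2, ?_, hn4⟩
    rw [hev]
    exact hn3.trans (pow_le_pow_left₀ hl0.le hlXN _)

end Pool.Agent.Run7.h536.CE
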