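import Pool.Agent.Run7.h536.CE11

set_option autoImplicit false

/-! General forms: any property of almost all members of all families of nearly minimal energy holds for almost all values
of polynomials with thin leading coefficients and arbitrary other coefficients. -/

namespace Pool.Agent.Run7.h536.CE
open Finset Polynomial
open Pool.Agent.H373R2.T7
open Pool.Agent.TH872.Sq
open Pool.Agent.TH212.EH (En enum)
open Pool.Agent.Run7.h536 (En_mono)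

/-- **The energy of the values `F_q(q t + ρ_q)`**, arbitrary `F_q` with given leading coefficient and arbitrary `ρ_q`. -/
theorem ap_energy (d : ℕ) (hd : 2 ≤ d) (r C : ℕ) (hr : 1 ≤ r) : ∃ p C' x₀ : ℕ, 1 ≤ p ∧ ∀ X : ℕ, x₀ ≤ X → ∀ Q : ℕ, Q ≤ X ^ r →
    X ≤ Q ^ r → ∀ T : Finset ℕ, T ⊆ Icc 1 Q → (Q : ℝ) ≤ Real.log X ^ C * T.card → ∀ κ : ℤ, κ ≠ 0 →
    ∀ (F : {n : ℕ // n ∈ T} → ℤ[X]) (ρ : {n : ℕ // n ∈ T} → ℤ), (∀ q, (F q).natDegree ≤ d) → (∀ q, (F q).coeff d = κ) →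
    (En p (fun x : {n : ℕ // n ∈ T} × {t : ℕ // t ∈ (Icc 1 X : Finset ℕ)} => (F x.1).eval (((x.1.1 : ℕ) : ℤ) * ((x.2.1 : ℕ) : ℤ) + ρ x.1)) : ℝ) *
      (((Q * X) ^ d : ℕ) : ℝ) ≤ Real.log (((Q * X) ^ d : ℕ) : ℝ) ^ C' *
      (Fintype.card ({n : ℕ // n ∈ T} × {t : ℕ // t ∈ (Icc 1 X : Finset ℕ)}) : ℝ) ^ (2 * p) := by
  classical
  obtain ⟨e, rfl⟩ : ∃ e, d = e + 2 := ⟨d - 2, by omega⟩
  obtain ⟨d, hde⟩ : ∃ d, d = e + 2 := ⟨_, rfl⟩
  obtain ⟨p, C₁, n1, hp, hen⟩ := energy_moduli (e + 2) C hd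
  obtain ⟨x1, hx1⟩ := dyadic
  obtain ⟨p', C₂, k0, hp', hcr⟩ := cross_energy 2 le_rfl e p (2 * (r * (e + 2)) + 2) 1 C₁ hp (by omega) le_rfl
  rw [← hde] at hd hen hcr ⊢
  obtain ⟨n2, hn2⟩ := ev_L' (k0 + 2 + (2 : ℝ) ^ C₂ * 2 ^ (2 * p'))
  refine ⟨p', C₂ + 1, x1 + n1 + n2 + 2, hp', fun X hX Q hQ1 hQ2 T hT hTQ κ hκ F ρ hF1 hF2 => ?_⟩
  obtain ⟨k, hk1, hk2, hk3, hk4⟩ := hx1 X (by omega)
  have hlog := hn2 X (by omega)
  have q1 : (0 : ℝ) ≤ k0 := Nat.cast_nonneg _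
  have q2 : (0 : ℝ) < (2 : ℝ) ^ C₂ * 2 ^ (2 * p') := by positivity
  have hl2 : 2 ≤ Real.log X := by linarith
  have hk0 : k0 ≤ k := by
    have : (k0 : ℝ) ≤ k := by linarith
    exact_mod_cast this
  have hQpos : 1 ≤ Q := by
    rcases Nat.eq_zero_or_pos Q with h0 | h0
    · rw [h0, zero_pow (by omega)] at hQ2
      omega
    · exact h0
  have hX2 : 2 ≤ X := by omega
  obtain ⟨N, hN⟩ : ∃ N, N = Q ^ d * 2 ^ (d * k) := ⟨_, rfl⟩
  obtain ⟨M, hM⟩ : ∃ M, M = (Q * X) ^ d := ⟨_, rfl⟩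
  have hXM : X ≤ M := by
    rw [hM]
    calc X = 1 * X := (one_mul _).symm
      _ ≤ Q * X := Nat.mul_le_mul_right _ hQpos
      _ ≤ _ := Nat.le_self_pow (by omega) _
  have hMN : M ≤ N := by
    rw [hM, hN, mul_pow, mul_comm d k, pow_mul 2 k d]
    exact Nat.mul_le_mul_left _ (Nat.pow_le_pow_left hk1.le _)
  have hNM : N ≤ M ^ 2 := by
    have h3 : Q * 2 ^ k ≤ (Q * X) * (Q * X) := by
      calc Q * 2 ^ k ≤ Q * (2 * X) := Nat.mul_le_mul_left _ hk2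
        _ ≤ Q * (X * X) := Nat.mul_le_mul_left _ (Nat.mul_le_mul_right _ hX2)
        _ = 1 * Q * (X * X) := by ring
        _ ≤ Q * Q * (X * X) := Nat.mul_le_mul_right _ (Nat.mul_le_mul_right _ hQpos)
        _ = _ := by ring
    calc N = (Q * 2 ^ k) ^ d := by rw [hN, mul_pow, ← pow_mul, mul_comm k d]
      _ ≤ ((Q * X) * (Q * X)) ^ d := Nat.pow_le_pow_left h3 _
      _ = M ^ 2 := by rw [hM, mul_pow, sq]
  have hlXM : Real.log X ≤ Real.log (M : ℝ) := Real.log_le_log (by exact_mod_cast (by omega : 0 < X)) (by exact_mod_cast hXM)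
  have hlMN : Real.log M ≤ Real.log (N : ℝ) := Real.log_le_log (by exact_mod_cast (by omega : 0 < M)) (by exact_mod_cast hMN)
  have hlNM : Real.log N ≤ 2 * Real.log (M : ℝ) := by
    have h4 : (N : ℝ) ≤ (M : ℝ) ^ 2 := by exact_mod_cast hNM
    calc Real.log N ≤ Real.log ((M : ℝ) ^ 2) := Real.log_le_log (by exact_mod_cast (by omega : 0 < N)) h4
      _ = _ := by rw [Real.log_pow]; norm_num
  have hl0 : 0 < Real.log (X : ℝ) := by linarith
  have hev : ∀ (q : {n : ℕ // n ∈ T}) (m : ℤ), ((F q).comp (Polynomial.C (((q.1 : ℕ) : ℤ)) * Polynomial.X + Polynomial.C (ρ q))).eval m =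
      (F q).eval (((q.1 : ℕ) : ℤ) * m + ρ q) := by
    intro q m
    simp only [eval_comp, eval_add, eval_mul, eval_C, eval_X]
  have key := hcr k hk0 (Q ^ d) (by
      rw [show 2 * (r * d) + 2 - 1 = 2 * (r * d) + 1 by omega]
      calc Q ^ d ≤ (X ^ r) ^ d := Nat.pow_le_pow_left hQ1 _
        _ = X ^ (r * d) := by rw [← pow_mul]
        _ ≤ (2 ^ k) ^ (r * d) := Nat.pow_le_pow_left hk1.le _
        _ ≤ (2 ^ (d * k)) ^ (2 * (r * d) + 1) := by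
            rw [← pow_mul, ← pow_mul]
            apply Nat.pow_le_pow_right (by norm_num)
            calc k * (r * d) = 1 * k * (r * d) := by ring
              _ ≤ d * k * (2 * (r * d) + 1) := Nat.mul_le_mul (Nat.mul_le_mul_right _ (by omega)) (by omega)) (by
      rw [show 2 * (r * d) + 2 - 1 = 2 * (r * d) + 1 by omega]
      calc 2 ^ (d * k) = (2 ^ k) ^ d := by rw [← pow_mul, mul_comm]
        _ ≤ (X * X) ^ d := Nat.pow_le_pow_left (hk2.trans (Nat.mul_le_mul_right _ hX2)) _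
        _ ≤ (Q ^ r * Q ^ r) ^ d := Nat.pow_le_pow_left (Nat.mul_le_mul hQ2 hQ2) _
        _ = (Q ^ d) ^ (2 * r) := by rw [← pow_add, ← pow_mul, ← pow_mul]; congr 1; ring
        _ ≤ (Q ^ d) ^ (2 * (r * d) + 1) := by
            apply Nat.pow_le_pow_right (Nat.one_le_pow _ _ hQpos)
            have : r * 1 ≤ r * d := Nat.mul_le_mul_left _ (by omega)
            omega) (fun _ => range 2) (fun i _ => ⟨subset_rfl, by simp⟩) {n : ℕ // n ∈ T}
    (fun i => ((i.1 : ℕ) : ℤ) ^ d) (fun i => by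
      have h3 := mem_Icc.1 (hT i.2)
      rw [abs_of_nonneg (by positivity), Nat.cast_one, one_mul]
      exact_mod_cast Nat.pow_le_pow_left h3.2 _) (by
      refine (hen X (by omega) Q T hT hTQ).trans ?_
      apply mul_le_mul_of_nonneg_right _ (by positivity)
      rw [← hN]
      exact pow_le_pow_left₀ hl0.le (hlXM.trans hlMN) _) κ hκ
    (fun q => (F q).comp (Polynomial.C (((q.1 : ℕ) : ℤ)) * Polynomial.X + Polynomial.C (ρ q)))
    (fun q => comp_lin_degree (F q) d q.1 (ρ q) (hF1 q))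
    (fun q => by rw [comp_lin_coeff (F q) d q.1 (ρ q) (hF1 q), hF2])
  rw [← hN] at key
  simp only [hev] at key
  have hinj : En p' (fun x : {n : ℕ // n ∈ T} × {t : ℕ // t ∈ (Icc 1 X : Finset ℕ)} => (F x.1).eval (((x.1.1 : ℕ) : ℤ) * ((x.2.1 : ℕ) : ℤ) + ρ x.1)) ≤
      En p' (fun x : {n : ℕ // n ∈ T} × {n // n ∈ SD 2 (fun _ => range 2) k} => (F x.1).eval (((x.1.1 : ℕ) : ℤ) * ((x.2.1 : ℕ) : ℤ) + ρ x.1)) := by
    apply En_mono p' (fun x : {n : ℕ // n ∈ T} × {n // n ∈ SD 2 (fun _ => range 2) k} => (F x.1).eval (((x.1.1 : ℕ) : ℤ) * ((x.2.1 : ℕ) : ℤ) + ρ x.1))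
      (fun x : {n : ℕ // n ∈ T} × {t : ℕ // t ∈ (Icc 1 X : Finset ℕ)} => ((x.1, ⟨x.2.1, by
        rw [SD_two, mem_range]
        have := mem_Icc.1 x.2.2
        omega⟩) : {n : ℕ // n ∈ T} × {n // n ∈ SD 2 (fun _ => range 2) k}))
    rintro ⟨a, b⟩ ⟨a', b'⟩ hab
    simp only [Prod.mk.injEq, Subtype.mk.injEq] at hab
    exact Prod.ext hab.1 (Subtype.ext hab.2)
  have hc1 : (Fintype.card ({n : ℕ // n ∈ T} × {n // n ∈ SD 2 (fun _ => range 2) k}) : ℝ) = T.card * ((2 ^ k : ℕ) : ℝ) := by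
    rw [Fintype.card_prod, Fintype.card_coe, Fintype.card_coe, SD_two, card_range]
    push_cast
    ring
  have hc2 : (Fintype.card ({n : ℕ // n ∈ T} × {t : ℕ // t ∈ (Icc 1 X : Finset ℕ)}) : ℝ) = T.card * X := by
    rw [Fintype.card_prod, Fintype.card_coe, Fintype.card_coe, Nat.card_Icc]
    push_cast
    ring
  rw [← hM, hc2]
  rw [hc1] at key
  have hk2r : ((2 ^ k : ℕ) : ℝ) ≤ 2 * X := by exact_mod_cast hk2
  have hM0 : (0 : ℝ) ≤ M := Nat.cast_nonneg _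
  have hlM0 : 0 < Real.log (M : ℝ) := by linarith
  calc _ ≤ (En p' (fun x : {n : ℕ // n ∈ T} × {n // n ∈ SD 2 (fun _ => range 2) k} => (F x.1).eval (((x.1.1 : ℕ) : ℤ) * ((x.2.1 : ℕ) : ℤ) + ρ x.1)) : ℝ) * (N : ℝ) := by
        apply mul_le_mul (by exact_mod_cast hinj) (by exact_mod_cast hMN) hM0 (Nat.cast_nonneg _)
    _ ≤ _ := key
    _ ≤ (2 * Real.log M) ^ C₂ * (T.card * (2 * X)) ^ (2 * p') := by
        apply mul_le_mul
        · exact pow_le_pow_left₀ (by linarith) hlNM _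
        · exact pow_le_pow_left₀ (by positivity) (mul_le_mul_of_nonneg_left hk2r (Nat.cast_nonneg _)) _
        · positivity
        · positivity
    _ = ((2 : ℝ) ^ C₂ * 2 ^ (2 * p')) * (Real.log M ^ C₂ * (T.card * X) ^ (2 * p')) := by
        rw [show (T.card : ℝ) * (2 * X) = 2 * (T.card * X) by ring, mul_pow, mul_pow]
        ring
    _ ≤ Real.log M * (Real.log M ^ C₂ * (T.card * X) ^ (2 * p')) := by
        apply mul_le_mul_of_nonneg_right _ (by positivity)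
        linarith
    _ = _ := by rw [pow_succ]; ring

open Classical in
/-- **General wrapper, all residue classes to almost all large moduli.** -/
theorem wrap_ap (d : ℕ) (hd : 2 ≤ d) (r C U : ℕ) (hr : 1 ≤ r) (Λ : Type 1) (size : ℕ → ℤ → Prop) (bad : ℕ → Λ → ℕ → ℤ → Prop)
    (hBB : ∀ p C : ℕ, 1 ≤ p → ∃ K N₀ : ℕ, ∀ N : ℕ, N₀ ≤ N → ∀ lam : Λ, ∀ (ι : Type) [Fintype ι] (v : ι → ℤ), (∀ i, size N (v i)) →
      (En p v : ℝ) * N ≤ Real.log N ^ C * (Fintype.card ι : ℝ) ^ (2 * p) → ∀ S : Finset ι, (∀ i ∈ S, bad K lam N (v i)) →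
      (S.card : ℝ) ≤ Fintype.card ι / Real.log N ^ (U + U)) :
    ∃ K x₀ : ℕ, ∀ X : ℕ, x₀ ≤ X → ∀ Q : ℕ, Q ≤ X ^ r → X ≤ Q ^ r →
    ∀ T : Finset ℕ, T ⊆ Icc 1 Q → (Q : ℝ) ≤ Real.log X ^ C * T.card → ∀ κ : ℤ, κ ≠ 0 → ∀ lam : Λ,
    ((T.filter (fun q : ℕ => ∃ F : ℤ[X], ∃ ρ : ℤ, F.natDegree ≤ d ∧ F.coeff d = κ ∧
      (∀ t ∈ Icc 1 X, size ((Q * X) ^ d) (F.eval (q * (t : ℤ) + ρ))) ∧
      (X : ℝ) / Real.log X ^ U <
        (((Icc 1 X).filter (fun t : ℕ => bad K lam ((Q * X) ^ d) (F.eval (q * (t : ℤ) + ρ)))).card : ℝ))).card : ℝ) ≤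
      T.card / Real.log X ^ U := by
  obtain ⟨p, C', x1, hp, hen⟩ := ap_energy d hd r (C + U) hr
  obtain ⟨K, N₀, hbb⟩ := hBB p C' hp
  obtain ⟨n1, hn1⟩ := ev_L' 1
  refine ⟨K, x1 + N₀ + n1 + 1, fun X hX Q hQ1 hQ2 T hT hTQ κ hκ lam => ?_⟩
  have hl1 := hn1 X (by omega)
  have hl0 : 0 < Real.log (X : ℝ) := by linarith
  have hQpos : 1 ≤ Q := by
    rcases Nat.eq_zero_or_pos Q with h0 | h0
    · rw [h0, zero_pow (by omega)] at hQ2
      omega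
    · exact h0
  obtain ⟨N, hN⟩ : ∃ N, N = (Q * X) ^ d := ⟨_, rfl⟩
  have hXN : X ≤ N := by
    rw [hN]
    calc X = 1 * X := (one_mul _).symm
      _ ≤ Q * X := Nat.mul_le_mul_right _ hQpos
      _ ≤ _ := Nat.le_self_pow (by omega) _
  have hlXN : Real.log X ≤ Real.log (N : ℝ) := Real.log_le_log (by exact_mod_cast (by omega : 0 < X)) (by exact_mod_cast hXN)
  rw [← hN]
  obtain ⟨Bd, hBd⟩ : ∃ Bd : Finset ℕ, Bd = T.filter (fun q : ℕ => ∃ F : ℤ[X], ∃ ρ : ℤ, F.natDegree ≤ d ∧ F.coeff d = κ ∧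
      (∀ t ∈ Icc 1 X, size N (F.eval (q * (t : ℤ) + ρ))) ∧
      (X : ℝ) / Real.log X ^ U <
        (((Icc 1 X).filter (fun t : ℕ => bad K lam N (F.eval (q * (t : ℤ) + ρ)))).card : ℝ)) := ⟨_, rfl⟩
  rw [← hBd]
  by_contra hcon
  push Not at hcon
  have hBT : Bd ⊆ T := by rw [hBd]; exact filter_subset _ _
  have hmem : ∀ x ∈ Bd, ∃ F : ℤ[X], ∃ ρ : ℤ, F.natDegree ≤ d ∧ F.coeff d = κ ∧
      (∀ t ∈ Icc 1 X, size N (F.eval ((x : ℤ) * (t : ℤ) + ρ))) ∧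
      (X : ℝ) / Real.log X ^ U <
        (((Icc 1 X).filter (fun t : ℕ => bad K lam N (F.eval ((x : ℤ) * (t : ℤ) + ρ)))).card : ℝ) := by
    intro x hx
    rw [hBd, mem_filter] at hx
    exact hx.2
  choose F ρ hF1 hF2 hF3 hF4 using fun i : {n : ℕ // n ∈ Bd} => hmem i.1 i.2
  have hBpos : 0 < (Bd.card : ℝ) := lt_of_le_of_lt (by positivity) hcon
  have hTB : (T.card : ℝ) ≤ Real.log X ^ U * Bd.card := by
    rw [div_lt_iff₀ (by positivity)] at hcon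
    linarith
  have hQB : (Q : ℝ) ≤ Real.log X ^ (C + U) * Bd.card := by
    calc (Q : ℝ) ≤ Real.log X ^ C * T.card := hTQ
      _ ≤ Real.log X ^ C * (Real.log X ^ U * Bd.card) := mul_le_mul_of_nonneg_left hTB (by positivity)
      _ = _ := by rw [pow_add]; ring
  have key := hen X (by omega) Q hQ1 hQ2 Bd (hBT.trans hT) hQB κ hκ F ρ hF1 hF2
  rw [← hN] at key
  obtain ⟨S, hS⟩ : ∃ S : Finset ({n : ℕ // n ∈ Bd} × {t : ℕ // t ∈ (Icc 1 X : Finset ℕ)}),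
      S = univ.filter (fun x => bad K lam N ((F x.1).eval (((x.1.1 : ℕ) : ℤ) * ((x.2.1 : ℕ) : ℤ) + ρ x.1))) := ⟨_, rfl⟩
  have h2 := hbb N (by omega) lam ({n : ℕ // n ∈ Bd} × {t : ℕ // t ∈ (Icc 1 X : Finset ℕ)}) _ (fun x => hF3 x.1 x.2.1 x.2.2) key S (fun x hx => by
      rw [hS, mem_filter] at hx
      exact hx.2)
  have h3 : (Bd.card : ℝ) * (X / Real.log X ^ U) < S.card := by
    have h4 : S.card = ∑ i : {n : ℕ // n ∈ Bd}, ((Icc 1 X).filter (fun t : ℕ => bad K lam N ((F i).eval (((i.1 : ℕ) : ℤ) * (t : ℤ) + ρ i)))).card := by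
      rw [hS, card_filter, ← univ_product_univ, sum_product]
      apply sum_congr rfl
      intro i _
      rw [card_filter, ← sum_coe_sort (Icc 1 X)]
    rw [h4, Nat.cast_sum]
    have h5 : (Bd.card : ℝ) * ((X : ℝ) / Real.log X ^ U) = ∑ _i : {n : ℕ // n ∈ Bd}, (X : ℝ) / Real.log X ^ U := by
      rw [sum_const, card_univ, nsmul_eq_mul, Fintype.card_coe]
    rw [h5]
    have hne : (univ : Finset {n : ℕ // n ∈ Bd}).Nonempty := by
      have : 0 < Bd.card := by exact_mod_cast hBpos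
      obtain ⟨x, hx⟩ := card_pos.1 this
      exact ⟨⟨x, hx⟩, mem_univ _⟩
    exact sum_lt_sum_of_nonempty hne (fun i _ => hF4 i)
  have h6 : (Fintype.card ({n : ℕ // n ∈ Bd} × {t : ℕ // t ∈ (Icc 1 X : Finset ℕ)}) : ℝ) = Bd.card * X := by
    rw [Fintype.card_prod, Fintype.card_coe, Fintype.card_coe, Nat.card_Icc]
    push_cast
    ring
  rw [h6] at h2
  have h7 : (Bd.card : ℝ) * X / Real.log N ^ (U + U) ≤ Bd.card * (X / Real.log X ^ U) := by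
    rw [mul_div_assoc]
    apply mul_le_mul_of_nonneg_left _ hBpos.le
    apply div_le_div_of_nonneg_left (Nat.cast_nonneg _) (by positivity)
    calc Real.log X ^ U ≤ Real.log (N : ℝ) ^ U := pow_le_pow_left₀ hl0.le hlXN U
      _ ≤ _ := pow_le_pow_right₀ (by linarith) (by omega)
  linarith

end Pool.Agent.Run7.h536.CE
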