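import Pool.Agent.TH872.GQ.En

set_option autoImplicit false

/-! Bilinear combinations of two families of integers, with arbitrary perturbations: the inequality of Hölder. -/

namespace Pool.Agent.Run7.h536.TB
open Finset
open Pool.Agent.H807R2.Dav
open Pool.Agent.H373R2.T7 (conj_ee orth sq_expand)
open Pool.Agent.TH212.EH (En)

/-- the difference of two sums of members of a family -/
def df {ι : Type} {R : Type} [AddCommGroup R] (h : ℕ) (v : ι → R) (x : (Fin h → ι) × (Fin h → ι)) : R :=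
  ∑ j, v (x.1 j) - ∑ j, v (x.2 j)

lemma ee_sum {α : Type} (s : Finset α) (f : α → ℝ) : ee (∑ i ∈ s, f i) = ∏ i ∈ s, ee (f i) := by
  classical
  induction s using Finset.induction_on with
  | empty => rw [sum_empty, prod_empty, ee_zero]
  | insert a s ha ih => rw [sum_insert ha, prod_insert ha, ee_add, ih]

lemma expand {ι : Type} [Fintype ι] (h : ℕ) (a : ι → ℝ) :
    ((‖∑ i, ee (a i)‖ ^ (2 * h) : ℝ) : ℂ) = ∑ x : (Fin h → ι) × (Fin h → ι), ee (df h a x) := by
  classical
  have h1 : ((‖∑ i, ee (a i)‖ ^ (2 * h) : ℝ) : ℂ) = (∑ i, ee (a i)) ^ h * (∑ i, ee (-a i)) ^ h := by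
    rw [pow_mul]
    push_cast
    rw [← Complex.mul_conj', map_sum, mul_pow]
    simp only [conj_ee]
  rw [h1, Fintype.sum_pow, Fintype.sum_pow, Fintype.sum_prod_type, sum_mul_sum]
  apply sum_congr rfl
  intro x _
  apply sum_congr rfl
  intro y _
  unfold df
  rw [sub_eq_add_neg, ee_add, ← sum_neg_distrib, ee_sum, ee_sum]

/-- Hölder's inequality, twice -/
theorem core_ineq {ι ι' : Type} [Fintype ι] [Fintype ι'] (h h' : ℕ) (hh : 1 ≤ h) (hh' : 1 ≤ h') (v : ι → ℤ) (v' : ι' → ℤ)
    (F : ι → ℝ) (G : ι' → ℝ) (α : ℝ) :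
    ‖∑ p : ι × ι', ee (α * v p.1 * v' p.2 + F p.1 + G p.2)‖ ^ (2 * h * (2 * h')) ≤
      ((Fintype.card ι' : ℝ) ^ ((2 * h - 1) * (2 * h')) * (Fintype.card ι : ℝ) ^ (2 * h * (2 * h' - 1))) *
        ∑ x : (Fin h → ι) × (Fin h → ι), ‖∑ j, ee (α * df h v x * v' j)‖ ^ (2 * h') := by
  classical
  obtain ⟨Y, hY⟩ : ∃ Y : (Fin h → ι) × (Fin h → ι) → ℝ, ∀ x, Y x = ‖∑ j, ee (α * df h v x * v' j)‖ := ⟨_, fun _ => rfl⟩
  have hY0 : ∀ x, 0 ≤ Y x := fun x => by rw [hY]; exact norm_nonneg _
  simp only [← hY]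
  -- the first step
  have h1 : ‖∑ p : ι × ι', ee (α * v p.1 * v' p.2 + F p.1 + G p.2)‖ ≤ ∑ j, ‖∑ i, ee (α * v i * v' j + F i)‖ := by
    rw [Fintype.sum_prod_type_right]
    refine (norm_sum_le _ _).trans (le_of_eq ?_)
    apply sum_congr rfl
    intro j _
    have e : ∀ i, ee (α * v i * v' j + F i + G j) = ee (α * v i * v' j + F i) * ee (G j) := fun i => ee_add _ _
    simp only [e]
    rw [← sum_mul, norm_mul, norm_ee, mul_one]
  have h2 : (∑ j, ‖∑ i, ee (α * v i * v' j + F i)‖) ^ (2 * h) ≤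
      (Fintype.card ι' : ℝ) ^ (2 * h - 1) * ∑ j, ‖∑ i, ee (α * v i * v' j + F i)‖ ^ (2 * h) := by
    have := pow_sum_le_card_mul_sum_pow (s := (univ : Finset ι')) (f := fun j => ‖∑ i, ee (α * v i * v' j + F i)‖)
      (fun j _ => norm_nonneg _) (2 * h - 1)
    rw [Nat.sub_add_cancel (by omega)] at this
    exact this
  have h3 : ∑ j, ‖∑ i, ee (α * v i * v' j + F i)‖ ^ (2 * h) ≤ ∑ x, Y x := by
    have e1 : ((∑ j, ‖∑ i, ee (α * v i * v' j + F i)‖ ^ (2 * h) : ℝ) : ℂ) =
        ∑ x : (Fin h → ι) × (Fin h → ι), ee (df h F x) * ∑ j, ee (α * df h v x * v' j) := by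
      rw [Complex.ofReal_sum]
      simp only [expand]
      rw [sum_comm]
      apply sum_congr rfl
      intro x _
      rw [mul_sum]
      apply sum_congr rfl
      intro j _
      rw [← ee_add]
      congr 1
      unfold df
      push_cast
      rw [sum_add_distrib, sum_add_distrib]
      simp only [mul_sum, sum_mul, mul_sub, sub_mul]
      ring
    have e2 : 0 ≤ ∑ j, ‖∑ i, ee (α * v i * v' j + F i)‖ ^ (2 * h) := sum_nonneg fun _ _ => by positivity
    rw [← Real.norm_of_nonneg e2, ← Complex.norm_real, e1]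
    refine (norm_sum_le _ _).trans (le_of_eq ?_)
    apply sum_congr rfl
    intro x _
    rw [norm_mul, norm_ee, one_mul, hY]
  have h4 : (∑ x, Y x) ^ (2 * h') ≤ ((Fintype.card ι : ℝ) ^ (2 * h)) ^ (2 * h' - 1) * ∑ x, Y x ^ (2 * h') := by
    have := pow_sum_le_card_mul_sum_pow (s := (univ : Finset ((Fin h → ι) × (Fin h → ι)))) (f := Y)
      (fun x _ => hY0 x) (2 * h' - 1)
    rw [Nat.sub_add_cancel (by omega), card_univ, Fintype.card_prod, Fintype.card_fun, Fintype.card_fin] at this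
    refine this.trans (le_of_eq ?_)
    congr 2
    push_cast
    rw [two_mul, pow_add]
  have hs0 : 0 ≤ ∑ x, Y x := sum_nonneg fun x _ => hY0 x
  rw [pow_mul]
  calc (‖∑ p : ι × ι', ee (α * v p.1 * v' p.2 + F p.1 + G p.2)‖ ^ (2 * h)) ^ (2 * h') ≤
      ((Fintype.card ι' : ℝ) ^ (2 * h - 1) * ∑ x, Y x) ^ (2 * h') := by
        apply pow_le_pow_left₀ (by positivity)
        refine (pow_le_pow_left₀ (norm_nonneg _) h1 _).trans (h2.trans ?_)
        exact mul_le_mul_of_nonneg_left h3 (by positivity)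
    _ = (Fintype.card ι' : ℝ) ^ ((2 * h - 1) * (2 * h')) * (∑ x, Y x) ^ (2 * h') := by rw [mul_pow, ← pow_mul]
    _ ≤ (Fintype.card ι' : ℝ) ^ ((2 * h - 1) * (2 * h')) *
        (((Fintype.card ι : ℝ) ^ (2 * h)) ^ (2 * h' - 1) * ∑ x, Y x ^ (2 * h')) :=
        mul_le_mul_of_nonneg_left h4 (by positivity)
    _ = _ := by rw [← pow_mul]; exact (mul_assoc _ _ _).symm

/-- number of pairs with a given difference -/
lemma shift_count {X : Type} [Fintype X] [DecidableEq X] (σ : X → ℤ) (s : ℤ) :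
    (univ.filter (fun q : X × X => σ q.1 - σ q.2 = s)).card ≤ (univ.filter (fun q : X × X => σ q.1 = σ q.2)).card := by
  obtain ⟨T, hT⟩ : ∃ T : Finset ℤ, T = univ.image σ ∪ univ.image (fun y => σ y + s) := ⟨_, rfl⟩
  obtain ⟨A, hA⟩ : ∃ A : ℤ → ℕ, ∀ t, A t = (univ.filter (fun x => σ x = t)).card := ⟨_, fun _ => rfl⟩
  obtain ⟨B, hB⟩ : ∃ B : ℤ → ℕ, ∀ t, B t = (univ.filter (fun y => σ y + s = t)).card := ⟨_, fun _ => rfl⟩
  have h1 : (univ.filter (fun q : X × X => σ q.1 - σ q.2 = s)).card = ∑ t ∈ T, A t * B t := by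
    rw [card_eq_sum_card_fiberwise (f := fun q : X × X => σ q.1) (t := T)]
    · apply sum_congr rfl
      intro t _
      rw [hA, hB, ← card_product]
      congr 1
      ext q
      simp only [mem_filter, mem_univ, true_and, mem_product]
      constructor
      · rintro ⟨h1, h2⟩
        exact ⟨h2, by omega⟩
      · rintro ⟨h1, h2⟩
        exact ⟨by omega, h1⟩
    · intro q _
      rw [mem_coe, hT, mem_union]
      exact Or.inl (mem_image_of_mem _ (mem_univ _))
  have h2 : (univ.filter (fun q : X × X => σ q.1 = σ q.2)).card = ∑ t ∈ T, A t * A t := by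
    rw [card_eq_sum_card_fiberwise (f := fun q : X × X => σ q.1) (t := T)]
    · apply sum_congr rfl
      intro t _
      rw [hA, ← card_product]
      congr 1
      ext q
      simp only [mem_filter, mem_univ, true_and, mem_product]
      constructor
      · rintro ⟨h1, h2⟩
        exact ⟨h2, by omega⟩
      · rintro ⟨h1, h2⟩
        exact ⟨by omega, h1⟩
    · intro q _
      rw [mem_coe, hT, mem_union]
      exact Or.inl (mem_image_of_mem _ (mem_univ _))
  have h3 : (univ.filter (fun q : X × X => σ q.1 = σ q.2)).card = ∑ t ∈ T, B t * B t := by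
    rw [card_eq_sum_card_fiberwise (f := fun q : X × X => σ q.1 + s) (t := T)]
    · apply sum_congr rfl
      intro t _
      rw [hB, ← card_product]
      congr 1
      ext q
      simp only [mem_filter, mem_univ, true_and, mem_product]
      constructor
      · rintro ⟨h1, h2⟩
        exact ⟨h2, by omega⟩
      · rintro ⟨h1, h2⟩
        exact ⟨by omega, h1⟩
    · intro q _
      rw [mem_coe, hT, mem_union]
      exact Or.inr (mem_image_of_mem (fun y => σ y + s) (mem_univ _))
  have h4 : 2 * ∑ t ∈ T, A t * B t ≤ ∑ t ∈ T, A t * A t + ∑ t ∈ T, B t * B t := by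
    rw [mul_sum, ← sum_add_distrib]
    apply sum_le_sum
    intro t _
    have := two_mul_le_add_sq (A t) (B t)
    nlinarith
  rw [← h1, ← h2, ← h3] at h4
  omega

lemma rep_le {ι : Type} [Fintype ι] [DecidableEq ι] (h : ℕ) (v : ι → ℤ) (s : ℤ) :
    (univ.filter (fun x : (Fin h → ι) × (Fin h → ι) => df h v x = s)).card ≤ En h v := by
  have h1 := shift_count (fun a : Fin h → ι => ∑ j, v (a j)) s
  unfold df En
  rw [Nat.card_eq_fintype_card, Fintype.card_subtype]
  exact h1

lemma En_eq {ι : Type} [Fintype ι] [DecidableEq ι] (h : ℕ) (v : ι → ℤ) :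
    (univ.filter (fun x : (Fin h → ι) × (Fin h → ι) => df h v x = 0)).card = En h v := by
  unfold df En
  rw [Nat.card_eq_fintype_card, Fintype.card_subtype]
  congr 1
  ext q
  simp only [mem_filter, mem_univ, true_and, sub_eq_zero]

end Pool.Agent.Run7.h536.TB
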