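import Pool.Agent.Run7.h536.CE12
import Pool.Agent.Run7.h536.TB1
import Pool.Agent.TH935.TF9

set_option autoImplicit false

/-! Systems of linear forms whose constant terms are values of polynomials with thin leading coefficients and arbitrary
other coefficients: the Hardy-Littlewood formulas hold outside of a small exceptional set. -/

namespace Pool.Agent.Run7.h536.CE
open Finset Polynomial
open Pool.Agent.H373R2.T7
open Pool.Agent.TH212.EH (En)
open Pool.Agent.Run7.h536.TB (df rep_le)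
open Pool.Agent.TH935.TF

lemma En_succ {ι : Type} [Fintype ι] (h : ℕ) (v : ι → ℤ) : En (h + 1) v ≤ Fintype.card ι ^ 2 * En h v := by
  classical
  have h1 : En (h + 1) v = (univ.filter (fun x : (Fin (h + 1) → ι) × (Fin (h + 1) → ι) => ∑ j, v (x.1 j) = ∑ j, v (x.2 j))).card := by
    unfold En
    rw [Nat.card_eq_fintype_card, Fintype.card_subtype]
  rw [h1, card_eq_sum_card_fiberwise (f := fun x : (Fin (h + 1) → ι) × (Fin (h + 1) → ι) => (x.1 0, x.2 0)) (t := univ)
    (fun _ _ => mem_coe.2 (mem_univ _))]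
  calc _ ≤ ∑ _c : ι × ι, En h v := by
        apply sum_le_sum
        intro c _
        refine le_trans ?_ (rep_le h v (v c.2 - v c.1))
        apply card_le_card_of_injOn (fun x => (fun j => x.1 j.succ, fun j => x.2 j.succ))
        · intro x hx
          rw [mem_coe, mem_filter, mem_filter] at hx
          rw [mem_coe, mem_filter]
          refine ⟨mem_univ _, ?_⟩
          obtain ⟨⟨_, h2⟩, h3⟩ := hx
          rw [Fin.sum_univ_succ, Fin.sum_univ_succ] at h2
          unfold df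
          rw [← h3]
          simp only
          linarith
        · intro x hx y hy hxy
          rw [mem_coe, mem_filter] at hx hy
          simp only [Prod.mk.injEq] at hxy
          have h3 := hx.2.trans hy.2.symm
          simp only [Prod.mk.injEq] at h3
          apply Prod.ext
          · funext j
            refine Fin.cases h3.1 (fun j => congrFun hxy.1 j) j
          · funext j
            refine Fin.cases h3.2 (fun j => congrFun hxy.2 j) j
    _ = _ := by
        rw [sum_const, card_univ, Fintype.card_prod, smul_eq_mul]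
        ring

lemma En_raise {ι : Type} [Fintype ι] (h h' : ℕ) (hh : h ≤ h') (v : ι → ℤ) :
    (En h' v : ℝ) ≤ (Fintype.card ι : ℝ) ^ (2 * (h' - h)) * En h v := by
  induction h', hh using Nat.le_induction with
  | base => simp
  | succ n hn ih =>
      have h1 : (En (n + 1) v : ℝ) ≤ (Fintype.card ι : ℝ) ^ 2 * En n v := by exact_mod_cast En_succ n v
      calc (En (n + 1) v : ℝ) ≤ (Fintype.card ι : ℝ) ^ 2 * En n v := h1
        _ ≤ (Fintype.card ι : ℝ) ^ 2 * ((Fintype.card ι : ℝ) ^ (2 * (n - h)) * En h v) := mul_le_mul_of_nonneg_left ih (by positivity)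
        _ = _ := by
            rw [← mul_assoc, ← pow_add]
            congr 2
            omega

/-- a bound of the energy implies one for all higher orders -/
lemma low_raise {ι : Type} [Fintype ι] (h h' : ℕ) (hh : h ≤ h') (v : ι → ℤ) (N L : ℝ) (hN : 0 ≤ N)
    (hE : (En h v : ℝ) * N ≤ L * (Fintype.card ι : ℝ) ^ (2 * h)) :
    (En h' v : ℝ) * N ≤ L * (Fintype.card ι : ℝ) ^ (2 * h') := by
  calc (En h' v : ℝ) * N ≤ ((Fintype.card ι : ℝ) ^ (2 * (h' - h)) * En h v) * N := mul_le_mul_of_nonneg_right (En_raise h h' hh v) hN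
    _ = (Fintype.card ι : ℝ) ^ (2 * (h' - h)) * (En h v * N) := by ring
    _ ≤ (Fintype.card ι : ℝ) ^ (2 * (h' - h)) * (L * (Fintype.card ι : ℝ) ^ (2 * h)) := mul_le_mul_of_nonneg_left hE (by positivity)
    _ = L * ((Fintype.card ι : ℝ) ^ (2 * (h' - h)) * (Fintype.card ι : ℝ) ^ (2 * h)) := by ring
    _ = _ := by
        rw [← pow_add]
        congr 2
        omega

lemma En_shift {ι : Type} [Fintype ι] (h : ℕ) (v : ι → ℤ) (c : ℤ) : En h (fun i => v i + c) = En h v := by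
  unfold En
  apply Nat.card_congr
  apply Equiv.subtypeEquivRight
  intro q
  rw [sum_add_distrib, sum_add_distrib, add_left_inj]

lemma HW_mono {k m : ℕ} (sA sB : (Fin k → ℤ) → (Fin m → ℤ)) (ε : ℝ) (A B B' D N : ℕ) (hB : B ≤ B') (β : Fin k → ℤ)
    (h : HW sA sB ε A B' D N β) : HW sA sB ε A B D N β := by
  intro α hα hαL hadm hdist
  obtain ⟨S, hS0, hSt, hS⟩ := h α hα hαL hadm hdist
  exact ⟨S, hS0, hSt, fun y₁ y₂ h12 hy2 hΔ => hS y₁ y₂ h12 (hy2.trans (Nat.mul_le_mul_right _ hB)) hΔ⟩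

/-- all small shifts of the constant terms at once -/
theorem sys_shift {k m : ℕ} {w : ℕ → ℝ} {sA sB : (Fin k → ℤ) → (Fin m → ℤ)} (hs : Sys k m w sA sB) (hk : 1 ≤ k)
    (h A B C D U : ℕ) (ε : ℝ) (hε : 0 < ε) : ∃ N₀ : ℕ, ∀ N : ℕ, N₀ ≤ N → ∀ (ι : Fin k → Type) [∀ i, Fintype (ι i)] (v : ∀ i, ι i → ℤ),
    (∀ i j, |v i j| ≤ B * N) →
    (∀ i, (En h (v i) : ℝ) * N ≤ Real.log N ^ C * (Fintype.card (ι i) : ℝ) ^ (2 * h)) →
    ∀ 𝒮 : Finset (∀ i, ι i), (∀ q ∈ 𝒮, ¬ ∀ c : Fin k → ℤ, (∀ i, (|c i| : ℝ) ≤ Real.log N ^ D) →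
      HW sA sB ε A B D N (fun i => v i (q i) + c i)) →
    (𝒮.card : ℝ) ≤ (∏ i, (Fintype.card (ι i) : ℝ)) / Real.log N ^ U := by
  classical
  obtain ⟨N₀, h0⟩ := transferP (k := k) h (B + 1) C (U + (D + 1) * k) (fun N β => HW sA sB ε A (B + 1) D N β)
    (fam_sys hs hk h A (B + 1) C D (U + (D + 1) * k) ε hε)
  obtain ⟨n1, h1⟩ := ev_L' 3
  obtain ⟨n2, h2⟩ := ev_log' D 1
  refine ⟨N₀ + n1 + n2 + 1, fun N hN ι _ v hv hE 𝒮 hS => ?_⟩
  have hL3 := h1 N (by omega)
  have hLD := h2 N (by omega)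
  rw [one_mul] at hLD
  obtain ⟨L, hL⟩ : ∃ L, L = Real.log (N : ℝ) := ⟨_, rfl⟩
  rw [← hL] at hL3 hLD hS hE ⊢
  have hL0 : 0 < L := by linarith
  have hN1 : (1 : ℝ) ≤ N := by exact_mod_cast (by omega : 1 ≤ N)
  have hsq : Real.sqrt N ≤ N := by
    rw [Real.sqrt_le_left (by linarith)]
    nlinarith
  obtain ⟨M, hM⟩ : ∃ M : ℤ, M = ⌊L ^ D⌋ := ⟨_, rfl⟩
  have hM0 : 0 ≤ M := by rw [hM]; exact Int.floor_nonneg.2 (by positivity)
  have hML : (M : ℝ) ≤ L ^ D := by rw [hM]; exact Int.floor_le _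
  obtain ⟨Cs, hCs⟩ : ∃ Cs : Finset (Fin k → ℤ), Cs = Fintype.piFinset (fun _ => Icc (-M) M) := ⟨_, rfl⟩
  have hsub : 𝒮 ⊆ Cs.biUnion (fun c => 𝒮.filter (fun q => ¬ HW sA sB ε A (B + 1) D N (fun i => v i (q i) + c i))) := by
    intro q hq
    have h5 := hS q hq
    push Not at h5
    obtain ⟨c, hc1, hc2⟩ := h5
    rw [mem_biUnion]
    refine ⟨c, ?_, mem_filter.2 ⟨hq, fun hH => hc2 (HW_mono sA sB ε A B (B + 1) D N (by omega) _ hH)⟩⟩
    rw [hCs, Fintype.mem_piFinset]
    intro i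
    have h6 : |c i| ≤ M := by
      rw [hM, Int.le_floor]
      push_cast
      exact hc1 i
    rw [mem_Icc]
    exact abs_le.1 h6
  have hcardc : ∀ c ∈ Cs, ((𝒮.filter (fun q => ¬ HW sA sB ε A (B + 1) D N (fun i => v i (q i) + c i))).card : ℝ) ≤
      (∏ i, (Fintype.card (ι i) : ℝ)) / L ^ (U + (D + 1) * k) := by
    intro c hc
    rw [hL]
    rw [hCs, Fintype.mem_piFinset] at hc
    apply h0 N (by omega) ι (fun i j => v i j + c i)
    · intro i j
      have h6 := mem_Icc.1 (hc i)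
      have h7 : |c i| ≤ M := abs_le.2 h6
      have h8 : M ≤ N := by
        have : (M : ℝ) ≤ N := hML.trans (hLD.trans hsq)
        exact_mod_cast this
      calc |v i j + c i| ≤ |v i j| + |c i| := abs_add_le _ _
        _ ≤ B * N + N := add_le_add (hv i j) (h7.trans h8)
        _ = ((B + 1 : ℕ) : ℤ) * N := by push_cast; ring
    · intro i
      have e : Pool.Agent.TH935.GF.En h (fun j => v i j + c i) = En h (v i) := En_shift h (v i) (c i)
      rw [e, ← hL]
      exact hE i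
    · intro q hq
      exact (mem_filter.1 hq).2
  have hcc : (Cs.card : ℝ) ≤ L ^ ((D + 1) * k) := by
    rw [hCs, Fintype.card_piFinset, prod_const, card_univ, Fintype.card_fin, Int.card_Icc]
    push_cast
    rw [pow_mul]
    apply pow_le_pow_left₀ (Nat.cast_nonneg _)
    have e : (((M + 1 - -M).toNat : ℕ) : ℝ) = 2 * (M : ℝ) + 1 := by
      have : ((M + 1 - -M).toNat : ℤ) = 2 * M + 1 := by
        rw [Int.toNat_of_nonneg (by omega)]
        ring
      exact_mod_cast this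
    rw [e, pow_succ]
    have h9 : 1 ≤ L ^ D := one_le_pow₀ (by linarith)
    nlinarith
  have hP : 0 ≤ ∏ i, (Fintype.card (ι i) : ℝ) := prod_nonneg fun i _ => Nat.cast_nonneg _
  calc (𝒮.card : ℝ) ≤ ((Cs.biUnion (fun c => 𝒮.filter (fun q => ¬ HW sA sB ε A (B + 1) D N (fun i => v i (q i) + c i)))).card : ℝ) := by
        exact_mod_cast card_le_card hsub
    _ ≤ ∑ c ∈ Cs, ((𝒮.filter (fun q => ¬ HW sA sB ε A (B + 1) D N (fun i => v i (q i) + c i))).card : ℝ) := by
        exact_mod_cast card_biUnion_le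
    _ ≤ ∑ _c ∈ Cs, (∏ i, (Fintype.card (ι i) : ℝ)) / L ^ (U + (D + 1) * k) := sum_le_sum hcardc
    _ = Cs.card * ((∏ i, (Fintype.card (ι i) : ℝ)) / L ^ (U + (D + 1) * k)) := by rw [sum_const, nsmul_eq_mul]
    _ ≤ L ^ ((D + 1) * k) * ((∏ i, (Fintype.card (ι i) : ℝ)) / L ^ (U + (D + 1) * k)) := by
        apply mul_le_mul_of_nonneg_right hcc
        positivity
    _ = _ := by
        rw [pow_add]
        field_simp

end Pool.Agent.Run7.h536.CE
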