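import Pool.Agent.Run7.h536.CE13

set_option autoImplicit false

/-! Systems of linear forms whose constant terms are values of polynomials with thin leading coefficients and arbitrary
other coefficients. -/

namespace Pool.Agent.Run7.h536.CE
open Finset Polynomial
open Pool.Agent.H373R2.T7
open Pool.Agent.TH212.EH (En)
open Pool.Agent.TH935.TF

/-- **Systems of linear forms, constant terms `F(q t + ρ)` with adversarial `F` and `ρ`.** -/
theorem sys_ap {k m : ℕ} {w : ℕ → ℝ} {sA sB : (Fin k → ℤ) → (Fin m → ℤ)} (hs : Sys k m w sA sB) (hk : 1 ≤ k)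
    (d : Fin k → ℕ) (hd : ∀ l, 2 ≤ d l) (r A B C D J U : ℕ) (hr : 1 ≤ r) (ε : ℝ) (hε : 0 < ε) :
    ∃ N₀ : ℕ, ∀ N : ℕ, N₀ ≤ N → ∀ (Q X : Fin k → ℕ) (T : Fin k → Finset ℕ) (κ : Fin k → ℤ),
    (∀ l, Q l ≤ X l ^ r) → (∀ l, X l ≤ Q l ^ r) → (∀ l, T l ⊆ Icc 1 (Q l)) →
    (∀ l, (Q l : ℝ) ≤ Real.log N ^ C * (T l).card) → (∀ l, κ l ≠ 0) →
    (∀ l, (N : ℝ) ≤ Real.log N ^ J * (((Q l * X l) ^ d l : ℕ) : ℝ)) → (∀ l, (((Q l * X l) ^ d l : ℕ) : ℝ) ≤ Real.log N ^ J * N) →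
    ∀ (F : ∀ l, {q : ℕ // q ∈ T l} → ℤ[X]) (ρ : ∀ l, {q : ℕ // q ∈ T l} → ℤ),
    (∀ l q, (F l q).natDegree ≤ d l) → (∀ l q, (F l q).coeff (d l) = κ l) →
    (∀ l q, ∀ t ∈ Icc 1 (X l), |(F l q).eval (((q.1 : ℕ) : ℤ) * (t : ℤ) + ρ l q)| ≤ B * N) →
    ∀ 𝒮 : Finset (∀ l, {q : ℕ // q ∈ T l} × {t : ℕ // t ∈ (Icc 1 (X l) : Finset ℕ)}),
    (∀ s ∈ 𝒮, ¬ ∀ c : Fin k → ℤ, (∀ i, (|c i| : ℝ) ≤ Real.log N ^ D) → HW sA sB ε A B D N
      (fun l => (F l (s l).1).eval ((((s l).1.1 : ℕ) : ℤ) * (((s l).2.1 : ℕ) : ℤ) + ρ l (s l).1) + c l)) →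
    (𝒮.card : ℝ) ≤ (∏ l, ((T l).card : ℝ) * X l) / Real.log N ^ U := by
  classical
  choose p C' x₀ hp hen using fun l => ap_energy (d l) (hd l) r (C + 1) hr
  obtain ⟨ps, hps⟩ : ∃ ps, ps = univ.sup p := ⟨_, rfl⟩
  obtain ⟨Cs, hCs⟩ : ∃ Cs, Cs = univ.sup C' := ⟨_, rfl⟩
  obtain ⟨xs, hxs⟩ : ∃ xs, xs = univ.sup x₀ := ⟨_, rfl⟩
  obtain ⟨ds, hds⟩ : ∃ ds, ds = univ.sup d := ⟨_, rfl⟩
  have hps' : ∀ l, p l ≤ ps := fun l => by rw [hps]; exact le_sup (mem_univ l)
  have hCs' : ∀ l, C' l ≤ Cs := fun l => by rw [hCs]; exact le_sup (mem_univ l)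
  have hxs' : ∀ l, x₀ l ≤ xs := fun l => by rw [hxs]; exact le_sup (mem_univ l)
  have hds' : ∀ l, d l ≤ ds := fun l => by rw [hds]; exact le_sup (mem_univ l)
  obtain ⟨e, he⟩ : ∃ e : ℕ, e = 2 * ((r + 1) * ds) + 1 := ⟨_, rfl⟩
  obtain ⟨N₀, h0⟩ := sys_shift hs hk ps A B (J + Cs + 1) D U ε hε
  obtain ⟨n1, h1⟩ := ev_L' ((e : ℝ) * ((e : ℝ) ^ C + xs + 1) + 2 ^ Cs + 3)
  obtain ⟨n2, h2⟩ := ev_log' J 1
  refine ⟨N₀ + n1 + n2 + 1, fun N hN Q X T κ hQ1 hQ2 hT hTQ hκ hN1 hN2 F ρ hF1 hF2 hF3 𝒮 hS => ?_⟩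
  have hLb := h1 N (by omega)
  have hLJ := h2 N (by omega)
  rw [one_mul] at hLJ
  have h00 := h0 N (by omega)
  obtain ⟨L, hL⟩ : ∃ L, L = Real.log (N : ℝ) := ⟨_, rfl⟩
  rw [← hL] at hLb hLJ h00 hTQ hN1 hN2 hS ⊢
  have he1 : (1 : ℝ) ≤ e := by rw [he]; push_cast; have : (0 : ℝ) ≤ 2 * ((r + 1) * ds) := by positivity
                               linarith
  have he0 : (0 : ℝ) < e := by linarith
  have q1 : 0 ≤ (e : ℝ) * ((e : ℝ) ^ C + xs + 1) := by positivity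
  have q2 : (0 : ℝ) < 2 ^ Cs := by positivity
  have hL3 : 3 ≤ L := by linarith
  have hL0 : 0 < L := by linarith
  have hNpos : (1 : ℝ) ≤ N := by exact_mod_cast (by omega : 1 ≤ N)
  have hs0 : 0 < Real.sqrt N := Real.sqrt_pos.2 (by linarith)
  have hss : Real.sqrt N * Real.sqrt N = N := Real.mul_self_sqrt (by linarith)
  have hlogs : Real.log (Real.sqrt N) = L / 2 := by rw [Real.log_sqrt (by linarith), hL]
  have hcard : ∀ l, (Fintype.card ({q : ℕ // q ∈ T l} × {t : ℕ // t ∈ (Icc 1 (X l) : Finset ℕ)}) : ℝ) = (T l).card * X l := by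
    intro l
    rw [Fintype.card_prod, Fintype.card_coe, Fintype.card_coe, Nat.card_Icc]
    push_cast
    ring
  have key := h00 (fun l => {q : ℕ // q ∈ T l} × {t : ℕ // t ∈ (Icc 1 (X l) : Finset ℕ)})
    (fun l x => (F l x.1).eval (((x.1.1 : ℕ) : ℤ) * ((x.2.1 : ℕ) : ℤ) + ρ l x.1)) (fun l x => hF3 l x.1 x.2.1 x.2.2) (by
      intro l
      obtain ⟨M, hM⟩ : ∃ M : ℕ, M = (Q l * X l) ^ d l := ⟨_, rfl⟩
      have hNM := hN1 l
      have hMN := hN2 l
      rw [← hM] at hNM hMN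
      have hM0 : 0 < M := by
        rcases Nat.eq_zero_or_pos M with h3 | h3
        · rw [h3, Nat.cast_zero, mul_zero] at hNM
          linarith
        · exact h3
      have hMX : (M : ℝ) ≤ (X l : ℝ) ^ ((r + 1) * d l) := by
        have : M ≤ X l ^ ((r + 1) * d l) := by
          rw [hM, pow_mul]
          apply Nat.pow_le_pow_left
          rw [pow_succ]
          exact Nat.mul_le_mul_right _ (hQ1 l)
        exact_mod_cast this
      have hX1 : 1 ≤ X l := by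
        rcases Nat.eq_zero_or_pos (X l) with h3 | h3
        · rw [h3, mul_zero, zero_pow (by have := hd l; omega)] at hM
          omega
        · exact h3
      have hX1r : (1 : ℝ) ≤ X l := by exact_mod_cast hX1
      have hlX0 : 0 ≤ Real.log (X l : ℝ) := Real.log_nonneg hX1r
      have hLX : L ≤ e * Real.log (X l : ℝ) := by
        have h3 : Real.sqrt N ≤ (X l : ℝ) ^ ((r + 1) * d l) := by
          have h4 : Real.sqrt N * Real.sqrt N ≤ Real.sqrt N * (X l : ℝ) ^ ((r + 1) * d l) := by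
            rw [hss]
            calc (N : ℝ) ≤ L ^ J * M := hNM
              _ ≤ Real.sqrt N * (X l : ℝ) ^ ((r + 1) * d l) := mul_le_mul hLJ hMX (Nat.cast_nonneg _) hs0.le
          exact le_of_mul_le_mul_left h4 hs0
        have h5 := Real.log_le_log hs0 h3
        rw [hlogs, Real.log_pow] at h5
        have h6 : (((r + 1) * d l : ℕ) : ℝ) ≤ (((r + 1) * ds : ℕ) : ℝ) := by exact_mod_cast Nat.mul_le_mul_left _ (hds' l)
        have h7 : (((r + 1) * d l : ℕ) : ℝ) * Real.log (X l : ℝ) ≤ (((r + 1) * ds : ℕ) : ℝ) * Real.log (X l : ℝ) :=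
          mul_le_mul_of_nonneg_right h6 hlX0
        rw [he]
        push_cast at h7 h5 ⊢
        nlinarith
      have hlXb : (e : ℝ) ^ C + xs + 1 ≤ Real.log (X l : ℝ) := by
        have h3 : (e : ℝ) * ((e : ℝ) ^ C + xs + 1) ≤ e * Real.log (X l : ℝ) := by linarith
        exact le_of_mul_le_mul_left h3 he0
      have hq3 : (1 : ℝ) ≤ (e : ℝ) ^ C := one_le_pow₀ he1
      have hq4 : (0 : ℝ) ≤ xs := Nat.cast_nonneg _
      have hXx : x₀ l ≤ X l := by
        refine (hxs' l).trans ?_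
        have h3 : Real.log (X l : ℝ) ≤ X l := by
          have := Real.log_le_sub_one_of_pos (by linarith : (0 : ℝ) < X l)
          linarith
        have h4 : (xs : ℝ) ≤ X l := by linarith
        exact_mod_cast h4
      have hdens : (Q l : ℝ) ≤ Real.log (X l : ℝ) ^ (C + 1) * (T l).card := by
        calc (Q l : ℝ) ≤ L ^ C * (T l).card := hTQ l
          _ ≤ (e * Real.log (X l : ℝ)) ^ C * (T l).card := by gcongr
          _ = (e : ℝ) ^ C * Real.log (X l : ℝ) ^ C * (T l).card := by rw [mul_pow]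
          _ ≤ Real.log (X l : ℝ) * Real.log (X l : ℝ) ^ C * (T l).card := by
              apply mul_le_mul_of_nonneg_right _ (Nat.cast_nonneg _)
              apply mul_le_mul_of_nonneg_right _ (by positivity)
              linarith
          _ = _ := by rw [pow_succ]; ring
      have h8 := hen l (X l) hXx (Q l) (hQ1 l) (hQ2 l) (T l) (hT l) hdens (κ l) (hκ l) (F l) (ρ l) (hF1 l) (hF2 l)
      rw [← hM] at h8
      apply low_raise (p l) ps (hps' l) _ N (L ^ (J + Cs + 1)) (by linarith)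
      have hlM : Real.log (M : ℝ) ≤ 2 * L := by
        have h9 : (M : ℝ) ≤ (N : ℝ) ^ 2 := by
          calc (M : ℝ) ≤ L ^ J * N := hMN
            _ ≤ N * N := by
                apply mul_le_mul_of_nonneg_right _ (by linarith)
                refine hLJ.trans ?_
                rw [Real.sqrt_le_left (by linarith)]
                nlinarith
            _ = _ := by ring
        have h10 := Real.log_le_log (by exact_mod_cast hM0) h9
        rw [Real.log_pow, ← hL] at h10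
        exact_mod_cast h10
      have hlM0 : 0 ≤ Real.log (M : ℝ) := Real.log_natCast_nonneg M
      obtain ⟨c, hc⟩ : ∃ c : ℝ, c = (Fintype.card ({q : ℕ // q ∈ T l} × {t : ℕ // t ∈ (Icc 1 (X l) : Finset ℕ)}) : ℝ) := ⟨_, rfl⟩
      rw [← hc] at h8 ⊢
      have hc0 : 0 ≤ c := by rw [hc]; exact Nat.cast_nonneg _
      have h11 : Real.log (M : ℝ) ^ C' l ≤ L ^ (Cs + 1) := by
        calc Real.log (M : ℝ) ^ C' l ≤ (2 * L) ^ C' l := pow_le_pow_left₀ hlM0 hlM _
          _ ≤ (2 * L) ^ Cs := pow_le_pow_right₀ (by linarith) (hCs' l)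
          _ = 2 ^ Cs * L ^ Cs := by rw [mul_pow]
          _ ≤ L * L ^ Cs := by
              apply mul_le_mul_of_nonneg_right _ (by positivity)
              linarith
          _ = _ := by rw [pow_succ]; ring
      calc _ ≤ (En (p l) (fun x : {q : ℕ // q ∈ T l} × {t : ℕ // t ∈ (Icc 1 (X l) : Finset ℕ)} =>
              (F l x.1).eval (((x.1.1 : ℕ) : ℤ) * ((x.2.1 : ℕ) : ℤ) + ρ l x.1)) : ℝ) * (L ^ J * M) :=
            mul_le_mul_of_nonneg_left hNM (Nat.cast_nonneg _)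
        _ = L ^ J * ((En (p l) (fun x : {q : ℕ // q ∈ T l} × {t : ℕ // t ∈ (Icc 1 (X l) : Finset ℕ)} =>
              (F l x.1).eval (((x.1.1 : ℕ) : ℤ) * ((x.2.1 : ℕ) : ℤ) + ρ l x.1)) : ℝ) * M) := by ring
        _ ≤ L ^ J * (Real.log (M : ℝ) ^ C' l * c ^ (2 * p l)) := mul_le_mul_of_nonneg_left h8 (by positivity)
        _ ≤ L ^ J * (L ^ (Cs + 1) * c ^ (2 * p l)) := by
            apply mul_le_mul_of_nonneg_left _ (by positivity)
            exact mul_le_mul_of_nonneg_right h11 (by positivity)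
        _ = _ := by
            rw [show J + Cs + 1 = J + (Cs + 1) by ring, pow_add L J]
            ring) 𝒮 hS
  simp only [hcard] at key
  exact key

end Pool.Agent.Run7.h536.CE
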