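import Pool.Agent.Run7.h536.CE13
import Pool.Agent.Run7.h536.TB3

set_option autoImplicit false

/-! Systems of linear forms whose constant terms are bilinear combinations of thin families with arbitrary perturbations. -/

namespace Pool.Agent.Run7.h536.CE
open Finset
open Pool.Agent.H373R2.T7
open Pool.Agent.TH212.EH (En)
open Pool.Agent.TH935.TF

/-- **Systems of linear forms, constant terms `κ v v' + F + G` with arbitrary functions `F` and `G`.** -/
theorem sys_bilin {k m : ℕ} {w : ℕ → ℝ} {sA sB : (Fin k → ℤ) → (Fin m → ℤ)} (hs : Sys k m w sA sB) (hk : 1 ≤ k)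
    (h h' r A B C D J U : ℕ) (hh : 1 ≤ h) (hh' : 1 ≤ h') (hr : 1 ≤ r) (ε : ℝ) (hε : 0 < ε) :
    ∃ N₀ : ℕ, ∀ N : ℕ, N₀ ≤ N → ∀ X Y : Fin k → ℕ, (∀ l, X l ≤ Y l ^ r) → (∀ l, Y l ≤ X l ^ r) →
    (∀ l, (N : ℝ) ≤ Real.log N ^ J * ((X l * Y l : ℕ) : ℝ)) → (∀ l, ((X l * Y l : ℕ) : ℝ) ≤ Real.log N ^ J * N) →
    ∀ (ι ι' : Fin k → Type) [∀ l, Fintype (ι l)] [∀ l, Fintype (ι' l)] (v : ∀ l, ι l → ℤ) (v' : ∀ l, ι' l → ℤ),
    (∀ l i, |v l i| ≤ B * X l) → (∀ l j, |v' l j| ≤ B * Y l) →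
    (∀ l, (En h (v l) : ℝ) * X l ≤ Real.log N ^ C * (Fintype.card (ι l) : ℝ) ^ (2 * h)) →
    (∀ l, (En h' (v' l) : ℝ) * Y l ≤ Real.log N ^ C * (Fintype.card (ι' l) : ℝ) ^ (2 * h')) →
    ∀ (F : ∀ l, ι l → ℤ) (G : ∀ l, ι' l → ℤ) (κ : Fin k → ℤ), (∀ l, κ l ≠ 0) →
    (∀ l i j, |κ l * v l i * v' l j + F l i + G l j| ≤ B * N) →
    ∀ 𝒮 : Finset (∀ l, ι l × ι' l),
    (∀ s ∈ 𝒮, ¬ ∀ c : Fin k → ℤ, (∀ i, (|c i| : ℝ) ≤ Real.log N ^ D) → HW sA sB ε A B D N
      (fun l => (κ l * v l (s l).1 * v' l (s l).2 + F l (s l).1 + G l (s l).2) + c l)) →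
    (𝒮.card : ℝ) ≤ (∏ l, (Fintype.card (ι l) : ℝ) * Fintype.card (ι' l)) / Real.log N ^ U := by
  classical
  obtain ⟨p, C', M₀, hp, hcl⟩ := Pool.Agent.Run7.h536.TB.closure h h' (r + 1) B (C + 1) hh hh' (by omega)
  obtain ⟨N₀, h0⟩ := sys_shift hs hk p A B (J + C' + 1) D U ε hε
  obtain ⟨n1, h1⟩ := ev_L' (2 * (2 : ℝ) ^ C + 2 * M₀ + 2 ^ C' + 3)
  obtain ⟨n2, h2⟩ := ev_log' J 1
  refine ⟨N₀ + n1 + n2 + 1, fun N hN X Y hXY hYX hN1 hN2 ι ι' _ _ v v' hv hv' hE hE' F G κ hκ hB 𝒮 hS => ?_⟩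
  have hLb := h1 N (by omega)
  have hLJ := h2 N (by omega)
  rw [one_mul] at hLJ
  have h00 := h0 N (by omega)
  obtain ⟨L, hL⟩ : ∃ L, L = Real.log (N : ℝ) := ⟨_, rfl⟩
  rw [← hL] at hLb hLJ h00 hN1 hN2 hE hE' hS ⊢
  have q1 : (0 : ℝ) ≤ M₀ := Nat.cast_nonneg _
  have q2 : (0 : ℝ) < 2 ^ C' := by positivity
  have q3 : (0 : ℝ) < 2 ^ C := by positivity
  have hL3 : 3 ≤ L := by linarith
  have hL0 : 0 < L := by linarith
  have hNpos : (1 : ℝ) ≤ N := by exact_mod_cast (by omega : 1 ≤ N)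
  have hs0 : 0 < Real.sqrt N := Real.sqrt_pos.2 (by linarith)
  have hss : Real.sqrt N * Real.sqrt N = N := Real.mul_self_sqrt (by linarith)
  have hlogs : Real.log (Real.sqrt N) = L / 2 := by rw [Real.log_sqrt (by linarith), hL]
  have hsqN : Real.sqrt N ≤ N := by
    rw [Real.sqrt_le_left (by linarith)]
    nlinarith
  have hcard : ∀ l, (Fintype.card (ι l × ι' l) : ℝ) = (Fintype.card (ι l) : ℝ) * Fintype.card (ι' l) := by
    intro l
    rw [Fintype.card_prod]
    push_cast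
    ring
  have key := h00 (fun l => ι l × ι' l)
    (fun l x => κ l * v l x.1 * v' l x.2 + F l x.1 + G l x.2) (fun l x => hB l x.1 x.2) (by
      intro l
      obtain ⟨M, hM⟩ : ∃ M : ℕ, M = X l * Y l := ⟨_, rfl⟩
      have hNM := hN1 l
      have hMN := hN2 l
      rw [← hM] at hNM hMN
      have hM0 : 0 < M := by
        rcases Nat.eq_zero_or_pos M with h3 | h3
        · rw [h3, Nat.cast_zero, mul_zero] at hNM
          linarith
        · exact h3
      have hM0r : (0 : ℝ) < M := by exact_mod_cast hM0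
      have hlMlow : L ≤ 2 * Real.log (M : ℝ) := by
        have h3 : Real.sqrt N ≤ M := by
          have h4 : Real.sqrt N * Real.sqrt N ≤ Real.sqrt N * M := by
            rw [hss]
            exact hNM.trans (mul_le_mul_of_nonneg_right hLJ hM0r.le)
          exact le_of_mul_le_mul_left h4 hs0
        have h5 := Real.log_le_log hs0 h3
        rw [hlogs] at h5
        linarith
      have hlM : Real.log (M : ℝ) ≤ 2 * L := by
        have h9 : (M : ℝ) ≤ (N : ℝ) ^ 2 := by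
          calc (M : ℝ) ≤ L ^ J * N := hMN
            _ ≤ N * N := mul_le_mul_of_nonneg_right (hLJ.trans hsqN) (by linarith)
            _ = _ := by ring
        have h10 := Real.log_le_log hM0r h9
        rw [Real.log_pow, ← hL] at h10
        exact_mod_cast h10
      have hlM2 : (2 : ℝ) ^ C + M₀ ≤ Real.log (M : ℝ) := by linarith
      have hlM0 : 0 ≤ Real.log (M : ℝ) := by linarith
      have hMM : M₀ ≤ X l * Y l := by
        rw [← hM]
        have h3 : Real.log (M : ℝ) ≤ M := by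
          have := Real.log_le_sub_one_of_pos hM0r
          linarith
        have h4 : (M₀ : ℝ) ≤ M := by linarith
        exact_mod_cast h4
      have hLC : L ^ C ≤ Real.log (M : ℝ) ^ (C + 1) := by
        calc L ^ C ≤ (2 * Real.log (M : ℝ)) ^ C := pow_le_pow_left₀ hL0.le hlMlow _
          _ = 2 ^ C * Real.log (M : ℝ) ^ C := mul_pow _ _ _
          _ ≤ Real.log (M : ℝ) * Real.log (M : ℝ) ^ C := by
              apply mul_le_mul_of_nonneg_right _ (by positivity)
              linarith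
          _ = _ := by rw [pow_succ]; ring
      have h8 := hcl (X l) (Y l) hMM (by rw [Nat.add_sub_cancel]; exact hXY l) (by rw [Nat.add_sub_cancel]; exact hYX l)
        (ι l) (ι' l) (v l) (v' l) (hv l) (hv' l) (by
          rw [← hM]
          exact (hE l).trans (mul_le_mul_of_nonneg_right hLC (by positivity))) (by
          rw [← hM]
          exact (hE' l).trans (mul_le_mul_of_nonneg_right hLC (by positivity))) (F l) (G l) (κ l) (hκ l)
      rw [← hM] at h8
      obtain ⟨c, hc⟩ : ∃ c : ℝ, c = (Fintype.card (ι l × ι' l) : ℝ) := ⟨_, rfl⟩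
      rw [← hc] at h8 ⊢
      have hc0 : 0 ≤ c := by rw [hc]; exact Nat.cast_nonneg _
      have h11 : Real.log (M : ℝ) ^ C' ≤ L ^ (C' + 1) := by
        calc Real.log (M : ℝ) ^ C' ≤ (2 * L) ^ C' := pow_le_pow_left₀ hlM0 hlM _
          _ = 2 ^ C' * L ^ C' := by rw [mul_pow]
          _ ≤ L * L ^ C' := by
              apply mul_le_mul_of_nonneg_right _ (by positivity)
              linarith
          _ = _ := by rw [pow_succ]; ring
      calc _ ≤ (En p (fun x : ι l × ι' l => κ l * v l x.1 * v' l x.2 + F l x.1 + G l x.2) : ℝ) * (L ^ J * M) :=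
            mul_le_mul_of_nonneg_left hNM (Nat.cast_nonneg _)
        _ = L ^ J * ((En p (fun x : ι l × ι' l => κ l * v l x.1 * v' l x.2 + F l x.1 + G l x.2) : ℝ) * M) := by ring
        _ ≤ L ^ J * (Real.log (M : ℝ) ^ C' * c ^ (2 * p)) := mul_le_mul_of_nonneg_left h8 (by positivity)
        _ ≤ L ^ J * (L ^ (C' + 1) * c ^ (2 * p)) := by
            apply mul_le_mul_of_nonneg_left _ (by positivity)
            exact mul_le_mul_of_nonneg_right h11 (by positivity)
        _ = _ := by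
            rw [show J + C' + 1 = J + (C' + 1) by ring, pow_add L J]
            ring) 𝒮 hS
  simp only [hcard] at key
  exact key

end Pool.Agent.Run7.h536.CE
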