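import Pool.Agent.Run7.h536.CE16

set_option autoImplicit false

/-! Residue classes to large moduli and restricted digits: systems of polynomials, all classes, all lower coefficients, ALL
weights, Möbius-like and prime factors. -/

namespace Pool.Agent.Run7.h536.CE
open Finset Polynomial
open Pool.Agent.H373R2.T7
open Pool.Agent.TH872.Sq
open Pool.Agent.TH212.EH (En enum)
open Pool.Agent.Run7.h536.RD

/-- the energy of the `d`-th powers of the moduli, in powers of `k` -/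
theorem energy_moduli_k (b : ℕ) (hb : 2 ≤ b) (d C : ℕ) (hd : 2 ≤ d) : ∃ p C' k₀ : ℕ, 1 ≤ p ∧ ∀ k : ℕ, k₀ ≤ k → ∀ Q : ℕ,
    ∀ A : Finset ℕ, A ⊆ Icc 1 Q → (Q : ℝ) ≤ (k : ℝ) ^ C * A.card →
    (En p (fun i : {n : ℕ // n ∈ A} => ((i.1 : ℕ) : ℤ) ^ d) : ℝ) * ((Q ^ d : ℕ) : ℝ) ≤
      (k : ℝ) ^ C' * (Fintype.card {n : ℕ // n ∈ A} : ℝ) ^ (2 * p) := by
  obtain ⟨p, C', x0, hp, hen⟩ := energy_moduli d (C + 1) hd
  refine ⟨p, C' + 1, x0 + 2 ^ (C + 2) + b ^ C' + 4, hp, fun k hk Q A hA hAQ => ?_⟩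
  have hpow : 1 ≤ 2 ^ (C + 2) := Nat.one_le_pow _ _ (by norm_num)
  have hbk : k < b ^ k := Nat.lt_pow_self (by omega)
  have hb0 : (0 : ℝ) < b := by exact_mod_cast (by omega : 0 < b)
  have hlog : Real.log ((b ^ k : ℕ) : ℝ) = k * Real.log b := by
    push_cast
    rw [Real.log_pow]
  have hk0 : (0 : ℝ) < k := by exact_mod_cast (by omega : 0 < k)
  have hlb1 : 1 / 2 ≤ Real.log b := by
    have h1 : Real.log 2 ≤ Real.log b := Real.log_le_log (by norm_num) (by exact_mod_cast hb)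
    linarith [Real.log_two_gt_d9]
  have hlb2 : Real.log b ≤ b := by
    have := Real.log_le_sub_one_of_pos hb0
    linarith
  have hl1 : (k : ℝ) / 2 ≤ Real.log ((b ^ k : ℕ) : ℝ) := by
    rw [hlog]
    nlinarith
  have hl2 : Real.log ((b ^ k : ℕ) : ℝ) ≤ b * k := by
    rw [hlog, mul_comm]
    exact mul_le_mul_of_nonneg_right hlb2 hk0.le
  have hl0 : 0 < Real.log ((b ^ k : ℕ) : ℝ) := by linarith
  have hk2 : (2 : ℝ) ^ C ≤ Real.log ((b ^ k : ℕ) : ℝ) := by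
    have h1 : ((2 ^ (C + 2) : ℕ) : ℝ) ≤ k := by exact_mod_cast (by omega : 2 ^ (C + 2) ≤ k)
    push_cast at h1
    rw [pow_add] at h1
    have h2 : (0 : ℝ) < 2 ^ C := by positivity
    linarith
  have key := hen (b ^ k) (by omega) Q A hA (by
    calc (Q : ℝ) ≤ (k : ℝ) ^ C * A.card := hAQ
      _ ≤ (2 * Real.log ((b ^ k : ℕ) : ℝ)) ^ C * A.card := by
          apply mul_le_mul_of_nonneg_right _ (Nat.cast_nonneg _)
          exact pow_le_pow_left₀ hk0.le (by linarith) C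
      _ = 2 ^ C * Real.log ((b ^ k : ℕ) : ℝ) ^ C * A.card := by rw [mul_pow]
      _ ≤ Real.log ((b ^ k : ℕ) : ℝ) * Real.log ((b ^ k : ℕ) : ℝ) ^ C * A.card := by
          apply mul_le_mul_of_nonneg_right _ (Nat.cast_nonneg _)
          exact mul_le_mul_of_nonneg_right hk2 (by positivity)
      _ = _ := by rw [pow_succ]; ring)
  refine key.trans ?_
  apply mul_le_mul_of_nonneg_right _ (by positivity)
  calc Real.log ((b ^ k : ℕ) : ℝ) ^ C' ≤ (b * k) ^ C' := pow_le_pow_left₀ hl0.le hl2 _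
    _ = (b : ℝ) ^ C' * (k : ℝ) ^ C' := mul_pow _ _ _
    _ ≤ k * (k : ℝ) ^ C' := by
        apply mul_le_mul_of_nonneg_right _ (by positivity)
        exact_mod_cast (by omega : b ^ C' ≤ k)
    _ = _ := by rw [pow_succ]; ring

open Classical in
/-- **Residue classes to large moduli, restricted digits, ALL weights.** -/
theorem ap_D (b : ℕ) (hb : 2 ≤ b) (s : ℕ) (J : Finset (Fin s)) (g : Fin s → ℕ → ℝ) (hg : ∀ l ∈ J, Small (g l))
    (d : Fin s → ℕ) (hd : ∀ l, 2 ≤ d l) (r B C T U : ℕ) (hr : 1 ≤ r) (hB : 1 ≤ B) :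
    ∃ B0 : ℕ, ∀ E : ℕ, ∃ k₀ : ℕ, ∀ k : ℕ, k₀ ≤ k → ∀ Q : ℕ, Q ≤ (b ^ k) ^ r → b ^ k ≤ Q ^ r →
    ∀ A : Finset ℕ, A ⊆ Icc 1 Q → (Q : ℝ) ≤ (k : ℝ) ^ C * A.card →
    ∀ D : ℕ → Finset ℕ, (∀ i < k, D i ⊆ range b ∧ 2 ≤ (D i).card) → ∀ κ : Fin s → ℤ, (∀ l, κ l ≠ 0) →
    ∀ z : ℕ, (k : ℝ) ^ B0 ≤ z → (z : ℝ) ≤ (k : ℝ) ^ E → ∀ L : ℕ → ℝ, (∀ n, th n ≤ L n ∧ L n ≤ ArithmeticFunction.vonMangoldt n) →
    ((A.filter (fun q : ℕ => ∃ F : Fin s → ℤ[X], ∃ ρ : ℤ, ∃ w : ℕ → ℝ, (∀ m, |w m| ≤ (k : ℝ) ^ T) ∧ (∀ l, (F l).natDegree ≤ d l) ∧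
      (∀ l, (F l).coeff (d l) = κ l) ∧
      (∀ l, ∀ m ∈ SD b D k, |(F l).eval (q * (m : ℤ) + ρ)| ≤ B * (((Q * b ^ k) ^ d l : ℕ) : ℤ)) ∧
      (∏ l, (((Q * b ^ k) ^ d l : ℕ) : ℝ)) / (k : ℝ) ^ U <
        (((Fintype.piFinset (fun l => Icc (-((B : ℤ) * (((Q * b ^ k) ^ d l : ℕ) : ℤ))) ((B : ℤ) * (((Q * b ^ k) ^ d l : ℕ) : ℤ)))).filter
        (fun c : Fin s → ℤ => ∃ M : ℕ, (SD b D k).card / (k : ℝ) ^ U <
          |∑ m ∈ (SD b D k).filter (fun m => m < M), w m * (∏ l, MA J g L l ((F l).eval (q * (m : ℤ) + ρ) + c l) -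
            ∏ l, MM J z l ((F l).eval (q * (m : ℤ) + ρ) + c l))|)).card : ℝ))).card : ℝ) ≤
      A.card / (k : ℝ) ^ U := by
  choose p C' n1 hp hen using fun l => energy_moduli_k b hb (d l) C (hd l)
  obtain ⟨B0, h0⟩ := cross_all b hb s J g hg d p hd hp (r + 1) B (∑ l, C' l) T U (by omega) hB
  refine ⟨B0, fun E => ?_⟩
  obtain ⟨k0, h1⟩ := h0 E
  refine ⟨k0 + ∑ l, n1 l + 1, fun k hk Q hQ1 hQ2 A hA hAQ D hD κ hκ z hz1 hz2 L hL => ?_⟩
  have hk1 : (1 : ℝ) ≤ k := by exact_mod_cast (by omega : 1 ≤ k)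
  have hs1 : ∀ l, n1 l ≤ k := by
    intro l
    have : n1 l ≤ ∑ l, n1 l := single_le_sum (f := n1) (fun _ _ => Nat.zero_le _) (mem_univ l)
    omega
  have hmul : ∀ l, Q ^ d l * b ^ (d l * k) = (Q * b ^ k) ^ d l := by
    intro l
    rw [mul_pow, ← pow_mul, mul_comm k (d l)]
  have hA1 : Fintype.card {n : ℕ // n ∈ A} = A.card := Fintype.card_coe _
  have key := h1 k (by omega) (fun l => Q ^ d l) (fun l => by
      rw [Nat.add_sub_cancel]
      calc Q ^ d l ≤ ((b ^ k) ^ r) ^ d l := Nat.pow_le_pow_left hQ1 _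
        _ = (b ^ (d l * k)) ^ r := by rw [← pow_mul, ← pow_mul, ← pow_mul]; congr 1; ring) (fun l => by
      rw [Nat.add_sub_cancel]
      calc b ^ (d l * k) = (b ^ k) ^ d l := by rw [← pow_mul, mul_comm]
        _ ≤ (Q ^ r) ^ d l := Nat.pow_le_pow_left hQ2 _
        _ = (Q ^ d l) ^ r := by rw [← pow_mul, ← pow_mul, mul_comm]) D hD {n : ℕ // n ∈ A} (fun l i => ((i.1 : ℕ) : ℤ) ^ d l)
    (fun l i => by
      have h3 := mem_Icc.1 (hA i.2)
      rw [abs_of_nonneg (by positivity)]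
      have h4 : i.1 ^ d l ≤ B * Q ^ d l := (Nat.pow_le_pow_left h3.2 _).trans (Nat.le_mul_of_pos_left _ hB)
      exact_mod_cast h4) (fun l => by
      refine (hen l k (hs1 l) Q A hA hAQ).trans ?_
      apply mul_le_mul_of_nonneg_right _ (by positivity)
      apply pow_le_pow_right₀ hk1
      exact single_le_sum (f := C') (fun _ _ => Nat.zero_le _) (mem_univ l)) κ hκ z hz1 hz2 L hL
  simp only [hmul, hA1] at key
  refine le_trans ?_ key
  apply Nat.cast_le.2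
  have hsub : ∀ P : ℕ → Prop, ∀ P' : {n : ℕ // n ∈ A} → Prop, (∀ i, P i.1 → P' i) → (A.filter P).card ≤ (univ.filter P').card := by
    intro P P' hPP
    have e : A.filter P ⊆ (univ.filter P').image (fun i => i.1) := by
      intro n hn
      rw [mem_filter] at hn
      rw [mem_image]
      exact ⟨⟨n, hn.1⟩, mem_filter.2 ⟨mem_univ _, hPP ⟨n, hn.1⟩ hn.2⟩, rfl⟩
    exact (card_le_card e).trans card_image_le
  apply hsub
  rintro ⟨q, hq⟩ ⟨F, ρ, w, hw, hF1, hF2, hF3, hF4⟩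
  have hlin : ∀ l, ((F l).comp (Polynomial.C (q : ℤ) * Polynomial.X + Polynomial.C ρ)).natDegree ≤ d l := by
    intro l
    refine natDegree_comp_le.trans ?_
    calc (F l).natDegree * (Polynomial.C (q : ℤ) * Polynomial.X + Polynomial.C ρ).natDegree ≤ d l * 1 := by
          apply Nat.mul_le_mul (hF1 l)
          exact natDegree_linear_le
      _ = d l := mul_one _
  have heval : ∀ l (n : ℤ), ((F l).comp (Polynomial.C (q : ℤ) * Polynomial.X + Polynomial.C ρ)).eval n = (F l).eval (q * n + ρ) := by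
    intro l n
    rw [eval_comp, eval_add, eval_mul, eval_C, eval_X, eval_C]
  refine ⟨fun l => (F l).comp (Polynomial.C (q : ℤ) * Polynomial.X + Polynomial.C ρ), w, hlin, ?_, ?_, hw, ?_⟩
  · intro l
    have h3 : ((F l).comp (Polynomial.C (q : ℤ) * Polynomial.X + Polynomial.C ρ)).coeff (d l) = κ l * (q : ℤ) ^ d l := by
      have hdeg : (F l).natDegree = d l := by
        apply le_antisymm (hF1 l)
        apply le_natDegree_of_ne_zero
        rw [hF2 l]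
        exact hκ l
      have hq0 : (q : ℤ) ≠ 0 := by
        have := (mem_Icc.1 (hA hq)).1
        omega
      have hn1 : (Polynomial.C (q : ℤ) * Polynomial.X + Polynomial.C ρ).natDegree = 1 := natDegree_linear hq0
      have h4 := coeff_comp_degree_mul_degree (p := F l) (q := Polynomial.C (q : ℤ) * Polynomial.X + Polynomial.C ρ) (by rw [hn1]; norm_num)
      rw [hn1, mul_one, hdeg, leadingCoeff_linear hq0, leadingCoeff, hdeg, hF2 l] at h4
      exact h4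
    exact h3
  · intro l m hm
    rw [heval]
    exact hF3 l m hm
  · refine lt_of_lt_of_le hF4 (le_of_eq ?_)
    unfold exc
    congr 2
    apply filter_congr
    intro c _
    simp only [heval]

end Pool.Agent.Run7.h536.CE
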