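import Pool.Agent.Run7.h536.CE9

set_option autoImplicit false

/-! Lower bounds for singular products. -/

namespace Pool.Agent.Run7.h536.CE
open Finset Polynomial
open Pool.Agent.H373R2.T7
open Pool.Agent.TH872.Sq

lemma factor_low (D p ρ : ℕ) (hD : 1 ≤ D) (hp : 2 * D ≤ p) (hρ : ρ ≤ D) :
    (1 - 1 / (p : ℝ)) ^ (2 * D) ≤ 1 - (ρ : ℝ) / p := by
  have hp0 : (0 : ℝ) < p := by exact_mod_cast (by omega : 0 < p)
  have hp1 : (1 : ℝ) ≤ p := by exact_mod_cast (by omega : 1 ≤ p)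
  obtain ⟨x, hx⟩ : ∃ x : ℝ, x = 1 / (p : ℝ) := ⟨_, rfl⟩
  have hx0 : 0 < x := by rw [hx]; positivity
  have hx1 : x ≤ 1 := by rw [hx, div_le_one hp0]; exact hp1
  have hDx : 2 * (D : ℝ) * x ≤ 1 := by
    rw [hx, mul_one_div, div_le_one hp0]
    exact_mod_cast hp
  have hD0 : (0 : ℝ) < D := by exact_mod_cast hD
  have h1 : 1 + ((2 * D : ℕ) : ℝ) * x ≤ (1 + x) ^ (2 * D) := one_add_mul_le_pow (by linarith) _
  push_cast at h1
  have h2 : (1 - x) ^ (2 * D) * (1 + x) ^ (2 * D) ≤ 1 := by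
    rw [← mul_pow]
    apply pow_le_one₀
    · nlinarith
    · nlinarith
  have h3 : 0 ≤ (1 - x) ^ (2 * D) := pow_nonneg (by linarith) _
  have h4 : (1 - x) ^ (2 * D) * (1 + 2 * D * x) ≤ 1 := (mul_le_mul_of_nonneg_left h1 h3).trans h2
  have h5 : (1 : ℝ) ≤ (1 - D * x) * (1 + 2 * D * x) := by nlinarith [mul_pos hD0 hx0]
  have h6 : 0 < 1 + 2 * (D : ℝ) * x := by positivity
  have h7 : (1 - x) ^ (2 * D) ≤ 1 - D * x := by
    by_contra hcon
    push Not at hcon
    have := mul_lt_mul_of_pos_right hcon h6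
    linarith
  have h8 : (ρ : ℝ) * x ≤ D * x := mul_le_mul_of_nonneg_right (by exact_mod_cast hρ) hx0.le
  have e1 : (ρ : ℝ) / p = ρ * x := by rw [hx]; ring
  rw [e1, ← hx]
  linarith

/-- a lower bound for products of local densities -/
lemma prod_low (D : ℕ) (hD : 1 ≤ D) (z : ℕ) (ρ : ℕ → ℕ) (hρ : ∀ p ∈ pz z, ρ p + 1 ≤ p ∧ ρ p ≤ D) :
    (1 / (2 * (D : ℝ))) ^ (2 * D) * Vz z ^ (2 * D) ≤ ∏ p ∈ pz z, (1 - (ρ p : ℝ) / p) := by
  classical
  have hD0 : (0 : ℝ) < D := by exact_mod_cast hD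
  have hD1 : (1 : ℝ) ≤ D := by exact_mod_cast hD
  have h2D : 1 / (2 * (D : ℝ)) ≤ 1 := by
    rw [div_le_one (by positivity)]
    linarith
  have h2D0 : 0 < 1 / (2 * (D : ℝ)) := by positivity
  have hfac : ∀ p ∈ pz z, (if p < 2 * D then 1 / (2 * (D : ℝ)) else 1) * (1 - 1 / (p : ℝ)) ^ (2 * D) ≤ 1 - (ρ p : ℝ) / p := by
    intro p hp
    have hpp := (mem_pz.1 hp).2
    obtain ⟨h1, h2⟩ := hρ p hp
    have hp0 : (0 : ℝ) < p := by exact_mod_cast hpp.pos
    split_ifs with h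
    · have h3 : (1 - 1 / (p : ℝ)) ^ (2 * D) ≤ 1 := by
        apply pow_le_one₀
        · have : 1 / (p : ℝ) ≤ 1 := by
            rw [div_le_one hp0]
            exact_mod_cast hpp.one_lt.le
          linarith
        · have : 0 < 1 / (p : ℝ) := by positivity
          linarith
      have h4 : 1 / (p : ℝ) ≤ 1 - (ρ p : ℝ) / p := by
        have h5 : (ρ p : ℝ) + 1 ≤ p := by exact_mod_cast h1
        rw [le_sub_iff_add_le, ← add_div, div_le_one hp0]
        linarith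
      have h6 : 1 / (2 * (D : ℝ)) ≤ 1 / p := by
        apply one_div_le_one_div_of_le hp0
        exact_mod_cast h.le
      calc 1 / (2 * (D : ℝ)) * (1 - 1 / (p : ℝ)) ^ (2 * D) ≤ 1 / (2 * (D : ℝ)) * 1 := mul_le_mul_of_nonneg_left h3 h2D0.le
        _ ≤ _ := by rw [mul_one]; exact h6.trans h4
    · rw [one_mul]
      exact factor_low D p (ρ p) hD (by omega) h2
  have hprod : ∏ p ∈ pz z, ((if p < 2 * D then 1 / (2 * (D : ℝ)) else 1) * (1 - 1 / (p : ℝ)) ^ (2 * D)) ≤ ∏ p ∈ pz z, (1 - (ρ p : ℝ) / p) := by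
    apply prod_le_prod
    · intro p hp
      have hpp := (mem_pz.1 hp).2
      have hp0 : (0 : ℝ) < p := by exact_mod_cast hpp.pos
      have : 1 / (p : ℝ) ≤ 1 := by
        rw [div_le_one hp0]
        exact_mod_cast hpp.one_lt.le
      apply mul_nonneg
      · split_ifs
        · exact h2D0.le
        · exact zero_le_one
      · exact pow_nonneg (by linarith) _
    · exact hfac
  refine le_trans ?_ hprod
  rw [prod_mul_distrib, prod_pow]
  have hV : ∏ p ∈ pz z, (1 - 1 / (p : ℝ)) = Vz z := rfl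
  rw [hV]
  have hV0 : 0 ≤ Vz z := by
    unfold Vz
    apply prod_nonneg
    intro p hp
    have hpp := (mem_pz.1 hp).2
    have hp0 : (0 : ℝ) < p := by exact_mod_cast hpp.pos
    have : 1 / (p : ℝ) ≤ 1 := by
      rw [div_le_one hp0]
      exact_mod_cast hpp.one_lt.le
    linarith
  apply mul_le_mul_of_nonneg_right _ (pow_nonneg hV0 _)
  rw [prod_ite, prod_const, prod_const_one, mul_one]
  apply pow_le_pow_of_le_one h2D0.le h2D
  calc ((pz z).filter (fun p => p < 2 * D)).card ≤ (range (2 * D)).card := by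
        apply card_le_card
        intro p hp
        rw [mem_filter] at hp
        exact mem_range.2 hp.2
    _ = 2 * D := card_range _

end Pool.Agent.Run7.h536.CE
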