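import Pool.Agent.Run7.h536.CE18

set_option autoImplicit false

/-! Prime values in all residue classes: lower bounds. -/

namespace Pool.Agent.Run7.h536.CE
open Finset Polynomial
open Pool.Agent.H373R2.T7
open Pool.Agent.TH872.Sq
open Pool.Agent.Run7.h536.MT (all_dvd eval_mod rho_le_p)

lemma Vz_low : ∃ c : ℝ, 0 < c ∧ ∀ z : ℕ, 3 ≤ z → c / Real.log z ^ 2 ≤ Vz z := by
  obtain ⟨C, hC⟩ := Pool.Agent.Helper256.KM.mertens_inv
  refine ⟨Real.exp (-(2 * C)), Real.exp_pos _, fun z h3 => ?_⟩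
  have h4 := hC z h3
  have h5 : (Vz z)⁻¹ ≤ Real.exp (2 * ∑ p ∈ pz z, 1 / (p : ℝ)) := by
    unfold Vz
    rw [← prod_inv_distrib, mul_sum, Real.exp_sum]
    apply prod_le_prod
    · intro p hp
      have hp2 : (2 : ℝ) ≤ p := by exact_mod_cast (mem_pz.1 hp).2.two_le
      apply inv_nonneg.2
      rw [sub_nonneg, div_le_one (by linarith)]; linarith
    · intro p hp
      have hp2 : (2 : ℝ) ≤ p := by exact_mod_cast (mem_pz.1 hp).2.two_le
      have h6 : (1 - 1 / (p : ℝ))⁻¹ ≤ 2 * (1 / p) + 1 := by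
        rw [inv_le_iff_one_le_mul₀ (by rw [sub_pos, div_lt_one (by linarith)]; linarith)]
        have h7 : 0 < 1 / (p : ℝ) := by positivity
        have h8 : 1 / (p : ℝ) ≤ 1 / 2 := one_div_le_one_div_of_le (by norm_num) hp2
        nlinarith
      exact h6.trans (Real.add_one_le_exp _)
  have hz3 : (3 : ℝ) ≤ z := by exact_mod_cast h3
  have hlz : 1 ≤ Real.log z := by
    rw [← Real.log_exp 1]
    apply Real.log_le_log (Real.exp_pos _)
    have := Real.exp_one_lt_d9
    linarith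
  have h6 : ∑ p ∈ pz z, 1 / (p : ℝ) ≤ Real.log (Real.log z) + C := by
    have := (abs_le.1 h4).2
    unfold pz
    linarith
  have hV : 0 < Vz z := by
    have := Vz_ge z (by omega)
    have h0 : 0 < 1 / (z : ℝ) := by positivity
    linarith
  have h7 : (Vz z)⁻¹ ≤ Real.exp (2 * C) * Real.log z ^ 2 := by
    refine h5.trans ?_
    have e : Real.exp (2 * C) * Real.log z ^ 2 = Real.exp (2 * (Real.log (Real.log z) + C)) := by
      rw [show 2 * (Real.log (Real.log z) + C) = 2 * C + (Real.log (Real.log z) + Real.log (Real.log z)) by ring, Real.exp_add,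
        Real.exp_add, Real.exp_log (by linarith)]
      ring
    rw [e]
    apply Real.exp_le_exp.2
    linarith
  rw [Real.exp_neg, div_le_iff₀ (by positivity)]
  have h8 : (Real.exp (2 * C))⁻¹ * 1 ≤ (Real.exp (2 * C))⁻¹ * (Vz z * (Real.exp (2 * C) * Real.log z ^ 2)) := by
    apply mul_le_mul_of_nonneg_left _ (by positivity)
    rw [inv_le_iff_one_le_mul₀ hV] at h7
    linarith [mul_comm (Real.exp (2 * C) * Real.log z ^ 2) (Vz z)]
  rw [mul_one] at h8
  refine h8.trans (le_of_eq ?_)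
  have := Real.exp_ne_zero (2 * C)
  field_simp

/-- iterated logarithms -/
lemma ev_ll (K : ℝ) (V : ℕ) : ∃ x₀ : ℕ, ∀ X : ℕ, x₀ ≤ X → K ≤ Real.log (Real.log X) ∧ K ≤ Real.log X ∧
    Real.log (Real.log X) ^ V ≤ Real.log X := by
  have hlim : Filter.Tendsto (fun N : ℕ => Real.log (N : ℝ)) Filter.atTop Filter.atTop :=
    Real.tendsto_log_atTop.comp (tendsto_natCast_atTop_atTop (R := ℝ))
  have h2 : ∀ᶠ N : ℕ in Filter.atTop, Real.log (Real.log N) ^ V ≤ Real.log N := by
    have h3 := (Real.isLittleO_pow_log_id_atTop (n := V)).bound (show (0 : ℝ) < 1 by norm_num)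
    have h4 := hlim.eventually h3
    filter_upwards [h4, hlim.eventually_ge_atTop 1] with N h5 h6
    simp only [id] at h5
    have h7 : 0 ≤ Real.log (Real.log N) := Real.log_nonneg h6
    rw [Real.norm_of_nonneg (by positivity), Real.norm_of_nonneg (by linarith), one_mul] at h5
    exact h5
  obtain ⟨N0, h0⟩ := Filter.eventually_atTop.1 (h2.and ((hlim.eventually_ge_atTop K).and
    ((Real.tendsto_log_atTop.comp hlim).eventually_ge_atTop K)))
  refine ⟨N0, fun N hN => ?_⟩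
  obtain ⟨h1, h3, h4⟩ := h0 N hN
  exact ⟨h4, h3, h1⟩

/-- the singular product is not small -/
lemma sing_low (s D E : ℕ) : ∃ x₀ : ℕ, ∀ X : ℕ, x₀ ≤ X → ∀ z : ℕ, 3 ≤ z → (z : ℝ) ≤ Real.log X ^ E →
    ∀ R : ℤ[X], R.natDegree ≤ D → (∀ p : ℕ, p.Prime → ∃ m : ℤ, ¬ (p : ℤ) ∣ R.eval m) →
    2 / Real.log (Real.log X) ^ (4 * (D + 1) + 1) ≤ ∏ p ∈ pz z, (((1 - 1 / (p : ℝ)) ^ s)⁻¹ * (1 - (MT.rho R p : ℝ) / p)) := by
  classical
  obtain ⟨c, hc, hcz⟩ := Vz_low
  obtain ⟨K, hK⟩ : ∃ K : ℝ, K = 2 * ((1 / (2 * ((D + 1 : ℕ) : ℝ))) ^ (2 * (D + 1)) * (c / ((E : ℝ) + 1) ^ 2) ^ (2 * (D + 1)))⁻¹ := ⟨_, rfl⟩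
  obtain ⟨n1, h1⟩ := ev_ll (K + 1) 1
  refine ⟨n1, fun X hX z hz3 hz R hR hadm => ?_⟩
  obtain ⟨h2, h3, -⟩ := h1 X hX
  have hD0 : (0 : ℝ) < ((D + 1 : ℕ) : ℝ) := by exact_mod_cast Nat.succ_pos D
  have hE0 : (0 : ℝ) < (E : ℝ) + 1 := by positivity
  have hK0 : 0 < K := by rw [hK]; positivity
  have hll : 1 ≤ Real.log (Real.log X) := by linarith
  have hl : 1 ≤ Real.log X := by linarith
  have hρ : ∀ p ∈ pz z, MT.rho R p + 1 ≤ p ∧ MT.rho R p ≤ D + 1 := by
    intro p hp
    have hpp := (mem_pz.1 hp).2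
    obtain ⟨m, hm⟩ := hadm p hpp
    constructor
    · rcases Nat.lt_or_ge (MT.rho R p) p with h | h
      · omega
      exfalso
      have heq : MT.rho R p = p := le_antisymm (rho_le_p R p) h
      have h4 : (range p).filter (fun r : ℕ => (p : ℤ) ∣ R.eval (r : ℤ)) = range p := by
        apply eq_of_subset_of_card_le (filter_subset _ _)
        rw [card_range]
        exact h
      apply hm
      obtain ⟨r, hr⟩ : ∃ r : ℕ, r < p ∧ (p : ℤ) ∣ m - (r : ℤ) := by
        have hp0 : (0 : ℤ) < p := by exact_mod_cast hpp.pos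
        refine ⟨(m % p).toNat, ?_, ?_⟩
        · have := Int.emod_lt_of_pos m hp0
          have := Int.emod_nonneg m hp0.ne'
          omega
        · rw [Int.toNat_of_nonneg (Int.emod_nonneg m hp0.ne')]
          exact Int.dvd_self_sub_emod
      have h5 : (p : ℤ) ∣ R.eval (r : ℤ) := by
        have : r ∈ (range p).filter (fun r : ℕ => (p : ℤ) ∣ R.eval (r : ℤ)) := by
          rw [h4]
          exact mem_range.2 hr.1
        exact (mem_filter.1 this).2
      have h6 : (m - (r : ℤ)) ∣ R.eval m - R.eval (r : ℤ) := Polynomial.sub_dvd_eval_sub _ _ _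
      have h7 := dvd_add (hr.2.trans h6) h5
      simpa using h7
    · refine (MT.rho_le R p hpp ?_).trans (hR.trans (Nat.le_succ D))
      intro h0
      exact hm (all_dvd R p h0 m)
  have h4 := prod_low (D + 1) (Nat.succ_pos D) z (fun p => MT.rho R p) hρ
  have h5 : ∏ p ∈ pz z, (1 - (MT.rho R p : ℝ) / p) ≤ ∏ p ∈ pz z, (((1 - 1 / (p : ℝ)) ^ s)⁻¹ * (1 - (MT.rho R p : ℝ) / p)) := by
    apply prod_le_prod
    · intro p hp
      have hpp := (mem_pz.1 hp).2
      have hp0 : (0 : ℝ) < p := by exact_mod_cast hpp.pos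
      rw [sub_nonneg, div_le_one hp0]
      exact_mod_cast rho_le_p R p
    · intro p hp
      have hpp := (mem_pz.1 hp).2
      have hp0 : (0 : ℝ) < p := by exact_mod_cast hpp.pos
      have h6 : 0 ≤ 1 - (MT.rho R p : ℝ) / p := by
        rw [sub_nonneg, div_le_one hp0]
        exact_mod_cast rho_le_p R p
      have h7 : (1 : ℝ) ≤ ((1 - 1 / (p : ℝ)) ^ s)⁻¹ := by
        have h8 : 1 / (p : ℝ) < 1 := by
          rw [div_lt_one hp0]
          exact_mod_cast hpp.one_lt
        have h9 : 0 < 1 / (p : ℝ) := by positivity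
        apply (one_le_inv₀ (pow_pos (by linarith) _)).2
        exact pow_le_one₀ (by linarith) (by linarith)
      nlinarith
  refine le_trans ?_ h5
  refine le_trans ?_ h4
  have hz0 : (0 : ℝ) < z := by exact_mod_cast (by omega : 0 < z)
  have hlz : Real.log z ≤ (E + 1) * Real.log (Real.log X) := by
    have h8 := Real.log_le_log hz0 hz
    rw [Real.log_pow] at h8
    nlinarith
  have hlz0 : 0 < Real.log z := Real.log_pos (by exact_mod_cast (by omega : 1 < z))
  have h6 : c / ((E : ℝ) + 1) ^ 2 / Real.log (Real.log X) ^ 2 ≤ Vz z := by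
    refine le_trans ?_ (hcz z hz3)
    rw [div_div, ← mul_pow]
    apply div_le_div_of_nonneg_left hc.le (by positivity)
    exact pow_le_pow_left₀ hlz0.le hlz 2
  calc 2 / Real.log (Real.log X) ^ (4 * (D + 1) + 1) ≤
      (1 / (2 * ((D + 1 : ℕ) : ℝ))) ^ (2 * (D + 1)) * (c / ((E : ℝ) + 1) ^ 2 / Real.log (Real.log X) ^ 2) ^ (2 * (D + 1)) := by
        have e1 : (c / ((E : ℝ) + 1) ^ 2 / Real.log (Real.log X) ^ 2) ^ (2 * (D + 1)) =
            (c / ((E : ℝ) + 1) ^ 2) ^ (2 * (D + 1)) / Real.log (Real.log X) ^ (4 * (D + 1)) := by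
          rw [div_pow (c / ((E : ℝ) + 1) ^ 2), ← pow_mul, show 2 * (2 * (D + 1)) = 4 * (D + 1) by ring]
        have e2 : 2 / Real.log (Real.log X) ^ (4 * (D + 1) + 1) =
            2 / Real.log (Real.log X) / Real.log (Real.log X) ^ (4 * (D + 1)) := by
          rw [div_div, pow_succ, mul_comm (Real.log (Real.log X))]
        rw [e1, e2, ← mul_div_assoc]
        apply div_le_div_of_nonneg_right _ (by positivity)
        rw [div_le_iff₀ (by linarith)]
        obtain ⟨y, hy⟩ : ∃ y : ℝ, y = (1 / (2 * ((D + 1 : ℕ) : ℝ))) ^ (2 * (D + 1)) * (c / ((E : ℝ) + 1) ^ 2) ^ (2 * (D + 1)) := ⟨_, rfl⟩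
        have hy0 : 0 < y := by rw [hy]; positivity
        rw [← hy] at hK ⊢
        have h9 : y * K = 2 := by
          rw [hK]
          field_simp
        nlinarith
    _ ≤ _ := by
        apply mul_le_mul_of_nonneg_left _ (by positivity)
        apply pow_le_pow_left₀ _ h6
        positivity

end Pool.Agent.Run7.h536.CE
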