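import Pool.Agent.Run7.h536.CE1

set_option autoImplicit false

/-! Moments of the proportion of the members of a thin family that are near rationals at a given frequency. -/

namespace Pool.Agent.Run7.h536.CE
open Finset Polynomial
open Pool.Agent.H807R2.Dav
open Pool.Agent.TH872.Sq
open Pool.Agent.TH212.EH (En enum)
open Pool.Agent.Run7.h536.TB (closure)

/-- `x` is near a rational with a small denominator, at the scale `L` -/
def Near (g b c d k L : ℕ) (x : ℝ) : Prop :=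
  ∃ Q : ℕ, ∃ a : ℤ, 1 ≤ Q ∧ Q ≤ g * b ^ (c * L) ∧ |x - a / Q| * (b : ℝ) ^ (d * k) ≤ (b : ℝ) ^ (c * L)

open Classical in
/-- the proportion of the members of the family near rationals -/
noncomputable def rho {ι : Type} [Fintype ι] (v : ι → ℤ) (κ : ℤ) (M g b c d k L t : ℕ) : ℝ :=
  (1 / (Fintype.card ι : ℝ)) * ∑ i, (if Near g b c d k L ((κ : ℝ) * v i * t / M) then (1 : ℝ) else 0)

lemma rho_nonneg {ι : Type} [Fintype ι] (v : ι → ℤ) (κ : ℤ) (M g b c d k L t : ℕ) : 0 ≤ rho v κ M g b c d k L t := by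
  unfold rho
  apply mul_nonneg (by positivity)
  apply sum_nonneg
  intro i _
  split_ifs
  · exact zero_le_one
  · exact le_rfl

lemma rho_le {ι : Type} [Fintype ι] (v : ι → ℤ) (κ : ℤ) (M g b c d k L Y t : ℕ) (hb : 1 ≤ b) (hY : 1 ≤ Y)
    (h8 : 8 * g * Y * b ^ (2 * (c * L)) ≤ b ^ (d * k)) :
    rho v κ M g b c d k L t ≤ 4 * ∑ Q ∈ Icc 1 (g * b ^ (c * L)), Zq v Y M ((Q : ℤ) * κ) t := by
  classical
  have hY0 : (0 : ℝ) < Y := by exact_mod_cast hY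
  have hb0 : (0 : ℝ) < b := by exact_mod_cast hb
  have e1 : 4 * ∑ Q ∈ Icc 1 (g * b ^ (c * L)), Zq v Y M ((Q : ℤ) * κ) t =
      (1 / (Fintype.card ι : ℝ)) * ∑ i, ∑ Q ∈ Icc 1 (g * b ^ (c * L)),
        (4 / (Y : ℝ) ^ 2) * ‖∑ y ∈ range Y, ee ((y : ℝ) * ((t : ℝ) * ((((Q : ℤ) * κ) * v i : ℤ) : ℝ) / M))‖ ^ 2 := by
    unfold Zq
    rw [sum_comm, mul_sum, mul_sum]
    apply sum_congr rfl
    intro Q _
    rw [mul_sum, mul_sum, mul_sum]
    apply sum_congr rfl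
    intro i _
    obtain ⟨G, hG⟩ : ∃ G : ℝ, G = ‖∑ y ∈ range Y, ee ((y : ℝ) * ((t : ℝ) * ((((Q : ℤ) * κ) * v i : ℤ) : ℝ) / M))‖ ^ 2 := ⟨_, rfl⟩
    rw [← hG]
    rcases Nat.eq_zero_or_pos (Fintype.card ι) with h | h
    · rw [h]
      simp
    · have : (0 : ℝ) < Fintype.card ι := by exact_mod_cast h
      field_simp
  rw [e1]
  unfold rho
  apply mul_le_mul_of_nonneg_left _ (by positivity)
  apply sum_le_sum
  intro i _
  split_ifs with h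
  · obtain ⟨Q, a, hQ1, hQ2, hQ3⟩ := h
    have hQr : (0 : ℝ) < Q := by exact_mod_cast hQ1
    refine le_trans ?_ (single_le_sum (f := fun Q : ℕ => (4 / (Y : ℝ) ^ 2) * ‖∑ y ∈ range Y, ee ((y : ℝ) * ((t : ℝ) * ((((Q : ℤ) * κ) * v i : ℤ) : ℝ) / M))‖ ^ 2)
      (fun Q _ => by positivity) (mem_Icc.2 ⟨hQ1, hQ2⟩))
    have hnn : nn ((t : ℝ) * ((((Q : ℤ) * κ) * v i : ℤ) : ℝ) / M) * Y ≤ 1 / 8 := by
      have h1 := nn_le ((t : ℝ) * ((((Q : ℤ) * κ) * v i : ℤ) : ℝ) / M) a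
      have h2 : |(t : ℝ) * ((((Q : ℤ) * κ) * v i : ℤ) : ℝ) / M - a| = Q * |(κ : ℝ) * v i * t / M - a / Q| := by
        rw [← abs_of_pos hQr, ← abs_mul, abs_of_pos hQr]
        congr 1
        push_cast
        field_simp
      rw [h2] at h1
      have hbd : (0 : ℝ) < (b : ℝ) ^ (d * k) := by positivity
      have h3 : |(κ : ℝ) * v i * t / M - a / Q| ≤ (b : ℝ) ^ (c * L) / (b : ℝ) ^ (d * k) := by
        rw [le_div_iff₀ hbd]
        exact hQ3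
      have h4 : (Q : ℝ) ≤ g * (b : ℝ) ^ (c * L) := by exact_mod_cast hQ2
      have h5 : (8 : ℝ) * g * Y * (b : ℝ) ^ (2 * (c * L)) ≤ (b : ℝ) ^ (d * k) := by exact_mod_cast h8
      calc nn ((t : ℝ) * ((((Q : ℤ) * κ) * v i : ℤ) : ℝ) / M) * Y ≤ (Q * |(κ : ℝ) * v i * t / M - a / Q|) * Y :=
            mul_le_mul_of_nonneg_right h1 hY0.le
        _ ≤ ((g * (b : ℝ) ^ (c * L)) * ((b : ℝ) ^ (c * L) / (b : ℝ) ^ (d * k))) * Y := by
            apply mul_le_mul_of_nonneg_right _ hY0.le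
            exact mul_le_mul h4 h3 (abs_nonneg _) (by positivity)
        _ = (8 * g * Y * (b : ℝ) ^ (2 * (c * L))) / (b : ℝ) ^ (d * k) * (1 / 8) := by
            rw [two_mul, pow_add]
            ring
        _ ≤ 1 * (1 / 8) := by
            apply mul_le_mul_of_nonneg_right _ (by norm_num)
            rw [div_le_one hbd]
            exact h5
        _ = 1 / 8 := one_mul _
    have h6 := fejer Y _ hnn
    rw [div_mul_eq_mul_div, le_div_iff₀ (by positivity), one_mul]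
    exact h6
  · exact sum_nonneg fun Q _ => by positivity

/-- **Moments of the proportion.** -/
theorem rho_moment (h r B C : ℕ) (hh : 1 ≤ h) (hr : 2 ≤ r) (hB : 1 ≤ B) : ∃ p C' N₀ : ℕ, 1 ≤ p ∧ ∀ X Y : ℕ, N₀ ≤ X * Y → 1 ≤ Y →
    X ≤ Y ^ (r - 1) → Y ≤ X ^ (r - 1) → ∀ (ι : Type) [Fintype ι] [Nonempty ι] (v : ι → ℤ), (∀ i, |v i| ≤ B * X) →
    (En h v : ℝ) * X ≤ Real.log ((X * Y : ℕ) : ℝ) ^ C * (Fintype.card ι : ℝ) ^ (2 * h) → ∀ κ : ℤ, κ ≠ 0 →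
    ∀ M g b c d k L : ℕ, 1 ≤ b → 1 ≤ g → 8 * g * Y * b ^ (2 * (c * L)) ≤ b ^ (d * k) →
    2 * p * (g * b ^ (c * L) * κ.natAbs * (B * X) * Y) < M → 
    ∑ t ∈ range M, rho v κ M g b c d k L t ^ (2 * p) ≤
      (4 * (g * (b : ℝ) ^ (c * L))) ^ (2 * p) * (M * Real.log ((X * Y : ℕ) : ℝ) ^ C' / ((X * Y : ℕ) : ℝ)) := by
  classical
  obtain ⟨p, C', N₀, hp, hcl⟩ := closure h 1 r B C hh le_rfl hr
  refine ⟨p, C', N₀ + 3, hp, fun X Y hN hY hXY hYX ι _ _ v hv hE κ hκ M g b c d k L hb hg h8 hM => ?_⟩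
  have hX : 1 ≤ X := by
    rcases Nat.eq_zero_or_pos X with h | h
    · rw [h, zero_mul] at hN
      omega
    · exact h
  have : Nonempty (Fin Y) := ⟨⟨0, hY⟩⟩
  have hXYr : (3 : ℝ) ≤ ((X * Y : ℕ) : ℝ) := by exact_mod_cast (by omega : 3 ≤ X * Y)
  have hlog : 1 ≤ Real.log ((X * Y : ℕ) : ℝ) := by
    rw [Real.le_log_iff_exp_le (by linarith)]
    linarith [Real.exp_one_lt_d9]
  have hcl2 : ∀ q : ℤ, q ≠ 0 → (En p (fun x : ι × (Fin Y × Fin Y) => q * v x.1 * (((x.2.1 : ℕ) : ℤ) - ((x.2.2 : ℕ) : ℤ))) : ℝ) * ((X * Y : ℕ) : ℝ) ≤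
      Real.log ((X * Y : ℕ) : ℝ) ^ C' * (Fintype.card (ι × (Fin Y × Fin Y)) : ℝ) ^ (2 * p) := by
    intro q hq
    have h1 := hcl X Y (by omega) hXY hYX ι (Fin Y × Fin Y) v (fun x => ((x.1 : ℕ) : ℤ) - ((x.2 : ℕ) : ℤ)) hv (fun x => by
      have a1 := x.1.2
      have a2 := x.2.2
      have a3 : (Y : ℤ) ≤ B * Y := by exact_mod_cast Nat.le_mul_of_pos_left Y hB
      rw [abs_le]
      constructor <;> omega) hE (by
      refine (En_sub Y).trans ?_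
      refine le_mul_of_one_le_left (by positivity) ?_
      exact one_le_pow₀ hlog) (fun _ => 0) (fun _ => 0) q hq
    simp only [add_zero] at h1
    exact h1
  obtain ⟨K, hK⟩ : ∃ K, K = g * b ^ (c * L) := ⟨_, rfl⟩
  have hK1 : 1 ≤ K := by rw [hK]; exact Nat.mul_pos hg (Nat.pow_pos hb)
  have hKr : (K : ℝ) = g * (b : ℝ) ^ (c * L) := by rw [hK]; push_cast; ring
  obtain ⟨Em, hEm⟩ : ∃ Em : ℝ, Em = M * Real.log ((X * Y : ℕ) : ℝ) ^ C' / ((X * Y : ℕ) : ℝ) := ⟨_, rfl⟩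
  have hκ1 : 1 ≤ κ.natAbs := Int.natAbs_pos.2 hκ
  have hone : ∀ Q ∈ Icc 1 K, ∑ t ∈ range M, Zq v Y M ((Q : ℤ) * κ) t ^ (2 * p) ≤ Em := by
    intro Q hQ
    rw [mem_Icc] at hQ
    have hq : (Q : ℤ) * κ ≠ 0 := mul_ne_zero (by omega) hκ
    refine (Zq_moment p v Y M (K * κ.natAbs * (B * X) * Y) hY (by omega) ((Q : ℤ) * κ) (fun i => ?_) (by rw [hK]; exact hM)).trans ?_
    · rw [abs_mul, abs_mul]
      have e1 : |κ| = (κ.natAbs : ℤ) := (Int.natCast_natAbs κ).symm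
      have e2 : |(Q : ℤ)| = Q := abs_of_nonneg (Int.natCast_nonneg _)
      rw [e1, e2]
      push_cast
      apply mul_le_mul_of_nonneg_right _ (Int.natCast_nonneg _)
      apply mul_le_mul _ (hv i) (abs_nonneg _) (by positivity)
      apply mul_le_mul_of_nonneg_right _ (by positivity)
      exact_mod_cast hQ.2
    · have hc0 : (0 : ℝ) < (Fintype.card (ι × (Fin Y × Fin Y)) : ℝ) ^ (2 * p) := by
        have : (0 : ℝ) < Fintype.card (ι × (Fin Y × Fin Y)) := by exact_mod_cast Fintype.card_pos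
        positivity
      have h1 := hcl2 _ hq
      rw [hEm, div_le_div_iff₀ hc0 (by linarith)]
      calc (M : ℝ) * En p (fun x : ι × (Fin Y × Fin Y) => (Q : ℤ) * κ * v x.1 * (((x.2.1 : ℕ) : ℤ) - ((x.2.2 : ℕ) : ℤ))) * ((X * Y : ℕ) : ℝ) =
          M * (En p (fun x : ι × (Fin Y × Fin Y) => (Q : ℤ) * κ * v x.1 * (((x.2.1 : ℕ) : ℤ) - ((x.2.2 : ℕ) : ℤ))) * ((X * Y : ℕ) : ℝ)) := by ring
        _ ≤ M * (Real.log ((X * Y : ℕ) : ℝ) ^ C' * (Fintype.card (ι × (Fin Y × Fin Y)) : ℝ) ^ (2 * p)) :=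
            mul_le_mul_of_nonneg_left h1 (Nat.cast_nonneg _)
        _ = _ := by ring
  obtain ⟨m, hm⟩ : ∃ m, 2 * p = m + 1 := ⟨2 * p - 1, by omega⟩
  have hpt : ∀ t, rho v κ M g b c d k L t ^ (2 * p) ≤ 4 ^ (2 * p) * ((K : ℝ) ^ m * ∑ Q ∈ Icc 1 K, Zq v Y M ((Q : ℤ) * κ) t ^ (2 * p)) := by
    intro t
    have h1 := rho_le v κ M g b c d k L Y t hb hY h8
    rw [← hK] at h1
    refine (pow_le_pow_left₀ (rho_nonneg v κ M g b c d k L t) h1 (2 * p)).trans ?_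
    rw [mul_pow]
    apply mul_le_mul_of_nonneg_left _ (by positivity)
    have h2 := pow_sum_div_card_le_sum_pow (s := Icc 1 K) (f := fun Q : ℕ => Zq v Y M ((Q : ℤ) * κ) t) (fun Q _ => Zq_nonneg _ _ _ _ _) m
    rw [Nat.card_Icc, Nat.add_sub_cancel, div_le_iff₀ (by positivity)] at h2
    rw [hm]
    linarith
  calc ∑ t ∈ range M, rho v κ M g b c d k L t ^ (2 * p) ≤
      ∑ t ∈ range M, 4 ^ (2 * p) * ((K : ℝ) ^ m * ∑ Q ∈ Icc 1 K, Zq v Y M ((Q : ℤ) * κ) t ^ (2 * p)) := sum_le_sum fun t _ => hpt t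
    _ = 4 ^ (2 * p) * ((K : ℝ) ^ m * ∑ Q ∈ Icc 1 K, ∑ t ∈ range M, Zq v Y M ((Q : ℤ) * κ) t ^ (2 * p)) := by
        rw [← mul_sum, ← mul_sum, sum_comm]
    _ ≤ 4 ^ (2 * p) * ((K : ℝ) ^ m * ∑ _Q ∈ Icc 1 K, Em) := by
        apply mul_le_mul_of_nonneg_left _ (by positivity)
        apply mul_le_mul_of_nonneg_left _ (by positivity)
        exact sum_le_sum hone
    _ = (4 * (g * (b : ℝ) ^ (c * L))) ^ (2 * p) * Em := by
        rw [sum_const, Nat.card_Icc, Nat.add_sub_cancel, nsmul_eq_mul, ← hKr, mul_pow 4 (K : ℝ), hm, pow_succ (K : ℝ) m]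
        ring
    _ = _ := by rw [hEm]

end Pool.Agent.Run7.h536.CE
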