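import Pool.Agent.Run7.h536.CE19

set_option autoImplicit false

/-! Prime values in all residue classes: the least primes. -/

namespace Pool.Agent.Run7.h536.CE
open Finset Polynomial
open Pool.Agent.H373R2.T7
open Pool.Agent.TH872.Sq

open Classical in
/-- from sums to the number of primes -/
lemma count_low (s : ℕ) (K X : ℕ) (lX : ℝ) (hl : 1 ≤ lX) (v : Fin s → ℕ → ℤ)
    (hv : ∀ l, ∀ n ∈ Icc 1 X, Real.log ((v l n).natAbs : ℝ) ≤ K * lX) :
    ∑ n ∈ Icc 1 X, ∏ l, th (v l n).natAbs ≤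
      (((Icc 1 X).filter (fun n : ℕ => ∀ l, (v l n).natAbs.Prime)).card : ℝ) * ((K : ℝ) ^ s * lX ^ s) := by
  rw [← sum_filter_add_sum_filter_not (Icc 1 X) (fun n : ℕ => ∀ l, (v l n).natAbs.Prime)]
  have h2 : ∑ n ∈ (Icc 1 X).filter (fun n : ℕ => ¬ ∀ l, (v l n).natAbs.Prime), ∏ l, th (v l n).natAbs = 0 := by
    apply sum_eq_zero
    intro n hn
    have h3 := (mem_filter.1 hn).2
    push Not at h3
    obtain ⟨l, hl⟩ := h3
    apply prod_eq_zero (mem_univ l)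
    unfold th
    rw [if_neg hl]
  rw [h2, add_zero, ← nsmul_eq_mul]
  apply sum_le_card_nsmul
  intro n hn
  rw [mem_filter] at hn
  rw [← mul_pow]
  have h4 : ∏ l : Fin s, th (v l n).natAbs ≤ ∏ l : Fin s, ((K : ℝ) * lX) := by
    apply prod_le_prod
    · intro l _
      exact th_nonneg _
    · intro l _
      unfold th
      rw [if_pos (hn.2 l)]
      exact hv l n hn.1
  rw [prod_const, card_univ, Fintype.card_fin] at h4
  exact h4

open Classical in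
/-- **Prime values in all residue classes** to almost all moduli. -/
theorem ap_least (s : ℕ) (d : Fin s → ℕ) (hd : ∀ l, 2 ≤ d l) (r B C U : ℕ) (hr : 2 ≤ r) (hB : 1 ≤ B) :
    ∃ x₀ : ℕ, ∀ X : ℕ, x₀ ≤ X → ∀ Q : ℕ, Q ≤ X ^ (r - 1) → X ≤ Q ^ (r - 1) →
    ∀ A : Finset ℕ, A ⊆ Icc 1 Q → (Q : ℝ) ≤ Real.log X ^ C * A.card →
    ∀ κ : Fin s → ℤ, (∀ l, κ l ≠ 0) →
    ((A.filter (fun q : ℕ => ∃ F : Fin s → ℤ[X], ∃ ρ : ℤ, (∀ l, (F l).natDegree ≤ d l) ∧ (∀ l, (F l).coeff (d l) = κ l) ∧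
      (∀ l, ∀ n ∈ range (2 * X), |(F l).eval (q * (n : ℤ) + ρ)| ≤ B * (((Q * X) ^ d l : ℕ) : ℤ)) ∧
      (∏ l, (((Q * X) ^ d l : ℕ) : ℝ)) / Real.log X ^ U <
        (((Fintype.piFinset (fun l => Icc (-((B : ℤ) * (((Q * X) ^ d l : ℕ) : ℤ))) ((B : ℤ) * (((Q * X) ^ d l : ℕ) : ℤ)))).filter
        (fun c : Fin s → ℤ => (∀ p : ℕ, p.Prime → ∃ m : ℤ, ¬ (p : ℤ) ∣ ∏ l, ((F l).eval (q * m + ρ) + c l)) ∧
          (((Icc 1 X).filter (fun n : ℕ => ∀ l, ((F l).eval (q * (n : ℤ) + ρ) + c l).natAbs.Prime)).card : ℝ) <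
            X / (Real.log X ^ s * Real.log (Real.log X) ^ (4 * (∑ l, d l + 1) + 2)))).card : ℝ))).card : ℝ) ≤
      A.card / Real.log X ^ U := by
  obtain ⟨D, hD⟩ : ∃ D, D = ∑ l, d l := ⟨_, rfl⟩
  obtain ⟨B0, h0⟩ := ap_int s d hd r B C (U + 1) hr hB
  obtain ⟨x1, h1⟩ := h0 (B0 + 2)
  obtain ⟨x2, h2⟩ := sing_low s D (B0 + 2)
  obtain ⟨K, hK⟩ : ∃ K : ℕ, K = 1 + D * r := ⟨_, rfl⟩
  obtain ⟨x3, h3⟩ := ev_ll ((K : ℝ) ^ s + 2 * B + 3) (4 * (D + 1) + 1)
  refine ⟨x1 + x2 + x3 + 1, fun X hX Q hQ1 hQ2 A hA hAQ κ hκ => ?_⟩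
  obtain ⟨hll, hlX, hpow⟩ := h3 X (by omega)
  have hKs : 0 ≤ (K : ℝ) ^ s := by positivity
  have hBr : (1 : ℝ) ≤ B := by exact_mod_cast hB
  have hl3 : 3 ≤ Real.log X := by linarith
  have hl1 : 1 ≤ Real.log X := by linarith
  have hll1 : 1 ≤ Real.log (Real.log X) := by linarith
  have hX0 : (0 : ℝ) < X := by exact_mod_cast (by omega : 0 < X)
  obtain ⟨z, hz⟩ : ∃ z : ℕ, z = ⌈Real.log X ^ (B0 + 1)⌉₊ := ⟨_, rfl⟩
  have hp1 : Real.log X ≤ Real.log X ^ (B0 + 1) := by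
    calc Real.log X = Real.log X ^ 1 := (pow_one _).symm
      _ ≤ _ := pow_le_pow_right₀ hl1 (by omega)
  have hz1' : Real.log X ^ (B0 + 1) ≤ z := by rw [hz]; exact Nat.le_ceil _
  have hz1 : Real.log X ^ B0 ≤ z := (pow_le_pow_right₀ hl1 (by omega)).trans hz1'
  have hz3 : 3 ≤ z := by
    have : (3 : ℝ) ≤ z := by linarith
    exact_mod_cast this
  have hz2 : (z : ℝ) ≤ Real.log X ^ (B0 + 2) := by
    have h4 : (z : ℝ) < Real.log X ^ (B0 + 1) + 1 := by rw [hz]; exact Nat.ceil_lt_add_one (by positivity)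
    have h5 : Real.log X ^ (B0 + 2) = Real.log X ^ (B0 + 1) * Real.log X := pow_succ _ _
    rw [h5]
    nlinarith
  have key := h1 X (by omega) Q hQ1 hQ2 A hA hAQ κ hκ z hz1 hz2 th (fun n => ⟨le_rfl, th_le n⟩)
  have hdiv : ∀ a : ℝ, 0 ≤ a → a / Real.log X ^ (U + 1) ≤ a / Real.log X ^ U := by
    intro a ha
    apply div_le_div_of_nonneg_left ha (by positivity)
    exact pow_le_pow_right₀ hl1 (Nat.le_succ U)
  refine le_trans (le_trans ?_ key) (hdiv _ (Nat.cast_nonneg _))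
  apply Nat.cast_le.2
  apply card_le_card
  intro q hq
  rw [mem_filter] at hq ⊢
  refine ⟨hq.1, ?_⟩
  obtain ⟨F, ρ, hF1, hF2, hF3, hF4⟩ := hq.2
  refine ⟨F, ρ, hF1, hF2, hF3, ?_⟩
  refine lt_of_le_of_lt (hdiv _ (prod_nonneg fun _ _ => Nat.cast_nonneg _)) (lt_of_lt_of_le hF4 ?_)
  apply Nat.cast_le.2
  apply card_le_card
  intro c hc
  rw [mem_filter] at hc ⊢
  obtain ⟨hc0, hadm, hcount⟩ := hc
  refine ⟨hc0, X, le_rfl, ?_⟩
  by_contra hcon
  push Not at hcon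
  rw [Fintype.mem_piFinset] at hc0
  -- the polynomial
  obtain ⟨R, hR⟩ : ∃ R : ℤ[X], R = ∏ l, ((F l + Polynomial.C (c l)).comp (Polynomial.C (q : ℤ) * Polynomial.X + Polynomial.C ρ)) := ⟨_, rfl⟩
  rw [← hR] at hcon
  have hReval : ∀ m : ℤ, R.eval m = ∏ l, ((F l).eval (q * m + ρ) + c l) := by
    intro m
    rw [hR, eval_prod]
    apply prod_congr rfl
    intro l _
    rw [eval_comp, eval_add, eval_add, eval_mul, eval_C, eval_X, eval_C, eval_C]
  have hRdeg : R.natDegree ≤ D := by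
    rw [hR, hD]
    refine (natDegree_prod_le _ _).trans ?_
    apply sum_le_sum
    intro l _
    refine natDegree_comp_le.trans ?_
    calc (F l + Polynomial.C (c l)).natDegree * (Polynomial.C (q : ℤ) * Polynomial.X + Polynomial.C ρ).natDegree ≤ d l * 1 := by
          apply Nat.mul_le_mul _ natDegree_linear_le
          rw [natDegree_add_C]
          exact hF1 l
      _ = d l := mul_one _
  have hs := h2 X (by omega) z hz3 hz2 R hRdeg (fun p hp => by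
    obtain ⟨m, hm⟩ := hadm p hp
    exact ⟨m, by rw [hReval]; exact hm⟩)
  have hlow : ∀ l, ∀ n ∈ Icc 1 X, Real.log ((((F l).eval (q * (n : ℤ) + ρ) + c l).natAbs : ℕ) : ℝ) ≤ K * Real.log X := by
    intro l n hn
    have h4 := mem_Icc.1 hn
    have h5 := hF3 l n (mem_range.2 (by omega))
    have h6 := mem_Icc.1 (hc0 l)
    have h7 : |(F l).eval (q * (n : ℤ) + ρ) + c l| ≤ 2 * (B * (((Q * X) ^ d l : ℕ) : ℤ)) := by
      have h8 : |c l| ≤ B * (((Q * X) ^ d l : ℕ) : ℤ) := abs_le.2 h6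
      calc |(F l).eval (q * (n : ℤ) + ρ) + c l| ≤ |(F l).eval (q * (n : ℤ) + ρ)| + |c l| := abs_add_le _ _
        _ ≤ _ := by linarith
    have h9 : ((F l).eval (q * (n : ℤ) + ρ) + c l).natAbs ≤ 2 * (B * (Q * X) ^ d l) := by
      have : (((((F l).eval (q * (n : ℤ) + ρ) + c l).natAbs : ℕ)) : ℤ) ≤ ((2 * (B * (Q * X) ^ d l) : ℕ) : ℤ) := by
        rw [Int.natCast_natAbs]
        push_cast at h7 ⊢
        exact h7
      exact_mod_cast this
    have h10 : 2 * (B * (Q * X) ^ d l) ≤ 2 * B * X ^ (r * d l) := by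
      have h11 : Q * X ≤ X ^ r := by
        calc Q * X ≤ X ^ (r - 1) * X := Nat.mul_le_mul_right _ hQ1
          _ = X ^ r := by rw [← pow_succ]; congr 1; omega
      calc 2 * (B * (Q * X) ^ d l) = 2 * B * (Q * X) ^ d l := by ring
        _ ≤ 2 * B * (X ^ r) ^ d l := Nat.mul_le_mul_left _ (Nat.pow_le_pow_left h11 _)
        _ = _ := by rw [← pow_mul]
    have h12 : ((((F l).eval (q * (n : ℤ) + ρ) + c l).natAbs : ℕ) : ℝ) ≤ 2 * B * (X : ℝ) ^ (r * d l) := by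
      exact_mod_cast h9.trans h10
    rcases Nat.eq_zero_or_pos ((F l).eval (q * (n : ℤ) + ρ) + c l).natAbs with h13 | h13
    · rw [h13, Nat.cast_zero, Real.log_zero]
      positivity
    have h14 : (0 : ℝ) < ((((F l).eval (q * (n : ℤ) + ρ) + c l).natAbs : ℕ) : ℝ) := by exact_mod_cast h13
    have h15 := Real.log_le_log h14 h12
    rw [Real.log_mul (by positivity) (by positivity), Real.log_pow] at h15
    have h16 : Real.log (2 * B) ≤ Real.log X := by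
      have : Real.log (2 * (B : ℝ)) ≤ 2 * B := (Real.log_le_sub_one_of_pos (by positivity)).trans (by linarith)
      linarith
    have h17 : ((r * d l : ℕ) : ℝ) ≤ ((D * r : ℕ) : ℝ) := by
      have h18 : d l ≤ D := by rw [hD]; exact single_le_sum (f := d) (fun _ _ => Nat.zero_le _) (mem_univ l)
      have : r * d l ≤ D * r := by rw [mul_comm]; exact Nat.mul_le_mul_right _ h18
      exact_mod_cast this
    have h19 : ((r * d l : ℕ) : ℝ) * Real.log X ≤ ((D * r : ℕ) : ℝ) * Real.log X := mul_le_mul_of_nonneg_right h17 (by linarith)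
    rw [hK]
    push_cast at h15 h19 ⊢
    nlinarith
  have hup := count_low s K X (Real.log X) hl1 (fun l n => (F l).eval (q * (n : ℤ) + ρ) + c l) hlow
  obtain ⟨cnt, hcnt⟩ : ∃ cnt : ℝ, cnt = (((Icc 1 X).filter (fun n : ℕ => ∀ l, ((F l).eval (q * (n : ℤ) + ρ) + c l).natAbs.Prime)).card : ℝ) := ⟨_, rfl⟩
  rw [← hD] at hcount
  rw [← hcnt] at hup hcount
  obtain ⟨S, hS⟩ : ∃ S : ℝ, S = ∑ n ∈ Icc 1 X, ∏ l, th ((F l).eval (q * (n : ℤ) + ρ) + c l).natAbs := ⟨_, rfl⟩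
  rw [← hS] at hcon hup
  obtain ⟨P, hP⟩ : ∃ P : ℝ, P = ∏ p ∈ pz z, (((1 - 1 / (p : ℝ)) ^ s)⁻¹ * (1 - (MT.rho R p : ℝ) / p)) := ⟨_, rfl⟩
  rw [← hP] at hcon hs
  obtain ⟨y, hy⟩ : ∃ y : ℝ, y = Real.log (Real.log X) := ⟨_, rfl⟩
  rw [← hy] at hs hcount hpow hll hll1
  have hy0 : 0 < y := by linarith
  -- lower bound for the sum
  have e1 : (X : ℝ) / Real.log X ^ (U + 1) ≤ X * (1 / y ^ (4 * (D + 1) + 1)) := by
    rw [div_eq_mul_one_div]
    apply mul_le_mul_of_nonneg_left _ hX0.le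
    apply one_div_le_one_div_of_le (by positivity)
    refine hpow.trans ?_
    calc Real.log X = Real.log X ^ 1 := (pow_one _).symm
      _ ≤ _ := pow_le_pow_right₀ hl1 (by omega)
  have e2 : (X : ℝ) * (2 / y ^ (4 * (D + 1) + 1)) ≤ X * P := mul_le_mul_of_nonneg_left hs hX0.le
  have e3 : (X : ℝ) * (1 / y ^ (4 * (D + 1) + 1)) ≤ S := by
    have := (abs_le.1 hcon).1
    have e4 : (X : ℝ) * (2 / y ^ (4 * (D + 1) + 1)) = 2 * (X * (1 / y ^ (4 * (D + 1) + 1))) := by ring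
    linarith
  -- upper bound
  have e5 : cnt * ((K : ℝ) ^ s * Real.log X ^ s) < X * (1 / y ^ (4 * (D + 1) + 1)) := by
    have hKp : (0 : ℝ) < (K : ℝ) := by
      rw [hK]; push_cast; positivity
    have hKs' : 0 < (K : ℝ) ^ s := by positivity
    calc cnt * ((K : ℝ) ^ s * Real.log X ^ s) < X / (Real.log X ^ s * y ^ (4 * (D + 1) + 2)) * ((K : ℝ) ^ s * Real.log X ^ s) :=
          mul_lt_mul_of_pos_right hcount (by positivity)
      _ = X * (1 / y ^ (4 * (D + 1) + 1)) * ((K : ℝ) ^ s / y) := by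
          rw [show 4 * (D + 1) + 2 = 4 * (D + 1) + 1 + 1 by ring, pow_succ y (4 * (D + 1) + 1)]
          have : Real.log X ^ s ≠ 0 := by positivity
          field_simp
      _ ≤ X * (1 / y ^ (4 * (D + 1) + 1)) * 1 := by
          apply mul_le_mul_of_nonneg_left _ (by positivity)
          rw [div_le_one hy0]
          linarith
      _ = _ := mul_one _
  linarith

end Pool.Agent.Run7.h536.CE
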