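import Pool.Agent.Run7.h536.CE2

set_option autoImplicit false

/-! The additive energy of families of polynomials whose leading coefficients form a thin family, at integers with
restricted digits; the other coefficients are arbitrary. -/

namespace Pool.Agent.Run7.h536.CE
open Finset Polynomial
open Pool.Agent.H807R2.Dav
open Pool.Agent.TH872.Sq
open Pool.Agent.TH212.EH (En enum)

/-- from a dichotomy at every scale -/
lemma scales (c s q k : ℕ) (A τ y : ℝ) (hA : 1 ≤ A) (hτ : 0 ≤ τ) (hy : y = τ ^ q) (W : ℝ) (hW0 : 0 ≤ W) (hW1 : W ≤ 1)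
    (χ : ℕ → ℝ) (hχ : ∀ L, χ L = 0 ∨ χ L = 1) (h : ∀ L, 1 ≤ L → c * L ≤ k → χ L = 0 → W ^ s ≤ A * τ ^ L) :
    ∀ L, 1 ≤ L → c * L ≤ k → W ^ (s * q) ≤ A ^ q * (∑ l ∈ range L, y ^ l * χ (l + 1) + y ^ L) := by
  have hy0 : 0 ≤ y := by rw [hy]; exact pow_nonneg hτ _
  have hAq : 1 ≤ A ^ q := one_le_pow₀ hA
  have hχ0 : ∀ L, 0 ≤ χ L := fun L => by rcases hχ L with h | h <;> rw [h]; exact zero_le_one
  have hmin : ∀ L, 1 ≤ L → c * L ≤ k → χ L = 0 → W ^ (s * q) ≤ A ^ q * y ^ L := by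
    intro L h1 h2 h3
    calc W ^ (s * q) = (W ^ s) ^ q := by rw [pow_mul]
      _ ≤ (A * τ ^ L) ^ q := pow_le_pow_left₀ (pow_nonneg hW0 _) (h L h1 h2 h3) q
      _ = _ := by rw [mul_pow, hy, ← pow_mul, ← pow_mul, mul_comm L q]
  intro L hL
  induction L, hL using Nat.le_induction with
  | base =>
    intro h8
    rw [sum_range_one, pow_zero, one_mul, zero_add]
    rcases hχ 1 with h | h
    · have h1 := hmin 1 le_rfl h8 h
      rw [h, zero_add]
      exact h1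
    · rw [h]
      have h1 := pow_le_one₀ (n := s * q) hW0 hW1
      have h2 := pow_nonneg hy0 1
      nlinarith
  | succ L hL ih =>
    intro h8
    have h1 := ih (le_trans (Nat.mul_le_mul_left _ (by omega)) h8)
    rw [sum_range_succ]
    have h3 : 0 ≤ ∑ l ∈ range L, y ^ l * χ (l + 1) := sum_nonneg fun l _ => mul_nonneg (pow_nonneg hy0 _) (hχ0 _)
    rcases hχ (L + 1) with h | h
    · have h1 := hmin (L + 1) (by omega) h8 h
      have h4 : 0 ≤ y ^ L * χ (L + 1) := mul_nonneg (pow_nonneg hy0 _) (hχ0 _)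
      refine h1.trans ?_
      apply mul_le_mul_of_nonneg_left _ (by linarith)
      linarith
    · rw [h, mul_one]
      have h2 := pow_nonneg hy0 (L + 1)
      refine h1.trans ?_
      apply mul_le_mul_of_nonneg_left _ (by linarith)
      linarith

/-- powers of geometric averages -/
lemma geo_pow (y : ℝ) (hy0 : 0 ≤ y) (hy : y ≤ 1 / 2) (L m : ℕ) (x : ℕ → ℝ) (hx : ∀ l, 0 ≤ x l) :
    (∑ l ∈ range L, y ^ l * x l + y ^ L) ^ m ≤ 2 ^ m * (∑ l ∈ range L, y ^ l * x l ^ m + y ^ L) := by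
  obtain ⟨z, hz⟩ : ∃ z : ℕ → ℝ, ∀ l, z l = if l < L then x l else 1 := ⟨_, fun _ => rfl⟩
  have hz0 : ∀ l, 0 ≤ z l := fun l => by
    rw [hz]
    split_ifs
    · exact hx l
    · exact zero_le_one
  obtain ⟨Ω, hΩ⟩ : ∃ Ω : ℝ, Ω = ∑ l ∈ range (L + 1), y ^ l := ⟨_, rfl⟩
  have hΩ1 : 1 ≤ Ω := by
    rw [hΩ, sum_range_succ']
    have : 0 ≤ ∑ l ∈ range L, y ^ (l + 1) := sum_nonneg fun l _ => pow_nonneg hy0 _
    rw [pow_zero]
    linarith
  have hΩ2 : Ω ≤ 2 := by
    rw [hΩ]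
    calc ∑ l ∈ range (L + 1), y ^ l ≤ ∑ l ∈ range (L + 1), (1 / 2 : ℝ) ^ l := sum_le_sum fun l _ => pow_le_pow_left₀ hy0 hy l
      _ ≤ 2 := by
          rw [geom_sum_eq (by norm_num)]
          have : (0 : ℝ) ≤ (1 / 2) ^ (L + 1) := by positivity
          rw [div_le_iff_of_neg (by norm_num)]
          linarith
  have e1 : ∀ n : ℕ, ∑ l ∈ range (L + 1), y ^ l * z l ^ n = ∑ l ∈ range L, y ^ l * x l ^ n + y ^ L := by
    intro n
    rw [sum_range_succ]
    congr 1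
    · apply sum_congr rfl
      intro l hl
      rw [hz, if_pos (mem_range.1 hl)]
    · rw [hz, if_neg (lt_irrefl _), one_pow, mul_one]
  have e2 := e1 1
  simp only [pow_one] at e2
  rw [← e2, ← e1 m]
  have h1 := Real.pow_arith_mean_le_arith_mean_pow (range (L + 1)) (fun l => y ^ l / Ω) z (fun l _ => by positivity)
    (by rw [← sum_div, ← hΩ, div_self (by linarith)]) (fun l _ => hz0 l) m
  have e3 : ∀ n : ℕ, ∑ l ∈ range (L + 1), y ^ l / Ω * z l ^ n = (∑ l ∈ range (L + 1), y ^ l * z l ^ n) / Ω := by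
    intro n
    rw [sum_div]
    apply sum_congr rfl
    intro l _
    ring
  have e4 := e3 1
  simp only [pow_one] at e4
  rw [e4, e3 m, div_pow, div_le_div_iff₀ (by positivity) (by positivity)] at h1
  have h0 : 0 ≤ ∑ l ∈ range (L + 1), y ^ l * z l ^ m := sum_nonneg fun l _ => mul_nonneg (pow_nonneg hy0 _) (pow_nonneg (hz0 _) _)
  have h00 : 0 ≤ (∑ l ∈ range (L + 1), y ^ l * z l) ^ m := pow_nonneg (sum_nonneg fun l _ => mul_nonneg (pow_nonneg hy0 _) (hz0 _)) _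
  calc (∑ l ∈ range (L + 1), y ^ l * z l) ^ m ≤ (∑ l ∈ range (L + 1), y ^ l * z l) ^ m * Ω := le_mul_of_one_le_right h00 hΩ1
    _ ≤ (∑ l ∈ range (L + 1), y ^ l * z l ^ m) * Ω ^ m := h1
    _ ≤ (∑ l ∈ range (L + 1), y ^ l * z l ^ m) * 2 ^ m := by
        apply mul_le_mul_of_nonneg_left _ h0
        exact pow_le_pow_left₀ (by linarith) hΩ2 m
    _ = _ := by ring

end Pool.Agent.Run7.h536.CE
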