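import Pool.Agent.Run7.h536.CE3

set_option autoImplicit false

/-! The additive energy of families of polynomials whose leading coefficients form a thin family, at integers with
restricted digits; the other coefficients are arbitrary. -/

namespace Pool.Agent.Run7.h536.CE
open Finset Polynomial
open Pool.Agent.H807R2.Dav
open Pool.Agent.TH872.Sq
open Pool.Agent.TH212.EH (En enum)

/-- **Families of polynomials with leading coefficients in a thin family and arbitrary other coefficients, at integers with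
restricted digits, have nearly minimal energy.** -/
theorem cross_energy (b : ℕ) (hb : 2 ≤ b) (e h r B C : ℕ) (hh : 1 ≤ h) (hr : 2 ≤ r) (hB : 1 ≤ B) :
    ∃ p C' k₀ : ℕ, 1 ≤ p ∧ ∀ k : ℕ, k₀ ≤ k → ∀ X : ℕ, X ≤ (b ^ ((e + 2) * k)) ^ (r - 1) → b ^ ((e + 2) * k) ≤ X ^ (r - 1) →
    ∀ D : ℕ → Finset ℕ, (∀ i < k, D i ⊆ range b ∧ 2 ≤ (D i).card) → ∀ (ι : Type) [Fintype ι] (v : ι → ℤ),
    (∀ i, |v i| ≤ B * X) → (En h v : ℝ) * X ≤ Real.log ((X * b ^ ((e + 2) * k) : ℕ) : ℝ) ^ C * (Fintype.card ι : ℝ) ^ (2 * h) →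
    ∀ κ : ℤ, κ ≠ 0 → ∀ f : ι → ℤ[X], (∀ i, (f i).natDegree ≤ e + 2) → (∀ i, (f i).coeff (e + 2) = κ * v i) →
    (En p (fun q : ι × {n // n ∈ SD b D k} => (f q.1).eval ((q.2.1 : ℕ) : ℤ)) : ℝ) * ((X * b ^ ((e + 2) * k) : ℕ) : ℝ) ≤
      Real.log ((X * b ^ ((e + 2) * k) : ℕ) : ℝ) ^ C' * (Fintype.card (ι × {n // n ∈ SD b D k}) : ℝ) ^ (2 * p) := by
  classical
  have hb2 : (2 : ℝ) ≤ b := by exact_mod_cast hb
  have hb1 : (1 : ℝ) ≤ b := by linarith
  have hb0 : (0 : ℝ) < b := by linarith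
  obtain ⟨s, c, hs1, hc1, hweyl⟩ := Pool.Agent.Run7.h536.poly_weyl b hb (1 / 2) (by norm_num) (by norm_num) e
  obtain ⟨g, hg⟩ : ∃ g : ℕ, g = b.factorial * (e + 2).factorial := ⟨_, rfl⟩
  have hg1 : 1 ≤ g := by rw [hg]; exact Nat.mul_pos b.factorial_pos (e + 2).factorial_pos
  rw [← hg] at hweyl
  obtain ⟨p', C1, N₀, hp', hrho⟩ := rho_moment h (2 * r) B (C + 1) hh (by omega) hB
  obtain ⟨σ, hσ⟩ : ∃ σ, σ = 2 * c + 8 * g := ⟨_, rfl⟩
  obtain ⟨c₃, hc₃⟩ : ∃ c₃, c₃ = 2 * σ := ⟨_, rfl⟩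
  obtain ⟨m, hm⟩ : ∃ m, m = 2 * p' := ⟨_, rfl⟩
  obtain ⟨c₂, hc₂⟩ : ∃ c₂, c₂ = c * m + σ := ⟨_, rfl⟩
  obtain ⟨τ, hτ⟩ : ∃ τ : ℝ, τ = 1 - 1 / 2 / 2 := ⟨_, rfl⟩
  have hτ0 : 0 ≤ τ := by rw [hτ]; norm_num
  have hτ1 : τ < 1 := by rw [hτ]; norm_num
  obtain ⟨q₀, hq₀⟩ := exists_pow_lt_of_lt_one (show 0 < 1 / (b : ℝ) ^ (c₂ + 2 * c₃ * (e + 2) * r + 1) by positivity) hτ1
  obtain ⟨q, hq⟩ : ∃ q, q = q₀ + 1 := ⟨_, rfl⟩
  obtain ⟨y, hy⟩ : ∃ y, y = τ ^ q := ⟨_, rfl⟩
  have hy0 : 0 ≤ y := by rw [hy]; exact pow_nonneg hτ0 _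
  have hyb : y ≤ 1 / (b : ℝ) ^ (c₂ + 2 * c₃ * (e + 2) * r + 1) := by
    rw [hy, hq]
    exact (pow_le_pow_of_le_one hτ0 hτ1.le (by omega)).trans hq₀.le
  have hyhalf : y ≤ 1 / 2 := by
    refine hyb.trans ?_
    apply one_div_le_one_div_of_le (by norm_num)
    calc (2 : ℝ) ≤ b := hb2
      _ = (b : ℝ) ^ 1 := (pow_one _).symm
      _ ≤ _ := pow_le_pow_right₀ hb1 (by omega)
  obtain ⟨A, hA⟩ : ∃ A : ℝ, A = (e : ℝ) + 1 := ⟨_, rfl⟩
  have hA1 : 1 ≤ A := by rw [hA]; have : (0 : ℝ) ≤ e := Nat.cast_nonneg _; linarith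
  obtain ⟨K₁, hK₁⟩ : ∃ K₁ : ℝ, K₁ = (A ^ q) ^ m * 2 ^ m * ((4 * g) ^ m * ((b : ℝ) ^ c₂ * 2) + 1) := ⟨_, rfl⟩
  have hK₁0 : 0 ≤ K₁ := by rw [hK₁]; positivity
  obtain ⟨n1, hn1⟩ := exists_nat_ge (K₁ + (2 : ℝ) ^ C + 2)
  refine ⟨s * q * m, C1 + 1, c₃ + 2 * N₀ + 4 * n1 + 4, ?_, fun k hk X hX1 hX2 D hD ι _ v hv hE κ hκ f hf hfc => ?_⟩
  · have h1 : 0 < s * q * m := by
      rw [hm, hq]
      positivity
    omega
  obtain ⟨d, hd⟩ : ∃ d, d = e + 2 := ⟨_, rfl⟩
  rw [← hd] at hX1 hX2 hE hf hfc hweyl hyb ⊢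
  have hd2 : 2 ≤ d := by omega
  rcases isEmpty_or_nonempty ι with hemp | hne
  · have h1 : En (s * q * m) (fun q : ι × {n // n ∈ SD b D k} => (f q.1).eval ((q.2.1 : ℕ) : ℤ)) = 0 := by
      unfold En
      have hpos : 0 < s * q * m := by
        rw [hm, hq]
        positivity
      have : IsEmpty ((Fin (s * q * m) → ι × {n // n ∈ SD b D k}) × (Fin (s * q * m) → ι × {n // n ∈ SD b D k})) :=
        ⟨fun w => hemp.false (w.1 ⟨0, hpos⟩).1⟩
      exact Nat.card_of_isEmpty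
    rw [h1, Nat.cast_zero, zero_mul]
    have : 0 ≤ Real.log ((X * b ^ (d * k) : ℕ) : ℝ) := Real.log_natCast_nonneg _
    positivity
  -- sizes
  obtain ⟨G, hG⟩ : ∃ G, G = b ^ (d * k) := ⟨_, rfl⟩
  have hG1 : 1 ≤ G := by rw [hG]; exact Nat.one_le_pow _ _ (by omega)
  rw [← hG] at hX1 hX2 hE ⊢
  have hX : 1 ≤ X := by
    rcases Nat.eq_zero_or_pos X with h0 | h0
    · rw [h0, zero_pow (by omega)] at hX2
      omega
    · exact h0
  obtain ⟨N, hN⟩ : ∃ N, N = X * G := ⟨_, rfl⟩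
  rw [← hN] at hE ⊢
  have hGN : G ≤ N := by rw [hN]; exact Nat.le_mul_of_pos_left _ hX
  have hkG : 2 ^ k ≤ G := by
    rw [hG]
    calc 2 ^ k ≤ b ^ k := Nat.pow_le_pow_left hb k
      _ ≤ _ := Nat.pow_le_pow_right (by omega) (Nat.le_mul_of_pos_left _ (by omega))
  have hNr : (0 : ℝ) < N := by exact_mod_cast (by omega : 0 < N)
  have hlogN : (k : ℝ) / 2 ≤ Real.log N := by
    have h1 : Real.log ((2 ^ k : ℕ) : ℝ) ≤ Real.log N := Real.log_le_log (by positivity) (by exact_mod_cast hkG.trans hGN)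
    push_cast at h1
    rw [Real.log_pow] at h1
    have h2 := Real.log_two_gt_d9
    have h3 : (0 : ℝ) ≤ k := Nat.cast_nonneg _
    nlinarith
  have hkn : 2 * (K₁ + (2 : ℝ) ^ C + 2) ≤ k / 2 := by
    have h1 : ((4 * n1 : ℕ) : ℝ) ≤ k := by exact_mod_cast (by omega : 4 * n1 ≤ k)
    push_cast at h1
    linarith
  have hlogN2 : 2 * (K₁ + (2 : ℝ) ^ C + 2) ≤ Real.log N := hkn.trans hlogN
  have h2C : (0 : ℝ) < (2 : ℝ) ^ C := by positivity
  have hlogN1 : 1 ≤ Real.log N := by linarith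
  -- the levels
  obtain ⟨Lm, hLm⟩ : ∃ Lm, Lm = k / c₃ := ⟨_, rfl⟩
  have hc₃1 : 1 ≤ c₃ := by omega
  have hLm1 : 1 ≤ Lm := by rw [hLm]; exact Nat.div_pos (by omega) (by omega)
  have hLm2 : c₃ * Lm ≤ k := by rw [hLm]; exact Nat.mul_div_le k c₃
  have hLm3 : k ≤ c₃ * Lm + c₃ := by
    have := Nat.div_add_mod k c₃
    have h2 := Nat.mod_lt k (by omega : c₃ > 0)
    rw [hLm]
    omega
  have hLm4 : k ≤ 2 * c₃ * Lm := by
    have : c₃ ≤ c₃ * Lm := Nat.le_mul_of_pos_right _ hLm1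
    nlinarith
  have hkdk : k ≤ d * k := Nat.le_mul_of_pos_left _ (by omega)
  obtain ⟨Yf, hYf⟩ : ∃ Yf : ℕ → ℕ, ∀ L, Yf L = b ^ (d * k - σ * L) := ⟨_, fun _ => rfl⟩
  have hσL : ∀ L, L ≤ Lm → 2 * (σ * L) ≤ k := by
    intro L hL
    calc 2 * (σ * L) = c₃ * L := by rw [hc₃]; ring
      _ ≤ c₃ * Lm := Nat.mul_le_mul_left _ hL
      _ ≤ k := hLm2
  have hYG : ∀ L, L ≤ Lm → Yf L * b ^ (σ * L) = G := by
    intro L hL
    have := hσL L hL
    rw [hYf, ← pow_add, hG]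
    congr 1
    omega
  have hY2 : ∀ L, L ≤ Lm → G ≤ Yf L ^ 2 := by
    intro L hL
    have := hσL L hL
    rw [hYf, ← pow_mul, hG]
    apply Nat.pow_le_pow_right (by omega)
    have : 2 * k ≤ d * k := Nat.mul_le_mul_right k hd2
    omega
  have hY1 : ∀ L, 1 ≤ Yf L := fun L => by rw [hYf]; exact Nat.one_le_pow _ _ (by omega)
  have hYle : ∀ L, Yf L ≤ G := fun L => by
    rw [hYf, hG]
    exact Nat.pow_le_pow_right (by omega) (Nat.sub_le _ _)
  -- the modulus
  obtain ⟨M, hM⟩ : ∃ M, M = 2 * p' * (g * b ^ k * κ.natAbs * (B * X) * G) + 1 := ⟨_, rfl⟩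
  have hM1 : 1 ≤ M := by omega
  have hMr : (0 : ℝ) < M := by exact_mod_cast hM1
  -- the moments of the proportions
  have hrhoL : ∀ L, 1 ≤ L → L ≤ Lm → ∑ t ∈ range M, rho v κ M g b c d k L t ^ m ≤
      (4 * g) ^ m * (b : ℝ) ^ (c₂ * L) * (M * Real.log N ^ C1 / N) := by
    intro L hL1 hL
    have hcLk : c * L ≤ k := by
      have := hσL L hL
      have : c * L ≤ σ * L := Nat.mul_le_mul_right _ (by omega)
      omega
    have hsq := hY2 L hL
    have hY := hY1 L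
    have hXY2 : N ≤ (X * Yf L) ^ 2 := by
      rw [hN, mul_pow]
      calc X * G ≤ X ^ 2 * G := Nat.mul_le_mul_right _ (Nat.le_self_pow (by norm_num) X)
        _ ≤ _ := Nat.mul_le_mul_left _ hsq
    have hXYpos : (0 : ℝ) < ((X * Yf L : ℕ) : ℝ) := by
      exact_mod_cast Nat.mul_pos hX hY
    have hlog1 : Real.log N ≤ 2 * Real.log ((X * Yf L : ℕ) : ℝ) := by
      have h1 : Real.log N ≤ Real.log (((X * Yf L : ℕ) : ℝ) ^ 2) := Real.log_le_log hNr (by exact_mod_cast hXY2)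
      rw [Real.log_pow] at h1
      push_cast at h1 ⊢
      exact h1
    have hlog2 : Real.log ((X * Yf L : ℕ) : ℝ) ≤ Real.log N := by
      apply Real.log_le_log hXYpos
      rw [hN]
      exact_mod_cast Nat.mul_le_mul_left X (hYle L)
    have hlog0 : 0 ≤ Real.log ((X * Yf L : ℕ) : ℝ) := Real.log_natCast_nonneg _
    have hmom := hrho X (Yf L) (by
      have h1 : N₀ ^ 2 ≤ Yf L ^ 2 := by
        refine le_trans ?_ hsq
        refine le_trans ?_ hkG
        calc N₀ ^ 2 ≤ (2 ^ N₀) ^ 2 := Nat.pow_le_pow_left (Nat.lt_two_pow_self).le 2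
          _ = 2 ^ (N₀ * 2) := by rw [← pow_mul]
          _ ≤ 2 ^ k := Nat.pow_le_pow_right (by norm_num) (by omega)
      have h2 : N₀ ≤ Yf L := (Nat.pow_le_pow_iff_left (by norm_num)).1 h1
      exact h2.trans (Nat.le_mul_of_pos_left _ hX)) hY (by
      calc X ≤ G ^ (r - 1) := hX1
        _ ≤ (Yf L ^ 2) ^ (r - 1) := Nat.pow_le_pow_left hsq _
        _ = Yf L ^ (2 * (r - 1)) := by rw [← pow_mul]
        _ ≤ Yf L ^ (2 * r - 1) := Nat.pow_le_pow_right hY (by omega)) (by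
      calc Yf L ≤ G := hYle L
        _ ≤ X ^ (r - 1) := hX2
        _ ≤ X ^ (2 * r - 1) := Nat.pow_le_pow_right hX (by omega)) ι v hv (by
      refine hE.trans ?_
      apply mul_le_mul_of_nonneg_right _ (by positivity)
      calc Real.log N ^ C ≤ (2 * Real.log ((X * Yf L : ℕ) : ℝ)) ^ C := pow_le_pow_left₀ (by linarith) hlog1 C
        _ = 2 ^ C * Real.log ((X * Yf L : ℕ) : ℝ) ^ C := by rw [mul_pow]
        _ ≤ Real.log ((X * Yf L : ℕ) : ℝ) * Real.log ((X * Yf L : ℕ) : ℝ) ^ C := by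
            apply mul_le_mul_of_nonneg_right _ (by positivity)
            linarith
        _ = _ := by rw [pow_succ]; ring) κ hκ M g b c d k L (by omega) hg1 (by
      calc 8 * g * Yf L * b ^ (2 * (c * L)) ≤ b ^ (8 * g * L) * Yf L * b ^ (2 * (c * L)) := by
            apply Nat.mul_le_mul_right
            apply Nat.mul_le_mul_right
            calc 8 * g ≤ 2 ^ (8 * g) := (Nat.lt_two_pow_self).le
              _ ≤ b ^ (8 * g) := Nat.pow_le_pow_left hb _
              _ ≤ _ := Nat.pow_le_pow_right (by omega) (Nat.le_mul_of_pos_right _ hL1)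
        _ = Yf L * b ^ (σ * L) := by
            rw [hσ, add_mul, pow_add]
            ring
        _ = b ^ (d * k) := by rw [hYG L hL, hG]) (by
      rw [hM, Nat.lt_succ_iff]
      apply Nat.mul_le_mul_left
      apply Nat.mul_le_mul _ (hYle L)
      apply Nat.mul_le_mul_right
      apply Nat.mul_le_mul_right
      apply Nat.mul_le_mul_left
      exact Nat.pow_le_pow_right (by omega) hcLk)
    rw [← hm] at hmom
    refine hmom.trans ?_
    have hYr : ((X * Yf L : ℕ) : ℝ) * (b : ℝ) ^ (σ * L) = N := by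
      have : X * Yf L * b ^ (σ * L) = N := by rw [mul_assoc, hYG L hL, hN]
      exact_mod_cast this
    have e1 : (M : ℝ) * Real.log ((X * Yf L : ℕ) : ℝ) ^ C1 / ((X * Yf L : ℕ) : ℝ) ≤ (b : ℝ) ^ (σ * L) * (M * Real.log N ^ C1 / N) := by
      have e2 : (b : ℝ) ^ (σ * L) * (M * Real.log N ^ C1 / N) = M * Real.log N ^ C1 / ((X * Yf L : ℕ) : ℝ) := by
        rw [← hYr]
        field_simp
      rw [e2]
      apply div_le_div_of_nonneg_right _ hXYpos.le
      apply mul_le_mul_of_nonneg_left _ hMr.le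
      exact pow_le_pow_left₀ hlog0 hlog2 _
    calc (4 * (g * (b : ℝ) ^ (c * L))) ^ m * (M * Real.log ((X * Yf L : ℕ) : ℝ) ^ C1 / ((X * Yf L : ℕ) : ℝ)) ≤
        (4 * (g * (b : ℝ) ^ (c * L))) ^ m * ((b : ℝ) ^ (σ * L) * (M * Real.log N ^ C1 / N)) :=
          mul_le_mul_of_nonneg_left e1 (by positivity)
      _ = (4 * g) ^ m * ((b : ℝ) ^ (c * L * m) * (b : ℝ) ^ (σ * L)) * (M * Real.log N ^ C1 / N) := by
          rw [show 4 * (g * (b : ℝ) ^ (c * L)) = (4 * g) * (b : ℝ) ^ (c * L) by ring, mul_pow, ← pow_mul]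
          ring
      _ = _ := by
          rw [← pow_add, hc₂]
          congr 3
          ring
  -- the exponential sums
  obtain ⟨W, hW⟩ : ∃ W : ι → ℕ → ℝ, ∀ i t, W i t = ‖∑ n ∈ range (b ^ k), ((P b (wD D k) 0 k n : ℝ) : ℂ) *
      ee ((t : ℝ) * ((((f i).eval (n : ℤ) : ℤ) : ℝ) / M))‖ := ⟨_, fun _ _ => rfl⟩
  have hdig := dig_wD b hb D k hD
  have hW0 : ∀ i t, 0 ≤ W i t := fun i t => by rw [hW]; exact norm_nonneg _
  have hW1 : ∀ i t, W i t ≤ 1 := fun i t => by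
    rw [hW]
    exact norm_avg (by omega) hdig 0 k _ 1 (fun n => by rw [norm_ee])
  have hWn : ∀ (i : ι) (t L : ℕ), 1 ≤ L → c * L ≤ k → ¬ Near g b c d k L ((κ : ℝ) * v i * t / M) → W i t ^ (2 * s) ≤ A * τ ^ L := by
    intro i t L hL1 hLk hnear
    obtain ⟨R, hR⟩ : ∃ R : ℝ[X], R = Polynomial.C ((t : ℝ) / M) * (f i).map (Int.castRingHom ℝ) := ⟨_, rfl⟩
    have hRd : R.natDegree ≤ d := by
      rw [hR]
      refine (natDegree_C_mul_le _ _).trans ?_
      exact natDegree_map_le.trans (hf i)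
    have hRe : ∀ n : ℕ, R.eval (n : ℝ) = (t : ℝ) * ((((f i).eval (n : ℤ) : ℤ) : ℝ) / M) := by
      intro n
      rw [hR, eval_mul, eval_C]
      have : ((f i).map (Int.castRingHom ℝ)).eval (n : ℝ) = (((f i).eval (n : ℤ) : ℤ) : ℝ) := by
        have h6 : (n : ℝ) = (Int.castRingHom ℝ) (n : ℤ) := by simp
        rw [h6, eval_map, eval₂_hom]
        simp
      rw [this]
      ring
    have hRc : R.coeff d = (κ : ℝ) * v i * t / M := by
      rw [hR, coeff_C_mul, coeff_map, hfc i, eq_intCast]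
      push_cast
      ring
    rcases hweyl k L hL1 hLk (wD D k) hdig 0 R hRd with h1 | ⟨Q, a, hQ1, hQ2, hQ3⟩
    · simp only [hRe] at h1
      rw [hW, hA, hτ]
      exact h1
    · exfalso
      apply hnear
      rw [hRc] at hQ3
      exact ⟨Q, a, hQ1, hQ2, hQ3⟩
  have hWs : ∀ (i : ι) (t : ℕ), W i t ^ (2 * s * q) ≤ A ^ q * (∑ l ∈ range Lm, y ^ l *
      (if Near g b c d k (l + 1) ((κ : ℝ) * v i * t / M) then (1 : ℝ) else 0) + y ^ Lm) := by
    intro i t
    exact scales c (2 * s) q k A τ y hA1 hτ0 hy (W i t) (hW0 i t) (hW1 i t)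
      (fun L => if Near g b c d k L ((κ : ℝ) * v i * t / M) then (1 : ℝ) else 0) (fun L => by
        by_cases hn : Near g b c d k L ((κ : ℝ) * v i * t / M)
        · right; simp only [if_pos hn]
        · left; simp only [if_neg hn]) (fun L hL1 hLk hχ => by
        apply hWn i t L hL1 hLk
        intro hn
        rw [if_pos hn] at hχ
        exact one_ne_zero hχ) Lm hLm1 (by
        have := hσL Lm le_rfl
        have : c * Lm ≤ σ * Lm := Nat.mul_le_mul_right _ (by omega)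
        omega)
  obtain ⟨n, hn⟩ : ∃ n : ℝ, n = Fintype.card ι := ⟨_, rfl⟩
  have hn0 : 0 < n := by rw [hn]; exact_mod_cast Fintype.card_pos
  obtain ⟨F, hF⟩ : ∃ F : ℕ → ℝ, ∀ t, F t = (1 / n) * ∑ i, W i t := ⟨_, fun _ => rfl⟩
  have hF0 : ∀ t, 0 ≤ F t := fun t => by
    rw [hF]
    exact mul_nonneg (by positivity) (sum_nonneg fun i _ => hW0 i t)
  have hFs : ∀ t, F t ^ (2 * s * q) ≤ A ^ q * (∑ l ∈ range Lm, y ^ l * rho v κ M g b c d k (l + 1) t + y ^ Lm) := by
    intro t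
    have h1 := Real.pow_arith_mean_le_arith_mean_pow (univ : Finset ι) (fun _ => 1 / n) (fun i => W i t) (fun _ _ => by positivity)
      (by rw [sum_const, card_univ, nsmul_eq_mul, ← hn]; field_simp) (fun i _ => hW0 i t) (2 * s * q)
    rw [← mul_sum] at h1
    rw [hF]
    refine h1.trans ?_
    calc ∑ i, 1 / n * W i t ^ (2 * s * q) ≤ ∑ i, 1 / n * (A ^ q * (∑ l ∈ range Lm, y ^ l *
      (if Near g b c d k (l + 1) ((κ : ℝ) * v i * t / M) then (1 : ℝ) else 0) + y ^ Lm)) :=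
          sum_le_sum fun i _ => mul_le_mul_of_nonneg_left (hWs i t) (by positivity)
      _ = A ^ q * (∑ l ∈ range Lm, y ^ l * rho v κ M g b c d k (l + 1) t + y ^ Lm) := by
          rw [← mul_sum, ← mul_sum, sum_add_distrib, sum_const, card_univ, nsmul_eq_mul, ← hn]
          have e1 : ∑ i : ι, ∑ l ∈ range Lm, y ^ l * (if Near g b c d k (l + 1) ((κ : ℝ) * v i * t / M) then (1 : ℝ) else 0) =
              n * ∑ l ∈ range Lm, y ^ l * rho v κ M g b c d k (l + 1) t := by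
            rw [sum_comm, mul_sum]
            apply sum_congr rfl
            intro l _
            rw [← mul_sum]
            unfold rho
            obtain ⟨Sg, hSg⟩ : ∃ Sg : ℝ, Sg = ∑ i, (if Near g b c d k (l + 1) ((κ : ℝ) * v i * t / M) then (1 : ℝ) else 0) := ⟨_, rfl⟩
            rw [← hn, ← hSg]
            field_simp
          rw [e1]
          obtain ⟨Sg, hSg⟩ : ∃ Sg : ℝ, Sg = ∑ l ∈ range Lm, y ^ l * rho v κ M g b c d k (l + 1) t := ⟨_, rfl⟩
          rw [← hSg]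
          field_simp
  have hFm : ∀ t, F t ^ (2 * s * q * m) ≤ (A ^ q) ^ m * (2 ^ m * (∑ l ∈ range Lm, y ^ l * rho v κ M g b c d k (l + 1) t ^ m + y ^ Lm)) := by
    intro t
    rw [pow_mul]
    refine (pow_le_pow_left₀ (pow_nonneg (hF0 t) _) (hFs t) m).trans ?_
    rw [mul_pow]
    apply mul_le_mul_of_nonneg_left _ (by positivity)
    exact geo_pow y hy0 hyhalf Lm m (fun l => rho v κ M g b c d k (l + 1) t) (fun l => rho_nonneg _ _ _ _ _ _ _ _ _ _)
  -- summing over the frequencies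
  have hNb : (N : ℝ) ≤ ((b : ℝ) ^ (2 * c₃ * d * r)) ^ Lm := by
    have h1 : N ≤ b ^ (2 * c₃ * d * r * Lm) := by
      calc N = X * G := hN
        _ ≤ G ^ (r - 1) * G := Nat.mul_le_mul_right _ hX1
        _ = G ^ r := by
            rw [← pow_succ]
            congr 1
            omega
        _ = b ^ (d * k * r) := by rw [hG, ← pow_mul]
        _ ≤ _ := by
            apply Nat.pow_le_pow_right (by omega)
            calc d * k * r ≤ d * (2 * c₃ * Lm) * r := Nat.mul_le_mul_right _ (Nat.mul_le_mul_left _ hLm4)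
              _ = _ := by ring
    rw [← pow_mul]
    exact_mod_cast h1
  have hyL : y ^ Lm ≤ 1 / N := by
    rw [le_div_iff₀ hNr]
    calc y ^ Lm * N ≤ (1 / (b : ℝ) ^ (2 * c₃ * d * r)) ^ Lm * ((b : ℝ) ^ (2 * c₃ * d * r)) ^ Lm := by
          apply mul_le_mul _ hNb hNr.le (by positivity)
          apply pow_le_pow_left₀ hy0
          refine hyb.trans ?_
          apply one_div_le_one_div_of_le (by positivity)
          exact pow_le_pow_right₀ hb1 (by omega)
      _ = 1 := by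
          rw [← mul_pow, one_div, inv_mul_cancel₀ (by positivity), one_pow]
  have hlog0 : 1 ≤ Real.log N ^ C1 := one_le_pow₀ hlogN1
  obtain ⟨Em, hEm⟩ : ∃ Em : ℝ, Em = M * Real.log N ^ C1 / N := ⟨_, rfl⟩
  have hEm0 : 0 ≤ Em := by rw [hEm]; positivity
  have hmain : ∑ t ∈ range M, F t ^ (2 * s * q * m) ≤ K₁ * Em := by
    calc ∑ t ∈ range M, F t ^ (2 * s * q * m) ≤ ∑ t ∈ range M, (A ^ q) ^ m * (2 ^ m * (∑ l ∈ range Lm, y ^ l * rho v κ M g b c d k (l + 1) t ^ m + y ^ Lm)) :=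
          sum_le_sum fun t _ => hFm t
      _ = (A ^ q) ^ m * 2 ^ m * (∑ l ∈ range Lm, y ^ l * ∑ t ∈ range M, rho v κ M g b c d k (l + 1) t ^ m + M * y ^ Lm) := by
          rw [← mul_sum, ← mul_sum, sum_add_distrib, sum_const, card_range, nsmul_eq_mul, sum_comm, mul_assoc]
          congr 3
          apply sum_congr rfl
          intro l _
          rw [mul_sum]
      _ ≤ (A ^ q) ^ m * 2 ^ m * ((4 * g) ^ m * ((b : ℝ) ^ c₂ * 2) * Em + Em) := by
          apply mul_le_mul_of_nonneg_left _ (by positivity)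
          apply add_le_add
          · calc ∑ l ∈ range Lm, y ^ l * ∑ t ∈ range M, rho v κ M g b c d k (l + 1) t ^ m ≤
                ∑ l ∈ range Lm, ((4 * g) ^ m * (b : ℝ) ^ c₂ * Em) * (1 / 2) ^ l := by
                  apply sum_le_sum
                  intro l hl
                  rw [mem_range] at hl
                  have h1 := hrhoL (l + 1) (by omega) (by omega)
                  rw [← hEm] at h1
                  calc y ^ l * ∑ t ∈ range M, rho v κ M g b c d k (l + 1) t ^ m ≤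
                      (1 / (b : ℝ) ^ (c₂ + 1)) ^ l * ((4 * g) ^ m * (b : ℝ) ^ (c₂ * (l + 1)) * Em) := by
                        apply mul_le_mul _ h1 (sum_nonneg fun t _ => pow_nonneg (rho_nonneg _ _ _ _ _ _ _ _ _ _) _) (by positivity)
                        apply pow_le_pow_left₀ hy0
                        refine hyb.trans ?_
                        apply one_div_le_one_div_of_le (by positivity)
                        exact pow_le_pow_right₀ hb1 (by omega)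
                    _ = ((4 * g) ^ m * (b : ℝ) ^ c₂ * Em) * ((b : ℝ) ^ c₂ / (b : ℝ) ^ (c₂ + 1)) ^ l := by
                        rw [mul_add, mul_one, pow_add (b : ℝ) (c₂ * l), pow_mul (b : ℝ) c₂ l, div_pow, div_pow, one_pow]
                        ring
                    _ ≤ _ := by
                        apply mul_le_mul_of_nonneg_left _ (by positivity)
                        apply pow_le_pow_left₀ (by positivity)
                        rw [div_le_div_iff₀ (by positivity) (by norm_num), pow_succ]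
                        have : (0 : ℝ) < (b : ℝ) ^ c₂ := by positivity
                        nlinarith
              _ = ((4 * g) ^ m * (b : ℝ) ^ c₂ * Em) * ∑ l ∈ range Lm, (1 / 2 : ℝ) ^ l := by rw [mul_sum]
              _ ≤ ((4 * g) ^ m * (b : ℝ) ^ c₂ * Em) * 2 := by
                  apply mul_le_mul_of_nonneg_left _ (by positivity)
                  rw [geom_sum_eq (by norm_num)]
                  have : (0 : ℝ) ≤ (1 / 2) ^ Lm := by positivity
                  rw [div_le_iff_of_neg (by norm_num)]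
                  linarith
              _ = _ := by ring
          · calc (M : ℝ) * y ^ Lm ≤ M * (1 / N) := mul_le_mul_of_nonneg_left hyL hMr.le
              _ ≤ Em := by
                  rw [hEm, mul_one_div]
                  apply div_le_div_of_nonneg_right _ hNr.le
                  exact le_mul_of_one_le_right hMr.le hlog0
      _ = K₁ * Em := by rw [hK₁]; ring
  -- the energy
  have hcard := SD_card_pos b hb D k hD
  have hfcS : Fintype.card {n // n ∈ SD b D k} = (SD b D k).card := Fintype.card_coe _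
  have hneS : Nonempty {n // n ∈ SD b D k} := by
    rw [← Fintype.card_pos_iff, hfcS]
    exact_mod_cast hcard
  have hen := Pool.Agent.TH872.GQ.En_le (s * q * m) (fun q : ι × {n // n ∈ SD b D k} => (f q.1).eval ((q.2.1 : ℕ) : ℤ)) M hM1
  obtain ⟨Z, hZ⟩ : ∃ Z : ℝ, Z = ((SD b D k).card : ℝ) := ⟨_, rfl⟩
  rw [← hZ] at hcard
  have hcardq : (Fintype.card (ι × {n // n ∈ SD b D k}) : ℝ) = n * Z := by
    rw [Fintype.card_prod, hfcS, hn, hZ]
    push_cast
    ring
  have hpt : ∀ t ∈ range M, ‖∑ q : ι × {n // n ∈ SD b D k}, ee ((t : ℝ) * ((((f q.1).eval ((q.2.1 : ℕ) : ℤ) : ℤ) : ℝ) / M))‖ ^ (2 * (s * q * m)) ≤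
      (n * Z) ^ (2 * (s * q * m)) * F t ^ (2 * s * q * m) := by
    intro t _
    have e1 : ∀ i, ‖∑ x : {n // n ∈ SD b D k}, ee ((t : ℝ) * ((((f i).eval ((x.1 : ℕ) : ℤ) : ℤ) : ℝ) / M))‖ = Z * W i t := by
      intro i
      have e2 : ∑ x : {n // n ∈ SD b D k}, ee ((t : ℝ) * ((((f i).eval ((x.1 : ℕ) : ℤ) : ℤ) : ℝ) / M)) =
          ∑ n ∈ SD b D k, ee ((t : ℝ) * ((((f i).eval (n : ℤ) : ℤ) : ℝ) / M)) := by
        rw [← sum_coe_sort (SD b D k) (fun n => ee ((t : ℝ) * ((((f i).eval (n : ℤ) : ℤ) : ℝ) / M)))]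
      have e3 : ∑ n ∈ range (b ^ k), ((P b (wD D k) 0 k n : ℝ) : ℂ) * ee ((t : ℝ) * ((((f i).eval (n : ℤ) : ℤ) : ℝ) / M)) =
          (((1 / Z : ℝ)) : ℂ) * ∑ n ∈ SD b D k, ee ((t : ℝ) * ((((f i).eval (n : ℤ) : ℤ) : ℝ) / M)) := by
        have h4 : ∀ n ∈ range (b ^ k), ((P b (wD D k) 0 k n : ℝ) : ℂ) * ee ((t : ℝ) * ((((f i).eval (n : ℤ) : ℤ) : ℝ) / M)) =
            if n ∈ SD b D k then ((1 / Z : ℝ) : ℂ) * ee ((t : ℝ) * ((((f i).eval (n : ℤ) : ℤ) : ℝ) / M)) else 0 := by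
          intro n hn
          rw [P_wD b hb D k hD n hn, ← hZ]
          split_ifs
          · rfl
          · simp
        rw [sum_congr rfl h4, ← sum_filter, mul_sum]
        apply sum_congr _ fun _ _ => rfl
        ext n
        rw [mem_filter]
        refine ⟨fun h => h.2, fun h => ⟨?_, h⟩⟩
        unfold SD at h
        exact (mem_filter.1 h).1
      have e4 : ‖(((1 / Z : ℝ)) : ℂ)‖ = 1 / Z := by
        rw [Complex.norm_real, Real.norm_eq_abs, abs_of_pos (by positivity)]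
      rw [e2, hW, e3, norm_mul, e4, ← mul_assoc, mul_one_div_cancel hcard.ne', one_mul]
    have e5 : ‖∑ q : ι × {n // n ∈ SD b D k}, ee ((t : ℝ) * ((((f q.1).eval ((q.2.1 : ℕ) : ℤ) : ℤ) : ℝ) / M))‖ ≤ n * Z * F t := by
      rw [Fintype.sum_prod_type]
      refine (norm_sum_le _ _).trans (le_of_eq ?_)
      simp only [e1]
      rw [← mul_sum, hF]
      field_simp
    have e6 : 2 * s * q * m = 2 * (s * q * m) := by ring
    rw [e6, ← mul_pow]
    exact pow_le_pow_left₀ (norm_nonneg _) e5 _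
  have hfin : (M : ℝ) * En (s * q * m) (fun q : ι × {n // n ∈ SD b D k} => (f q.1).eval ((q.2.1 : ℕ) : ℤ)) ≤
      (n * Z) ^ (2 * (s * q * m)) * (K₁ * Em) := by
    refine hen.trans ((sum_le_sum hpt).trans ?_)
    rw [← mul_sum]
    apply mul_le_mul_of_nonneg_left hmain
    positivity
  rw [hcardq]
  obtain ⟨E, hEd⟩ : ∃ E : ℝ, E = (En (s * q * m) (fun q : ι × {n // n ∈ SD b D k} => (f q.1).eval ((q.2.1 : ℕ) : ℤ)) : ℝ) := ⟨_, rfl⟩
  rw [← hEd] at hfin ⊢
  have h7 : (M : ℝ) * (E * N) ≤ M * (Real.log N ^ (C1 + 1) * (n * Z) ^ (2 * (s * q * m))) := by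
    calc (M : ℝ) * (E * N) = (M * E) * N := by ring
      _ ≤ ((n * Z) ^ (2 * (s * q * m)) * (K₁ * Em)) * N := mul_le_mul_of_nonneg_right hfin hNr.le
      _ = M * ((K₁ * Real.log N ^ C1) * (n * Z) ^ (2 * (s * q * m))) := by
          rw [hEm]
          field_simp
      _ ≤ M * ((Real.log N * Real.log N ^ C1) * (n * Z) ^ (2 * (s * q * m))) := by
          apply mul_le_mul_of_nonneg_left _ hMr.le
          apply mul_le_mul_of_nonneg_right _ (by positivity)
          apply mul_le_mul_of_nonneg_right _ (by linarith)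
          linarith
      _ = _ := by rw [pow_succ]; ring
  exact le_of_mul_le_mul_left h7 hMr

end Pool.Agent.Run7.h536.CE
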