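import Pool.Agent.Run7.h536.QC4
import Pool.Agent.TH872.Sq.W19

set_option autoImplicit false

/-! Prime values of polynomials at integers with restricted digits, almost all constant terms. -/

namespace Pool.Agent.Run7.h536.QC
open Finset Polynomial
open Pool.Agent.TH212.EH (En large)
open Pool.Agent.H373R2.T7
open Pool.Agent.TH872.Sq (th th_nonneg th_le SD wD dig_wD P_wD SD_card_pos)

lemma SD_large (b : ℕ) (hb : 2 ≤ b) (D : ℕ → Finset ℕ) (k : ℕ) (hD : ∀ i < k, D i ⊆ range b ∧ 2 ≤ (D i).card) :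
    (2 : ℝ) ^ k ≤ (SD b D k).card := by
  have h0 := SD_card_pos b hb D k hD
  have h1 : (SD b D k).Nonempty := by
    rw [← card_pos]
    exact_mod_cast h0
  obtain ⟨n, hn⟩ := h1
  have hn' : n ∈ range (b ^ k) := by
    unfold SD at hn
    exact (mem_filter.1 hn).1
  have h2 := P_wD b hb D k hD n hn'
  rw [if_pos hn] at h2
  have h3 : 1 / ((SD b D k).card : ℝ) ≤ (1 / 2) ^ k := by
    rw [← h2]
    unfold Pool.Agent.TH872.Sq.P
    calc ∏ i ∈ range k, wD D k (0 + i) (n / b ^ i % b) ≤ ∏ _i ∈ range k, (1 / 2 : ℝ) := by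
          apply prod_le_prod
          · intro i _
            exact (dig_wD b hb D k hD).1 _ _
          · intro i hi
            rw [mem_range] at hi
            unfold wD
            rw [zero_add, if_pos hi]
            split_ifs
            · have : (2 : ℝ) ≤ (D i).card := by exact_mod_cast (hD i hi).2
              exact one_div_le_one_div_of_le (by norm_num) this
            · norm_num
      _ = (1 / 2) ^ k := by rw [prod_const, card_range]
  rw [one_div_pow] at h3
  exact (one_div_le_one_div h0 (by positivity)).1 h3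

lemma log_pow_scale (b d : ℕ) (hb : 2 ≤ b) (hd : 2 ≤ d) : ∃ k0 : ℕ, ∀ k : ℕ, k0 ≤ k →
    (k : ℝ) ≤ Real.log ((b ^ (d * k) : ℕ) : ℝ) ∧ Real.log ((b ^ (d * k) : ℕ) : ℝ) ≤ (k : ℝ) ^ 2 := by
  refine ⟨d * b, fun k hk => ?_⟩
  have hb2 : (2 : ℝ) ≤ b := by exact_mod_cast hb
  have hd2 : (2 : ℝ) ≤ d := by exact_mod_cast hd
  have hk0 : (0 : ℝ) ≤ k := Nat.cast_nonneg k
  have e1 : Real.log ((b ^ (d * k) : ℕ) : ℝ) = (d * k) * Real.log b := by
    push_cast
    rw [Real.log_pow]
    push_cast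
    ring
  have h3 : Real.log b ≤ b := by
    have := Real.log_le_sub_one_of_pos (by linarith : (0 : ℝ) < b)
    linarith
  have h4 : (1 / 2 : ℝ) ≤ Real.log b := by
    have h5 : Real.log 2 ≤ Real.log b := Real.log_le_log (by norm_num) hb2
    have := Real.log_two_gt_d9
    linarith
  rw [e1]
  constructor
  · have h5 : (1 : ℝ) ≤ d * Real.log b := by nlinarith
    nlinarith
  · have h5 : (d : ℝ) * Real.log b ≤ k := by
      have h6 : (d : ℝ) * Real.log b ≤ d * b := mul_le_mul_of_nonneg_left h3 (by linarith)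
      have h7 : ((d * b : ℕ) : ℝ) ≤ k := by exact_mod_cast hk
      push_cast at h7
      linarith
    nlinarith

open Classical in
/-- **Systems of polynomials at integers with restricted digits.** -/
theorem digits_sys (b : ℕ) (hb : 2 ≤ b) (r : ℕ) (d : Fin r → ℕ) (hd : ∀ j, 2 ≤ d j) (B T U : ℕ) :
    ∃ B0 : ℕ, ∀ E : ℕ, ∃ k0 : ℕ, ∀ k : ℕ, k0 ≤ k →
    ∀ D : ℕ → Finset ℕ, (∀ i < k, D i ⊆ range b ∧ 2 ≤ (D i).card) → ∀ f : Fin r → ℤ[X], (∀ j, (f j).natDegree = d j) →
    (∀ j, ∀ m ∈ SD b D k, |(f j).eval (m : ℤ)| ≤ B * ((b ^ (d j * k) : ℕ) : ℤ)) →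
    ∀ z : ℕ, (k : ℝ) ^ B0 ≤ z → (z : ℝ) ≤ (k : ℝ) ^ E → ∀ L : ℕ → ℝ, (∀ n, th n ≤ L n ∧ L n ≤ ArithmeticFunction.vonMangoldt n) → 
    ∀ w : ℕ → ℝ, (∀ m, |w m| ≤ (k : ℝ) ^ T) →
    (((Fintype.piFinset (fun j => Icc (-(B * ((b ^ (d j * k) : ℕ) : ℤ))) (B * ((b ^ (d j * k) : ℕ) : ℤ)))).filter
      (fun c : Fin r → ℤ => ∃ M : ℕ, (SD b D k).card / (k : ℝ) ^ U <
      |∑ m ∈ (SD b D k).filter (fun m => m < M), w m *
        (∏ j, LI L ((f j).eval (m : ℤ) + c j) - ∏ j, lamzI z ((f j).eval (m : ℤ) + c j))|)).card : ℝ) ≤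
      (∏ j, ((b ^ (d j * k) : ℕ) : ℝ)) / (k : ℝ) ^ U := by
  choose p C hp hC hE using fun j => Pool.Agent.Run7.h536.poly_energy b hb (d j) (hd j)
  obtain ⟨B0, V0, h0⟩ := prefixes r p (2 * B + 1) 1 T U
  refine ⟨B0, fun E => ?_⟩
  obtain ⟨k0, h1⟩ := h0 E
  obtain ⟨k1, h2⟩ := pow_lt_two V0
  choose k2 h3 using fun j => log_pow_scale b (d j) hb (hd j)
  choose K1 hK1 using fun j => exists_nat_ge (C j)
  refine ⟨k0 + k1 + ∑ j, k2 j + ∑ j, K1 j + 1, fun k hk D hD f hf hfb z hz1 hz2 L hL w hw => ?_⟩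
  have hk2 : ∀ j, k2 j ≤ k := by
    intro j
    have : k2 j ≤ ∑ j, k2 j := single_le_sum (f := k2) (fun _ _ => Nat.zero_le _) (mem_univ j)
    omega
  have hK1k : ∀ j, C j ≤ k := by
    intro j
    have h4 : K1 j ≤ ∑ j, K1 j := single_le_sum (f := K1) (fun _ _ => Nat.zero_le _) (mem_univ j)
    exact (hK1 j).trans (by exact_mod_cast (by omega : K1 j ≤ k))
  obtain ⟨N, hN⟩ : ∃ N : Fin r → ℕ, ∀ j, N j = b ^ (d j * k) := ⟨_, fun _ => rfl⟩
  have hNpos : ∀ j, 1 ≤ N j := fun j => by rw [hN]; exact Nat.pow_pos (by omega)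
  simp only [← hN] at hfb ⊢
  obtain ⟨S, hS⟩ : ∃ S, S = SD b D k := ⟨_, rfl⟩
  have h5 := h1 k (by omega) N (fun j => by rw [hN]; exact (h3 j k (hk2 j)).1) (fun j => by rw [hN]; exact (h3 j k (hk2 j)).2)
    S (by rw [hS]; exact (h2 k (by omega)).trans (SD_large b hb D k hD))
    (fun j m => (f j).eval (m : ℤ) - (B * N j + 1)) ?_ ?_ z hz1 hz2 L hL w hw
  · refine le_trans ?_ h5
    apply Nat.cast_le.2
    apply card_le_card_of_injOn (fun (c : Fin r → ℤ) (j : Fin r) => (c j + ((B : ℤ) * N j + 1)).toNat)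
    · intro c hc
      rw [mem_coe, mem_filter, Fintype.mem_piFinset] at hc ⊢
      obtain ⟨hc1, M, hM⟩ := hc
      have hcj : ∀ j, (((c j + (B * N j + 1)).toNat : ℕ) : ℤ) = c j + (B * N j + 1) := by
        intro j
        have := mem_Icc.1 (hc1 j)
        omega
      refine ⟨fun j => ?_, M, ?_⟩
      · have h6 := mem_Icc.1 (hc1 j)
        have h7 := hcj j
        rw [mem_Icc]
        constructor
        · change 1 ≤ (c j + ((B : ℤ) * N j + 1)).toNat
          have h9 : (1 : ℤ) ≤ ((c j + ((B : ℤ) * N j + 1)).toNat : ℕ) := by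
            rw [h7]
            linarith [h6.1]
          exact_mod_cast h9
        · have h8 : ((((c j + (B * N j + 1)).toNat : ℕ) : ℤ)) ≤ (((2 * B + 1) * N j : ℕ) : ℤ) := by
            rw [h7]
            push_cast
            have := hNpos j
            nlinarith
          exact_mod_cast h8
      · rw [hS]
        refine lt_of_lt_of_le hM (le_of_eq ?_)
        congr 1
        apply sum_congr rfl
        intro m _
        have e1 : ∀ j, ((c j + (B * N j + 1)).toNat : ℤ) + ((f j).eval (m : ℤ) - (B * N j + 1)) = (f j).eval (m : ℤ) + c j := by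
          intro j
          rw [hcj]
          ring
        simp only [e1]
    · intro c hc c' hc' h6
      rw [mem_coe, mem_filter, Fintype.mem_piFinset] at hc hc'
      funext j
      have h7 := congrFun h6 j
      have h8 := mem_Icc.1 (hc.1 j)
      have h9 := mem_Icc.1 (hc'.1 j)
      simp only at h7
      omega
  · intro j m hm
    rw [hS] at hm
    have h6 := abs_le.1 (hfb j m hm)
    have := hNpos j
    push_cast
    rw [abs_le]
    constructor <;> nlinarith [h6.1, h6.2]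
  · intro j
    have h6 := hE j k D hD (f j - Polynomial.C ((B * N j + 1 : ℕ) : ℤ)) (by rw [natDegree_sub_C]; exact hf j)
    have e1 : (fun i : {n // n ∈ SD b D k} => (f j - Polynomial.C ((B * N j + 1 : ℕ) : ℤ)).eval ((i.1 : ℕ) : ℤ)) =
        fun m : {m // m ∈ SD b D k} => (f j).eval ((m.1 : ℕ) : ℤ) - (B * N j + 1) := by
      funext i
      rw [eval_sub, eval_C]
      push_cast
      rfl
    rw [e1, Fintype.card_coe, ← hN] at h6
    subst hS
    refine h6.trans ?_
    apply mul_le_mul_of_nonneg_right _ (by positivity)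
    rw [pow_one]
    exact hK1k j

end Pool.Agent.Run7.h536.QC
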