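import Pool.Agent.Run7.h536.CE4
import Pool.Agent.Run7.h536.LD2
import Pool.Agent.Run7.h536.QC5

set_option autoImplicit false

/-! Systems of families of polynomials with thin leading coefficients. -/

namespace Pool.Agent.Run7.h536.CE
open Finset Polynomial
open Pool.Agent.TH872.Sq
open Pool.Agent.TH212.EH (En enum)
open Pool.Agent.Run7.h536 (En_mono)
open Pool.Agent.Run7.h536.RD
open Pool.Agent.Run7.h536.QC (pow_lt_two SD_large)

/-- the energy of a family with repetitions -/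
lemma En_fst {ι σ : Type} [Fintype ι] [Fintype σ] (h : ℕ) (v : ι → ℤ) :
    (En h (fun q : ι × σ => v q.1) : ℝ) ≤ (Fintype.card σ : ℝ) ^ (2 * h) * En h v := by
  classical
  have h1 : En h (fun q : ι × σ => v q.1) ≤ En h v * Fintype.card σ ^ (2 * h) := by
    unfold En
    have h2 : Nat.card ({q : (Fin h → ι) × (Fin h → ι) // ∑ j, v (q.1 j) = ∑ j, v (q.2 j)} × ((Fin h → σ) × (Fin h → σ))) =
        Nat.card {q : (Fin h → ι) × (Fin h → ι) // ∑ j, v (q.1 j) = ∑ j, v (q.2 j)} * Fintype.card σ ^ (2 * h) := by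
      rw [Nat.card_prod, Nat.card_prod, Nat.card_eq_fintype_card (α := Fin h → σ), Fintype.card_fun, Fintype.card_fin, two_mul, pow_add]
    rw [← h2]
    apply Nat.card_le_card_of_injective (fun q : {q : (Fin h → ι × σ) × (Fin h → ι × σ) // ∑ j, v (q.1 j).1 = ∑ j, v (q.2 j).1} =>
      ((⟨(fun j => (q.1.1 j).1, fun j => (q.1.2 j).1), q.2⟩ : {q : (Fin h → ι) × (Fin h → ι) // ∑ j, v (q.1 j) = ∑ j, v (q.2 j)}),
        ((fun j => (q.1.1 j).2, fun j => (q.1.2 j).2) : (Fin h → σ) × (Fin h → σ))))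
    rintro ⟨⟨a, c⟩, h1⟩ ⟨⟨a', c'⟩, h2⟩ h3
    simp only [Prod.mk.injEq, Subtype.mk.injEq] at h3 ⊢
    obtain ⟨⟨e1, e2⟩, e3, e4⟩ := h3
    constructor
    · funext j
      exact Prod.ext (congrFun e1 j) (congrFun e3 j)
    · funext j
      exact Prod.ext (congrFun e2 j) (congrFun e4 j)
  have h2 : (En h (fun q : ι × σ => v q.1) : ℝ) ≤ ((En h v * Fintype.card σ ^ (2 * h) : ℕ) : ℝ) := by exact_mod_cast h1
  refine h2.trans (le_of_eq ?_)
  push_cast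
  ring

/-- the scale of `X b ^ (d k)` -/
lemma scale (b d r : ℕ) (hb : 2 ≤ b) (hd : 2 ≤ d) (hr : 2 ≤ r) : ∃ k₀ : ℕ, ∀ k : ℕ, k₀ ≤ k → ∀ X : ℕ, 1 ≤ X →
    X ≤ (b ^ (d * k)) ^ (r - 1) → (k : ℝ) ≤ Real.log ((X * b ^ (d * k) : ℕ) : ℝ) ∧ Real.log ((X * b ^ (d * k) : ℕ) : ℝ) ≤ (k : ℝ) ^ 2 := by
  refine ⟨r * d * b + 1, fun k hk X hX hXG => ?_⟩
  have hk1 : (1 : ℝ) ≤ k := by exact_mod_cast (by omega : 1 ≤ k)
  have hb2 : (2 : ℝ) ≤ b := by exact_mod_cast hb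
  have hd2 : (2 : ℝ) ≤ d := by exact_mod_cast hd
  have hlb : Real.log 2 ≤ Real.log b := Real.log_le_log (by norm_num) hb2
  have h2 := Real.log_two_gt_d9
  have hG1 : 1 ≤ b ^ (d * k) := Nat.one_le_pow _ _ (by omega)
  constructor
  · have h1 : Real.log ((b ^ (d * k) : ℕ) : ℝ) ≤ Real.log ((X * b ^ (d * k) : ℕ) : ℝ) := by
      apply Real.log_le_log (by exact_mod_cast hG1)
      exact_mod_cast Nat.le_mul_of_pos_left _ hX
    refine le_trans ?_ h1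
    push_cast
    rw [Real.log_pow]
    push_cast
    have h3 : (1 : ℝ) ≤ d * Real.log b := by nlinarith
    nlinarith
  · have h1 : X * b ^ (d * k) ≤ b ^ (d * k * r) := by
      calc X * b ^ (d * k) ≤ (b ^ (d * k)) ^ (r - 1) * b ^ (d * k) := Nat.mul_le_mul_right _ hXG
        _ = (b ^ (d * k)) ^ r := by rw [← pow_succ]; congr 1; omega
        _ = _ := by rw [← pow_mul]
    have h3 : Real.log ((X * b ^ (d * k) : ℕ) : ℝ) ≤ Real.log ((b ^ (d * k * r) : ℕ) : ℝ) := by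
      apply Real.log_le_log
      · exact_mod_cast Nat.mul_pos hX hG1
      · exact_mod_cast h1
    refine h3.trans ?_
    push_cast
    rw [Real.log_pow]
    push_cast
    have h4 : Real.log b ≤ b := by
      have := Real.log_le_sub_one_of_pos (by linarith : (0 : ℝ) < b)
      linarith
    have h5 : ((r * d * b : ℕ) : ℝ) ≤ k := by exact_mod_cast (by omega : r * d * b ≤ k)
    push_cast at h5
    calc (d : ℝ) * k * r * Real.log b ≤ d * k * r * b := mul_le_mul_of_nonneg_left h4 (by positivity)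
      _ = (r * d * b) * k := by ring
      _ ≤ k * k := mul_le_mul_of_nonneg_right h5 (by linarith)
      _ = _ := by ring

/-- the energy of the differences -/
theorem cross_diff (b : ℕ) (hb : 2 ≤ b) (d h r B C : ℕ) (hd : 2 ≤ d) (hh : 1 ≤ h) (hr : 2 ≤ r) (hB : 1 ≤ B) :
    ∃ p C' k₀ : ℕ, ∀ k : ℕ, k₀ ≤ k → ∀ X : ℕ, X ≤ (b ^ (d * k)) ^ (r - 1) → b ^ (d * k) ≤ X ^ (r - 1) →
    ∀ D : ℕ → Finset ℕ, (∀ i < k, D i ⊆ range b ∧ 2 ≤ (D i).card) → ∀ (ι : Type) [Fintype ι] (v : ι → ℤ),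
    (∀ i, |v i| ≤ B * X) → (En h v : ℝ) * X ≤ (k : ℝ) ^ C * (Fintype.card ι : ℝ) ^ (2 * h) →
    ∀ κ : ℤ, κ ≠ 0 → ∀ f : ι → ℤ[X], (∀ i, (f i).natDegree ≤ d) → (∀ i, (f i).coeff d = κ * v i) →
    (En p (fun q : ι × ({n // n ∈ SD b D k} × {n // n ∈ SD b D k}) => (f q.1).eval ((q.2.2.1 : ℕ) : ℤ) - (f q.1).eval ((q.2.1.1 : ℕ) : ℤ)) : ℝ) *
      ((X * b ^ (d * k) : ℕ) : ℝ) ≤
      (k : ℝ) ^ C' * (Fintype.card (ι × ({n // n ∈ SD b D k} × {n // n ∈ SD b D k})) : ℝ) ^ (2 * p) := by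
  classical
  obtain ⟨e, he⟩ : ∃ e, d = e + 2 := ⟨d - 2, by omega⟩
  obtain ⟨p, C', k1, hp, h1⟩ := cross_energy b hb e h r B C hh hr hB
  rw [← he] at h1
  obtain ⟨k2, h2⟩ := scale b d r hb hd hr
  refine ⟨p, 2 * C', k1 + k2 + 1, fun k hk X hX1 hX2 D hD ι _ v hv hE κ hκ f hf hfc => ?_⟩
  have hG1 : 1 ≤ b ^ (d * k) := Nat.one_le_pow _ _ (by omega)
  have hX : 1 ≤ X := by
    rcases Nat.eq_zero_or_pos X with h0 | h0
    · rw [h0, zero_pow (by omega)] at hX2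
      omega
    · exact h0
  obtain ⟨hl1, hl2⟩ := h2 k (by omega) X hX hX1
  have hk0 : (0 : ℝ) ≤ k := Nat.cast_nonneg _
  have h3 := h1 k (by omega) X hX1 hX2 D hD (ι × {n // n ∈ SD b D k}) (fun q => v q.1) (fun q => hv q.1) (by
    have h4 := En_fst (σ := {n // n ∈ SD b D k}) h v
    calc (En h (fun q : ι × {n // n ∈ SD b D k} => v q.1) : ℝ) * X ≤
        ((Fintype.card {n // n ∈ SD b D k} : ℝ) ^ (2 * h) * En h v) * X := mul_le_mul_of_nonneg_right h4 (Nat.cast_nonneg _)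
      _ = (Fintype.card {n // n ∈ SD b D k} : ℝ) ^ (2 * h) * (En h v * X) := by ring
      _ ≤ (Fintype.card {n // n ∈ SD b D k} : ℝ) ^ (2 * h) * ((k : ℝ) ^ C * (Fintype.card ι : ℝ) ^ (2 * h)) :=
          mul_le_mul_of_nonneg_left hE (by positivity)
      _ ≤ (Fintype.card {n // n ∈ SD b D k} : ℝ) ^ (2 * h) * (Real.log ((X * b ^ (d * k) : ℕ) : ℝ) ^ C * (Fintype.card ι : ℝ) ^ (2 * h)) := by
          apply mul_le_mul_of_nonneg_left _ (by positivity)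
          apply mul_le_mul_of_nonneg_right _ (by positivity)
          exact pow_le_pow_left₀ hk0 hl1 C
      _ = _ := by
          rw [Fintype.card_prod]
          push_cast
          ring) κ hκ (fun q => f q.1 - Polynomial.C ((f q.1).eval ((q.2.1 : ℕ) : ℤ))) (fun q => by
      refine (natDegree_sub_le _ _).trans ?_
      rw [natDegree_C]
      exact max_le (hf q.1) (Nat.zero_le _)) (fun q => by
      rw [coeff_sub, coeff_C, if_neg (by omega), sub_zero]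
      exact hfc q.1)
  have h5 := En_mono p (fun q : (ι × {n // n ∈ SD b D k}) × {n // n ∈ SD b D k} =>
    (f q.1.1 - Polynomial.C ((f q.1.1).eval ((q.1.2.1 : ℕ) : ℤ))).eval ((q.2.1 : ℕ) : ℤ))
    (fun q : ι × ({n // n ∈ SD b D k} × {n // n ∈ SD b D k}) => ((q.1, q.2.1), q.2.2)) (by
      rintro ⟨a, a1, a2⟩ ⟨c, c1, c2⟩ h6
      simp only [Prod.mk.injEq] at h6
      obtain ⟨⟨e1, e2⟩, e3⟩ := h6
      rw [e1, e2, e3])
  have h6 : (fun q : ι × ({n // n ∈ SD b D k} × {n // n ∈ SD b D k}) =>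
      (f q.1 - Polynomial.C ((f q.1).eval ((q.2.1.1 : ℕ) : ℤ))).eval ((q.2.2.1 : ℕ) : ℤ)) =
      fun q => (f q.1).eval ((q.2.2.1 : ℕ) : ℤ) - (f q.1).eval ((q.2.1.1 : ℕ) : ℤ) := by
    funext q
    rw [eval_sub, eval_C]
  simp only [h6] at h5
  have h7 : (Fintype.card ((ι × {n // n ∈ SD b D k}) × {n // n ∈ SD b D k}) : ℝ) =
      Fintype.card (ι × ({n // n ∈ SD b D k} × {n // n ∈ SD b D k})) := by
    rw [Fintype.card_prod, Fintype.card_prod, Fintype.card_prod, Fintype.card_prod]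
    push_cast
    ring
  rw [h7] at h3
  have h8 : (0 : ℝ) ≤ ((X * b ^ (d * k) : ℕ) : ℝ) := Nat.cast_nonneg _
  refine (mul_le_mul_of_nonneg_right (by exact_mod_cast h5) h8).trans (h3.trans ?_)
  apply mul_le_mul_of_nonneg_right _ (by positivity)
  rw [pow_mul (k : ℝ) 2 C']
  exact pow_le_pow_left₀ (by linarith) hl2 C'

open Classical in
/-- **Systems of families of polynomials with thin leading coefficients, arbitrary other coefficients, restricted digits.** -/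
theorem cross_sys (b : ℕ) (hb : 2 ≤ b) (s : ℕ) (J : Finset (Fin s)) (g : Fin s → ℕ → ℝ) (hg : ∀ l ∈ J, Small (g l))
    (d h : Fin s → ℕ) (hd : ∀ l, 2 ≤ d l) (hh : ∀ l, 1 ≤ h l) (r B C T U : ℕ) (hr : 2 ≤ r) (hB : 1 ≤ B) :
    ∃ B0 : ℕ, ∀ E : ℕ, ∃ k₀ : ℕ, ∀ k : ℕ, k₀ ≤ k → ∀ X : Fin s → ℕ, (∀ l, X l ≤ (b ^ (d l * k)) ^ (r - 1)) →
    (∀ l, b ^ (d l * k) ≤ X l ^ (r - 1)) →
    ∀ D : ℕ → Finset ℕ, (∀ i < k, D i ⊆ range b ∧ 2 ≤ (D i).card) → ∀ (ι : Type) [Fintype ι] (v : Fin s → ι → ℤ),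
    (∀ l i, |v l i| ≤ B * X l) → (∀ l, (En (h l) (v l) : ℝ) * X l ≤ (k : ℝ) ^ C * (Fintype.card ι : ℝ) ^ (2 * h l)) →
    ∀ κ : Fin s → ℤ, (∀ l, κ l ≠ 0) → ∀ f : Fin s → ι → ℤ[X], (∀ l i, (f l i).natDegree ≤ d l) →
    (∀ l i, (f l i).coeff (d l) = κ l * v l i) →
    (∀ l i, ∀ m ∈ SD b D k, |(f l i).eval (m : ℤ)| ≤ B * ((X l * b ^ (d l * k) : ℕ) : ℤ)) →
    ∀ z : ℕ, (k : ℝ) ^ B0 ≤ z → (z : ℝ) ≤ (k : ℝ) ^ E → ∀ L : ℕ → ℝ, (∀ n, th n ≤ L n ∧ L n ≤ ArithmeticFunction.vonMangoldt n) →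
    ∀ a : ι → ℕ → ℝ, (∀ i m, |a i m| ≤ (k : ℝ) ^ T) →
    ((univ.filter (fun i : ι => (∏ l, ((X l * b ^ (d l * k) : ℕ) : ℝ)) / (k : ℝ) ^ U <
      (((Fintype.piFinset (fun l => Icc (-((B : ℤ) * ((X l * b ^ (d l * k) : ℕ) : ℤ))) ((B : ℤ) * ((X l * b ^ (d l * k) : ℕ) : ℤ)))).filter
        (fun c : Fin s → ℤ => ∃ M : ℕ, (SD b D k).card / (k : ℝ) ^ U < |∑ m ∈ (SD b D k).filter (fun m => m < M), a i m *
          (∏ l, MA J g L l ((f l i).eval (m : ℤ) + c l) - ∏ l, MM J z l ((f l i).eval (m : ℤ) + c l))|)).card : ℝ))).card : ℝ) ≤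
      Fintype.card ι / (k : ℝ) ^ U := by
  choose p C' k1 hde using fun l => cross_diff b hb (d l) (h l) r B C (hd l) (hh l) hr hB
  obtain ⟨B0, V0, h0⟩ := genDf s J g hg p B (∑ l, C' l) T U hB
  refine ⟨B0, fun E => ?_⟩
  obtain ⟨k0, h1⟩ := h0 E
  choose k2 h2 using fun l => scale b (d l) r hb (hd l) hr
  obtain ⟨k3, h3⟩ := pow_lt_two V0
  refine ⟨k0 + ∑ l, k1 l + ∑ l, k2 l + k3 + 1, fun k hk X hX1 hX2 D hD ι _ v hv hEv κ hκ f hf hfc hfb z hz1 hz2 L hL a ha => ?_⟩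
  have hk1' : (1 : ℝ) ≤ k := by exact_mod_cast (by omega : 1 ≤ k)
  have hs1 : ∀ l, k1 l ≤ k := by
    intro l
    have : k1 l ≤ ∑ l, k1 l := single_le_sum (f := k1) (fun _ _ => Nat.zero_le _) (mem_univ l)
    omega
  have hs2 : ∀ l, k2 l ≤ k := by
    intro l
    have : k2 l ≤ ∑ l, k2 l := single_le_sum (f := k2) (fun _ _ => Nat.zero_le _) (mem_univ l)
    omega
  have hXpos : ∀ l, 1 ≤ X l := by
    intro l
    have hG1 : 1 ≤ b ^ (d l * k) := Nat.one_le_pow _ _ (by omega)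
    have := hX2 l
    rcases Nat.eq_zero_or_pos (X l) with h0 | h0
    · rw [h0, zero_pow (by omega)] at this
      omega
    · exact h0
  exact h1 k (by omega) (fun l => X l * b ^ (d l * k)) (fun l => (h2 l k (hs2 l) (X l) (hXpos l) (hX1 l)).1)
    (fun l => (h2 l k (hs2 l) (X l) (hXpos l) (hX1 l)).2) ι (SD b D k) ((h3 k (by omega)).trans (SD_large b hb D k hD))
    (fun l i m => (f l i).eval (m : ℤ)) hfb (fun l => by
      refine (hde l k (hs1 l) (X l) (hX1 l) (hX2 l) D hD ι (v l) (hv l) (hEv l) (κ l) (hκ l) (f l) (hf l) (hfc l)).trans ?_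
      apply mul_le_mul_of_nonneg_right _ (by positivity)
      apply pow_le_pow_right₀ hk1'
      exact single_le_sum (f := C') (fun _ _ => Nat.zero_le _) (mem_univ l)) z hz1 hz2 L hL a ha

end Pool.Agent.Run7.h536.CE
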