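import Pool.Agent.Run7.h536.CE5

set_option autoImplicit false

/-! Almost all leading coefficients, all other coefficients, all weights, almost all constant terms, all initial
segments. -/

namespace Pool.Agent.Run7.h536.CE
open Finset Polynomial
open Pool.Agent.TH872.Sq
open Pool.Agent.TH212.EH (En enum)
open Pool.Agent.Run7.h536 (En_mono)
open Pool.Agent.Run7.h536.RD
open Pool.Agent.Run7.h536.QC (pow_lt_two SD_large)

open Classical in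
/-- the number of the vectors of constant terms for which some initial segment is exceptional -/
noncomputable def exc (s : ℕ) (J : Finset (Fin s)) (g : Fin s → ℕ → ℝ) (L : ℕ → ℝ) (z B : ℕ) (N : Fin s → ℕ) (S : Finset ℕ)
    (δ : ℝ) (f : Fin s → ℤ[X]) (a : ℕ → ℝ) : ℕ :=
  ((Fintype.piFinset (fun l => Icc (-((B : ℤ) * (N l : ℤ))) ((B : ℤ) * (N l : ℤ)))).filter
    (fun c : Fin s → ℤ => ∃ M : ℕ, δ < |∑ m ∈ S.filter (fun m => m < M), a m *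
      (∏ l, MA J g L l ((f l).eval (m : ℤ) + c l) - ∏ l, MM J z l ((f l).eval (m : ℤ) + c l))|)).card

open Classical in
/-- **Almost all leading coefficients, ALL other coefficients, ALL weights.** -/
theorem cross_all (b : ℕ) (hb : 2 ≤ b) (s : ℕ) (J : Finset (Fin s)) (g : Fin s → ℕ → ℝ) (hg : ∀ l ∈ J, Small (g l))
    (d h : Fin s → ℕ) (hd : ∀ l, 2 ≤ d l) (hh : ∀ l, 1 ≤ h l) (r B C T U : ℕ) (hr : 2 ≤ r) (hB : 1 ≤ B) :
    ∃ B0 : ℕ, ∀ E : ℕ, ∃ k₀ : ℕ, ∀ k : ℕ, k₀ ≤ k → ∀ X : Fin s → ℕ, (∀ l, X l ≤ (b ^ (d l * k)) ^ (r - 1)) →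
    (∀ l, b ^ (d l * k) ≤ X l ^ (r - 1)) →
    ∀ D : ℕ → Finset ℕ, (∀ i < k, D i ⊆ range b ∧ 2 ≤ (D i).card) → ∀ (ι : Type) [Fintype ι] (v : Fin s → ι → ℤ),
    (∀ l i, |v l i| ≤ B * X l) → (∀ l, (En (h l) (v l) : ℝ) * X l ≤ (k : ℝ) ^ C * (Fintype.card ι : ℝ) ^ (2 * h l)) →
    ∀ κ : Fin s → ℤ, (∀ l, κ l ≠ 0) → 
    ∀ z : ℕ, (k : ℝ) ^ B0 ≤ z → (z : ℝ) ≤ (k : ℝ) ^ E → ∀ L : ℕ → ℝ, (∀ n, th n ≤ L n ∧ L n ≤ ArithmeticFunction.vonMangoldt n) →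
    ((univ.filter (fun i : ι => ∃ f : Fin s → ℤ[X], ∃ a : ℕ → ℝ, (∀ l, (f l).natDegree ≤ d l) ∧
      (∀ l, (f l).coeff (d l) = κ l * v l i) ∧
      (∀ l, ∀ m ∈ SD b D k, |(f l).eval (m : ℤ)| ≤ B * ((X l * b ^ (d l * k) : ℕ) : ℤ)) ∧ (∀ m, |a m| ≤ (k : ℝ) ^ T) ∧
      (∏ l, ((X l * b ^ (d l * k) : ℕ) : ℝ)) / (k : ℝ) ^ U <
        exc s J g L z B (fun l => X l * b ^ (d l * k)) (SD b D k) ((SD b D k).card / (k : ℝ) ^ U) f a)).card : ℝ) ≤
      Fintype.card ι / (k : ℝ) ^ U := by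
  obtain ⟨B0, h0⟩ := cross_sys b hb s J g hg d h hd hh r B (C + ∑ l, 2 * h l * U) T U hr hB
  refine ⟨B0, fun E => ?_⟩
  obtain ⟨k₀, h1⟩ := h0 E
  refine ⟨k₀ + 2, fun k hk X hX1 hX2 D hD ι _ v hv hEv κ hκ z hz1 hz2 L hL => ?_⟩
  have hk1 : (1 : ℝ) ≤ k := by exact_mod_cast (by omega : 1 ≤ k)
  have hk2 : (2 : ℝ) ≤ k := by exact_mod_cast (by omega : 2 ≤ k)
  have hkp : (0 : ℝ) < k := by linarith
  obtain ⟨Bd, hBd⟩ : ∃ Bd : Finset ι, Bd = univ.filter (fun i : ι => ∃ f : Fin s → ℤ[X], ∃ a : ℕ → ℝ, (∀ l, (f l).natDegree ≤ d l) ∧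
      (∀ l, (f l).coeff (d l) = κ l * v l i) ∧
      (∀ l, ∀ m ∈ SD b D k, |(f l).eval (m : ℤ)| ≤ B * ((X l * b ^ (d l * k) : ℕ) : ℤ)) ∧ (∀ m, |a m| ≤ (k : ℝ) ^ T) ∧
      (∏ l, ((X l * b ^ (d l * k) : ℕ) : ℝ)) / (k : ℝ) ^ U <
        exc s J g L z B (fun l => X l * b ^ (d l * k)) (SD b D k) ((SD b D k).card / (k : ℝ) ^ U) f a) := ⟨_, rfl⟩
  rw [← hBd]
  by_contra hcon
  push Not at hcon
  have hBd' : ∀ i : {i // i ∈ Bd}, ∃ f : Fin s → ℤ[X], ∃ a : ℕ → ℝ, (∀ l, (f l).natDegree ≤ d l) ∧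
      (∀ l, (f l).coeff (d l) = κ l * v l i.1) ∧
      (∀ l, ∀ m ∈ SD b D k, |(f l).eval (m : ℤ)| ≤ B * ((X l * b ^ (d l * k) : ℕ) : ℤ)) ∧ (∀ m, |a m| ≤ (k : ℝ) ^ T) ∧
      (∏ l, ((X l * b ^ (d l * k) : ℕ) : ℝ)) / (k : ℝ) ^ U <
        exc s J g L z B (fun l => X l * b ^ (d l * k)) (SD b D k) ((SD b D k).card / (k : ℝ) ^ U) f a := by
    have hmem : ∀ x ∈ Bd, ∃ f : Fin s → ℤ[X], ∃ a : ℕ → ℝ, (∀ l, (f l).natDegree ≤ d l) ∧
      (∀ l, (f l).coeff (d l) = κ l * v l x) ∧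
      (∀ l, ∀ m ∈ SD b D k, |(f l).eval (m : ℤ)| ≤ B * ((X l * b ^ (d l * k) : ℕ) : ℤ)) ∧ (∀ m, |a m| ≤ (k : ℝ) ^ T) ∧
      (∏ l, ((X l * b ^ (d l * k) : ℕ) : ℝ)) / (k : ℝ) ^ U <
        exc s J g L z B (fun l => X l * b ^ (d l * k)) (SD b D k) ((SD b D k).card / (k : ℝ) ^ U) f a := by
      intro x hx
      rw [hBd, mem_filter] at hx
      exact hx.2
    exact fun i => hmem i.1 i.2
  choose f a hf1 hf2 hf3 ha hbad using hBd'
  have hc : Fintype.card {i // i ∈ Bd} = Bd.card := Fintype.card_coe _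
  have h5 := h1 k (by omega) X hX1 hX2 D hD {i // i ∈ Bd} (fun l i => v l i.1) (fun l i => hv l i.1) (fun l => by
    have h6 : En (h l) (fun i : {i // i ∈ Bd} => v l i.1) ≤ En (h l) (v l) := En_mono (h l) (v l) (fun i : {i // i ∈ Bd} => i.1) Subtype.val_injective
    have h7 : (Fintype.card ι : ℝ) ≤ (k : ℝ) ^ U * Bd.card := by
      rw [div_lt_iff₀ (by positivity)] at hcon
      linarith
    rw [hc]
    calc (En (h l) (fun i : {i // i ∈ Bd} => v l i.1) : ℝ) * X l ≤ En (h l) (v l) * X l :=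
          mul_le_mul_of_nonneg_right (by exact_mod_cast h6) (Nat.cast_nonneg _)
      _ ≤ (k : ℝ) ^ C * (Fintype.card ι : ℝ) ^ (2 * h l) := hEv l
      _ ≤ (k : ℝ) ^ C * ((k : ℝ) ^ U * Bd.card) ^ (2 * h l) := by
          apply mul_le_mul_of_nonneg_left _ (by positivity)
          exact pow_le_pow_left₀ (Nat.cast_nonneg _) h7 _
      _ = (k : ℝ) ^ (C + 2 * h l * U) * (Bd.card : ℝ) ^ (2 * h l) := by
          rw [mul_pow, ← pow_mul, pow_add, mul_comm U (2 * h l)]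
          ring
      _ ≤ _ := by
          apply mul_le_mul_of_nonneg_right _ (by positivity)
          apply pow_le_pow_right₀ hk1
          apply Nat.add_le_add_left
          exact single_le_sum (f := fun l => 2 * h l * U) (fun _ _ => Nat.zero_le _) (mem_univ l)) κ hκ
    (fun l i => f i l) (fun l i => hf1 i l) (fun l i => hf2 i l) (fun l i => hf3 i l) z hz1 hz2 L hL a ha
  rw [filter_true_of_mem (fun i _ => by
    have := hbad i
    unfold exc at this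
    exact this), card_univ, hc] at h5
  have hB0 : (0 : ℝ) < Bd.card := lt_of_le_of_lt (by positivity) hcon
  rcases Nat.eq_zero_or_pos U with hU | hU
  · -- no savings: the whole family
    rw [hU, pow_zero, div_one] at hcon
    have : (Bd.card : ℝ) ≤ Fintype.card ι := by exact_mod_cast card_le_univ Bd
    linarith
  · have h9 : (Bd.card : ℝ) * k ≤ Bd.card := by
      rw [le_div_iff₀ (by positivity)] at h5
      refine le_trans ?_ h5
      apply mul_le_mul_of_nonneg_left _ hB0.le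
      calc (k : ℝ) = (k : ℝ) ^ 1 := (pow_one _).symm
        _ ≤ _ := pow_le_pow_right₀ hk1 hU
    nlinarith

end Pool.Agent.Run7.h536.CE
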