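import Pool.Agent.Run7.h536.RD3
import Pool.Agent.H373R2.T7.SysMain2
import Pool.Agent.H373R2.T7.SysCount

set_option autoImplicit false

/-! The main terms: sums of the model over the values of systems of polynomials, uniformly in the polynomials. -/

namespace Pool.Agent.Run7.h536.MT
open Finset Polynomial
open Pool.Agent.H373R2.T7
open Pool.Agent.TH872.Sq (th th_nonneg th_le dev_sum)
open Pool.Agent.Run7.h536.QC (pow_lt_two)
open Pool.Agent.Run7.h536.RD (AL AM)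

open Classical in
lemma AM_eq (z : ℕ) (hz : 2 ≤ z) (n : ℤ) : AM z n = if ∀ p ∈ pz z, ¬ (p : ℤ) ∣ n then (Vz z)⁻¹ else 0 := by
  unfold AM lamzI lamz
  rcases lt_trichotomy n 0 with h | h | h
  · rw [if_neg (by omega), if_pos (by omega : 1 ≤ -n), zero_add]
    have e : (∀ p ∈ pz z, ¬ p ∣ (-n).toNat) ↔ (∀ p ∈ pz z, ¬ (p : ℤ) ∣ n) := by
      have hn : (((-n).toNat : ℕ) : ℤ) = -n := Int.toNat_of_nonneg (by omega)
      refine forall_congr' fun p => forall_congr' fun _ => ?_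
      rw [← Int.natCast_dvd_natCast, hn, dvd_neg]
    simp only [e]
  · subst h
    rw [if_neg (by omega), if_neg (by omega), if_neg, add_zero]
    push Not
    exact ⟨2, mem_pz.2 ⟨hz, Nat.prime_two⟩, by simp⟩
  · rw [if_pos (by omega : 1 ≤ n), if_neg (by omega : ¬ 1 ≤ -n), add_zero]
    have e : (∀ p ∈ pz z, ¬ p ∣ n.toNat) ↔ (∀ p ∈ pz z, ¬ (p : ℤ) ∣ n) := by
      have hn : ((n.toNat : ℕ) : ℤ) = n := Int.toNat_of_nonneg (by omega)
      refine forall_congr' fun p => forall_congr' fun _ => ?_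
      rw [← Int.natCast_dvd_natCast, hn]
    simp only [e]

/-- the number of the residues modulo `p` at which `P` vanishes -/
noncomputable def rho (P : ℤ[X]) (p : ℕ) : ℕ := ((range p).filter (fun r : ℕ => (p : ℤ) ∣ P.eval (r : ℤ))).card

/-- the number of the nonzero residues modulo `p` at which `P` vanishes -/
noncomputable def rhos (P : ℤ[X]) (p : ℕ) : ℕ := ((range p).filter (fun r : ℕ => ¬ p ∣ r ∧ (p : ℤ) ∣ P.eval (r : ℤ))).card

open Classical in
lemma prod_AM (z : ℕ) (hz : 2 ≤ z) (s : ℕ) (P : Fin s → ℤ[X]) (m : ℤ) : ∏ l, AM z ((P l).eval m) =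
    if ∀ p ∈ pz z, ¬ (p : ℤ) ∣ (∏ l, P l).eval m then (Vz z)⁻¹ ^ s else 0 := by
  have h1 : ∀ l, AM z ((P l).eval m) = if ∀ p ∈ pz z, ¬ (p : ℤ) ∣ (P l).eval m then (Vz z)⁻¹ else 0 := fun l => AM_eq z hz _
  simp only [h1]
  rw [eval_prod]
  by_cases h : ∀ l, ∀ p ∈ pz z, ¬ (p : ℤ) ∣ (P l).eval m
  · rw [if_pos]
    · have e : ∀ l ∈ (univ : Finset (Fin s)), (if ∀ p ∈ pz z, ¬ (p : ℤ) ∣ (P l).eval m then (Vz z)⁻¹ else 0) = (Vz z)⁻¹ :=
        fun l _ => if_pos (h l)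
      rw [prod_congr rfl e, prod_const, card_univ, Fintype.card_fin]
    · intro p hp hd
      have hpp := Nat.prime_iff_prime_int.1 (mem_pz.1 hp).2
      obtain ⟨l, _, hl⟩ := (Prime.dvd_finsetProd_iff hpp _).1 hd
      exact h l p hp hl
  · rw [if_neg]
    · push Not at h
      obtain ⟨l, p, hp, hd⟩ := h
      apply prod_eq_zero (mem_univ l)
      rw [if_neg]
      push Not
      exact ⟨p, hp, hd⟩
    · intro h2
      apply h
      intro l p hp hd
      exact h2 p hp (hd.trans (dvd_prod_of_mem _ (mem_univ l)))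

lemma eval_mod (P : ℤ[X]) (p n : ℕ) : (p : ℤ) ∣ P.eval (n : ℤ) ↔ (p : ℤ) ∣ P.eval ((n % p : ℕ) : ℤ) := by
  have h1 : ((n : ℤ) - ((n % p : ℕ) : ℤ)) ∣ P.eval (n : ℤ) - P.eval ((n % p : ℕ) : ℤ) := Polynomial.sub_dvd_eval_sub _ _ _
  have h2 : (p : ℤ) ∣ ((n : ℤ) - ((n % p : ℕ) : ℤ)) := by
    have h3 := Nat.mod_add_div n p
    exact ⟨((n / p : ℕ) : ℤ), by
      have : (n : ℤ) = ((n % p : ℕ) : ℤ) + (p : ℤ) * ((n / p : ℕ) : ℤ) := by exact_mod_cast h3.symm
      linarith⟩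
  have h4 := h2.trans h1
  constructor
  · intro h
    have := dvd_sub h h4
    simpa using this
  · intro h
    have := dvd_add h4 h
    simpa using this

lemma rho_le (P : ℤ[X]) (p : ℕ) (hp : p.Prime) (hP : P.map (Int.castRingHom (ZMod p)) ≠ 0) : rho P p ≤ P.natDegree := by
  classical
  have := Fact.mk hp
  have h1 := Polynomial.card_roots' (P.map (Int.castRingHom (ZMod p)))
  have h2 := Polynomial.natDegree_map_le (f := Int.castRingHom (ZMod p)) (p := P)
  refine le_trans ?_ (h1.trans h2)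
  refine le_trans ?_ (Multiset.toFinset_card_le _)
  unfold rho
  apply card_le_card_of_injOn (fun r : ℕ => (r : ZMod p))
  · intro r hr
    rw [mem_coe, mem_filter] at hr
    rw [mem_coe, Multiset.mem_toFinset, mem_roots hP, IsRoot.def]
    have h3 : ((P.eval (r : ℤ) : ℤ) : ZMod p) = 0 := (ZMod.intCast_zmod_eq_zero_iff_dvd _ _).2 hr.2
    have h4 := Polynomial.eval_intCast_map (Int.castRingHom (ZMod p)) P (r : ℤ)
    rw [eq_intCast, Int.cast_id, h3] at h4
    simpa using h4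
  · intro r hr r' hr' h
    rw [mem_coe, mem_filter, mem_range] at hr hr'
    simp only at h
    rw [ZMod.natCast_eq_natCast_iff] at h
    exact Nat.ModEq.eq_of_lt_of_lt h hr.1 hr'.1

lemma all_dvd (P : ℤ[X]) (p : ℕ) (hP : P.map (Int.castRingHom (ZMod p)) = 0) (n : ℤ) : (p : ℤ) ∣ P.eval n := by
  have h4 := Polynomial.eval_intCast_map (Int.castRingHom (ZMod p)) P n
  rw [hP, eval_zero, eq_intCast, Int.cast_id] at h4
  exact (ZMod.intCast_zmod_eq_zero_iff_dvd _ _).1 h4.symm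

lemma rhos_le (P : ℤ[X]) (p : ℕ) : rhos P p ≤ rho P p := by
  unfold rho rhos
  apply card_le_card
  intro r hr
  rw [mem_filter] at hr ⊢
  exact ⟨hr.1, hr.2.2⟩

lemma rho_le_p (P : ℤ[X]) (p : ℕ) : rho P p ≤ p := by
  unfold rho
  exact (card_filter_le _ _).trans (le_of_eq (card_range p))

lemma rhos_le_p (P : ℤ[X]) (p : ℕ) (hp : 1 ≤ p) : rhos P p ≤ p - 1 := by
  unfold rhos
  refine le_trans (card_le_card (t := (range p).erase 0) ?_) ?_
  · intro r hr
    rw [mem_filter] at hr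
    rw [mem_erase]
    refine ⟨fun h => hr.2.1 (by rw [h]; exact dvd_zero _), hr.1⟩
  · rw [card_erase_of_mem (mem_range.2 hp), card_range]

/-- from large to all initial segments -/
theorem glue (s E U N0 : ℕ) : ∃ N1 : ℕ, ∀ N : ℕ, N1 ≤ N → ∀ z : ℕ, 1 ≤ z → (z : ℝ) ≤ Real.log N ^ E → ∀ M : ℕ, M ≤ N →
    ∀ W Q : ℝ, |W| ≤ (Vz z)⁻¹ ^ s * (M * Real.log N) → 0 ≤ Q → Q ≤ (Vz z)⁻¹ ^ s →
    (N0 ≤ M → (z : ℝ) ≤ Real.log M ^ (E + 1) →
      |W - M * Q| ≤ (Vz z)⁻¹ ^ s * (M / Real.log M ^ (U + s + 3) + 2 * Real.sqrt M * Real.log M)) →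
    |W - M * Q| ≤ N / Real.log N ^ U := by
  obtain ⟨n1, h1⟩ := Vz_inv_small E
  obtain ⟨n2, h2⟩ := ev_log' (U + s + 5) 1
  obtain ⟨n3, h3⟩ := ev_L' ((2 : ℝ) ^ (U + s + 3) + (2 : ℝ) ^ (E + 1) + 3)
  refine ⟨n1 + n2 + n3 + N0 ^ 2 + 3, fun N hN z hz hzE M hMN W Q hW hQ0 hQ hl => ?_⟩
  have hV := h1 N (by omega) z hz hzE
  have hV0 : 0 < (Vz z)⁻¹ := inv_pos.2 (Vz_pos z)
  have hL := h3 N (by omega)
  have p1 : (0 : ℝ) < (2 : ℝ) ^ (U + s + 3) := by positivity
  have p2 : (0 : ℝ) < (2 : ℝ) ^ (E + 1) := by positivity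
  obtain ⟨ℓ, hℓ⟩ : ∃ ℓ, ℓ = Real.log N := ⟨_, rfl⟩
  have hsq := h2 N (by omega)
  rw [one_mul] at hsq
  rw [← hℓ] at hV hL hsq hW ⊢
  have hℓ3 : 3 ≤ ℓ := by linarith
  have hℓp : 0 < ℓ := by linarith
  have hNr : (1 : ℝ) ≤ N := by exact_mod_cast (by omega : 1 ≤ N)
  have hVs : (Vz z)⁻¹ ^ s ≤ ℓ ^ s := pow_le_pow_left₀ hV0.le hV s
  have hVs0 : 0 < (Vz z)⁻¹ ^ s := by positivity
  have hM0 : (0 : ℝ) ≤ M := Nat.cast_nonneg _
  rcases le_or_gt ((M : ℝ) * ℓ ^ (U + s + 3)) N with hsm | hlg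
  · -- short segments
    have e1 : |W - M * Q| ≤ 2 * (ℓ ^ s * (M * ℓ)) := by
      refine (abs_sub _ _).trans ?_
      have e2 : |W| ≤ ℓ ^ s * (M * ℓ) := hW.trans (mul_le_mul_of_nonneg_right hVs (by positivity))
      have e3 : |(M : ℝ) * Q| ≤ ℓ ^ s * (M * ℓ) := by
        rw [abs_of_nonneg (by positivity)]
        calc (M : ℝ) * Q ≤ M * ℓ ^ s := mul_le_mul_of_nonneg_left (hQ.trans hVs) hM0
          _ = ℓ ^ s * (M * 1) := by ring
          _ ≤ ℓ ^ s * (M * ℓ) := by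
              apply mul_le_mul_of_nonneg_left _ (by positivity)
              exact mul_le_mul_of_nonneg_left (by linarith) hM0
      linarith
    refine e1.trans ?_
    rw [le_div_iff₀ (by positivity)]
    calc 2 * (ℓ ^ s * (M * ℓ)) * ℓ ^ U = (M * ℓ ^ (U + s + 3)) * (2 / ℓ ^ 2) := by
          rw [show U + s + 3 = U + s + 1 + 2 by ring, pow_add ℓ (U + s + 1) 2, pow_add, pow_add]
          field_simp
      _ ≤ N * 1 := by
          apply mul_le_mul hsm _ (by positivity) (by positivity)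
          rw [div_le_one (by positivity)]
          nlinarith
      _ = N := mul_one _
  · -- long segments
    have hs2 : ℓ ^ (U + s + 5) * ℓ ^ (U + s + 5) ≤ N := by
      calc ℓ ^ (U + s + 5) * ℓ ^ (U + s + 5) ≤ Real.sqrt N * Real.sqrt N := mul_le_mul hsq hsq (by positivity) (Real.sqrt_nonneg _)
        _ = N := Real.mul_self_sqrt (by linarith)
    have hMM : (N : ℝ) ≤ M * M := by
      have e1 : (N : ℝ) * N ≤ (M * M) * (ℓ ^ (U + s + 3) * ℓ ^ (U + s + 3)) := by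
        have := mul_le_mul hlg.le hlg.le (by linarith) (by positivity)
        nlinarith
      have e2 : ℓ ^ (U + s + 3) * ℓ ^ (U + s + 3) ≤ N := by
        refine le_trans ?_ hs2
        apply mul_le_mul _ _ (by positivity) (by positivity) <;> exact pow_le_pow_right₀ (by linarith) (by omega)
      have e3 : (N : ℝ) * N ≤ (M * M) * N := e1.trans (mul_le_mul_of_nonneg_left e2 (by positivity))
      exact le_of_mul_le_mul_right e3 (by linarith)
    have hMpos : (0 : ℝ) < M := by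
      rcases hM0.lt_or_eq with h | h
      · exact h
      · rw [← h] at hMM
        linarith
    have hlogM : ℓ / 2 ≤ Real.log M := by
      have e1 : ℓ ≤ Real.log ((M : ℝ) * M) := by
        rw [hℓ]
        exact Real.log_le_log (by linarith) hMM
      rw [Real.log_mul hMpos.ne' hMpos.ne'] at e1
      linarith
    have hlogM2 : Real.log M ≤ ℓ := by
      rw [hℓ]
      exact Real.log_le_log hMpos (by exact_mod_cast hMN)
    have hN0 : N0 ≤ M := by
      by_contra hcon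
      push Not at hcon
      have : (M : ℝ) * M < (N0 : ℝ) * N0 := by
        have : (M : ℝ) < N0 := by exact_mod_cast hcon
        nlinarith
      have h5 : ((N0 ^ 2 : ℕ) : ℝ) ≤ N := by exact_mod_cast (by omega : N0 ^ 2 ≤ N)
      push_cast at h5
      nlinarith
    have hzM : (z : ℝ) ≤ Real.log M ^ (E + 1) := by
      rw [← hℓ] at hzE
      refine hzE.trans ?_
      calc ℓ ^ E ≤ (ℓ / 2) ^ (E + 1) := by
            rw [div_pow, le_div_iff₀ p2, pow_succ ℓ]
            apply mul_le_mul_of_nonneg_left _ (by positivity)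
            linarith
        _ ≤ _ := pow_le_pow_left₀ (by linarith) hlogM _
    refine (hl hN0 hzM).trans ?_
    have e1 : (M : ℝ) / Real.log M ^ (U + s + 3) ≤ N * (2 : ℝ) ^ (U + s + 3) / ℓ ^ (U + s + 3) := by
      have : (M : ℝ) / Real.log M ^ (U + s + 3) ≤ N / (ℓ / 2) ^ (U + s + 3) := by
        apply div_le_div₀ (by linarith) (by exact_mod_cast hMN) (by positivity)
        exact pow_le_pow_left₀ (by linarith) hlogM _
      refine this.trans (le_of_eq ?_)
      rw [div_pow]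
      field_simp
    have e2 : 2 * Real.sqrt M * Real.log M ≤ N * 2 / ℓ ^ (U + s + 3) := by
      rw [le_div_iff₀ (by positivity)]
      have e3 : Real.sqrt M ≤ Real.sqrt N := Real.sqrt_le_sqrt (by exact_mod_cast hMN)
      have e4 : Real.log M * ℓ ^ (U + s + 3) ≤ Real.sqrt N := by
        refine le_trans ?_ hsq
        calc Real.log M * ℓ ^ (U + s + 3) ≤ ℓ * ℓ ^ (U + s + 3) := mul_le_mul_of_nonneg_right hlogM2 (by positivity)
          _ = ℓ ^ (U + s + 4) := by rw [← pow_succ']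
          _ ≤ _ := pow_le_pow_right₀ (by linarith) (by omega)
      have e5 : 0 ≤ Real.log M * ℓ ^ (U + s + 3) := by
        have : 0 ≤ Real.log M := by linarith
        positivity
      calc 2 * Real.sqrt M * Real.log M * ℓ ^ (U + s + 3) = 2 * (Real.sqrt M * (Real.log M * ℓ ^ (U + s + 3))) := by ring
        _ ≤ 2 * (Real.sqrt N * Real.sqrt N) := by
            apply mul_le_mul_of_nonneg_left _ (by norm_num)
            exact mul_le_mul e3 e4 e5 (Real.sqrt_nonneg _)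
        _ = N * 2 := by rw [Real.mul_self_sqrt (by linarith)]; ring
    calc (Vz z)⁻¹ ^ s * (M / Real.log M ^ (U + s + 3) + 2 * Real.sqrt M * Real.log M) ≤
        ℓ ^ s * (N * (2 : ℝ) ^ (U + s + 3) / ℓ ^ (U + s + 3) + N * 2 / ℓ ^ (U + s + 3)) := by
          apply mul_le_mul hVs (add_le_add e1 e2) _ (by positivity)
          have : 0 ≤ Real.log M := by linarith
          positivity
      _ = N / ℓ ^ U * (((2 : ℝ) ^ (U + s + 3) + 2) / ℓ ^ 3) := by
          rw [show U + s + 3 = s + (U + 3) by ring, pow_add ℓ s (U + 3), pow_add ℓ U 3]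
          field_simp
      _ ≤ N / ℓ ^ U * 1 := by
          apply mul_le_mul_of_nonneg_left _ (by positivity)
          rw [div_le_one (by positivity)]
          have : ℓ ≤ ℓ ^ 3 := le_self_pow₀ (by linarith) (by norm_num)
          linarith
      _ = _ := mul_one _

open Classical in
/-- the main term for sums over all arguments -/
theorem main_int (s D E U : ℕ) : ∃ N1 : ℕ, ∀ N : ℕ, N1 ≤ N → ∀ z : ℕ, 2 ≤ z → (z : ℝ) ≤ Real.log N ^ E →
    ∀ P : Fin s → ℤ[X], (∏ l, P l).natDegree ≤ D → ∀ M : ℕ, M ≤ N →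
    |∑ m ∈ Icc 1 M, ∏ l, AM z ((P l).eval (m : ℤ)) -
      M * ∏ p ∈ pz z, (((1 - 1 / (p : ℝ)) ^ s)⁻¹ * (1 - (rho (∏ l, P l) p : ℝ) / p))| ≤ N / Real.log N ^ U := by
  obtain ⟨N0, h0⟩ := sys_count (D + 1) (E + 1) (U + s + 3) (by omega)
  obtain ⟨N1, h1⟩ := glue s E U (N0 + 2)
  refine ⟨N1 + 3, fun N hN z hz hzE P hP M hM => ?_⟩
  obtain ⟨R, hR⟩ : ∃ R, R = ∏ l, P l := ⟨_, rfl⟩
  rw [← hR] at hP ⊢
  have hV0 : 0 < (Vz z)⁻¹ := inv_pos.2 (Vz_pos z)
  have hsum : ∑ m ∈ Icc 1 M, ∏ l, AM z ((P l).eval (m : ℤ)) =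
      (Vz z)⁻¹ ^ s * (((Icc 1 M).filter (fun m : ℕ => ∀ p ∈ pz z, ¬ (p : ℤ) ∣ R.eval (m : ℤ))).card : ℝ) := by
    simp only [prod_AM z hz s P, ← hR]
    rw [← sum_filter, sum_const, nsmul_eq_mul, mul_comm]
  have hQe : ∏ p ∈ pz z, (((1 - 1 / (p : ℝ)) ^ s)⁻¹ * (1 - (rho R p : ℝ) / p)) =
      (Vz z)⁻¹ ^ s * ∏ p ∈ pz z, (1 - (rho R p : ℝ) / p) := by
    rw [prod_mul_distrib]
    congr 1
    unfold Vz
    rw [← prod_inv_distrib, ← prod_pow]
    apply prod_congr rfl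
    intro p _
    rw [inv_pow]
  have hfac : ∀ p ∈ pz z, 0 ≤ 1 - (rho R p : ℝ) / p ∧ 1 - (rho R p : ℝ) / p ≤ 1 := by
    intro p hp
    have hp0 : (0 : ℝ) < p := by exact_mod_cast (mem_pz.1 hp).2.pos
    have h2 : (rho R p : ℝ) ≤ p := by exact_mod_cast rho_le_p R p
    constructor
    · rw [sub_nonneg, div_le_one hp0]
      exact h2
    · have : (0 : ℝ) ≤ (rho R p : ℝ) / p := by positivity
      linarith
  have hcM : (((Icc 1 M).filter (fun m : ℕ => ∀ p ∈ pz z, ¬ (p : ℤ) ∣ R.eval (m : ℤ))).card : ℝ) ≤ M := by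
    have := card_filter_le (Icc 1 M) (fun m : ℕ => ∀ p ∈ pz z, ¬ (p : ℤ) ∣ R.eval (m : ℤ))
    rw [Nat.card_Icc, Nat.add_sub_cancel] at this
    exact_mod_cast this
  have hlogN : 1 ≤ Real.log N := by
    rw [Real.le_log_iff_exp_le (by exact_mod_cast (by omega : 0 < N))]
    have : (3 : ℝ) ≤ N := by exact_mod_cast (by omega : 3 ≤ N)
    linarith [Real.exp_one_lt_d9]
  rw [hsum, hQe]
  apply h1 N (by omega) z (by omega) hzE M hM
  · rw [abs_of_nonneg (by positivity)]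
    apply mul_le_mul_of_nonneg_left _ (by positivity)
    nlinarith [Nat.cast_nonneg (α := ℝ) M]
  · exact mul_nonneg (by positivity) (prod_nonneg fun p hp => (hfac p hp).1)
  · refine (mul_le_mul_of_nonneg_left (prod_le_one (fun p hp => (hfac p hp).1) (fun p hp => (hfac p hp).2)) (by positivity)).trans (le_of_eq (mul_one _))
  · intro hM0 hzM
    have hMr : (1 : ℝ) ≤ M := by exact_mod_cast (by omega : 1 ≤ M)
    have hlM : 0 ≤ Real.log M := Real.log_nonneg hMr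
    have e0 : (Vz z)⁻¹ ^ s * (((Icc 1 M).filter (fun m : ℕ => ∀ p ∈ pz z, ¬ (p : ℤ) ∣ R.eval (m : ℤ))).card : ℝ) -
        M * ((Vz z)⁻¹ ^ s * ∏ p ∈ pz z, (1 - (rho R p : ℝ) / p)) =
        (Vz z)⁻¹ ^ s * ((((Icc 1 M).filter (fun m : ℕ => ∀ p ∈ pz z, ¬ (p : ℤ) ∣ R.eval (m : ℤ))).card : ℝ) -
          M * ∏ p ∈ pz z, (1 - (rho R p : ℝ) / p)) := by ring
    rw [e0, abs_mul, abs_of_pos (by positivity : (0 : ℝ) < (Vz z)⁻¹ ^ s)]
    apply mul_le_mul_of_nonneg_left _ (by positivity)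
    by_cases hex : ∃ p₀ ∈ pz z, R.map (Int.castRingHom (ZMod p₀)) = 0
    · obtain ⟨p₀, hp₀, hz0⟩ := hex
      have f1 : ((Icc 1 M).filter (fun m : ℕ => ∀ p ∈ pz z, ¬ (p : ℤ) ∣ R.eval (m : ℤ))) = ∅ := by
        rw [filter_eq_empty_iff]
        intro m _ h
        exact h p₀ hp₀ (all_dvd R p₀ hz0 m)
      have f2 : ∏ p ∈ pz z, (1 - (rho R p : ℝ) / p) = 0 := by
        apply prod_eq_zero hp₀
        have hp0 : (0 : ℝ) < p₀ := by exact_mod_cast (mem_pz.1 hp₀).2.pos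
        have : rho R p₀ = p₀ := by
          unfold rho
          rw [filter_true_of_mem, card_range]
          intro r _
          exact all_dvd R p₀ hz0 r
        rw [this, div_self hp0.ne', sub_self]
      rw [f1, f2, card_empty, Nat.cast_zero, mul_zero, sub_zero, abs_zero]
      positivity
    · push Not at hex
      have hper : PerB (fun p n => p ≤ z ∧ (p : ℤ) ∣ R.eval (n : ℤ)) (D + 1) := by
        constructor
        · intro p n
          rw [eval_mod]
        · intro p hp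
          unfold nuB
          by_cases hpz : p ≤ z
          · simp only [hpz, true_and]
            have := rho_le R p hp (hex p (mem_pz.2 ⟨hpz, hp⟩))
            unfold rho at this
            omega
          · simp only [hpz, false_and, filter_false, card_empty]
            omega
      have h2 := h0 M (by omega) z (by omega) hzM _ hper
      have f1 : ((Icc 1 M).filter (fun n : ℕ => ∀ p ∈ pz z, ¬ (p ≤ z ∧ (p : ℤ) ∣ R.eval (n : ℤ)))) =
          ((Icc 1 M).filter (fun m : ℕ => ∀ p ∈ pz z, ¬ (p : ℤ) ∣ R.eval (m : ℤ))) := by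
        apply filter_congr
        intro m _
        refine forall_congr' fun p => forall_congr' fun hp => ?_
        rw [not_and, imp_iff_right (mem_pz.1 hp).1]
      have f2 : ∏ p ∈ pz z, (1 - (nuB (fun p n => p ≤ z ∧ (p : ℤ) ∣ R.eval (n : ℤ)) p : ℝ) / p) =
          ∏ p ∈ pz z, (1 - (rho R p : ℝ) / p) := by
        apply prod_congr rfl
        intro p hp
        unfold nuB rho
        simp only [(mem_pz.1 hp).1, true_and]
      have h2' : |(((Icc 1 M).filter (fun m : ℕ => ∀ p ∈ pz z, ¬ (p : ℤ) ∣ R.eval (m : ℤ))).card : ℝ) -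
          M * ∏ p ∈ pz z, (1 - (rho R p : ℝ) / p)| ≤ M / Real.log M ^ (U + s + 3) := by
        rw [← f2, ← f1]
        convert h2
      refine h2'.trans ?_
      have : 0 ≤ 2 * Real.sqrt M * Real.log M := by positivity
      linarith

open Classical in
/-- the main term for sums over the primes -/
theorem main_prime (s D E U : ℕ) : ∃ N1 : ℕ, ∀ N : ℕ, N1 ≤ N → ∀ z : ℕ, 2 ≤ z → (z : ℝ) ≤ Real.log N ^ E →
    ∀ L : ℕ → ℝ, (∀ n, th n ≤ L n ∧ L n ≤ ArithmeticFunction.vonMangoldt n) →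
    ∀ P : Fin s → ℤ[X], (∏ l, P l).natDegree ≤ D → ∀ M : ℕ, M ≤ N →
    |∑ m ∈ Icc 1 M, L m * ∏ l, AM z ((P l).eval (m : ℤ)) -
      M * ∏ p ∈ pz z, (((1 - 1 / (p : ℝ)) ^ s)⁻¹ * (1 - (rhos (∏ l, P l) p : ℝ) / (p - 1)))| ≤ N / Real.log N ^ U := by
  obtain ⟨N0, h0⟩ := sys_main (D + 1) (E + 1) (U + s + 3) (by omega)
  obtain ⟨N1, h1⟩ := glue s E U (N0 + 2)
  refine ⟨N1 + 3, fun N hN z hz hzE L hL P hP M hM => ?_⟩
  obtain ⟨R, hR⟩ : ∃ R, R = ∏ l, P l := ⟨_, rfl⟩
  rw [← hR] at hP ⊢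
  have hV0 : 0 < (Vz z)⁻¹ := inv_pos.2 (Vz_pos z)
  have hsum : ∑ m ∈ Icc 1 M, L m * ∏ l, AM z ((P l).eval (m : ℤ)) =
      (Vz z)⁻¹ ^ s * ∑ m ∈ (Icc 1 M).filter (fun m : ℕ => ∀ p ∈ pz z, ¬ (p : ℤ) ∣ R.eval (m : ℤ)), L m := by
    simp only [prod_AM z hz s P, ← hR]
    rw [mul_sum, sum_filter]
    apply sum_congr rfl
    intro m _
    split_ifs
    · ring
    · ring
  have hQe : ∏ p ∈ pz z, (((1 - 1 / (p : ℝ)) ^ s)⁻¹ * (1 - (rhos R p : ℝ) / (p - 1))) =
      (Vz z)⁻¹ ^ s * ∏ p ∈ pz z, (1 - (rhos R p : ℝ) / (p - 1 : ℝ)) := by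
    rw [prod_mul_distrib]
    congr 1
    unfold Vz
    rw [← prod_inv_distrib, ← prod_pow]
    apply prod_congr rfl
    intro p _
    rw [inv_pow]
  have hfac : ∀ p ∈ pz z, 0 ≤ 1 - (rhos R p : ℝ) / (p - 1 : ℝ) ∧ 1 - (rhos R p : ℝ) / (p - 1 : ℝ) ≤ 1 := by
    intro p hp
    have hp2 : 2 ≤ p := (mem_pz.1 hp).2.two_le
    have hp0 : (0 : ℝ) < (p : ℝ) - 1 := by
      have : (2 : ℝ) ≤ p := by exact_mod_cast hp2
      linarith
    have h2 : (rhos R p : ℝ) ≤ p - 1 := by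
      have h3 := rhos_le_p R p (by omega)
      have h4 : rhos R p + 1 ≤ p := by omega
      have h5 : ((rhos R p + 1 : ℕ) : ℝ) ≤ p := by exact_mod_cast h4
      push_cast at h5
      linarith
    constructor
    · rw [sub_nonneg, div_le_one hp0]
      exact h2
    · have : (0 : ℝ) ≤ (rhos R p : ℝ) / (p - 1 : ℝ) := by positivity
      linarith
  have hL0 : ∀ m, 0 ≤ L m := fun m => (th_nonneg m).trans (hL m).1
  have hlogN : 1 ≤ Real.log N := by
    rw [Real.le_log_iff_exp_le (by exact_mod_cast (by omega : 0 < N))]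
    have : (3 : ℝ) ≤ N := by exact_mod_cast (by omega : 3 ≤ N)
    linarith [Real.exp_one_lt_d9]
  have hLM : ∑ m ∈ (Icc 1 M).filter (fun m : ℕ => ∀ p ∈ pz z, ¬ (p : ℤ) ∣ R.eval (m : ℤ)), L m ≤ M * Real.log N := by
    calc ∑ m ∈ (Icc 1 M).filter (fun m : ℕ => ∀ p ∈ pz z, ¬ (p : ℤ) ∣ R.eval (m : ℤ)), L m ≤ ∑ m ∈ Icc 1 M, L m :=
          sum_le_sum_of_subset_of_nonneg (filter_subset _ _) (fun m _ _ => hL0 m)
      _ ≤ ∑ _m ∈ Icc 1 M, Real.log N := by
          apply sum_le_sum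
          intro m hm
          rw [mem_Icc] at hm
          refine (hL m).2.trans (ArithmeticFunction.vonMangoldt_le_log.trans ?_)
          exact Real.log_le_log (by exact_mod_cast hm.1) (by exact_mod_cast hm.2.trans hM)
      _ = _ := by rw [sum_const, Nat.card_Icc, nsmul_eq_mul, Nat.add_sub_cancel]
  rw [hsum, hQe]
  apply h1 N (by omega) z (by omega) hzE M hM
  · rw [abs_of_nonneg (mul_nonneg (by positivity) (sum_nonneg fun m _ => hL0 m))]
    exact mul_le_mul_of_nonneg_left hLM (by positivity)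
  · exact mul_nonneg (by positivity) (prod_nonneg fun p hp => (hfac p hp).1)
  · refine (mul_le_mul_of_nonneg_left (prod_le_one (fun p hp => (hfac p hp).1) (fun p hp => (hfac p hp).2)) (by positivity)).trans (le_of_eq (mul_one _))
  · intro hM0 hzM
    have hM1 : 1 ≤ M := by omega
    have hMr : (1 : ℝ) ≤ M := by exact_mod_cast hM1
    have hlM : 0 ≤ Real.log M := Real.log_nonneg hMr
    have e0 : (Vz z)⁻¹ ^ s * (∑ m ∈ (Icc 1 M).filter (fun m : ℕ => ∀ p ∈ pz z, ¬ (p : ℤ) ∣ R.eval (m : ℤ)), L m) -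
        M * ((Vz z)⁻¹ ^ s * ∏ p ∈ pz z, (1 - (rhos R p : ℝ) / (p - 1 : ℝ))) =
        (Vz z)⁻¹ ^ s * (∑ m ∈ (Icc 1 M).filter (fun m : ℕ => ∀ p ∈ pz z, ¬ (p : ℤ) ∣ R.eval (m : ℤ)), L m -
          M * ∏ p ∈ pz z, (1 - (rhos R p : ℝ) / (p - 1 : ℝ))) := by ring
    rw [e0, abs_mul, abs_of_pos (by positivity : (0 : ℝ) < (Vz z)⁻¹ ^ s)]
    apply mul_le_mul_of_nonneg_left _ (by positivity)
    have hdev := dev_sum M hM1
    have hLd : |∑ m ∈ (Icc 1 M).filter (fun m : ℕ => ∀ p ∈ pz z, ¬ (p : ℤ) ∣ R.eval (m : ℤ)), L m -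
        ∑ m ∈ (Icc 1 M).filter (fun m : ℕ => ∀ p ∈ pz z, ¬ (p : ℤ) ∣ R.eval (m : ℤ)), ArithmeticFunction.vonMangoldt m| ≤
        2 * Real.sqrt M * Real.log M := by
      rw [← sum_sub_distrib]
      refine (abs_sum_le_sum_abs _ _).trans (le_trans ?_ hdev)
      refine le_trans (sum_le_sum_of_subset_of_nonneg (filter_subset _ _) (fun m _ _ => abs_nonneg _)) ?_
      apply sum_le_sum
      intro m _
      obtain ⟨g1, g2⟩ := hL m
      rw [abs_sub_comm, abs_of_nonneg (by linarith)]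
      linarith
    by_cases hex : ∃ p₀ ∈ pz z, R.map (Int.castRingHom (ZMod p₀)) = 0
    · obtain ⟨p₀, hp₀, hz0⟩ := hex
      have f1 : ((Icc 1 M).filter (fun m : ℕ => ∀ p ∈ pz z, ¬ (p : ℤ) ∣ R.eval (m : ℤ))) = ∅ := by
        rw [filter_eq_empty_iff]
        intro m _ h
        exact h p₀ hp₀ (all_dvd R p₀ hz0 m)
      have f2 : ∏ p ∈ pz z, (1 - (rhos R p : ℝ) / (p - 1 : ℝ)) = 0 := by
        apply prod_eq_zero hp₀
        have hp2 := (mem_pz.1 hp₀).2.two_le
        have hp0 : (0 : ℝ) < (p₀ : ℝ) - 1 := by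
          have : (2 : ℝ) ≤ p₀ := by exact_mod_cast hp2
          linarith
        have : rhos R p₀ = p₀ - 1 := by
          unfold rhos
          have e1 : (range p₀).filter (fun r : ℕ => ¬ p₀ ∣ r ∧ (p₀ : ℤ) ∣ R.eval (r : ℤ)) = (range p₀).erase 0 := by
            ext r
            rw [mem_filter, mem_erase, mem_range]
            constructor
            · rintro ⟨a, b, _⟩
              exact ⟨fun h => b (by rw [h]; exact dvd_zero _), a⟩
            · rintro ⟨a, b⟩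
              refine ⟨b, fun hd => ?_, all_dvd R p₀ hz0 r⟩
              have := Nat.le_of_dvd (by omega) hd
              omega
          rw [e1, card_erase_of_mem (mem_range.2 (by omega)), card_range]
        rw [this, Nat.cast_sub (by omega), Nat.cast_one, div_self hp0.ne', sub_self]
      rw [f1, f2, sum_empty, mul_zero, sub_zero, abs_zero]
      positivity
    · push Not at hex
      have hper : PerA (fun p n => p ≤ z ∧ (p : ℤ) ∣ R.eval (n : ℤ)) (D + 1) := by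
        constructor
        · intro p n
          rw [eval_mod]
        · intro p hp
          unfold rhoA
          by_cases hpz : p ≤ z
          · simp only [hpz, true_and]
            have h5 := rho_le R p hp (hex p (mem_pz.2 ⟨hpz, hp⟩))
            have h6 := rhos_le R p
            unfold rhos at h6
            omega
          · simp only [hpz, false_and, and_false, filter_false, card_empty]
            omega
      have h2 := h0 M (by omega) z (by omega) hzM _ hper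
      have f1 : ((Icc 1 M).filter (fun n : ℕ => ∀ p ∈ pz z, ¬ (p ≤ z ∧ (p : ℤ) ∣ R.eval (n : ℤ)))) =
          ((Icc 1 M).filter (fun m : ℕ => ∀ p ∈ pz z, ¬ (p : ℤ) ∣ R.eval (m : ℤ))) := by
        apply filter_congr
        intro m _
        refine forall_congr' fun p => forall_congr' fun hp => ?_
        rw [not_and, imp_iff_right (mem_pz.1 hp).1]
      have f2 : ∏ p ∈ pz z, (1 - (rhoA (fun p n => p ≤ z ∧ (p : ℤ) ∣ R.eval (n : ℤ)) p : ℝ) / (p - 1 : ℝ)) =
          ∏ p ∈ pz z, (1 - (rhos R p : ℝ) / (p - 1 : ℝ)) := by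
        apply prod_congr rfl
        intro p hp
        unfold rhoA rhos
        simp only [(mem_pz.1 hp).1, true_and]
      have h2' : |∑ n ∈ (Icc 1 M).filter (fun m : ℕ => ∀ p ∈ pz z, ¬ (p : ℤ) ∣ R.eval (m : ℤ)), ArithmeticFunction.vonMangoldt n -
          M * ∏ p ∈ pz z, (1 - (rhos R p : ℝ) / (p - 1 : ℝ))| ≤ M / Real.log M ^ (U + s + 3) := by
        rw [← f2, ← f1]
        convert h2
      have e5 : ∑ m ∈ (Icc 1 M).filter (fun m : ℕ => ∀ p ∈ pz z, ¬ (p : ℤ) ∣ R.eval (m : ℤ)), L m -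
          M * ∏ p ∈ pz z, (1 - (rhos R p : ℝ) / (p - 1 : ℝ)) =
          (∑ m ∈ (Icc 1 M).filter (fun m : ℕ => ∀ p ∈ pz z, ¬ (p : ℤ) ∣ R.eval (m : ℤ)), L m -
            ∑ m ∈ (Icc 1 M).filter (fun m : ℕ => ∀ p ∈ pz z, ¬ (p : ℤ) ∣ R.eval (m : ℤ)), ArithmeticFunction.vonMangoldt m) +
          (∑ m ∈ (Icc 1 M).filter (fun m : ℕ => ∀ p ∈ pz z, ¬ (p : ℤ) ∣ R.eval (m : ℤ)), ArithmeticFunction.vonMangoldt m -
          M * ∏ p ∈ pz z, (1 - (rhos R p : ℝ) / (p - 1 : ℝ))) := by ring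
      rw [e5]
      refine (abs_add_le _ _).trans ?_
      linarith

end Pool.Agent.Run7.h536.MT
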