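import Pool.Agent.Run7.h536.CE6
import Pool.Agent.Run7.h536.LD3

set_option autoImplicit false

/-! All arguments up to a given bound, or all primes: almost all leading coefficients, all other coefficients, almost all
constant terms, explicit main terms. -/

namespace Pool.Agent.Run7.h536.CE
open Finset Polynomial
open Pool.Agent.H373R2.T7
open Pool.Agent.TH872.Sq
open Pool.Agent.TH212.EH (En enum)
open Pool.Agent.Run7.h536.RD
open Pool.Agent.Run7.h536.QC (LI pow_lt_two SD_large)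
open Pool.Agent.Run7.h536.MT (main_int main_prime rhos)

lemma SD_two (k : ℕ) : SD 2 (fun _ => range 2) k = range (2 ^ k) := by
  unfold SD
  rw [filter_true_of_mem]
  intro t _ i _
  exact mem_range.2 (Nat.mod_lt _ (by norm_num))

lemma AL_natAbs (L : ℕ → ℝ) (hL : ∀ n, th n ≤ L n ∧ L n ≤ ArithmeticFunction.vonMangoldt n) (n : ℤ) : AL L n = L n.natAbs := by
  unfold AL LI
  rcases lt_trichotomy n 0 with h | h | h
  · rw [if_neg (by omega), if_pos (by omega), zero_add]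
    congr 1
    omega
  · have h0 : L 0 = 0 := by
      obtain ⟨h1, h2⟩ := hL 0
      have h3 := th_nonneg 0
      rw [ArithmeticFunction.map_zero] at h2
      linarith
    rw [h, if_neg (by omega), if_neg (by omega), add_zero, Int.natAbs_zero, h0]
  · rw [if_pos (by omega), if_neg (by omega), add_zero]
    congr 1
    omega

/-- the dyadic scale of `X` -/
lemma dyadic : ∃ x₀ : ℕ, ∀ X : ℕ, x₀ ≤ X → ∃ k : ℕ, X < 2 ^ k ∧ 2 ^ k ≤ 2 * X ∧ Real.log X ≤ k ∧ (k : ℝ) ≤ Real.log X ^ 2 := by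
  obtain ⟨n1, h1⟩ := ev_L' 4
  refine ⟨n1 + 2, fun X hX => ⟨Nat.log 2 X + 1, ?_, ?_, ?_, ?_⟩⟩
  · exact Nat.lt_pow_succ_log_self (by norm_num) X
  · rw [pow_succ, mul_comm]
    exact Nat.mul_le_mul_left _ (Nat.pow_log_le_self 2 (by omega))
  · have h2 : (X : ℝ) < (2 : ℝ) ^ (Nat.log 2 X + 1) := by exact_mod_cast Nat.lt_pow_succ_log_self (by norm_num) X
    have hX0 : (0 : ℝ) < X := by exact_mod_cast (by omega : 0 < X)
    have h3 := (Real.log_lt_log hX0 h2).le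
    rw [Real.log_pow] at h3
    have h4 : Real.log 2 ≤ 1 := by linarith [Real.log_two_lt_d9]
    have h5 : (0 : ℝ) ≤ ((Nat.log 2 X + 1 : ℕ) : ℝ) := Nat.cast_nonneg _
    nlinarith
  · have hL := h1 X (by omega)
    have h2 : (2 : ℝ) ^ (Nat.log 2 X) ≤ X := by exact_mod_cast Nat.pow_log_le_self 2 (by omega)
    have h3 := Real.log_le_log (by positivity) h2
    rw [Real.log_pow] at h3
    have h4 : 1 / 2 ≤ Real.log 2 := by linarith [Real.log_two_gt_d9]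
    have h5 : (0 : ℝ) ≤ ((Nat.log 2 X : ℕ) : ℝ) := Nat.cast_nonneg _
    push_cast
    nlinarith

open Classical in
/-- **All arguments up to `X`, with a weight.** -/
theorem cross_X (s : ℕ) (d h : Fin s → ℕ) (hd : ∀ l, 2 ≤ d l) (hh : ∀ l, 1 ≤ h l) (r B C T U : ℕ) (hr : 2 ≤ r) (hB : 1 ≤ B) :
    ∃ B0 : ℕ, ∀ E : ℕ, ∃ x₀ : ℕ, ∀ X : ℕ, x₀ ≤ X → ∀ H : Fin s → ℕ, (∀ l, H l ≤ X ^ (d l * (r - 1))) →
    (∀ l, X ^ d l ≤ H l ^ (r - 1)) → ∀ (ι : Type) [Fintype ι] (v : Fin s → ι → ℤ), (∀ l i, |v l i| ≤ B * H l) →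
    (∀ l, (En (h l) (v l) : ℝ) * H l ≤ Real.log X ^ C * (Fintype.card ι : ℝ) ^ (2 * h l)) →
    ∀ κ : Fin s → ℤ, (∀ l, κ l ≠ 0) → ∀ z : ℕ, Real.log X ^ B0 ≤ z → (z : ℝ) ≤ Real.log X ^ E →
    ∀ L : ℕ → ℝ, (∀ n, th n ≤ L n ∧ L n ≤ ArithmeticFunction.vonMangoldt n) →
    ∀ w : ℕ → ℝ, (∀ m ∈ Icc 1 X, |w m| ≤ Real.log X ^ T) → ∀ Q : (Fin s → ℤ[X]) → ℝ,
    (∀ P : Fin s → ℤ[X], (∏ l, P l).natDegree ≤ ∑ l, d l → ∀ M : ℕ, M ≤ X →
      |∑ m ∈ Icc 1 M, w m * ∏ l, AM z ((P l).eval (m : ℤ)) - M * Q P| ≤ X / Real.log X ^ (U + 1)) →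
    ((univ.filter (fun i : ι => ∃ f : Fin s → ℤ[X], (∀ l, (f l).natDegree ≤ d l) ∧ (∀ l, (f l).coeff (d l) = κ l * v l i) ∧
      (∀ l, ∀ m ∈ range (2 * X), |(f l).eval (m : ℤ)| ≤ B * ((H l * X ^ d l : ℕ) : ℤ)) ∧
      (∏ l, ((H l * X ^ d l : ℕ) : ℝ)) / Real.log X ^ U <
        (((Fintype.piFinset (fun l => Icc (-((B : ℤ) * ((H l * X ^ d l : ℕ) : ℤ))) ((B : ℤ) * ((H l * X ^ d l : ℕ) : ℤ)))).filter
        (fun c : Fin s → ℤ => ∃ M : ℕ, M ≤ X ∧ (X : ℝ) / Real.log X ^ U <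
          |∑ m ∈ Icc 1 M, w m * ∏ l, L ((f l).eval (m : ℤ) + c l).natAbs - M * Q (fun l => f l + Polynomial.C (c l))|)).card : ℝ))).card : ℝ) ≤
      Fintype.card ι / Real.log X ^ U := by
  obtain ⟨x1, hx1⟩ := dyadic
  obtain ⟨Dg, hDg⟩ : ∃ Dg, Dg = ∑ l, d l := ⟨_, rfl⟩
  obtain ⟨B0, h0⟩ := cross_all 2 le_rfl s ∅ (fun _ _ => 0) (fun l hl => absurd hl (notMem_empty l)) d h hd hh (2 * r) B C T (U + 1) (by omega) hB
  refine ⟨2 * B0, fun E => ?_⟩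
  obtain ⟨k0, h1⟩ := h0 E
  obtain ⟨n1, hn1⟩ := ev_L' ((2 : ℝ) ^ Dg + k0 + 8)
  refine ⟨x1 + n1 + 3, fun X hX H hH1 hH2 ι _ v hv hE κ hκ z hz1 hz2 L hL w hw Q hQ => ?_⟩
  obtain ⟨k, hk1, hk2, hk3, hk4⟩ := hx1 X (by omega)
  have hlog := hn1 X (by omega)
  obtain ⟨ℓ, hℓ⟩ : ∃ ℓ, ℓ = Real.log X := ⟨_, rfl⟩
  rw [← hℓ] at hk3 hk4 hlog hE hz1 hz2 hw hQ ⊢
  have p1 : (0 : ℝ) < (2 : ℝ) ^ Dg := by positivity
  have p2 : (0 : ℝ) ≤ k0 := Nat.cast_nonneg _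
  have hℓ8 : 8 ≤ ℓ := by linarith
  have hℓ1 : 1 ≤ ℓ := by linarith
  have hℓ0 : 0 < ℓ := by linarith
  have hkp : (0 : ℝ) < k := by linarith
  have hk0 : k0 ≤ k := by
    have : (k0 : ℝ) ≤ k := by linarith
    exact_mod_cast this
  have hXr : (0 : ℝ) < X := by exact_mod_cast (by omega : 0 < X)
  have hX1 : 1 ≤ X := by omega
  have hd1 : ∀ l, 1 ≤ d l := fun l => by have := hd l; omega
  have hHpos : ∀ l, 1 ≤ H l := by
    intro l
    have h3 := hH2 l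
    have h4 : 1 ≤ X ^ d l := Nat.one_le_pow _ _ (by omega)
    rcases Nat.eq_zero_or_pos (H l) with h0 | h0
    · rw [h0, zero_pow (by omega)] at h3
      omega
    · exact h0
  have hXk : ∀ l, X ^ d l ≤ 2 ^ (d l * k) := by
    intro l
    rw [mul_comm, pow_mul]
    exact Nat.pow_le_pow_left hk1.le _
  have hkX : ∀ l, 2 ^ (d l * k) ≤ 2 ^ d l * X ^ d l := by
    intro l
    rw [mul_comm (d l) k, pow_mul, ← mul_pow]
    exact Nat.pow_le_pow_left hk2 _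
  have hX2 : 2 ≤ X := by omega
  have key := h1 k hk0 H (fun l => by
      calc H l ≤ X ^ (d l * (r - 1)) := hH1 l
        _ = (X ^ d l) ^ (r - 1) := by rw [pow_mul]
        _ ≤ (2 ^ (d l * k)) ^ (r - 1) := Nat.pow_le_pow_left (hXk l) _
        _ ≤ _ := Nat.pow_le_pow_right (Nat.one_le_pow _ _ (by norm_num)) (by omega)) (fun l => by
      calc 2 ^ (d l * k) ≤ 2 ^ d l * X ^ d l := hkX l
        _ ≤ X ^ d l * X ^ d l := Nat.mul_le_mul_right _ (Nat.pow_le_pow_left hX2 _)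
        _ ≤ H l ^ (r - 1) * H l ^ (r - 1) := Nat.mul_le_mul (hH2 l) (hH2 l)
        _ = H l ^ (2 * (r - 1)) := by rw [two_mul, pow_add]
        _ ≤ _ := Nat.pow_le_pow_right (hHpos l) (by omega)) (fun _ => range 2) (fun i _ => ⟨subset_rfl, by simp⟩) ι v hv (fun l => by
      refine (hE l).trans ?_
      apply mul_le_mul_of_nonneg_right _ (by positivity)
      exact pow_le_pow_left₀ hℓ0.le hk3 C) κ hκ z (by
      refine le_trans ?_ hz1
      rw [pow_mul]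
      exact pow_le_pow_left₀ hkp.le hk4 B0) (hz2.trans (pow_le_pow_left₀ hℓ0.le hk3 E)) L hL
  rw [SD_two] at key
  have hfin : (Fintype.card ι : ℝ) / (k : ℝ) ^ (U + 1) ≤ Fintype.card ι / ℓ ^ U := by
    apply div_le_div_of_nonneg_left (Nat.cast_nonneg _) (by positivity)
    calc ℓ ^ U ≤ (k : ℝ) ^ U := pow_le_pow_left₀ hℓ0.le hk3 U
      _ ≤ _ := pow_le_pow_right₀ (by linarith) (by omega)
  refine le_trans ?_ (key.trans hfin)
  apply Nat.cast_le.2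
  apply card_le_card
  intro i hi
  rw [mem_filter] at hi ⊢
  obtain ⟨_, f, hf1, hf2, hf3, hf4⟩ := hi
  have hNN : ∀ l, H l * X ^ d l ≤ H l * 2 ^ (d l * k) := fun l => Nat.mul_le_mul_left _ (hXk l)
  refine ⟨mem_univ _, f, fun m => if 1 ≤ m ∧ m ≤ X then w m else 0, hf1, hf2, ?_, ?_, ?_⟩
  · intro l m hm
    rw [mem_range] at hm
    refine (hf3 l m (mem_range.2 (by omega))).trans ?_
    have h5 : ((H l * X ^ d l : ℕ) : ℤ) ≤ ((H l * 2 ^ (d l * k) : ℕ) : ℤ) := by exact_mod_cast hNN l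
    exact mul_le_mul_of_nonneg_left h5 (Int.natCast_nonneg _)
  · intro m
    beta_reduce
    split_ifs with h
    · exact (hw m (mem_Icc.2 h)).trans (pow_le_pow_left₀ hℓ0.le hk3 T)
    · rw [abs_zero]; positivity
  · -- the numbers of the exceptional constant terms
    have e1 : (∏ l, ((H l * 2 ^ (d l * k) : ℕ) : ℝ)) / (k : ℝ) ^ (U + 1) ≤ (∏ l, ((H l * X ^ d l : ℕ) : ℝ)) / ℓ ^ U := by
      have e2 : ∏ l, ((H l * 2 ^ (d l * k) : ℕ) : ℝ) ≤ (2 : ℝ) ^ Dg * ∏ l, ((H l * X ^ d l : ℕ) : ℝ) := by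
        rw [hDg, ← prod_pow_eq_pow_sum, ← prod_mul_distrib]
        apply prod_le_prod
        · intro l _
          exact Nat.cast_nonneg _
        · intro l _
          have h6 : H l * 2 ^ (d l * k) ≤ 2 ^ d l * (H l * X ^ d l) := by
            calc H l * 2 ^ (d l * k) ≤ H l * (2 ^ d l * X ^ d l) := Nat.mul_le_mul_left _ (hkX l)
              _ = _ := by ring
          exact_mod_cast h6
      have hP0 : 0 ≤ ∏ l, ((H l * X ^ d l : ℕ) : ℝ) := prod_nonneg fun l _ => Nat.cast_nonneg _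
      calc (∏ l, ((H l * 2 ^ (d l * k) : ℕ) : ℝ)) / (k : ℝ) ^ (U + 1) ≤ ((2 : ℝ) ^ Dg * ∏ l, ((H l * X ^ d l : ℕ) : ℝ)) / ℓ ^ (U + 1) := by
            apply div_le_div₀ (by positivity) e2 (by positivity)
            exact pow_le_pow_left₀ hℓ0.le hk3 _
        _ = (∏ l, ((H l * X ^ d l : ℕ) : ℝ)) / ℓ ^ U * ((2 : ℝ) ^ Dg / ℓ) := by
            rw [pow_succ]
            field_simp
        _ ≤ (∏ l, ((H l * X ^ d l : ℕ) : ℝ)) / ℓ ^ U * 1 := by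
            apply mul_le_mul_of_nonneg_left _ (by positivity)
            rw [div_le_one hℓ0]
            linarith
        _ = _ := mul_one _
    refine lt_of_le_of_lt e1 (lt_of_lt_of_le hf4 ?_)
    apply Nat.cast_le.2
    unfold exc
    apply card_le_card
    intro c hc
    rw [mem_filter, Fintype.mem_piFinset] at hc ⊢
    obtain ⟨hc1, M, hM1, hM2⟩ := hc
    refine ⟨fun l => ?_, M + 1, ?_⟩
    · have h5 := mem_Icc.1 (hc1 l)
      have h6 : ((H l * X ^ d l : ℕ) : ℤ) ≤ ((H l * 2 ^ (d l * k) : ℕ) : ℤ) := by exact_mod_cast hNN l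
      have h7 := mul_le_mul_of_nonneg_left h6 (Int.natCast_nonneg B)
      rw [mem_Icc]
      constructor <;> linarith [h5.1, h5.2]
    · have hsum : ∑ m ∈ (range (2 ^ k)).filter (fun m => m < M + 1), (if 1 ≤ m ∧ m ≤ X then w m else 0) *
          (∏ l, MA ∅ (fun _ _ => 0) L l ((f l).eval (m : ℤ) + c l) - ∏ l, MM ∅ z l ((f l).eval (m : ℤ) + c l)) =
          ∑ m ∈ Icc 1 M, w m * ∏ l, L ((f l).eval (m : ℤ) + c l).natAbs -
          ∑ m ∈ Icc 1 M, w m * ∏ l, AM z ((f l + Polynomial.C (c l)).eval (m : ℤ)) := by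
        rw [← sum_sub_distrib]
        symm
        apply sum_subset_zero_on_sdiff
        · intro m hm
          rw [mem_Icc] at hm
          rw [mem_filter, mem_range]
          omega
        · intro m hm
          rw [mem_sdiff, mem_filter, mem_range, mem_Icc] at hm
          rw [if_neg (by omega), zero_mul]
        · intro m hm
          rw [mem_Icc] at hm
          rw [if_pos ⟨hm.1, by omega⟩]
          unfold MA MM
          simp only [notMem_empty, if_false, AL_natAbs L hL, eval_add, eval_C]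
          ring
      rw [hsum]
      have h8 := hQ (fun l => f l + Polynomial.C (c l)) (by
        refine (natDegree_prod_le _ _).trans ?_
        apply sum_le_sum
        intro l _
        refine (natDegree_add_le _ _).trans ?_
        rw [natDegree_C]
        exact max_le (hf1 l) (Nat.zero_le _)) M hM1
      have h9 : |∑ m ∈ Icc 1 M, w m * ∏ l, L ((f l).eval (m : ℤ) + c l).natAbs - M * Q (fun l => f l + Polynomial.C (c l))| ≤
          |∑ m ∈ Icc 1 M, w m * ∏ l, L ((f l).eval (m : ℤ) + c l).natAbs -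
          ∑ m ∈ Icc 1 M, w m * ∏ l, AM z ((f l + Polynomial.C (c l)).eval (m : ℤ))| +
          |∑ m ∈ Icc 1 M, w m * ∏ l, AM z ((f l + Polynomial.C (c l)).eval (m : ℤ)) - M * Q (fun l => f l + Polynomial.C (c l))| := by
        refine le_trans (le_of_eq ?_) (abs_add_le _ _)
        congr 1
        ring
      have h10 : (X : ℝ) / ℓ ^ (U + 1) ≤ X / ℓ ^ U * (1 / 8) := by
        rw [pow_succ, ← div_div, div_eq_mul_one_div (X / ℓ ^ U) ℓ]
        apply mul_le_mul_of_nonneg_left _ (by positivity)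
        exact one_div_le_one_div_of_le (by norm_num) hℓ8
      have h11 : ((range (2 ^ k)).card : ℝ) / (k : ℝ) ^ (U + 1) ≤ 2 * (X / ℓ ^ (U + 1)) := by
        rw [card_range]
        have h12 : ((2 ^ k : ℕ) : ℝ) ≤ 2 * X := by exact_mod_cast hk2
        calc ((2 ^ k : ℕ) : ℝ) / (k : ℝ) ^ (U + 1) ≤ (2 * X) / ℓ ^ (U + 1) := by
              apply div_le_div₀ (by positivity) h12 (by positivity)
              exact pow_le_pow_left₀ hℓ0.le hk3 _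
          _ = _ := by ring
      have h13 : 0 < (X : ℝ) / ℓ ^ U := by positivity
      linarith

open Classical in
/-- **All arguments up to `X`**: explicit main term. -/
theorem cross_int (s : ℕ) (d h : Fin s → ℕ) (hd : ∀ l, 2 ≤ d l) (hh : ∀ l, 1 ≤ h l) (r B C U : ℕ) (hr : 2 ≤ r) (hB : 1 ≤ B) :
    ∃ B0 : ℕ, ∀ E : ℕ, ∃ x₀ : ℕ, ∀ X : ℕ, x₀ ≤ X → ∀ H : Fin s → ℕ, (∀ l, H l ≤ X ^ (d l * (r - 1))) →
    (∀ l, X ^ d l ≤ H l ^ (r - 1)) → ∀ (ι : Type) [Fintype ι] (v : Fin s → ι → ℤ), (∀ l i, |v l i| ≤ B * H l) →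
    (∀ l, (En (h l) (v l) : ℝ) * H l ≤ Real.log X ^ C * (Fintype.card ι : ℝ) ^ (2 * h l)) →
    ∀ κ : Fin s → ℤ, (∀ l, κ l ≠ 0) → ∀ z : ℕ, Real.log X ^ B0 ≤ z → (z : ℝ) ≤ Real.log X ^ E →
    ∀ L : ℕ → ℝ, (∀ n, th n ≤ L n ∧ L n ≤ ArithmeticFunction.vonMangoldt n) →
    ((univ.filter (fun i : ι => ∃ f : Fin s → ℤ[X], (∀ l, (f l).natDegree ≤ d l) ∧ (∀ l, (f l).coeff (d l) = κ l * v l i) ∧
      (∀ l, ∀ m ∈ range (2 * X), |(f l).eval (m : ℤ)| ≤ B * ((H l * X ^ d l : ℕ) : ℤ)) ∧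
      (∏ l, ((H l * X ^ d l : ℕ) : ℝ)) / Real.log X ^ U <
        (((Fintype.piFinset (fun l => Icc (-((B : ℤ) * ((H l * X ^ d l : ℕ) : ℤ))) ((B : ℤ) * ((H l * X ^ d l : ℕ) : ℤ)))).filter
        (fun c : Fin s → ℤ => ∃ M : ℕ, M ≤ X ∧ (X : ℝ) / Real.log X ^ U <
          |∑ m ∈ Icc 1 M, ∏ l, L ((f l).eval (m : ℤ) + c l).natAbs -
            M * ∏ p ∈ pz z, (((1 - 1 / (p : ℝ)) ^ s)⁻¹ * (1 - (MT.rho (∏ l, (f l + Polynomial.C (c l))) p : ℝ) / p))|)).card : ℝ))).card : ℝ) ≤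
      Fintype.card ι / Real.log X ^ U := by
  obtain ⟨B0, h0⟩ := cross_X s d h hd hh r B C 0 U hr hB
  refine ⟨B0 + 1, fun E => ?_⟩
  obtain ⟨x0, h1⟩ := h0 E
  obtain ⟨x1, h2⟩ := main_int s (∑ l, d l) E (U + 1)
  obtain ⟨n1, hn1⟩ := ev_L' 2
  refine ⟨x0 + x1 + n1, fun X hX H hH1 hH2 ι _ v hv hE κ hκ z hz1 hz2 L hL => ?_⟩
  have hlog := hn1 X (by omega)
  have hz2' : 2 ≤ z := by
    have h3 : (2 : ℝ) ≤ z := by
      refine le_trans ?_ hz1
      calc (2 : ℝ) ≤ Real.log X := hlog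
        _ = Real.log X ^ 1 := (pow_one _).symm
        _ ≤ _ := pow_le_pow_right₀ (by linarith) (by omega)
    exact_mod_cast h3
  have h4 := h1 X (by omega) H hH1 hH2 ι v hv hE κ hκ z (le_trans (pow_le_pow_right₀ (by linarith) (by omega)) hz1) hz2 L hL
    (fun _ => 1) (fun _ _ => by rw [abs_one, pow_zero])
    (fun P => ∏ p ∈ pz z, (((1 - 1 / (p : ℝ)) ^ s)⁻¹ * (1 - (MT.rho (∏ l, P l) p : ℝ) / p))) (fun P hP M hM => by
      have h5 := h2 X (by omega) z hz2' hz2 P hP M hM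
      simp only [one_mul]
      exact h5)
  simp only [one_mul] at h4
  exact h4

open Classical in
/-- **All primes up to `X`**: explicit main term. -/
theorem cross_prime (s : ℕ) (d h : Fin s → ℕ) (hd : ∀ l, 2 ≤ d l) (hh : ∀ l, 1 ≤ h l) (r B C U : ℕ) (hr : 2 ≤ r) (hB : 1 ≤ B) :
    ∃ B0 : ℕ, ∀ E : ℕ, ∃ x₀ : ℕ, ∀ X : ℕ, x₀ ≤ X → ∀ H : Fin s → ℕ, (∀ l, H l ≤ X ^ (d l * (r - 1))) →
    (∀ l, X ^ d l ≤ H l ^ (r - 1)) → ∀ (ι : Type) [Fintype ι] (v : Fin s → ι → ℤ), (∀ l i, |v l i| ≤ B * H l) →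
    (∀ l, (En (h l) (v l) : ℝ) * H l ≤ Real.log X ^ C * (Fintype.card ι : ℝ) ^ (2 * h l)) →
    ∀ κ : Fin s → ℤ, (∀ l, κ l ≠ 0) → ∀ z : ℕ, Real.log X ^ B0 ≤ z → (z : ℝ) ≤ Real.log X ^ E →
    ∀ L : ℕ → ℝ, (∀ n, th n ≤ L n ∧ L n ≤ ArithmeticFunction.vonMangoldt n) →
    ((univ.filter (fun i : ι => ∃ f : Fin s → ℤ[X], (∀ l, (f l).natDegree ≤ d l) ∧ (∀ l, (f l).coeff (d l) = κ l * v l i) ∧
      (∀ l, ∀ m ∈ range (2 * X), |(f l).eval (m : ℤ)| ≤ B * ((H l * X ^ d l : ℕ) : ℤ)) ∧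
      (∏ l, ((H l * X ^ d l : ℕ) : ℝ)) / Real.log X ^ U <
        (((Fintype.piFinset (fun l => Icc (-((B : ℤ) * ((H l * X ^ d l : ℕ) : ℤ))) ((B : ℤ) * ((H l * X ^ d l : ℕ) : ℤ)))).filter
        (fun c : Fin s → ℤ => ∃ M : ℕ, M ≤ X ∧ (X : ℝ) / Real.log X ^ U <
          |∑ m ∈ Icc 1 M, L m * ∏ l, L ((f l).eval (m : ℤ) + c l).natAbs -
            M * ∏ p ∈ pz z, (((1 - 1 / (p : ℝ)) ^ s)⁻¹ * (1 - (rhos (∏ l, (f l + Polynomial.C (c l))) p : ℝ) / (p - 1)))|)).card : ℝ))).card : ℝ) ≤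
      Fintype.card ι / Real.log X ^ U := by
  obtain ⟨B0, h0⟩ := cross_X s d h hd hh r B C 1 U hr hB
  refine ⟨B0 + 1, fun E => ?_⟩
  obtain ⟨x0, h1⟩ := h0 E
  obtain ⟨x1, h2⟩ := main_prime s (∑ l, d l) E (U + 1)
  obtain ⟨n1, hn1⟩ := ev_L' 2
  refine ⟨x0 + x1 + n1, fun X hX H hH1 hH2 ι _ v hv hE κ hκ z hz1 hz2 L hL => ?_⟩
  have hlog := hn1 X (by omega)
  have hz2' : 2 ≤ z := by
    have h3 : (2 : ℝ) ≤ z := by
      refine le_trans ?_ hz1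
      calc (2 : ℝ) ≤ Real.log X := hlog
        _ = Real.log X ^ 1 := (pow_one _).symm
        _ ≤ _ := pow_le_pow_right₀ (by linarith) (by omega)
    exact_mod_cast h3
  exact h1 X (by omega) H hH1 hH2 ι v hv hE κ hκ z (le_trans (pow_le_pow_right₀ (by linarith) (by omega)) hz1) hz2 L hL
    L (fun m hm => by
      rw [mem_Icc] at hm
      obtain ⟨h5, h6⟩ := hL m
      rw [abs_of_nonneg ((th_nonneg m).trans h5), pow_one]
      refine h6.trans (ArithmeticFunction.vonMangoldt_le_log.trans ?_)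
      exact Real.log_le_log (by exact_mod_cast hm.1) (by exact_mod_cast hm.2))
    (fun P => ∏ p ∈ pz z, (((1 - 1 / (p : ℝ)) ^ s)⁻¹ * (1 - (rhos (∏ l, P l) p : ℝ) / (p - 1)))) (fun P hP M hM =>
      h2 X (by omega) z hz2' hz2 L hL P hP M hM)

end Pool.Agent.Run7.h536.CE
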