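import Pool.Agent.Run7.h536.CE8

set_option autoImplicit false

/-! The case of one polynomial. -/

namespace Pool.Agent.Run7.h536.CE
open Finset Polynomial
open Pool.Agent.H373R2.T7
open Pool.Agent.TH872.Sq
open Pool.Agent.TH212.EH (En enum)
open Pool.Agent.Run7.h536.MT (rhos)

lemma card_fin1 (I : Finset ℤ) (P : (Fin 1 → ℤ) → Prop) [DecidablePred P] (R : ℤ → Prop) [DecidablePred R]
    (h : ∀ c : Fin 1 → ℤ, P c ↔ R (c 0)) :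
    ((Fintype.piFinset (fun _ : Fin 1 => I)).filter P).card = (I.filter R).card := by
  apply card_bij (fun c _ => c 0)
  · intro c hc
    rw [mem_filter, Fintype.mem_piFinset] at hc
    rw [mem_filter]
    exact ⟨hc.1 0, (h c).1 hc.2⟩
  · intro c _ c' _ hcc
    funext i
    rw [Subsingleton.elim i 0]
    exact hcc
  · intro c hc
    rw [mem_filter] at hc
    refine ⟨fun _ => c, ?_, rfl⟩
    rw [mem_filter, Fintype.mem_piFinset]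
    exact ⟨fun _ => hc.1, (h _).2 hc.2⟩

open Classical in
/-- **One polynomial at all arguments up to `X`.** -/
theorem cross_one (d h : ℕ) (hd : 2 ≤ d) (hh : 1 ≤ h) (r B C U : ℕ) (hr : 1 ≤ r) (hB : 1 ≤ B) :
    ∃ B0 : ℕ, ∀ E : ℕ, ∃ x₀ : ℕ, ∀ X : ℕ, x₀ ≤ X → ∀ H : ℕ, H ≤ X ^ r → X ≤ H ^ r → ∀ (ι : Type) [Fintype ι] (v : ι → ℤ),
    (∀ i, |v i| ≤ B * H) → (En h v : ℝ) * H ≤ Real.log X ^ C * (Fintype.card ι : ℝ) ^ (2 * h) →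
    ∀ κ : ℤ, κ ≠ 0 → ∀ z : ℕ, Real.log X ^ B0 ≤ z → (z : ℝ) ≤ Real.log X ^ E →
    ∀ L : ℕ → ℝ, (∀ n, th n ≤ L n ∧ L n ≤ ArithmeticFunction.vonMangoldt n) →
    ((univ.filter (fun i : ι => ∃ f : ℤ[X], f.natDegree ≤ d ∧ f.coeff d = κ * v i ∧
      (∀ m ∈ range (2 * X), |f.eval (m : ℤ)| ≤ B * ((H * X ^ d : ℕ) : ℤ)) ∧
      ((H * X ^ d : ℕ) : ℝ) / Real.log X ^ U <
        (((Icc (-((B : ℤ) * ((H * X ^ d : ℕ) : ℤ))) ((B : ℤ) * ((H * X ^ d : ℕ) : ℤ))).filter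
        (fun c : ℤ => ∃ M : ℕ, M ≤ X ∧ (X : ℝ) / Real.log X ^ U <
          |∑ m ∈ Icc 1 M, L (f.eval (m : ℤ) + c).natAbs -
            M * ∏ p ∈ pz z, ((1 - 1 / (p : ℝ))⁻¹ * (1 - (MT.rho (f + Polynomial.C c) p : ℝ) / p))|)).card : ℝ))).card : ℝ) ≤
      Fintype.card ι / Real.log X ^ U := by
  obtain ⟨B0, h0⟩ := cross_int 1 (fun _ => d) (fun _ => h) (fun _ => hd) (fun _ => hh) (d * r + 1) B C U (by nlinarith) hB
  refine ⟨B0, fun E => ?_⟩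
  obtain ⟨x0, h1⟩ := h0 E
  refine ⟨x0 + 1, fun X hX H hH1 hH2 ι _ v hv hE κ hκ z hz1 hz2 L hL => ?_⟩
  have key := h1 X (by omega) (fun _ => H) (fun _ => hH1.trans (Nat.pow_le_pow_right (by omega) (by
      rw [Nat.add_sub_cancel]
      calc r = 1 * (1 * r) := by ring
        _ ≤ d * (d * r) := Nat.mul_le_mul (by omega) (Nat.mul_le_mul_right _ (by omega)))) ) (fun _ => by
      rw [Nat.add_sub_cancel, mul_comm d r, pow_mul]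
      exact Nat.pow_le_pow_left hH2 _) ι (fun _ => v) (fun _ => hv) (fun _ => hE) (fun _ => κ) (fun _ => hκ) z hz1 hz2 L hL
  refine le_trans (Nat.cast_le.2 (card_le_card ?_)) key
  intro i hi
  rw [mem_filter] at hi ⊢
  obtain ⟨_, f, hf1, hf2, hf3, hf4⟩ := hi
  refine ⟨mem_univ _, fun _ => f, fun _ => hf1, fun _ => hf2, fun _ => hf3, ?_⟩
  rw [Fin.prod_univ_one]
  refine lt_of_lt_of_le hf4 (le_of_eq ?_)
  congr 1
  symm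
  apply card_fin1
  intro c
  simp only [Fin.prod_univ_one, pow_one]

open Classical in
/-- **One polynomial at the primes up to `X`.** -/
theorem cross_one_prime (d h : ℕ) (hd : 2 ≤ d) (hh : 1 ≤ h) (r B C U : ℕ) (hr : 1 ≤ r) (hB : 1 ≤ B) :
    ∃ B0 : ℕ, ∀ E : ℕ, ∃ x₀ : ℕ, ∀ X : ℕ, x₀ ≤ X → ∀ H : ℕ, H ≤ X ^ r → X ≤ H ^ r → ∀ (ι : Type) [Fintype ι] (v : ι → ℤ),
    (∀ i, |v i| ≤ B * H) → (En h v : ℝ) * H ≤ Real.log X ^ C * (Fintype.card ι : ℝ) ^ (2 * h) →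
    ∀ κ : ℤ, κ ≠ 0 → ∀ z : ℕ, Real.log X ^ B0 ≤ z → (z : ℝ) ≤ Real.log X ^ E →
    ∀ L : ℕ → ℝ, (∀ n, th n ≤ L n ∧ L n ≤ ArithmeticFunction.vonMangoldt n) →
    ((univ.filter (fun i : ι => ∃ f : ℤ[X], f.natDegree ≤ d ∧ f.coeff d = κ * v i ∧
      (∀ m ∈ range (2 * X), |f.eval (m : ℤ)| ≤ B * ((H * X ^ d : ℕ) : ℤ)) ∧
      ((H * X ^ d : ℕ) : ℝ) / Real.log X ^ U <
        (((Icc (-((B : ℤ) * ((H * X ^ d : ℕ) : ℤ))) ((B : ℤ) * ((H * X ^ d : ℕ) : ℤ))).filter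
        (fun c : ℤ => ∃ M : ℕ, M ≤ X ∧ (X : ℝ) / Real.log X ^ U <
          |∑ m ∈ Icc 1 M, L m * L (f.eval (m : ℤ) + c).natAbs -
            M * ∏ p ∈ pz z, ((1 - 1 / (p : ℝ))⁻¹ * (1 - (rhos (f + Polynomial.C c) p : ℝ) / (p - 1)))|)).card : ℝ))).card : ℝ) ≤
      Fintype.card ι / Real.log X ^ U := by
  obtain ⟨B0, h0⟩ := cross_prime 1 (fun _ => d) (fun _ => h) (fun _ => hd) (fun _ => hh) (d * r + 1) B C U (by nlinarith) hB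
  refine ⟨B0, fun E => ?_⟩
  obtain ⟨x0, h1⟩ := h0 E
  refine ⟨x0 + 1, fun X hX H hH1 hH2 ι _ v hv hE κ hκ z hz1 hz2 L hL => ?_⟩
  have key := h1 X (by omega) (fun _ => H) (fun _ => hH1.trans (Nat.pow_le_pow_right (by omega) (by
      rw [Nat.add_sub_cancel]
      calc r = 1 * (1 * r) := by ring
        _ ≤ d * (d * r) := Nat.mul_le_mul (by omega) (Nat.mul_le_mul_right _ (by omega)))) ) (fun _ => by
      rw [Nat.add_sub_cancel, mul_comm d r, pow_mul]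
      exact Nat.pow_le_pow_left hH2 _) ι (fun _ => v) (fun _ => hv) (fun _ => hE) (fun _ => κ) (fun _ => hκ) z hz1 hz2 L hL
  refine le_trans (Nat.cast_le.2 (card_le_card ?_)) key
  intro i hi
  rw [mem_filter] at hi ⊢
  obtain ⟨_, f, hf1, hf2, hf3, hf4⟩ := hi
  refine ⟨mem_univ _, fun _ => f, fun _ => hf1, fun _ => hf2, fun _ => hf3, ?_⟩
  rw [Fin.prod_univ_one]
  refine lt_of_lt_of_le hf4 (le_of_eq ?_)
  congr 1
  symm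
  apply card_fin1
  intro c
  simp only [Fin.prod_univ_one, pow_one]

open Classical in
/-- **Residue classes to large moduli**, one polynomial. -/
theorem ap_one (d : ℕ) (hd : 2 ≤ d) (r B C U : ℕ) (hr : 1 ≤ r) (hB : 1 ≤ B) :
    ∃ B0 : ℕ, ∀ E : ℕ, ∃ x₀ : ℕ, ∀ X : ℕ, x₀ ≤ X → ∀ Q : ℕ, Q ≤ X ^ r → X ≤ Q ^ r →
    ∀ A : Finset ℕ, A ⊆ Icc 1 Q → (Q : ℝ) ≤ Real.log X ^ C * A.card →
    ∀ κ : ℤ, κ ≠ 0 → ∀ z : ℕ, Real.log X ^ B0 ≤ z → (z : ℝ) ≤ Real.log X ^ E →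
    ∀ L : ℕ → ℝ, (∀ n, th n ≤ L n ∧ L n ≤ ArithmeticFunction.vonMangoldt n) →
    ((A.filter (fun q : ℕ => ∃ F : ℤ[X], ∃ ρ : ℤ, F.natDegree ≤ d ∧ F.coeff d = κ ∧
      (∀ n ∈ range (2 * X), |F.eval (q * (n : ℤ) + ρ)| ≤ B * (((Q * X) ^ d : ℕ) : ℤ)) ∧
      (((Q * X) ^ d : ℕ) : ℝ) / Real.log X ^ U <
        (((Icc (-((B : ℤ) * (((Q * X) ^ d : ℕ) : ℤ))) ((B : ℤ) * (((Q * X) ^ d : ℕ) : ℤ))).filter
        (fun c : ℤ => ∃ M : ℕ, M ≤ X ∧ (X : ℝ) / Real.log X ^ U <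
          |∑ n ∈ Icc 1 M, L (F.eval (q * (n : ℤ) + ρ) + c).natAbs -
            M * ∏ p ∈ pz z, ((1 - 1 / (p : ℝ))⁻¹ *
              (1 - (MT.rho ((F + Polynomial.C c).comp (Polynomial.C (q : ℤ) * Polynomial.X + Polynomial.C ρ)) p : ℝ) / p))|)).card : ℝ))).card : ℝ) ≤
      A.card / Real.log X ^ U := by
  obtain ⟨B0, h0⟩ := ap_int 1 (fun _ => d) (fun _ => hd) (r + 1) B C U (by omega) hB
  refine ⟨B0, fun E => ?_⟩
  obtain ⟨x0, h1⟩ := h0 E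
  refine ⟨x0, fun X hX Q hQ1 hQ2 A hA hAQ κ hκ z hz1 hz2 L hL => ?_⟩
  have key := h1 X hX Q (by rw [Nat.add_sub_cancel]; exact hQ1) (by rw [Nat.add_sub_cancel]; exact hQ2) A hA hAQ (fun _ => κ) (fun _ => hκ) z hz1 hz2 L hL
  refine le_trans (Nat.cast_le.2 (card_le_card ?_)) key
  intro q hq
  rw [mem_filter] at hq ⊢
  obtain ⟨hqA, F, ρ, hf1, hf2, hf3, hf4⟩ := hq
  refine ⟨hqA, fun _ => F, ρ, fun _ => hf1, fun _ => hf2, fun _ => hf3, ?_⟩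
  rw [Fin.prod_univ_one]
  refine lt_of_lt_of_le hf4 (le_of_eq ?_)
  congr 1
  symm
  apply card_fin1
  intro c
  simp only [Fin.prod_univ_one, pow_one]

end Pool.Agent.Run7.h536.CE
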