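import Pool.Agent.Run7.h536.RD3
import Pool.Agent.R459.Fam2
import Pool.Agent.H373R2.T7.SupLiou

set_option autoImplicit false

/-! First moments over outer parameters and constant terms for bounded functions with small exponential sums. -/

namespace Pool.Agent.Run7.h536.RD
open Finset
open Pool.Agent.TH212.EH (En)
open Pool.Agent.H373R2.T7
open Pool.Agent.Run7.h536.QC (LI)
open Pool.Agent.R459 (fam_near_fin)

/-- bounded real functions with small exponential sums -/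
def Small (f : ℕ → ℝ) : Prop := (∀ n, |f n| ≤ 1) ∧ SupSmall (fun n => ((f n : ℝ) : ℂ))

lemma exI_LI (f : ℕ → ℝ) (n : ℤ) : exI (fun n => ((f n : ℝ) : ℂ)) n = ((LI f n : ℝ) : ℂ) := by
  unfold exI LI
  split_ifs
  · rfl
  · norm_num

lemma LI_le_one (f : ℕ → ℝ) (hf : ∀ n, |f n| ≤ 1) (n : ℤ) : |LI f n| ≤ 1 := by
  unfold LI
  split_ifs
  · exact hf _
  · rw [abs_zero]; norm_num

/-- sums over initial segments, on average over the family -/
theorem maxif (f : ℕ → ℝ) (hf : Small f) (p B C U : ℕ) : ∃ N0 : ℕ, ∀ N : ℕ, N0 ≤ N → ∀ (ι : Type) [Fintype ι] (v : ι → ℤ),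
    (∀ i, |v i| ≤ B * N) → (En p v : ℝ) * N ≤ Real.log N ^ C * (Fintype.card ι : ℝ) ^ (2 * p) →
    ∀ G : ℕ → ℝ, (∀ n, |G n| ≤ 1) → ∀ A : ι → ℕ, (∀ i, A i ≤ B * N) →
    ∑ i, |∑ n ∈ Icc 1 (A i), G n * LI f ((n : ℤ) + v i)| ≤ N * Fintype.card ι / Real.log N ^ U := by
  classical
  obtain ⟨N0, h0⟩ := fam_near_fin (fun n => ((f n : ℝ) : ℂ)) (fun n => by
    rw [Complex.norm_real, Real.norm_eq_abs]
    exact hf.1 n) hf.2 p B C 0 0 (U + 1)
  obtain ⟨n1, h1⟩ := ev_L' (B + 2)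
  refine ⟨N0 + n1, fun N hN ι _ v hv hE G hG A hA => ?_⟩
  have hL := h1 N (by omega)
  have hL2 : ((B : ℝ) + 2) ≤ Real.log N := by
    have := hL
    push_cast at this
    linarith
  have hB0 : (0 : ℝ) ≤ B := Nat.cast_nonneg _
  have hLp : (0 : ℝ) < Real.log N := by linarith
  obtain ⟨S, hS⟩ : ∃ S : Finset ι, S = univ.filter (fun i => (N : ℝ) / Real.log N ^ (U + 1) <
      |∑ n ∈ Icc 1 (A i), G n * LI f ((n : ℤ) + v i)|) := ⟨_, rfl⟩
  have hcard := h0 N (by omega) ι v hv hE 1 (by norm_num) (fun _ => 1) (fun _ n => ((G n : ℝ) : ℂ)) (fun _ _ => le_rfl)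
    (fun _ _ n _ _ => by
      rw [Complex.norm_real, Real.norm_eq_abs, pow_zero]
      exact hG n) S (by
      intro i hi
      rw [hS, mem_filter] at hi
      refine ⟨0, by simp, 0, by norm_num, A i, by rw [one_mul]; exact hA i, ?_⟩
      refine lt_of_lt_of_le hi.2 (le_of_eq ?_)
      rw [← Real.norm_eq_abs, ← Complex.norm_real]
      congr 1
      push_cast
      apply sum_congr rfl
      intro n _
      rw [exI_LI]
      congr 3
      ring)
  have htriv : ∀ i, |∑ n ∈ Icc 1 (A i), G n * LI f ((n : ℤ) + v i)| ≤ B * N := by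
    intro i
    calc |∑ n ∈ Icc 1 (A i), G n * LI f ((n : ℤ) + v i)| ≤ ∑ n ∈ Icc 1 (A i), |G n * LI f ((n : ℤ) + v i)| := abs_sum_le_sum_abs _ _
      _ ≤ ∑ n ∈ Icc 1 (A i), (1 : ℝ) := by
          apply sum_le_sum
          intro n _
          rw [abs_mul]
          have := mul_le_mul (hG n) (LI_le_one f hf.1 ((n : ℤ) + v i)) (abs_nonneg _) zero_le_one
          linarith
      _ = (A i : ℝ) := by rw [sum_const, Nat.card_Icc, nsmul_eq_mul, mul_one, Nat.add_sub_cancel]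
      _ ≤ _ := by exact_mod_cast hA i
  have hsp : ∑ i, |∑ n ∈ Icc 1 (A i), G n * LI f ((n : ℤ) + v i)| ≤
      ∑ i, ((if i ∈ S then (B : ℝ) * N else 0) + (N : ℝ) / Real.log N ^ (U + 1)) := by
    apply sum_le_sum
    intro i _
    by_cases h : i ∈ S
    · rw [if_pos h]
      have := htriv i
      have h3 : (0 : ℝ) ≤ (N : ℝ) / Real.log N ^ (U + 1) := by positivity
      linarith
    · rw [if_neg h, zero_add]
      rw [hS, mem_filter] at h
      push Not at h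
      exact h (mem_univ i)
  refine hsp.trans ?_
  rw [sum_add_distrib, ← sum_filter, sum_const, sum_const, card_univ, nsmul_eq_mul, nsmul_eq_mul]
  have hfS : (univ.filter (fun i => i ∈ S)) = S := by
    ext i
    simp
  rw [hfS]
  calc (S.card : ℝ) * (B * N) + Fintype.card ι * (N / Real.log N ^ (U + 1)) ≤
      Fintype.card ι / Real.log N ^ (U + 1) * (B * N) + Fintype.card ι * (N / Real.log N ^ (U + 1)) := by
        have := mul_le_mul_of_nonneg_right hcard (by positivity : (0 : ℝ) ≤ B * N)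
        linarith
    _ = N * Fintype.card ι / Real.log N ^ U * ((B + 1) / Real.log N) := by
        rw [pow_succ]
        field_simp
    _ ≤ N * Fintype.card ι / Real.log N ^ U * 1 := by
        apply mul_le_mul_of_nonneg_left _ (by positivity)
        rw [div_le_one hLp]
        linarith
    _ = _ := mul_one _

lemma corr_gen (H : ℤ → ℝ) (hH : ∀ n ≤ 0, H n = 0) (M : ℕ) (x y : ℤ) :
    ∑ c ∈ Icc 1 M, H ((c : ℤ) + x) * H ((c : ℤ) + y) =
      ∑ n ∈ Icc 1 (x + M).toNat, H n * H ((n : ℤ) + (y - x)) - ∑ n ∈ Icc 1 x.toNat, H n * H ((n : ℤ) + (y - x)) := by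
  classical
  have hsub : Icc 1 x.toNat ⊆ Icc 1 (x + M).toNat := by
    apply Icc_subset_Icc_right
    omega
  rw [← sum_sdiff hsub, add_sub_cancel_right]
  have h1 : ∑ c ∈ Icc 1 M, H ((c : ℤ) + x) * H ((c : ℤ) + y) =
      ∑ c ∈ (Icc 1 M).filter (fun c : ℕ => 1 ≤ (c : ℤ) + x), H ((c : ℤ) + x) * H ((c : ℤ) + y) := by
    rw [sum_filter]
    apply sum_congr rfl
    intro c _
    split_ifs with h
    · rfl
    · rw [hH _ (by omega), zero_mul]
  rw [h1]
  apply sum_bij (fun (c : ℕ) _ => ((c : ℤ) + x).toNat)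
  · intro c hc
    rw [mem_filter, mem_Icc] at hc
    rw [mem_sdiff, mem_Icc, mem_Icc]
    omega
  · intro c hc c' hc' h
    rw [mem_filter] at hc hc'
    omega
  · intro n hn
    rw [mem_sdiff, mem_Icc, mem_Icc] at hn
    refine ⟨((n : ℤ) - x).toNat, ?_, ?_⟩
    · rw [mem_filter, mem_Icc]
      omega
    · omega
  · intro c hc
    rw [mem_filter, mem_Icc] at hc
    have e1 : ((((c : ℤ) + x).toNat : ℕ) : ℤ) = (c : ℤ) + x := Int.toNat_of_nonneg (by omega)
    rw [e1]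
    congr 2
    ring

/-- the variance -/
theorem variancef (f : ℕ → ℝ) (hf : Small f) (p B C T U : ℕ) : ∃ k0 : ℕ, ∀ k : ℕ, k0 ≤ k → ∀ N : ℕ, (k : ℝ) ≤ Real.log N →
    Real.log N ≤ (k : ℝ) ^ 2 → ∀ (ι ι' : Type) [Fintype ι] [Fintype ι'] (zf : ι → ι' → ℤ), (∀ i j, |zf i j| ≤ B * N) →
    (En p (fun q : ι × (ι' × ι') => zf q.1 q.2.2 - zf q.1 q.2.1) : ℝ) * N ≤
      (k : ℝ) ^ C * (Fintype.card (ι × (ι' × ι')) : ℝ) ^ (2 * p) →
    ∀ a : ι → ι' → ℝ, (∀ i j, |a i j| ≤ (k : ℝ) ^ T) →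
    ∑ i, ∑ c ∈ Icc 1 (B * N), (∑ j, a i j * LI f ((c : ℤ) + zf i j)) ^ 2 ≤
      N * (Fintype.card ι * (Fintype.card ι' : ℝ) ^ 2) / (k : ℝ) ^ U := by
  classical
  obtain ⟨N0, h1⟩ := maxif f hf p (2 * B) C (2 * T + U + 1)
  refine ⟨N0 + 3, fun k hk N hkN hNk ι ι' _ _ zf hzf hE a ha => ?_⟩
  have hk3 : (3 : ℝ) ≤ k := by exact_mod_cast (by omega : 3 ≤ k)
  have hkp : (0 : ℝ) < k := by linarith
  have hk1 : (1 : ℝ) ≤ k := by linarith
  have hL0 : (0 : ℝ) < Real.log N := by linarith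
  have hNpos : 1 ≤ N := by
    rcases Nat.eq_zero_or_pos N with h | h
    · rw [h, Nat.cast_zero, Real.log_zero] at hL0
      exact absurd hL0 (lt_irrefl _)
    · exact h
  have hNr : (1 : ℝ) ≤ N := by exact_mod_cast hNpos
  have hkN' : k ≤ N := by
    have h4 := Real.log_le_sub_one_of_pos (by linarith : (0 : ℝ) < N)
    have h5 : (k : ℝ) ≤ N := by linarith
    exact_mod_cast h5
  have hδ : ∀ q : ι × (ι' × ι'), |zf q.1 q.2.2 - zf q.1 q.2.1| ≤ ((2 * B : ℕ) : ℤ) * N := by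
    intro q
    have h3 := abs_le.1 (hzf q.1 q.2.1)
    have h4 := abs_le.1 (hzf q.1 q.2.2)
    push_cast
    rw [abs_le]
    constructor <;> linarith [h3.1, h3.2, h4.1, h4.2]
  have hE' : (En p (fun q : ι × (ι' × ι') => zf q.1 q.2.2 - zf q.1 q.2.1) : ℝ) * N ≤
      Real.log N ^ C * (Fintype.card (ι × (ι' × ι')) : ℝ) ^ (2 * p) :=
    hE.trans (mul_le_mul_of_nonneg_right (pow_le_pow_left₀ hkp.le hkN C) (by positivity))
  have hA1 : ∀ q : ι × (ι' × ι'), ((zf q.1 q.2.1 + ((B * N : ℕ) : ℤ)).toNat) ≤ 2 * B * N := by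
    intro q
    have h3 := (abs_le.1 (hzf q.1 q.2.1)).2
    have h4 : zf q.1 q.2.1 + ((B * N : ℕ) : ℤ) ≤ ((2 * B * N : ℕ) : ℤ) := by
      push_cast
      linarith
    omega
  have hA2 : ∀ q : ι × (ι' × ι'), (zf q.1 q.2.1).toNat ≤ 2 * B * N := by
    intro q
    have h3 := (abs_le.1 (hzf q.1 q.2.1)).2
    have h4 : zf q.1 q.2.1 ≤ ((2 * B * N : ℕ) : ℤ) := by
      push_cast
      nlinarith [Int.natCast_nonneg (B * N)]
    omega
  have hGb : ∀ n : ℕ, |LI f (n : ℤ)| ≤ 1 := fun n => LI_le_one f hf.1 _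
  have m1 := h1 N (by omega) (ι × (ι' × ι')) (fun q => zf q.1 q.2.2 - zf q.1 q.2.1) hδ hE' (fun n => LI f (n : ℤ)) hGb
    (fun q => (zf q.1 q.2.1 + ((B * N : ℕ) : ℤ)).toNat) hA1
  have m2 := h1 N (by omega) (ι × (ι' × ι')) (fun q => zf q.1 q.2.2 - zf q.1 q.2.1) hδ hE' (fun n => LI f (n : ℤ)) hGb
    (fun q => (zf q.1 q.2.1).toNat) hA2
  obtain ⟨Sg, hSg⟩ : ∃ Sg : ℕ → ℤ → ℝ, ∀ A v, Sg A v = ∑ n ∈ Icc 1 A, LI f (n : ℤ) * LI f ((n : ℤ) + v) := ⟨_, fun _ _ => rfl⟩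
  simp only [← hSg] at m1 m2
  have hexp : ∑ i, ∑ c ∈ Icc 1 (B * N), (∑ j, a i j * LI f ((c : ℤ) + zf i j)) ^ 2 =
      ∑ q : ι × (ι' × ι'), a q.1 q.2.1 * a q.1 q.2.2 *
        (Sg (zf q.1 q.2.1 + ((B * N : ℕ) : ℤ)).toNat (zf q.1 q.2.2 - zf q.1 q.2.1) -
          Sg (zf q.1 q.2.1).toNat (zf q.1 q.2.2 - zf q.1 q.2.1)) := by
    rw [Fintype.sum_prod_type]
    apply sum_congr rfl
    intro i _
    rw [Fintype.sum_prod_type]
    simp only [sq, sum_mul_sum]
    rw [sum_comm]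
    apply sum_congr rfl
    intro j _
    rw [sum_comm]
    apply sum_congr rfl
    intro j' _
    have h5 := corr_gen (LI f) (fun n hn => by unfold LI; rw [if_neg (by omega)]) (B * N) (zf i j) (zf i j')
    simp only [hSg]
    rw [← h5, mul_sum]
    apply sum_congr rfl
    intro c _
    ring
  rw [hexp]
  have hcard : ((Fintype.card (ι × (ι' × ι')) : ℕ) : ℝ) = Fintype.card ι * (Fintype.card ι' : ℝ) ^ 2 := by
    rw [Fintype.card_prod, Fintype.card_prod]
    push_cast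
    ring
  calc _ ≤ ∑ q : ι × (ι' × ι'), (k : ℝ) ^ (2 * T) *
        (|Sg (zf q.1 q.2.1 + ((B * N : ℕ) : ℤ)).toNat (zf q.1 q.2.2 - zf q.1 q.2.1)| +
          |Sg (zf q.1 q.2.1).toNat (zf q.1 q.2.2 - zf q.1 q.2.1)|) := by
        apply sum_le_sum
        intro q _
        refine (le_abs_self _).trans ?_
        rw [abs_mul, abs_mul]
        apply mul_le_mul _ (abs_sub _ _) (abs_nonneg _) (by positivity)
        rw [two_mul, pow_add]
        exact mul_le_mul (ha _ _) (ha _ _) (abs_nonneg _) (by positivity)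
    _ = (k : ℝ) ^ (2 * T) * (∑ q : ι × (ι' × ι'), |Sg (zf q.1 q.2.1 + ((B * N : ℕ) : ℤ)).toNat (zf q.1 q.2.2 - zf q.1 q.2.1)| +
          ∑ q : ι × (ι' × ι'), |Sg (zf q.1 q.2.1).toNat (zf q.1 q.2.2 - zf q.1 q.2.1)|) := by
        rw [← sum_add_distrib, mul_sum]
    _ ≤ (k : ℝ) ^ (2 * T) * (N * Fintype.card (ι × (ι' × ι')) / Real.log N ^ (2 * T + U + 1) +
          N * Fintype.card (ι × (ι' × ι')) / Real.log N ^ (2 * T + U + 1)) :=
        mul_le_mul_of_nonneg_left (add_le_add m1 m2) (by positivity)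
    _ ≤ (k : ℝ) ^ (2 * T) * (N * Fintype.card (ι × (ι' × ι')) / (k : ℝ) ^ (2 * T + U + 1) +
          N * Fintype.card (ι × (ι' × ι')) / (k : ℝ) ^ (2 * T + U + 1)) := by
        have h3 : (N : ℝ) * Fintype.card (ι × (ι' × ι')) / Real.log N ^ (2 * T + U + 1) ≤
            (N : ℝ) * Fintype.card (ι × (ι' × ι')) / (k : ℝ) ^ (2 * T + U + 1) := by
          apply div_le_div_of_nonneg_left (by positivity) (by positivity)
          exact pow_le_pow_left₀ hkp.le hkN _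
        apply mul_le_mul_of_nonneg_left _ (by positivity)
        linarith
    _ = (N * (Fintype.card ι * (Fintype.card ι' : ℝ) ^ 2) / (k : ℝ) ^ U) * (2 / k) := by
        rw [hcard, pow_succ, pow_add]
        field_simp
        ring
    _ ≤ _ := by
        refine (mul_le_mul_of_nonneg_left ?_ (by positivity)).trans (le_of_eq (mul_one _))
        rw [div_le_one hkp]
        linarith

/-- the first moment, one sign -/
theorem fm1f (f : ℕ → ℝ) (hf : Small f) (p B C T U : ℕ) : ∃ k0 : ℕ, ∀ k : ℕ, k0 ≤ k → ∀ N : ℕ, (k : ℝ) ≤ Real.log N →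
    Real.log N ≤ (k : ℝ) ^ 2 → ∀ (ι ι' : Type) [Fintype ι] [Fintype ι'] (zf : ι → ι' → ℤ), (∀ i j, |zf i j| ≤ B * N) →
    (En p (fun q : ι × (ι' × ι') => zf q.1 q.2.2 - zf q.1 q.2.1) : ℝ) * N ≤
      (k : ℝ) ^ C * (Fintype.card (ι × (ι' × ι')) : ℝ) ^ (2 * p) →
    ∀ a : ι → ι' → ℝ, (∀ i j, |a i j| ≤ (k : ℝ) ^ T) →
    ∑ i, ∑ c ∈ Icc (-((B : ℤ) * N)) ((B : ℤ) * N), |∑ j, a i j * LI f (zf i j + c)| ≤
      N * (Fintype.card ι * (Fintype.card ι' : ℝ)) / (k : ℝ) ^ U := by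
  classical
  obtain ⟨k0, h1⟩ := variancef f hf p (2 * B + 1) C T (2 * U + 2)
  refine ⟨k0 + 2 * B + 2, fun k hk N hkN hNk ι ι' _ _ zf hzf hE a ha => ?_⟩
  have hk2 : (2 : ℝ) ≤ k := by exact_mod_cast (by omega : 2 ≤ k)
  have hkB : ((2 * B + 1 : ℕ) : ℝ) ≤ k := by exact_mod_cast (by omega : 2 * B + 1 ≤ k)
  have hkp : (0 : ℝ) < k := by linarith
  have hNpos : 1 ≤ N := by
    rcases Nat.eq_zero_or_pos N with h | h
    · rw [h, Nat.cast_zero, Real.log_zero] at hkN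
      linarith
    · exact h
  have h2 := h1 k (by omega) N hkN hNk ι ι' (fun i j => zf i j - (B * N + 1)) (fun i j => by
      have := abs_le.1 (hzf i j)
      have h3 : (1 : ℤ) ≤ N := by exact_mod_cast hNpos
      push_cast
      rw [abs_le]
      constructor <;> nlinarith [this.1, this.2]) (by
      refine le_trans (le_of_eq ?_) hE
      congr 2
      congr 1
      funext q
      ring) a ha
  have h4 : ∀ i, ∑ c ∈ Icc (-((B : ℤ) * N)) ((B : ℤ) * N), |∑ j, a i j * LI f (zf i j + c)| ≤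
      ∑ c ∈ Icc 1 ((2 * B + 1) * N), |∑ j, a i j * LI f ((c : ℤ) + (zf i j - (B * N + 1)))| := by
    intro i
    refine (shiftc B N hNpos (fun c => |∑ j, a i j * LI f (zf i j + c)|) (fun _ => abs_nonneg _)).trans (le_of_eq ?_)
    apply sum_congr rfl
    intro t _
    congr 1
    apply sum_congr rfl
    intro j _
    congr 2
    ring
  refine (sum_le_sum fun i _ => h4 i).trans ?_
  rw [← sum_product']
  apply cs
  · intro x _
    exact abs_nonneg _
  · rw [card_product, Nat.card_Icc, card_univ, Nat.add_sub_cancel]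
    simp only [sq_abs]
    rw [sum_product' univ (Icc 1 ((2 * B + 1) * N)) (fun i c => (∑ j, a i j * LI f ((c : ℤ) + (zf i j - (B * N + 1)))) ^ 2)]
    calc (((Fintype.card ι * ((2 * B + 1) * N) : ℕ)) : ℝ) * ∑ i, ∑ c ∈ Icc 1 ((2 * B + 1) * N),
          (∑ j, a i j * LI f ((c : ℤ) + (zf i j - (B * N + 1)))) ^ 2 ≤
        (((Fintype.card ι * ((2 * B + 1) * N) : ℕ)) : ℝ) * (N * (Fintype.card ι * (Fintype.card ι' : ℝ) ^ 2) / (k : ℝ) ^ (2 * U + 2)) :=
          mul_le_mul_of_nonneg_left h2 (Nat.cast_nonneg _)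
      _ = ((2 * B + 1 : ℕ) : ℝ) / (k : ℝ) ^ 2 * (N * (Fintype.card ι * (Fintype.card ι' : ℝ)) / (k : ℝ) ^ U) ^ 2 := by
          rw [pow_add, div_pow, ← pow_mul, mul_comm U 2]
          push_cast
          field_simp
      _ ≤ 1 * (N * (Fintype.card ι * (Fintype.card ι' : ℝ)) / (k : ℝ) ^ U) ^ 2 := by
          apply mul_le_mul_of_nonneg_right _ (by positivity)
          rw [div_le_one (by positivity)]
          nlinarith
      _ = _ := one_mul _
  · positivity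

/-- the first moment for functions of the absolute value -/
theorem fmf (f : ℕ → ℝ) (hf : Small f) (p B C T U : ℕ) : ∃ k0 : ℕ, ∀ k : ℕ, k0 ≤ k → ∀ N : ℕ, (k : ℝ) ≤ Real.log N →
    Real.log N ≤ (k : ℝ) ^ 2 → ∀ (ι ι' : Type) [Fintype ι] [Fintype ι'] (zf : ι → ι' → ℤ), (∀ i j, |zf i j| ≤ B * N) →
    (En p (fun q : ι × (ι' × ι') => zf q.1 q.2.2 - zf q.1 q.2.1) : ℝ) * N ≤
      (k : ℝ) ^ C * (Fintype.card (ι × (ι' × ι')) : ℝ) ^ (2 * p) →
    ∀ a : ι → ι' → ℝ, (∀ i j, |a i j| ≤ (k : ℝ) ^ T) →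
    ∑ i, ∑ c ∈ Icc (-((B : ℤ) * N)) ((B : ℤ) * N), |∑ j, a i j * AL f (zf i j + c)| ≤
      N * (Fintype.card ι * (Fintype.card ι' : ℝ)) / (k : ℝ) ^ U := by
  classical
  obtain ⟨k0, h1⟩ := fm1f f hf p B C T (U + 1)
  refine ⟨k0 + 2, fun k hk N hkN hNk ι ι' _ _ zf hzf hE a ha => ?_⟩
  have hk2 : (2 : ℝ) ≤ k := by exact_mod_cast (by omega : 2 ≤ k)
  have hkp : (0 : ℝ) < k := by linarith
  have a1 := h1 k (by omega) N hkN hNk ι ι' zf hzf hE a ha
  have a2' := h1 k (by omega) N hkN hNk ι ι' (fun i j => -zf i j) (fun i j => by rw [abs_neg]; exact hzf i j) (by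
    have e1 : (fun q : ι × (ι' × ι') => -zf q.1 q.2.2 - -zf q.1 q.2.1) = fun q => -(zf q.1 q.2.2 - zf q.1 q.2.1) := by
      funext q
      ring
    rw [e1, En_neg]
    exact hE) a ha
  have hneg : ∀ H : ℤ → ℝ, ∑ c ∈ Icc (-((B : ℤ) * N)) ((B : ℤ) * N), H (-c) = ∑ c ∈ Icc (-((B : ℤ) * N)) ((B : ℤ) * N), H c := by
    intro H
    apply sum_nbij' (fun c => -c) (fun c => -c)
    · intro c hc
      rw [mem_Icc] at hc ⊢
      constructor <;> linarith [hc.1, hc.2]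
    · intro c hc
      rw [mem_Icc] at hc ⊢
      constructor <;> linarith [hc.1, hc.2]
    · intro c _
      ring
    · intro c _
      ring
    · intro c _
      rfl
  have a2 : ∑ i, ∑ c ∈ Icc (-((B : ℤ) * N)) ((B : ℤ) * N), |∑ j, a i j * LI f (-(zf i j + c))| ≤
      N * (Fintype.card ι * (Fintype.card ι' : ℝ)) / (k : ℝ) ^ (U + 1) := by
    refine le_trans (le_of_eq ?_) a2'
    apply sum_congr rfl
    intro i _
    rw [← hneg (fun c => |∑ j, a i j * LI f (-zf i j + c)|)]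
    apply sum_congr rfl
    intro c _
    congr 1
    apply sum_congr rfl
    intro j _
    congr 2
    ring
  calc ∑ i, ∑ c ∈ Icc (-((B : ℤ) * N)) ((B : ℤ) * N), |∑ j, a i j * AL f (zf i j + c)| ≤
      ∑ i, ∑ c ∈ Icc (-((B : ℤ) * N)) ((B : ℤ) * N), (|∑ j, a i j * LI f (zf i j + c)| + |∑ j, a i j * LI f (-(zf i j + c))|) := by
        apply sum_le_sum
        intro i _
        apply sum_le_sum
        intro c _
        refine le_trans (le_of_eq ?_) (abs_add_le _ _)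
        congr 1
        rw [← sum_add_distrib]
        apply sum_congr rfl
        intro j _
        unfold AL
        ring
    _ ≤ N * (Fintype.card ι * (Fintype.card ι' : ℝ)) / (k : ℝ) ^ (U + 1) + N * (Fintype.card ι * (Fintype.card ι' : ℝ)) / (k : ℝ) ^ (U + 1) := by
        simp only [sum_add_distrib]
        exact add_le_add a1 a2
    _ = N * (Fintype.card ι * (Fintype.card ι' : ℝ)) / (k : ℝ) ^ U * (2 / k) := by
        rw [pow_succ]
        field_simp
        ring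
    _ ≤ N * (Fintype.card ι * (Fintype.card ι' : ℝ)) / (k : ℝ) ^ U * 1 := by
        apply mul_le_mul_of_nonneg_left _ (by positivity)
        rw [div_le_one hkp]
        linarith
    _ = _ := mul_one _

end Pool.Agent.Run7.h536.RD
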