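import Pool.Agent.Run7.h536.LD2
import Pool.Agent.Run7.h536.QC5

set_option autoImplicit false

/-! Bounded functions with small exponential sums along polynomial values at integers with restricted digits. -/

namespace Pool.Agent.Run7.h536.RD
open Finset Polynomial
open Pool.Agent.TH212.EH (En)
open Pool.Agent.H373R2.T7
open Pool.Agent.TH872.Sq
open Pool.Agent.Run7.h536.QC (LI pow_lt_two log_pow_scale SD_large)

lemma small_liou : Small (fun n => (-1 : ℝ) ^ ArithmeticFunction.cardFactors n) := by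
  refine ⟨fun n => ?_, ?_⟩
  · rw [abs_pow, abs_neg, abs_one, one_pow]
  · have e : (fun n => (((-1 : ℝ) ^ ArithmeticFunction.cardFactors n : ℝ) : ℂ)) = liR := by
      funext n
      unfold liR
      push_cast
      rfl
    rw [e]
    exact sup_liou

open Classical in
theorem digits_f (g : ℕ → ℝ) (hg : Small g) (b : ℕ) (hb : 2 ≤ b) (r : ℕ) (hr : 1 ≤ r) (d : Fin r → ℕ) (hd : ∀ j, 2 ≤ d j) (B T U : ℕ) (hB : 1 ≤ B) :
    ∃ k0 : ℕ, ∀ k : ℕ, k0 ≤ k →
    ∀ D : ℕ → Finset ℕ, (∀ i < k, D i ⊆ range b ∧ 2 ≤ (D i).card) → ∀ f : Fin r → ℤ[X], (∀ j, (f j).natDegree = d j) →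
    (∀ j, ∀ m ∈ SD b D k, |(f j).eval (m : ℤ)| ≤ B * ((b ^ (d j * k) : ℕ) : ℤ)) →
    ∀ w : ℕ → ℝ, (∀ m, |w m| ≤ (k : ℝ) ^ T) →
    (((Fintype.piFinset (fun j => Icc (-((B : ℤ) * ((b ^ (d j * k) : ℕ) : ℤ))) ((B : ℤ) * ((b ^ (d j * k) : ℕ) : ℤ)))).filter
      (fun c : Fin r → ℤ => ∃ M : ℕ, (SD b D k).card / (k : ℝ) ^ U <
      |∑ m ∈ (SD b D k).filter (fun m => m < M), w m * ∏ j, AL g ((f j).eval (m : ℤ) + c j)|)).card : ℝ) ≤
      (∏ j, ((b ^ (d j * k) : ℕ) : ℝ)) / (k : ℝ) ^ U := by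
  choose p C hp hC hE using fun j => Pool.Agent.Run7.h536.poly_energy b hb (d j) (hd j)
  obtain ⟨B0, V0, h0⟩ := gen0f r univ (fun _ => g) (fun _ _ => hg) p B 1 T U hB
  obtain ⟨k0, h1⟩ := h0 B0
  obtain ⟨k1, h2⟩ := pow_lt_two V0
  choose k2 h3 using fun j => log_pow_scale b (d j) hb (hd j)
  choose K1 hK1 using fun j => exists_nat_ge (C j)
  refine ⟨k0 + k1 + ∑ j, k2 j + ∑ j, K1 j + 1, fun k hk D hD f hf hfb w hw => ?_⟩
  have hk2 : ∀ j, k2 j ≤ k := by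
    intro j
    have : k2 j ≤ ∑ j, k2 j := single_le_sum (f := k2) (fun _ _ => Nat.zero_le _) (mem_univ j)
    omega
  have hK1k : ∀ j, C j ≤ k := by
    intro j
    have h4 : K1 j ≤ ∑ j, K1 j := single_le_sum (f := K1) (fun _ _ => Nat.zero_le _) (mem_univ j)
    exact (hK1 j).trans (by exact_mod_cast (by omega : K1 j ≤ k))
  obtain ⟨N, hN⟩ : ∃ N : Fin r → ℕ, ∀ j, N j = b ^ (d j * k) := ⟨_, fun _ => rfl⟩
  simp only [← hN] at hfb ⊢
  have h5 := h1 k (by omega) N (fun j => by rw [hN]; exact (h3 j k (hk2 j)).1) (fun j => by rw [hN]; exact (h3 j k (hk2 j)).2)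
    (SD b D k) ((h2 k (by omega)).trans (SD_large b hb D k hD)) (fun j m => (f j).eval (m : ℤ)) hfb (fun j => by
      have h6 := hE j k D hD (f j) (hf j)
      rw [Fintype.card_coe] at h6
      rw [hN, pow_one]
      refine h6.trans ?_
      exact mul_le_mul_of_nonneg_right (hK1k j) (by positivity)) (k ^ B0) (by push_cast; exact le_rfl) (by push_cast; exact le_rfl)
    ArithmeticFunction.vonMangoldt (fun n => ⟨th_le n, le_rfl⟩) w hw
  refine le_trans (le_of_eq ?_) h5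
  congr 2
  apply filter_congr
  intro c _
  apply exists_congr
  intro M
  have e : ∑ m ∈ (SD b D k).filter (fun m => m < M), w m * ∏ j, AL g ((f j).eval (m : ℤ) + c j) =
      ∑ m ∈ (SD b D k).filter (fun m => m < M), w m *
        (∏ l, MA univ (fun _ => g) ArithmeticFunction.vonMangoldt l ((f l).eval (m : ℤ) + c l) -
          ∏ l, MM (univ : Finset (Fin r)) (k ^ B0) l ((f l).eval (m : ℤ) + c l)) := by
    apply sum_congr rfl
    intro m _
    unfold MA MM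
    simp only [mem_univ, if_true]
    rw [prod_const, card_univ, Fintype.card_fin, zero_pow (by omega), sub_zero]
  rw [e]

open Classical in
theorem digits_f_classes (g : ℕ → ℝ) (hg : Small g) (b : ℕ) (hb : 2 ≤ b) (r : ℕ) (hr : 1 ≤ r) (d : Fin r → ℕ) (hd : ∀ j, 2 ≤ d j)
    (B T U : ℕ) (hB : 1 ≤ B) : ∃ k0 : ℕ, ∀ k : ℕ, k0 ≤ k →
    ∀ D : ℕ → Finset ℕ, (∀ i < k, D i ⊆ range b ∧ 2 ≤ (D i).card) → ∀ f : Fin r → ℤ[X], (∀ j, (f j).natDegree = d j) →
    (∀ j, ∀ m ∈ SD b D k, |(f j).eval (m : ℤ)| ≤ B * ((b ^ (d j * k) : ℕ) : ℤ)) →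
    ∀ w : ℕ → ℝ, (∀ m, |w m| ≤ (k : ℝ) ^ T) →
    (((Fintype.piFinset (fun j => Icc (-((B : ℤ) * ((b ^ (d j * k) : ℕ) : ℤ))) ((B : ℤ) * ((b ^ (d j * k) : ℕ) : ℤ)))).filter
      (fun c : Fin r → ℤ => ∃ q a M : ℕ, 1 ≤ q ∧ q ≤ k ^ T ∧ (SD b D k).card / (k : ℝ) ^ U <
      |∑ m ∈ (SD b D k).filter (fun m => m < M ∧ m ≡ a [MOD q]), w m * ∏ j, AL g ((f j).eval (m : ℤ) + c j)|)).card : ℝ) ≤
      (∏ j, ((b ^ (d j * k) : ℕ) : ℝ)) / (k : ℝ) ^ U := by
  obtain ⟨k0, h0⟩ := digits_f g hg b hb r hr d hd B T (U + (2 * T + 1)) hB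
  refine ⟨k0 + 2, fun k hk D hD f hf hfb w hw => ?_⟩
  have hk1 : (1 : ℝ) ≤ k := by exact_mod_cast (by omega : 1 ≤ k)
  have hkp : (0 : ℝ) < k := by linarith
  obtain ⟨P, hP⟩ : ∃ P : ℝ, P = ∏ j, ((b ^ (d j * k) : ℕ) : ℝ) := ⟨_, rfl⟩
  obtain ⟨X, hX⟩ : ∃ X : Finset (Fin r → ℤ), X = Fintype.piFinset (fun j => Icc (-((B : ℤ) * ((b ^ (d j * k) : ℕ) : ℤ))) ((B : ℤ) * ((b ^ (d j * k) : ℕ) : ℤ))) := ⟨_, rfl⟩
  rw [← hX, ← hP]
  have hone : ∀ q a : ℕ, (((X.filter (fun c : Fin r → ℤ => ∃ M : ℕ, (SD b D k).card / (k : ℝ) ^ (U + (2 * T + 1)) <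
      |∑ m ∈ (SD b D k).filter (fun m => m < M), (if m ≡ a [MOD q] then w m else 0) * ∏ j, AL g ((f j).eval (m : ℤ) + c j)|)).card : ℕ) : ℝ) ≤
      P / (k : ℝ) ^ (U + (2 * T + 1)) := by
    intro q a
    rw [hX, hP]
    exact h0 k (by omega) D hD f hf hfb (fun m => if m ≡ a [MOD q] then w m else 0) (fun m => by
      split_ifs
      · exact hw m
      · rw [abs_zero]; positivity)
  have hsub : X.filter (fun c : Fin r → ℤ => ∃ q a M : ℕ, 1 ≤ q ∧ q ≤ k ^ T ∧ (SD b D k).card / (k : ℝ) ^ U <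
      |∑ m ∈ (SD b D k).filter (fun m => m < M ∧ m ≡ a [MOD q]), w m * ∏ j, AL g ((f j).eval (m : ℤ) + c j)|) ⊆
      ((range (k ^ T + 1) ×ˢ range (k ^ T)).biUnion (fun qa => X.filter (fun c : Fin r → ℤ => ∃ M : ℕ, (SD b D k).card / (k : ℝ) ^ (U + (2 * T + 1)) <
      |∑ m ∈ (SD b D k).filter (fun m => m < M), (if m ≡ qa.2 [MOD qa.1] then w m else 0) * ∏ j, AL g ((f j).eval (m : ℤ) + c j)|))) := by
    intro c hc
    rw [mem_filter] at hc
    obtain ⟨hcX, q, a, M, hq1, hqT, hM⟩ := hc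
    rw [mem_biUnion]
    refine ⟨(q, a % q), ?_, ?_⟩
    · rw [mem_product, mem_range, mem_range]
      have := Nat.mod_lt a (by omega : 0 < q)
      exact ⟨by omega, by omega⟩
    · rw [mem_filter]
      refine ⟨hcX, M, ?_⟩
      have e1 : ∑ m ∈ (SD b D k).filter (fun m => m < M), (if m ≡ a % q [MOD q] then w m else 0) * ∏ j, AL g ((f j).eval (m : ℤ) + c j) =
          ∑ m ∈ (SD b D k).filter (fun m => m < M ∧ m ≡ a [MOD q]), w m * ∏ j, AL g ((f j).eval (m : ℤ) + c j) := by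
        rw [← filter_filter, sum_filter (s := (SD b D k).filter (fun m => m < M)) (p := fun m => m ≡ a [MOD q])]
        apply sum_congr rfl
        intro m _
        have e2 : m ≡ a % q [MOD q] ↔ m ≡ a [MOD q] :=
          ⟨fun h => h.trans (Nat.mod_modEq a q), fun h => h.trans (Nat.mod_modEq a q).symm⟩
        by_cases h : m ≡ a [MOD q]
        · rw [if_pos (e2.2 h), if_pos h]
        · rw [if_neg (fun h' => h (e2.1 h')), if_neg h, zero_mul]
      change (SD b D k).card / (k : ℝ) ^ (U + (2 * T + 1)) < |∑ m ∈ (SD b D k).filter (fun m => m < M), (if m ≡ a % q [MOD q] then w m else 0) * ∏ j, AL g ((f j).eval (m : ℤ) + c j)|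
      rw [e1]
      refine lt_of_le_of_lt ?_ hM
      apply div_le_div_of_nonneg_left (Nat.cast_nonneg _) (by positivity)
      exact pow_le_pow_right₀ hk1 (by omega)
  have hcardT : (((range (k ^ T + 1) ×ˢ range (k ^ T)).card : ℕ) : ℝ) ≤ 2 * (k : ℝ) ^ (2 * T) := by
    rw [card_product, card_range, card_range]
    push_cast
    have h6 : (1 : ℝ) ≤ (k : ℝ) ^ T := one_le_pow₀ hk1
    rw [two_mul T, pow_add]
    nlinarith
  -- one saves one more factor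
  calc ((X.filter (fun c : Fin r → ℤ => ∃ q a M : ℕ, 1 ≤ q ∧ q ≤ k ^ T ∧ (SD b D k).card / (k : ℝ) ^ U <
      |∑ m ∈ (SD b D k).filter (fun m => m < M ∧ m ≡ a [MOD q]), w m * ∏ j, AL g ((f j).eval (m : ℤ) + c j)|)).card : ℝ) ≤
      ∑ qa ∈ (range (k ^ T + 1) ×ˢ range (k ^ T)), (((X.filter (fun c : Fin r → ℤ => ∃ M : ℕ, (SD b D k).card / (k : ℝ) ^ (U + (2 * T + 1)) <
      |∑ m ∈ (SD b D k).filter (fun m => m < M), (if m ≡ qa.2 [MOD qa.1] then w m else 0) * ∏ j, AL g ((f j).eval (m : ℤ) + c j)|)).card : ℕ) : ℝ) := by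
        exact_mod_cast (card_le_card hsub).trans card_biUnion_le
    _ ≤ ∑ _qa ∈ (range (k ^ T + 1) ×ˢ range (k ^ T)), P / (k : ℝ) ^ (U + (2 * T + 1)) := sum_le_sum fun qa _ => hone qa.1 qa.2
    _ = ((range (k ^ T + 1) ×ˢ range (k ^ T)).card : ℕ) * (P / (k : ℝ) ^ (U + (2 * T + 1))) := by rw [sum_const, nsmul_eq_mul]
    _ ≤ P / (k : ℝ) ^ U := by
        have hP0 : 0 ≤ P := by rw [hP]; positivity
        have hk2 : (2 : ℝ) ≤ k := by exact_mod_cast (by omega : 2 ≤ k)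
        refine (mul_le_mul_of_nonneg_right hcardT (by positivity)).trans ?_
        have e5 : 2 * (k : ℝ) ^ (2 * T) * (P / (k : ℝ) ^ (U + (2 * T + 1))) = P / (k : ℝ) ^ U * (2 / k) := by
          rw [pow_add (k : ℝ) U, pow_succ (k : ℝ) (2 * T)]
          field_simp
        rw [e5]
        refine (mul_le_mul_of_nonneg_left ?_ (by positivity)).trans (le_of_eq (mul_one _))
        rw [div_le_one hkp]
        exact hk2

end Pool.Agent.Run7.h536.RD
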