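import Pool.Agent.TH872.Sq.W3

set_option autoImplicit false

/-! The Weyl inequality for polynomials of any degree at integers with independent random digits. -/

namespace Pool.Agent.Run7.h536
open Finset Polynomial
open Pool.Agent.H807R2.Dav
open Pool.Agent.TH872.Sq

/-- `(e + 2) (e + 1) / 2` -/
def tr : ℕ → ℕ
  | 0 => 1
  | e + 1 => tr e + (e + 2)

lemma two_tr (e : ℕ) : 2 * tr e = (e + 2) * (e + 1) := by
  induction e with
  | zero => rfl
  | succ e ih => rw [tr, mul_add, ih]; ring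

/-- the difference of a polynomial -/
noncomputable def dif (R : ℝ[X]) (c c' a : ℝ) : ℝ[X] := (taylor c R - taylor c' R).comp (C a * X)

lemma dif_eval (R : ℝ[X]) (c c' a v : ℝ) : (dif R c c' a).eval v = R.eval (c + a * v) - R.eval (c' + a * v) := by
  unfold dif
  rw [eval_comp, eval_sub, taylor_eval, taylor_eval, eval_mul, eval_C, eval_X, add_comm c, add_comm c']

lemma taylor_top (R : ℝ[X]) (c : ℝ) (d : ℕ) (hR : R.natDegree ≤ d) : (taylor c R).coeff d = R.coeff d := by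
  rw [taylor_coeff]
  have h1 : (hasseDeriv d R).natDegree < 1 := by
    have := natDegree_hasseDeriv_le R d
    omega
  rw [eval_eq_sum_range' h1, sum_range_one, hasseDeriv_coeff]
  simp

lemma taylor_sub (R : ℝ[X]) (c : ℝ) (d : ℕ) (hR : R.natDegree ≤ d + 1) :
    (taylor c R).coeff d = R.coeff d + (d + 1) * R.coeff (d + 1) * c := by
  rw [taylor_coeff]
  have h1 : (hasseDeriv d R).natDegree < 2 := by
    have := natDegree_hasseDeriv_le R d
    omega
  rw [eval_eq_sum_range' h1, sum_range_succ, sum_range_one, hasseDeriv_coeff, hasseDeriv_coeff]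
  rw [add_comm 1 d, Nat.choose_succ_self_right]
  simp

lemma dif_deg (R : ℝ[X]) (c c' a : ℝ) (d : ℕ) (hR : R.natDegree ≤ d + 1) : (dif R c c' a).natDegree ≤ d := by
  unfold dif
  have h1 : (taylor c R - taylor c' R).natDegree ≤ d := by
    rw [natDegree_le_iff_coeff_eq_zero]
    intro N hN
    rw [coeff_sub]
    rcases Nat.lt_or_ge (d + 1) N with h | h
    · rw [coeff_eq_zero_of_natDegree_lt, coeff_eq_zero_of_natDegree_lt, sub_zero]
      · rw [natDegree_taylor]; omega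
      · rw [natDegree_taylor]; omega
    · have : N = d + 1 := by omega
      rw [this, taylor_top R c _ hR, taylor_top R c' _ hR, sub_self]
  refine natDegree_comp_le.trans ?_
  calc (taylor c R - taylor c' R).natDegree * (C a * X).natDegree ≤ d * 1 :=
        Nat.mul_le_mul h1 ((natDegree_C_mul_le a X).trans natDegree_X_le)
    _ = d := mul_one d

lemma dif_coeff (R : ℝ[X]) (c c' a : ℝ) (d : ℕ) (hR : R.natDegree ≤ d + 1) :
    (dif R c c' a).coeff d = (d + 1) * R.coeff (d + 1) * (c - c') * a ^ d := by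
  unfold dif
  rw [comp_C_mul_X_coeff, coeff_sub, taylor_sub R c d hR, taylor_sub R c' d hR]
  ring

lemma nn_neg (x : ℝ) : nn (-x) = nn x := by
  have h : ∀ y : ℝ, nn (-y) ≤ nn y := by
    intro y
    refine (nn_le _ (-(round y))).trans (le_of_eq ?_)
    unfold nn
    rw [← abs_neg]
    congr 1
    push_cast
    ring
  apply le_antisymm (h x)
  have := h (-x)
  rwa [neg_neg] at this

/-- Weyl differencing over a block of digits -/
lemma differ {b : ℕ} (hb : 0 < b) {η : ℝ} {w : ℕ → ℕ → ℝ} (hw : Dig b η w) (i L i' m : ℕ) (F : ℕ → ℕ → ℝ) :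
    ‖∑ u ∈ range (b ^ L), ((P b w i L u : ℝ) : ℂ) * ∑ v ∈ range (b ^ m), ((P b w i' m v : ℝ) : ℂ) * ee (F u v)‖ ^ 2 ≤
      ∑ u' ∈ range (b ^ L), P b w i L u' * ∑ u ∈ range (b ^ L), P b w i L u *
        ‖∑ v ∈ range (b ^ m), ((P b w i' m v : ℝ) : ℂ) * ee (F u v - F u' v)‖ := by
  have hPi := P_nonneg hw i L
  have hPj := P_nonneg hw i' m
  have e1 : ∑ u ∈ range (b ^ L), ((P b w i L u : ℝ) : ℂ) * ∑ v ∈ range (b ^ m), ((P b w i' m v : ℝ) : ℂ) * ee (F u v) =
      ∑ v ∈ range (b ^ m), ((P b w i' m v : ℝ) : ℂ) * ∑ u ∈ range (b ^ L), ((P b w i L u : ℝ) : ℂ) * ee (F u v) := by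
    simp only [mul_sum]
    rw [sum_comm]
    apply sum_congr rfl
    intro v _
    apply sum_congr rfl
    intro u _
    ring
  have e2 : ‖∑ v ∈ range (b ^ m), ((P b w i' m v : ℝ) : ℂ) * ∑ u ∈ range (b ^ L), ((P b w i L u : ℝ) : ℂ) * ee (F u v)‖ ≤
      ∑ v ∈ range (b ^ m), P b w i' m v * ‖∑ u ∈ range (b ^ L), ((P b w i L u : ℝ) : ℂ) * ee (F u v)‖ := by
    refine (norm_sum_le _ _).trans (le_of_eq ?_)
    apply sum_congr rfl
    intro v _
    rw [norm_mul, Complex.norm_real, Real.norm_of_nonneg (hPj v)]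
  have e3 : (∑ v ∈ range (b ^ m), P b w i' m v * ‖∑ u ∈ range (b ^ L), ((P b w i L u : ℝ) : ℂ) * ee (F u v)‖) ^ 2 ≤
      ∑ v ∈ range (b ^ m), P b w i' m v * ‖∑ u ∈ range (b ^ L), ((P b w i L u : ℝ) : ℂ) * ee (F u v)‖ ^ 2 :=
    Real.pow_arith_mean_le_arith_mean_pow _ _ _ (fun v _ => hPj v) (P_sum hb hw i' m) (fun v _ => norm_nonneg _) 2
  have e4 : ((∑ v ∈ range (b ^ m), P b w i' m v * ‖∑ u ∈ range (b ^ L), ((P b w i L u : ℝ) : ℂ) * ee (F u v)‖ ^ 2 : ℝ) : ℂ) =
      ∑ u' ∈ range (b ^ L), ∑ u ∈ range (b ^ L), ((P b w i L u' : ℝ) : ℂ) * ((P b w i L u : ℝ) : ℂ) *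
        ∑ v ∈ range (b ^ m), ((P b w i' m v : ℝ) : ℂ) * ee (F u v - F u' v) := by
    push_cast
    have f1 : ∀ v : ℕ, ((‖∑ u ∈ range (b ^ L), ((P b w i L u : ℝ) : ℂ) * ee (F u v)‖ : ℂ)) ^ 2 =
        ∑ u' ∈ range (b ^ L), ∑ u ∈ range (b ^ L), ((P b w i L u' : ℝ) : ℂ) * ((P b w i L u : ℝ) : ℂ) * ee (F u v - F u' v) := by
      intro v
      rw [← Complex.mul_conj', map_sum, sum_mul_sum, sum_comm]
      apply sum_congr rfl
      intro u' _
      apply sum_congr rfl
      intro u _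
      rw [map_mul, Complex.conj_ofReal, Pool.Agent.H373R2.T7.conj_ee, sub_eq_add_neg, ee_add]
      ring
    simp only [f1, mul_sum]
    rw [sum_comm]
    apply sum_congr rfl
    intro u' _
    rw [sum_comm]
    apply sum_congr rfl
    intro u _
    apply sum_congr rfl
    intro v _
    ring
  have hnn : 0 ≤ ∑ v ∈ range (b ^ m), P b w i' m v * ‖∑ u ∈ range (b ^ L), ((P b w i L u : ℝ) : ℂ) * ee (F u v)‖ ^ 2 :=
    sum_nonneg fun v _ => mul_nonneg (hPj v) (sq_nonneg _)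
  rw [e1]
  refine (pow_le_pow_left₀ (norm_nonneg _) e2 2).trans (e3.trans ?_)
  rw [← Real.norm_of_nonneg hnn, ← Complex.norm_real, e4]
  refine (norm_sum_le _ _).trans ?_
  apply sum_le_sum
  intro u' _
  refine (norm_sum_le _ _).trans (le_of_eq ?_)
  rw [mul_sum]
  apply sum_congr rfl
  intro u _
  rw [norm_mul, norm_mul, Complex.norm_real, Complex.norm_real, Real.norm_of_nonneg (hPi u),
    Real.norm_of_nonneg (hPi u')]
  ring

/-- Weyl differencing, with powers -/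
lemma differ_pow {b : ℕ} (hb : 0 < b) {η : ℝ} {w : ℕ → ℕ → ℝ} (hw : Dig b η w) (i L i' m n : ℕ) (F : ℕ → ℕ → ℝ) (T : ℝ) (hT : 0 ≤ T)
    (h : ∀ u u' : ℕ, u < b ^ L → u' < b ^ L → u ≠ u' → ‖∑ v ∈ range (b ^ m), ((P b w i' m v : ℝ) : ℂ) * ee (F u v - F u' v)‖ ^ n ≤ T) :
    ‖∑ u ∈ range (b ^ L), ((P b w i L u : ℝ) : ℂ) * ∑ v ∈ range (b ^ m), ((P b w i' m v : ℝ) : ℂ) * ee (F u v)‖ ^ (2 * n) ≤ (1 - η) ^ L + T := by
  have hPi := P_nonneg hw i L
  obtain ⟨X, hX⟩ : ∃ X : ℕ → ℕ → ℝ, ∀ u u', X u u' = ‖∑ v ∈ range (b ^ m), ((P b w i' m v : ℝ) : ℂ) * ee (F u v - F u' v)‖ := ⟨_, fun _ _ => rfl⟩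
  have hX0 : ∀ u u', 0 ≤ X u u' := fun u u' => by rw [hX]; exact norm_nonneg _
  have hX1 : ∀ u u', X u u' ≤ 1 := fun u u' => by
    rw [hX]
    exact norm_avg hb hw i' m _ 1 (fun v => by rw [norm_ee])
  have hXT : ∀ u u' : ℕ, u < b ^ L → u' < b ^ L → u ≠ u' → X u u' ^ n ≤ T := fun u u' h1 h2 h3 => by
    rw [hX]; exact h u u' h1 h2 h3
  have h1 := differ hb hw i L i' m F
  simp only [← hX] at h1
  rw [pow_mul]
  refine (pow_le_pow_left₀ (sq_nonneg _) h1 n).trans ?_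
  refine (Real.pow_arith_mean_le_arith_mean_pow _ _ _ (fun u _ => hPi u) (P_sum hb hw i L) (fun u _ =>
    sum_nonneg fun v _ => mul_nonneg (hPi v) (hX0 _ _)) n).trans ?_
  have h2 : ∀ u' ∈ range (b ^ L), (∑ u ∈ range (b ^ L), P b w i L u * X u u') ^ n ≤ (1 - η) ^ L + T := by
    intro u' hu'
    refine (Real.pow_arith_mean_le_arith_mean_pow _ _ _ (fun u _ => hPi u) (P_sum hb hw i L) (fun u _ => hX0 _ _) n).trans ?_
    rw [← add_sum_erase _ _ hu']
    apply add_le_add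
    · calc P b w i L u' * X u' u' ^ n ≤ P b w i L u' * 1 :=
            mul_le_mul_of_nonneg_left (pow_le_one₀ (hX0 _ _) (hX1 _ _)) (hPi _)
        _ = P b w i L u' := mul_one _
        _ ≤ _ := P_le hw i L u'
    · calc ∑ u ∈ (range (b ^ L)).erase u', P b w i L u * X u u' ^ n ≤ ∑ u ∈ (range (b ^ L)).erase u', P b w i L u * T := by
            apply sum_le_sum
            intro u hu
            rw [mem_erase, mem_range] at hu
            exact mul_le_mul_of_nonneg_left (hXT u u' hu.2 (mem_range.1 hu') hu.1) (hPi u)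
        _ ≤ ∑ u ∈ range (b ^ L), P b w i L u * T :=
            sum_le_sum_of_subset_of_nonneg (erase_subset _ _) (fun u _ _ => mul_nonneg (hPi u) hT)
        _ = T := by rw [← sum_mul, P_sum hb hw i L, one_mul]
  calc ∑ u' ∈ range (b ^ L), P b w i L u' * (∑ u ∈ range (b ^ L), P b w i L u * X u u') ^ n ≤
      ∑ u' ∈ range (b ^ L), P b w i L u' * ((1 - η) ^ L + T) := sum_le_sum fun u' hu' => mul_le_mul_of_nonneg_left (h2 u' hu') (hPi u')
    _ = _ := by rw [← sum_mul, P_sum hb hw i L, one_mul]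

lemma norm_avg_pow {b : ℕ} (hb : 0 < b) {η : ℝ} {w : ℕ → ℕ → ℝ} (hw : Dig b η w) (i m N : ℕ) (f : ℕ → ℂ) (C : ℝ)
    (h : ∀ n, ‖f n‖ ^ N ≤ C) : ‖∑ n ∈ range (b ^ m), ((P b w i m n : ℝ) : ℂ) * f n‖ ^ N ≤ C := by
  have hP := P_nonneg hw i m
  have h1 : ‖∑ n ∈ range (b ^ m), ((P b w i m n : ℝ) : ℂ) * f n‖ ≤ ∑ n ∈ range (b ^ m), P b w i m n * ‖f n‖ := by
    refine (norm_sum_le _ _).trans (le_of_eq ?_)
    apply sum_congr rfl
    intro n _
    rw [norm_mul, Complex.norm_real, Real.norm_of_nonneg (hP n)]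
  refine (pow_le_pow_left₀ (norm_nonneg _) h1 N).trans ?_
  refine (Real.pow_arith_mean_le_arith_mean_pow _ _ _ (fun u _ => hP u) (P_sum hb hw i m) (fun u _ => norm_nonneg _) N).trans ?_
  calc ∑ n ∈ range (b ^ m), P b w i m n * ‖f n‖ ^ N ≤ ∑ n ∈ range (b ^ m), P b w i m n * C :=
        sum_le_sum fun n _ => mul_le_mul_of_nonneg_left (h n) (hP n)
    _ = _ := by rw [← sum_mul, P_sum hb hw i m, one_mul]

/-- **The Weyl inequality** for polynomials of degree `e + 2` -/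
theorem poly_gap {b : ℕ} (hb : 2 ≤ b) {η : ℝ} (hη : 0 < η) {w : ℕ → ℕ → ℝ} (hw : Dig b η w) (L J s : ℕ) (hs : 1 ≤ s) (S : ℝ)
    (hS : (1 - η) ^ L * (1 + 2 * b * (g0 b η) ^ s) ^ J ≤ S) (e : ℕ) : ∀ k l : ℕ, J + (e + 1) * L ≤ k → tr e * L ≤ l →
    l + (e + 2) * J + tr e * L ≤ (e + 2) * k → ∀ (i : ℕ) (R : ℝ[X]), R.natDegree ≤ e + 2 →
    (∀ g : ℕ, 0 < g → g < b ^ ((e + 1) * L) → 1 / (b : ℝ) ^ J < nn (b.factorial * ((e + 2).factorial * R.coeff (e + 2) * (b : ℝ) ^ l) * g)) →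
    ‖∑ n ∈ range (b ^ k), ((P b w i k n : ℝ) : ℂ) * ee (R.eval (n : ℝ))‖ ^ (2 ^ (e + 1) * s) ≤ (e + 1) * S := by
  have hb0 : 0 < b := by omega
  have hη1 := eta_le hw
  obtain ⟨hg0, hg1⟩ := g0_bounds b hb η hη hη1
  have hS2 : (1 - η) ^ L ≤ S := by
    refine le_trans ?_ hS
    apply le_mul_of_one_le_right (pow_nonneg (by linarith) _)
    apply one_le_pow₀
    have : 0 ≤ 2 * b * (g0 b η) ^ s := by have := pow_nonneg hg0 s; positivity
    linarith
  have hS0 : 0 ≤ S := (pow_nonneg (by linarith) _).trans hS2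
  induction e with
  | zero =>
    intro k l h1 h2 h3 i R hR hx
    rw [tr] at h2 h3
    obtain ⟨j0, hj0⟩ : ∃ j0, j0 = min l (k - J) := ⟨_, rfl⟩
    obtain ⟨r, hr⟩ : ∃ r, r = l - j0 := ⟨_, rfl⟩
    obtain ⟨m₁, hm₁⟩ : ∃ m₁, m₁ = j0 - r - L := ⟨_, rfl⟩
    obtain ⟨m₂, hm₂⟩ : ∃ m₂, m₂ = k - J - j0 := ⟨_, rfl⟩
    have hk2 : r + (L + (m₁ + (J + m₂))) = k := by omega
    have hl3 : r + (r + (L + m₁)) = l := by omega
    have hroot : (S ^ ((((2 * s : ℕ) : ℝ))⁻¹)) ^ (2 * s) = S :=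
      Real.rpow_inv_natCast_pow hS0 (by omega)
    have hmain := blocks hb hη hw i r L m₁ J m₂ s (by omega) (R.coeff 2) (R.coeff 1) (S ^ ((((2 * s : ℕ) : ℝ))⁻¹))
      (Real.rpow_nonneg hS0 _) (by
      rw [hroot]
      exact hS) (by
      intro g hg0 hgL
      have h1 := hx g hg0 (by rw [zero_add, one_mul]; exact hgL)
      rw [hl3]
      refine lt_of_lt_of_eq h1 ?_
      congr 1)
    rw [hk2] at hmain
    have e1 : ∀ n : ℕ, R.eval (n : ℝ) = (R.coeff 2 * (n : ℝ) ^ 2 + R.coeff 1 * n) + R.coeff 0 := by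
      intro n
      rw [eval_eq_sum_range' (show R.natDegree < 3 by omega), sum_range_succ, sum_range_succ, sum_range_one]
      ring
    have e2 : ∑ n ∈ range (b ^ k), ((P b w i k n : ℝ) : ℂ) * ee (R.eval (n : ℝ)) =
        ee (R.coeff 0) * ∑ n ∈ range (b ^ k), ((P b w i k n : ℝ) : ℂ) * ee (R.coeff 2 * (n : ℝ) ^ 2 + R.coeff 1 * n) := by
      rw [mul_sum]
      apply sum_congr rfl
      intro n _
      rw [e1 n, ee_add]
      ring
    rw [e2, norm_mul, norm_ee, one_mul, zero_add, pow_one, Nat.cast_zero, zero_add, one_mul]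
    exact (pow_le_pow_left₀ (norm_nonneg _) hmain (2 * s)).trans (le_of_eq hroot)
  | succ e ih =>
    intro k l h1 h2 h3 i R hR hx
    have htr := two_tr e
    rw [tr] at h2 h3
    -- the position of the new block
    obtain ⟨A, hA⟩ : ∃ A, A = (e + 2) * k - (e + 2) * J - tr e * L := ⟨_, rfl⟩
    obtain ⟨r, hr⟩ : ∃ r, r = l - A := ⟨_, rfl⟩
    obtain ⟨k', hk'⟩ : ∃ k', k' = k - r - L := ⟨_, rfl⟩
    obtain ⟨l', hl'⟩ : ∃ l', l' = l - r - (r + L) * (e + 2) := ⟨_, rfl⟩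
    have q1 : (e + 1 + 1) * L = (e + 2) * L := by ring
    have q2 : (e + 1 + 2) * J = (e + 2) * J + J := by ring
    have q3 : (e + 1 + 2) * k = (e + 2) * k + k := by ring
    have q4 : (tr e + (e + 2)) * L = tr e * L + (e + 2) * L := by ring
    have q5 : (e + 2) * J + (e + 2) * ((e + 2) * L) ≤ (e + 2) * k := by
      rw [← mul_add]
      apply Nat.mul_le_mul_left
      rw [← q1]
      exact h1
    have q6 : 2 * (tr e * L) + (e + 2) * L = (e + 2) * ((e + 2) * L) := by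
      rw [← mul_assoc, htr]
      ring
    have q7 : (e + 1) * L + L = (e + 2) * L := by ring
    have q8 : (r + L) * (e + 2) = (e + 2) * r + (e + 2) * L := by ring
    rw [q1] at h1
    rw [q2, q3, q4] at h3
    rw [q4] at h2
    have hrk : r + (J + (e + 2) * L) ≤ k := by omega
    have hAr : (e + 2) * r + (e + 2) * L + tr e * L ≤ A ∨ r = 0 := by
      left
      have q9 : (e + 2) * r + (e + 2) * J + (e + 2) * ((e + 2) * L) ≤ (e + 2) * k := by
        calc (e + 2) * r + (e + 2) * J + (e + 2) * ((e + 2) * L) = (e + 2) * (r + (J + (e + 2) * L)) := by ring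
          _ ≤ _ := Nat.mul_le_mul_left _ hrk
      omega
    have hkk : r + (L + k') = k := by omega
    have hll : r + ((r + L) * (e + 2) + l') = l := by
      rw [hl', q8]
      rcases Nat.eq_zero_or_pos r with h | h
      · rw [h, mul_zero]
        omega
      · rcases hAr with h' | h' <;> omega
    have c1 : J + (e + 1) * L ≤ k' := by omega
    have c2 : tr e * L ≤ l' := by
      rw [q8] at hll
      rcases Nat.eq_zero_or_pos r with h | h
      · rw [h, mul_zero] at hll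
        omega
      · rcases hAr with h' | h' <;> omega
    have c3 : l' + (e + 2) * J + tr e * L ≤ (e + 2) * k' := by
      rw [q8] at hll
      have q9 : (e + 2) * r + ((e + 2) * L + (e + 2) * k') = (e + 2) * k := by
        rw [← hkk]
        ring
      omega
    -- condition on the lower digits
    rw [← hkk, ex_split b hb0 w i r (L + k') (fun n => ee (R.eval (n : ℝ)))]
    apply norm_avg_pow hb0 hw
    intro x0
    rw [ex_split b hb0 w (i + r) L k' (fun y => ee (R.eval ((x0 + b ^ r * y : ℕ) : ℝ)))]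
    have hpow : 2 ^ (e + 1 + 1) * s = 2 * (2 ^ (e + 1) * s) := by ring
    rw [hpow]
    have hT : (0 : ℝ) ≤ (e + 1) * S := by positivity
    refine (differ_pow hb0 hw (i + r) L (i + r + L) k' (2 ^ (e + 1) * s) (fun u v => R.eval ((x0 + b ^ r * (u + b ^ L * v) : ℕ) : ℝ))
      ((e + 1) * S) hT ?_).trans ?_
    · intro u u' hu hu' hne
      obtain ⟨R', hR'⟩ : ∃ R', R' = dif R (x0 + (b : ℝ) ^ r * u) (x0 + (b : ℝ) ^ r * u') ((b : ℝ) ^ (r + L)) := ⟨_, rfl⟩
      have hd := dif_deg R (x0 + (b : ℝ) ^ r * u) (x0 + (b : ℝ) ^ r * u') ((b : ℝ) ^ (r + L)) (e + 2) (by omega)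
      have hc := dif_coeff R (x0 + (b : ℝ) ^ r * u) (x0 + (b : ℝ) ^ r * u') ((b : ℝ) ^ (r + L)) (e + 2) (by omega)
      rw [← hR'] at hd hc
      have hi := ih k' l' c1 c2 c3 (i + r + L) R' hd ?_
      · refine le_trans (le_of_eq ?_) hi
        congr 2
        apply sum_congr rfl
        intro v _
        congr 2
        rw [hR', dif_eval]
        push_cast
        congr 1 <;> congr 1 <;> ring
      · intro g hg hg2
        have key : ∀ g' : ℕ, 0 < g' → g' < b ^ L → 1 / (b : ℝ) ^ J < nn (b.factorial * ((e + 1 + 2).factorial * R.coeff (e + 1 + 2) * (b : ℝ) ^ l) *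
            ((g' * g : ℕ) : ℝ)) := by
          intro g' hg' hg'2
          apply hx (g' * g) (Nat.mul_pos hg' hg)
          calc g' * g < b ^ L * b ^ ((e + 1) * L) := Nat.mul_lt_mul'' hg'2 hg2
            _ = _ := by rw [← pow_add]; congr 1; ring
        have hfac : (((e + 1 + 2).factorial : ℕ) : ℝ) = ((e + 2 : ℕ) + 1 : ℝ) * ((e + 2).factorial : ℝ) := by
          rw [show e + 1 + 2 = (e + 2) + 1 by ring, Nat.factorial_succ]
          push_cast
          ring
        have hbl : (b : ℝ) ^ l = (b : ℝ) ^ r * ((b : ℝ) ^ (r + L)) ^ (e + 2) * (b : ℝ) ^ l' := by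
          rw [← pow_mul, ← pow_add, ← pow_add]
          congr 1
          rw [← hll]
          ring
        rcases lt_or_gt_of_ne hne with h | h
        · have h4 := key (u' - u) (by omega) (by omega)
          rw [← nn_neg]
          refine lt_of_lt_of_eq h4 ?_
          congr 1
          rw [hc, hfac, hbl, Nat.cast_mul, Nat.cast_sub h.le, show e + 1 + 2 = e + 2 + 1 by ring]
          push_cast
          ring
        · have h4 := key (u - u') (by omega) (by omega)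
          refine lt_of_lt_of_eq h4 ?_
          congr 1
          rw [hc, hfac, hbl, Nat.cast_mul, Nat.cast_sub h.le, show e + 1 + 2 = e + 2 + 1 by ring]
          push_cast
          ring
    · push_cast
      linarith

end Pool.Agent.Run7.h536
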