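import Pool.Agent.Run7.h536.PW1
import Pool.Agent.TH872.Sq.W4

set_option autoImplicit false

/-! The Weyl inequality at a given scale, and moments, for polynomials of any degree at integers with independent random
digits. -/

namespace Pool.Agent.Run7.h536
open Finset Polynomial
open Pool.Agent.H807R2.Dav
open Pool.Agent.TH872.Sq

lemma pick_s (b m : ℕ) (γ : ℝ) (h0 : 0 ≤ γ) (h1 : γ < 1) (η : ℝ) (hη : 0 < η) :
    ∃ s : ℕ, 1 ≤ s ∧ (1 + 2 * b * γ ^ s) ^ m ≤ 1 + η / 2 := by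
  have t1 : Filter.Tendsto (fun s : ℕ => (1 + 2 * (b : ℝ) * γ ^ s) ^ m) Filter.atTop (nhds ((1 + 2 * (b : ℝ) * 0) ^ m)) := by
    apply Filter.Tendsto.pow
    apply Filter.Tendsto.const_add
    apply Filter.Tendsto.const_mul
    exact tendsto_pow_atTop_nhds_zero_of_lt_one h0 h1
  have t2 : ((1 + 2 * (b : ℝ) * 0) ^ m) < 1 + η / 2 := by
    rw [mul_zero, add_zero, one_pow]
    linarith
  obtain ⟨s, hs⟩ := ((t1.eventually_lt_const t2).and (Filter.eventually_ge_atTop 1)).exists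
  exact ⟨s, hs.2, hs.1.le⟩

/-- **The Weyl inequality** for polynomials of degree `e + 2` at integers with independent random digits, at the scale `L` -/
theorem poly_weyl (b : ℕ) (hb : 2 ≤ b) (η : ℝ) (hη : 0 < η) (hη1 : η ≤ 1) (e : ℕ) : ∃ s c : ℕ, 1 ≤ s ∧ 1 ≤ c ∧ ∀ k L : ℕ, 1 ≤ L →
    c * L ≤ k → ∀ (w : ℕ → ℕ → ℝ), Dig b η w → ∀ (i : ℕ) (R : ℝ[X]), R.natDegree ≤ e + 2 →
    ‖∑ n ∈ range (b ^ k), ((P b w i k n : ℝ) : ℂ) * ee (R.eval (n : ℝ))‖ ^ (2 * s) ≤ (e + 1) * (1 - η / 2) ^ L ∨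
    ∃ Q : ℕ, ∃ a : ℤ, 1 ≤ Q ∧ Q ≤ (b.factorial * (e + 2).factorial) * b ^ (c * L) ∧
      |R.coeff (e + 2) - a / Q| * (b : ℝ) ^ ((e + 2) * k) ≤ (b : ℝ) ^ (c * L) := by
  have hb2 : (2 : ℝ) ≤ b := by exact_mod_cast hb
  have hb1 : (1 : ℝ) ≤ b := by linarith
  have hb0 : (0 : ℝ) < b := by linarith
  obtain ⟨hg0, hg1⟩ := g0_bounds b hb η hη hη1
  obtain ⟨s, hs1, hs⟩ := pick_s b (2 * e + 4) (g0 b η) hg0 hg1 η hη
  refine ⟨2 ^ e * s, (e + 2) * (2 * e + 4) + 2 * tr e + (e + 1), Nat.mul_pos (by positivity) hs1, by omega,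
    fun k L hL1 hLk w hw i R hR => ?_⟩
  obtain ⟨c, hc⟩ : ∃ c, c = (e + 2) * (2 * e + 4) + 2 * tr e + (e + 1) := ⟨_, rfl⟩
  rw [← hc] at hLk ⊢
  obtain ⟨J, hJ⟩ : ∃ J, J = (2 * e + 4) * L := ⟨_, rfl⟩
  have q1 : c * L = (e + 2) * J + 2 * (tr e * L) + (e + 1) * L := by rw [hc, hJ]; ring
  have q2 : 2 * ((e + 1) * L) + 2 ≤ J := by rw [hJ]; nlinarith
  have q3 : k ≤ (e + 2) * k := Nat.le_mul_of_pos_left _ (by omega)
  have q4 : (e + 2) * J = (e + 1) * J + J := by ring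
  have hS : (1 - η) ^ L * (1 + 2 * b * (g0 b η) ^ s) ^ J ≤ (1 - η / 2) ^ L := by
    rw [hJ, pow_mul, ← mul_pow]
    have h0 : 0 ≤ (1 + 2 * b * (g0 b η) ^ s) ^ (2 * e + 4) := by
      have := pow_nonneg hg0 s
      positivity
    apply pow_le_pow_left₀ (mul_nonneg (by linarith) h0)
    calc (1 - η) * (1 + 2 * b * (g0 b η) ^ s) ^ (2 * e + 4) ≤ (1 - η) * (1 + η / 2) :=
          mul_le_mul_of_nonneg_left hs (by linarith)
      _ ≤ 1 - η / 2 := by nlinarith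
  obtain ⟨f, hf⟩ : ∃ f : ℕ, f = b.factorial * (e + 2).factorial := ⟨_, rfl⟩
  have hf1 : 1 ≤ f := by rw [hf]; exact Nat.mul_pos b.factorial_pos (e + 2).factorial_pos
  have hfr : (1 : ℝ) ≤ f := by exact_mod_cast hf1
  have hf2 : (f : ℝ) = b.factorial * (e + 2).factorial := by rw [hf]; push_cast; ring
  rw [← hf]
  obtain ⟨l1, hl1⟩ : ∃ l1, l1 = (e + 2) * k - (e + 2) * J - tr e * L := ⟨_, rfl⟩
  by_cases hcase : ∀ l, tr e * L ≤ l → l ≤ l1 → ∃ g : ℕ, 0 < g ∧ g < b ^ ((e + 1) * L) ∧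
      nn ((f * R.coeff (e + 2)) * (b : ℝ) ^ l * g) ≤ 1 / (b : ℝ) ^ J
  · right
    obtain ⟨Q, a, hQ1, hQ2, hQ3⟩ := dichotomy b ((e + 1) * L) J hb q2 (tr e * L) l1 (by omega) _ hcase
    refine ⟨f * Q, a, Nat.mul_pos hf1 hQ1, ?_, ?_⟩
    · apply Nat.mul_le_mul_left
      exact hQ2.trans (Nat.pow_le_pow_right (by omega) (by omega))
    · have h1 : |R.coeff (e + 2) - a / ((f * Q : ℕ) : ℝ)| ≤ |f * R.coeff (e + 2) - a / Q| := by
        have hQr : (0 : ℝ) < Q := by exact_mod_cast hQ1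
        have h2 : f * R.coeff (e + 2) - a / Q = f * (R.coeff (e + 2) - a / ((f * Q : ℕ) : ℝ)) := by
          push_cast
          field_simp
        rw [h2, abs_mul, abs_of_pos (by linarith : (0 : ℝ) < f)]
        have := abs_nonneg (R.coeff (e + 2) - a / ((f * Q : ℕ) : ℝ))
        nlinarith
      have h3 : |f * R.coeff (e + 2) - a / Q| * (b : ℝ) ^ ((e + 2) * k) ≤ (b : ℝ) ^ (c * L) := by
        have h4 : (b : ℝ) ^ ((e + 2) * k) = (b : ℝ) ^ (J + l1) * (b : ℝ) ^ ((e + 1) * J + tr e * L) := by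
          rw [← pow_add]
          congr 1
          omega
        rw [h4, ← mul_assoc]
        calc |f * R.coeff (e + 2) - a / Q| * (b : ℝ) ^ (J + l1) * (b : ℝ) ^ ((e + 1) * J + tr e * L) ≤
            (b : ℝ) ^ ((e + 1) * L) * (b : ℝ) ^ ((e + 1) * J + tr e * L) := mul_le_mul_of_nonneg_right hQ3 (by positivity)
          _ = (b : ℝ) ^ ((e + 1) * L + ((e + 1) * J + tr e * L)) := by rw [← pow_add]
          _ ≤ _ := pow_le_pow_right₀ hb1 (by omega)
      exact (mul_le_mul_of_nonneg_right h1 (by positivity)).trans h3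
  · left
    push Not at hcase
    obtain ⟨l, hl2, hl3, hl⟩ := hcase
    have hmain := poly_gap hb hη hw L J s hs1 ((1 - η / 2) ^ L) hS e k l (by omega) hl2 (by omega) i R hR (by
      intro g hg0 hgL
      refine lt_of_lt_of_eq (hl g hg0 hgL) ?_
      rw [hf2]
      congr 1
      ring)
    refine le_trans (le_of_eq ?_) hmain
    congr 1
    ring

/-- counting frequencies over several periods -/
lemma count_maj_mul (M' κ' Qm R : ℕ) (hM : 1 ≤ M') (t : ℕ → Prop) (ht : ∀ n, t n ↔ Maj M' 1 Qm R n) [DecidablePred t] :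
    ((range (M' * κ')).filter t).card ≤ κ' * (Qm * ((2 * R + 1) * (1 * Qm))) := by
  classical
  have hper : ∀ u v : ℕ, Maj M' 1 Qm R (u + M' * v) ↔ Maj M' 1 Qm R u := by
    intro u v
    unfold Maj
    constructor
    · rintro ⟨Q, a, h1, h2, h3⟩
      refine ⟨Q, a - Q * v, h1, h2, ?_⟩
      refine le_trans (le_of_eq ?_) h3
      congr 1
      push_cast
      ring
    · rintro ⟨Q, a, h1, h2, h3⟩
      refine ⟨Q, a + Q * v, h1, h2, ?_⟩
      refine le_trans (le_of_eq ?_) h3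
      congr 1
      push_cast
      ring
  have h1 : ((range (M' * κ')).filter t).card = κ' * ((range M').filter (Maj M' 1 Qm R)).card := by
    rw [card_filter, card_filter, sum_split M' κ' (by omega), mul_sum]
    apply sum_congr rfl
    intro u _
    have h2 : ∀ v ∈ range κ', (if t (u + M' * v) then 1 else 0) = (if Maj M' 1 Qm R u then 1 else 0) := by
      intro v _
      by_cases h : Maj M' 1 Qm R u
      · rw [if_pos h, if_pos]
        rw [ht, hper]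
        exact h
      · rw [if_neg h, if_neg]
        rw [ht, hper]
        exact h
    rw [sum_congr rfl h2, sum_const, card_range, smul_eq_mul]
  rw [h1]
  apply Nat.mul_le_mul_left
  exact count_maj M' 1 Qm R hM le_rfl

/-- moments from a dichotomy at every scale -/
theorem moment_abs (b : ℕ) (hb : 2 ≤ b) (c s : ℕ) (hc : 1 ≤ c) (τ : ℝ) (hτ0 : 0 ≤ τ) (hτ1 : τ < 1) (A : ℝ) (hA : 1 ≤ A)
    (D F C₁ c' : ℕ) : ∃ q : ℕ, ∃ C : ℝ, 1 ≤ q ∧ 0 < C ∧ ∀ k M : ℕ, ∀ Z : ℝ, 0 ≤ Z → (M : ℝ) ≤ Z * (F * (b : ℝ) ^ (D * k)) →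
    ∀ W : ℕ → ℝ, (∀ t, 0 ≤ W t) → (∀ t, W t ≤ 1) → ∀ χ : ℕ → ℕ → ℝ, (∀ L t, χ L t = 0 ∨ χ L t = 1) →
    (∀ L, ∑ t ∈ range M, χ L t ≤ Z * (C₁ * (b : ℝ) ^ (c' * L))) →
    (∀ t L, 1 ≤ L → c * L ≤ k → χ L t = 0 → W t ^ s ≤ A * τ ^ L) → ∑ t ∈ range M, W t ^ (s * q) ≤ Z * C := by
  have hb2 : (2 : ℝ) ≤ b := by exact_mod_cast hb
  have hb1 : (1 : ℝ) ≤ b := by linarith
  have hb0 : (0 : ℝ) < b := by linarith
  obtain ⟨q₀, hq₀⟩ := exists_pow_lt_of_lt_one (show 0 < 1 / (b : ℝ) ^ (c' + D * c + 1) by positivity) hτ1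
  obtain ⟨q, hq⟩ : ∃ q, q = q₀ + 1 := ⟨_, rfl⟩
  obtain ⟨y, hy⟩ : ∃ y, y = τ ^ q := ⟨_, rfl⟩
  have hy0 : 0 ≤ y := by rw [hy]; exact pow_nonneg hτ0 _
  have hyb : y ≤ 1 / (b : ℝ) ^ (c' + D * c + 1) := by
    rw [hy, hq]
    exact (pow_le_pow_of_le_one hτ0 hτ1.le (by omega)).trans hq₀.le
  have hy1 : y ≤ 1 := hyb.trans (by
    rw [div_le_one (by positivity)]
    exact one_le_pow₀ hb1)
  have hAq : 1 ≤ A ^ q := one_le_pow₀ hA
  refine ⟨q, A ^ q * (C₁ * (b : ℝ) ^ c' + 2 * (C₁ * (b : ℝ) ^ c') + F * (b : ℝ) ^ (D * c) + 1), by omega, by positivity,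
    fun k M Z hZ hM W hW0 hW1 χ hχ hcnt hmin => ?_⟩
  have hχ0 : ∀ L t, 0 ≤ χ L t := fun L t => by rcases hχ L t with h | h <;> rw [h]; exact zero_le_one
  rcases Nat.lt_or_ge k c with hk | hk
  · calc ∑ t ∈ range M, W t ^ (s * q) ≤ ∑ t ∈ range M, (1 : ℝ) := sum_le_sum fun t _ => pow_le_one₀ (hW0 t) (hW1 t)
      _ = M := by rw [sum_const, card_range, nsmul_eq_mul, mul_one]
      _ ≤ Z * (F * (b : ℝ) ^ (D * k)) := hM
      _ ≤ Z * (1 * (C₁ * (b : ℝ) ^ c' + 2 * (C₁ * (b : ℝ) ^ c') + F * (b : ℝ) ^ (D * c) + 1)) := by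
          apply mul_le_mul_of_nonneg_left _ hZ
          rw [one_mul]
          have h1 : (F : ℝ) * (b : ℝ) ^ (D * k) ≤ F * (b : ℝ) ^ (D * c) := by
            apply mul_le_mul_of_nonneg_left _ (Nat.cast_nonneg _)
            exact pow_le_pow_right₀ hb1 (Nat.mul_le_mul_left _ hk.le)
          have h2 : 0 ≤ (C₁ : ℝ) * (b : ℝ) ^ c' := by positivity
          linarith
      _ ≤ _ := by
          apply mul_le_mul_of_nonneg_left _ hZ
          apply mul_le_mul_of_nonneg_right hAq (by positivity)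
  -- pointwise
  have hmin' : ∀ t L, 1 ≤ L → c * L ≤ k → χ L t = 0 → W t ^ (s * q) ≤ A ^ q * y ^ L := by
    intro t L h1 h2 h3
    calc W t ^ (s * q) = (W t ^ s) ^ q := by rw [pow_mul]
      _ ≤ (A * τ ^ L) ^ q := pow_le_pow_left₀ (pow_nonneg (hW0 t) _) (hmin t L h1 h2 h3) q
      _ = _ := by rw [mul_pow, hy, ← pow_mul, ← pow_mul, mul_comm L q]
  have hpt : ∀ t, ∀ L, 1 ≤ L → c * L ≤ k → W t ^ (s * q) ≤ A ^ q * (χ 1 t + ∑ l ∈ Ico 1 L, y ^ l * χ (l + 1) t + y ^ L) := by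
    intro t L hL
    induction L, hL using Nat.le_induction with
    | base =>
      intro h8
      rw [Ico_self, sum_empty, add_zero]
      rcases hχ 1 t with h | h
      · have h1 := hmin' t 1 le_rfl h8 h
        rw [h, zero_add]
        exact h1
      · rw [h]
        have h1 := pow_le_one₀ (n := s * q) (hW0 t) (hW1 t)
        have h2 := pow_nonneg hy0 1
        nlinarith
    | succ L hL ih =>
      intro h8
      have h1 := ih (le_trans (Nat.mul_le_mul_left _ (by omega)) h8)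
      rw [sum_Ico_succ_top hL]
      rcases hχ (L + 1) t with h | h
      · have h1 := hmin' t (L + 1) (by omega) h8 h
        have h2 := hχ0 1 t
        have h3 : 0 ≤ ∑ l ∈ Ico 1 L, y ^ l * χ (l + 1) t := sum_nonneg fun l _ => mul_nonneg (pow_nonneg hy0 _) (hχ0 _ _)
        have h4 : 0 ≤ y ^ L * χ (L + 1) t := mul_nonneg (pow_nonneg hy0 _) (hχ0 _ _)
        refine h1.trans ?_
        apply mul_le_mul_of_nonneg_left _ (by linarith)
        linarith
      · rw [h, mul_one]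
        have h2 := pow_nonneg hy0 (L + 1)
        refine h1.trans ?_
        apply mul_le_mul_of_nonneg_left _ (by linarith)
        linarith
  obtain ⟨Lm, hLm⟩ : ∃ Lm, Lm = k / c := ⟨_, rfl⟩
  have hLm1 : 1 ≤ Lm := by rw [hLm]; exact Nat.div_pos hk (by omega)
  have hLm2 : c * Lm ≤ k := by rw [hLm]; exact Nat.mul_div_le k c
  have hLm3 : k ≤ c * Lm + c := by
    have := Nat.div_add_mod k c
    have h2 := Nat.mod_lt k (by omega : c > 0)
    rw [hLm]
    omega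
  have hsum := sum_le_sum (fun t (_ : t ∈ range M) => hpt t Lm hLm1 hLm2)
  refine hsum.trans ?_
  rw [← mul_sum, sum_add_distrib, sum_add_distrib, sum_comm, sum_const, card_range, nsmul_eq_mul]
  have t1 : ∑ t ∈ range M, χ 1 t ≤ Z * (C₁ * (b : ℝ) ^ c') := by
    have := hcnt 1
    rwa [mul_one] at this
  have t2 : ∑ l ∈ Ico 1 Lm, ∑ t ∈ range M, y ^ l * χ (l + 1) t ≤ Z * (2 * (C₁ * (b : ℝ) ^ c')) := by
    have h1 : ∀ l ∈ Ico 1 Lm, ∑ t ∈ range M, y ^ l * χ (l + 1) t ≤ (Z * (C₁ * (b : ℝ) ^ c')) * (1 / 2) ^ l := by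
      intro l _
      rw [← mul_sum]
      calc y ^ l * ∑ t ∈ range M, χ (l + 1) t ≤ (1 / (b : ℝ) ^ (c' + D * c + 1)) ^ l * (Z * (C₁ * (b : ℝ) ^ (c' * (l + 1)))) :=
            mul_le_mul (pow_le_pow_left₀ hy0 hyb l) (hcnt _) (sum_nonneg fun t _ => hχ0 _ _) (by positivity)
        _ = (Z * (C₁ * (b : ℝ) ^ c')) * ((b : ℝ) ^ c' / (b : ℝ) ^ (c' + D * c + 1)) ^ l := by
            have e5 : (b : ℝ) ^ (c' * (l + 1)) = ((b : ℝ) ^ c') ^ l * (b : ℝ) ^ c' := by
              rw [← pow_mul, ← pow_add]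
              congr 1
            rw [e5, div_pow, div_pow, one_pow]
            ring
        _ ≤ _ := by
            apply mul_le_mul_of_nonneg_left _ (by positivity)
            apply pow_le_pow_left₀ (by positivity)
            rw [div_le_div_iff₀ (by positivity) (by norm_num)]
            have h5 : (b : ℝ) ^ (c' + D * c + 1) = (b : ℝ) ^ c' * ((b : ℝ) ^ (D * c) * b) := by ring
            rw [h5, one_mul]
            apply mul_le_mul_of_nonneg_left _ (by positivity)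
            have : (1 : ℝ) ≤ (b : ℝ) ^ (D * c) := one_le_pow₀ hb1
            nlinarith
    refine (sum_le_sum h1).trans ?_
    rw [← mul_sum]
    have h2 : ∑ l ∈ Ico 1 Lm, (1 / 2 : ℝ) ^ l ≤ 2 := by
      calc ∑ l ∈ Ico 1 Lm, (1 / 2 : ℝ) ^ l ≤ ∑ l ∈ range Lm, (1 / 2 : ℝ) ^ l := by
            apply sum_le_sum_of_subset_of_nonneg
            · intro l hl
              rw [mem_Ico] at hl
              exact mem_range.2 hl.2
            · intro l _ _
              positivity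
        _ ≤ 2 := by
            rw [geom_sum_eq (by norm_num)]
            have : (0 : ℝ) ≤ (1 / 2) ^ Lm := by positivity
            rw [div_le_iff_of_neg (by norm_num)]
            linarith
    calc (Z * (C₁ * (b : ℝ) ^ c')) * ∑ l ∈ Ico 1 Lm, (1 / 2 : ℝ) ^ l ≤ (Z * (C₁ * (b : ℝ) ^ c')) * 2 :=
          mul_le_mul_of_nonneg_left h2 (by positivity)
      _ = _ := by ring
  have t3 : (M : ℝ) * y ^ Lm ≤ Z * (F * (b : ℝ) ^ (D * c)) := by
    calc (M : ℝ) * y ^ Lm ≤ (Z * (F * (b : ℝ) ^ (D * k))) * (1 / (b : ℝ) ^ (c' + D * c + 1)) ^ Lm := by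
          apply mul_le_mul hM (pow_le_pow_left₀ hy0 hyb Lm) (pow_nonneg hy0 _) (by positivity)
      _ ≤ (Z * (F * ((b : ℝ) ^ (D * c)) ^ (Lm + 1))) * (1 / (b : ℝ) ^ (c' + D * c + 1)) ^ Lm := by
          apply mul_le_mul_of_nonneg_right _ (by positivity)
          apply mul_le_mul_of_nonneg_left _ hZ
          apply mul_le_mul_of_nonneg_left _ (Nat.cast_nonneg _)
          rw [← pow_mul]
          apply pow_le_pow_right₀ hb1
          calc D * k ≤ D * (c * Lm + c) := Nat.mul_le_mul_left _ hLm3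
            _ = D * c * (Lm + 1) := by ring
      _ = (Z * (F * (b : ℝ) ^ (D * c))) * ((b : ℝ) ^ (D * c) / (b : ℝ) ^ (c' + D * c + 1)) ^ Lm := by
          rw [div_pow, div_pow, one_pow, pow_succ]
          ring
      _ ≤ (Z * (F * (b : ℝ) ^ (D * c))) * 1 := by
          apply mul_le_mul_of_nonneg_left _ (by positivity)
          apply pow_le_one₀ (by positivity)
          rw [div_le_one (by positivity)]
          exact pow_le_pow_right₀ hb1 (by omega)
      _ = _ := mul_one _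
  calc A ^ q * (∑ t ∈ range M, χ 1 t + ∑ l ∈ Ico 1 Lm, ∑ t ∈ range M, y ^ l * χ (l + 1) t + M * y ^ Lm) ≤
      A ^ q * (Z * (C₁ * (b : ℝ) ^ c') + Z * (2 * (C₁ * (b : ℝ) ^ c')) + Z * (F * (b : ℝ) ^ (D * c))) := by
        apply mul_le_mul_of_nonneg_left _ (by linarith)
        linarith
    _ ≤ _ := by
        have : 0 ≤ Z * A ^ q := by positivity
        nlinarith

/-- **Moments** of the exponential sums over the values of integer polynomials of degree `e + 2` at integers with independent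
random digits, uniformly in the polynomial -/
theorem poly_moment (b : ℕ) (hb : 2 ≤ b) (η : ℝ) (hη : 0 < η) (e : ℕ) (F : ℕ) (hF : 1 ≤ F) :
    ∃ p : ℕ, ∃ C : ℝ, 1 ≤ p ∧ 0 < C ∧ ∀ k M' : ℕ, b ^ ((e + 2) * k) ≤ M' → M' ≤ F * b ^ ((e + 2) * k) →
    ∀ (w : ℕ → ℕ → ℝ), Dig b η w → ∀ (i : ℕ) (f : ℤ[X]), f.natDegree = e + 2 →
    ∑ t ∈ range (M' * f.leadingCoeff.natAbs), ‖∑ n ∈ range (b ^ k), ((P b w i k n : ℝ) : ℂ) *
      ee ((t : ℝ) * (((f.eval (n : ℤ) : ℤ) : ℝ) / ((M' * f.leadingCoeff.natAbs : ℕ) : ℝ)))‖ ^ (2 * p) ≤ f.leadingCoeff.natAbs * C := by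
  classical
  by_cases hη1 : η ≤ 1
  swap
  · exact ⟨1, 1, le_rfl, one_pos, fun k M' _ _ w hw => absurd (eta_le hw) hη1⟩
  have hb2 : (2 : ℝ) ≤ b := by exact_mod_cast hb
  have hb1 : (1 : ℝ) ≤ b := by linarith
  obtain ⟨s, c, hs1, hc1, hweyl⟩ := poly_weyl b hb η hη hη1 e
  obtain ⟨g, hg⟩ : ∃ g : ℕ, g = b.factorial * (e + 2).factorial := ⟨_, rfl⟩
  have hg1 : 1 ≤ g := by rw [hg]; exact Nat.mul_pos b.factorial_pos (e + 2).factorial_pos
  rw [← hg] at hweyl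
  obtain ⟨q, C, hq1, hC, hmom⟩ := moment_abs b hb c (2 * s) hc1 (1 - η / 2) (by linarith) (by linarith) (e + 1)
    (by have : (0 : ℝ) ≤ e := Nat.cast_nonneg _; linarith) (e + 2) F (3 * g ^ 3 * F) (4 * c)
  refine ⟨s * q, C, Nat.mul_pos hs1 hq1, hC, fun k M' hM1 hM2 w hw i f hf => ?_⟩
  obtain ⟨κ, hκ⟩ : ∃ κ : ℤ, κ = f.leadingCoeff := ⟨_, rfl⟩
  rw [← hκ]
  have hκ0 : κ ≠ 0 := by
    rw [hκ, leadingCoeff_ne_zero]
    intro h
    rw [h, natDegree_zero] at hf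
    omega
  obtain ⟨κ', hκ'⟩ : ∃ κ' : ℕ, κ' = κ.natAbs := ⟨_, rfl⟩
  rw [← hκ']
  have hκ1 : 1 ≤ κ' := by rw [hκ']; exact Int.natAbs_pos.2 hκ0
  have hκr : (0 : ℝ) < κ' := by exact_mod_cast hκ1
  have hMM : 1 ≤ M' := le_trans (Nat.one_le_pow _ _ (by omega)) hM1
  have hM0 : (0 : ℝ) < M' := by exact_mod_cast hMM
  have hM2r : (M' : ℝ) ≤ F * (b : ℝ) ^ ((e + 2) * k) := by exact_mod_cast hM2
  have hpow : 2 * (s * q) = 2 * s * q := by ring
  rw [hpow]
  have hsgn : (κ : ℝ) / κ' = 1 ∨ (κ : ℝ) / κ' = -1 := by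
    rcases le_total 0 κ with hpos | hneg
    · left
      have h4 : ((κ' : ℕ) : ℤ) = κ := by rw [hκ']; exact Int.natAbs_of_nonneg hpos
      have h5 : (κ' : ℝ) = κ := by exact_mod_cast h4
      rw [← h5, div_self hκr.ne']
    · right
      have h4 : ((κ' : ℕ) : ℤ) = -κ := by rw [hκ']; exact Int.ofNat_natAbs_of_nonpos hneg
      have h5 : (κ' : ℝ) = -κ := by exact_mod_cast h4
      rw [div_eq_iff hκr.ne', h5]
      ring
  apply hmom k (M' * κ') κ' hκr.le ?_ (fun t => ‖∑ n ∈ range (b ^ k), ((P b w i k n : ℝ) : ℂ) *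
      ee ((t : ℝ) * (((f.eval (n : ℤ) : ℤ) : ℝ) / ((M' * κ' : ℕ) : ℝ)))‖) (fun t => norm_nonneg _) ?_
      (fun L t => if Maj M' 1 (g * b ^ (c * L)) (g * F * b ^ (2 * (c * L))) t then 1 else 0) ?_ ?_ ?_
  · push_cast
    rw [mul_comm (M' : ℝ)]
    exact mul_le_mul_of_nonneg_left hM2r hκr.le
  · intro t
    exact norm_avg (by omega) hw i k _ 1 (fun n => by rw [norm_ee])
  · intro L t
    by_cases h : Maj M' 1 (g * b ^ (c * L)) (g * F * b ^ (2 * (c * L))) t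
    · right; simp only [if_pos h]
    · left; simp only [if_neg h]
  · intro L
    rw [sum_boole]
    have h1 := count_maj_mul M' κ' (g * b ^ (c * L)) (g * F * b ^ (2 * (c * L))) hMM
      (Maj M' 1 (g * b ^ (c * L)) (g * F * b ^ (2 * (c * L)))) (fun _ => Iff.rfl)
    have h2 : g * b ^ (c * L) * ((2 * (g * F * b ^ (2 * (c * L))) + 1) * (1 * (g * b ^ (c * L)))) ≤ 3 * g ^ 3 * F * b ^ (4 * c * L) := by
      have h3 : 2 * (g * F * b ^ (2 * (c * L))) + 1 ≤ 3 * (g * F * b ^ (2 * (c * L))) := by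
        have : 0 < g * F * b ^ (2 * (c * L)) := by positivity
        omega
      calc g * b ^ (c * L) * ((2 * (g * F * b ^ (2 * (c * L))) + 1) * (1 * (g * b ^ (c * L)))) ≤
          g * b ^ (c * L) * ((3 * (g * F * b ^ (2 * (c * L)))) * (1 * (g * b ^ (c * L)))) :=
            Nat.mul_le_mul_left _ (Nat.mul_le_mul_right _ h3)
        _ = 3 * g ^ 3 * F * (b ^ (c * L) * b ^ (2 * (c * L)) * b ^ (c * L)) := by ring
        _ = _ := by rw [← pow_add, ← pow_add]; congr 2; ring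
    have h4 := h1.trans (Nat.mul_le_mul_left κ' h2)
    exact_mod_cast h4
  · intro t L hL1 hL2 hχ
    have hnot : ¬ Maj M' 1 (g * b ^ (c * L)) (g * F * b ^ (2 * (c * L))) t := by
      intro h
      rw [if_pos h] at hχ
      exact one_ne_zero hχ
    obtain ⟨R, hR⟩ : ∃ R : ℝ[X], R = Polynomial.C ((t : ℝ) / ((M' * κ' : ℕ) : ℝ)) * f.map (Int.castRingHom ℝ) := ⟨_, rfl⟩
    have hRd : R.natDegree ≤ e + 2 := by
      rw [hR]
      refine (natDegree_C_mul_le _ _).trans ?_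
      refine natDegree_map_le.trans hf.le
    have hRe : ∀ n : ℕ, R.eval (n : ℝ) = (t : ℝ) * (((f.eval (n : ℤ) : ℤ) : ℝ) / ((M' * κ' : ℕ) : ℝ)) := by
      intro n
      rw [hR, eval_mul, eval_C]
      have : (f.map (Int.castRingHom ℝ)).eval (n : ℝ) = ((f.eval (n : ℤ) : ℤ) : ℝ) := by
        have h6 : (n : ℝ) = (Int.castRingHom ℝ) (n : ℤ) := by simp
        rw [h6, eval_map, eval₂_hom]
        simp
      rw [this]
      ring
    have hRc : R.coeff (e + 2) = (κ : ℝ) / κ' * (t / M') := by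
      rw [hR, coeff_C_mul, coeff_map]
      have : f.coeff (e + 2) = κ := by rw [hκ, leadingCoeff, hf]
      rw [this, eq_intCast]
      push_cast
      field_simp
    rcases hweyl k L hL1 hL2 w hw i R hRd with h | ⟨Q, a, hQ1, hQ2, hQ3⟩
    · simp only [hRe] at h
      exact h
    · exfalso
      apply hnot
      rw [hRc] at hQ3
      have hQr : (0 : ℝ) < Q := by exact_mod_cast hQ1
      obtain ⟨a', ha'⟩ : ∃ a' : ℤ, |(t : ℝ) / M' - a' / Q| = |(κ : ℝ) / κ' * (t / M') - a / Q| := by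
        rcases hsgn with h | h
        · exact ⟨a, by rw [h, one_mul]⟩
        · refine ⟨-a, ?_⟩
          rw [h, ← abs_neg]
          congr 1
          push_cast
          ring
      rw [← ha'] at hQ3
      refine ⟨Q, a', hQ1, hQ2, ?_⟩
      have h1 : |(Q : ℝ) * t - a' * M'| ≤ ((g * F * b ^ (2 * (c * L)) : ℕ) : ℝ) := by
        have h2 : |(Q : ℝ) * t - a' * M'| = |(t : ℝ) / M' - a' / Q| * (Q * M') := by
          have e' : (Q : ℝ) * t - a' * M' = ((t : ℝ) / M' - a' / Q) * (Q * M') := by field_simp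
          rw [e', abs_mul, abs_of_pos (by positivity : (0 : ℝ) < (Q : ℝ) * M')]
        rw [h2]
        have h3 : (Q * M' : ℝ) ≤ ((g * b ^ (c * L) : ℕ) : ℝ) * (F * (b : ℝ) ^ ((e + 2) * k)) := by
          apply mul_le_mul
          · exact_mod_cast hQ2
          · exact hM2r
          · positivity
          · positivity
        calc |(t : ℝ) / M' - a' / Q| * (Q * M') ≤ |(t : ℝ) / M' - a' / Q| * (((g * b ^ (c * L) : ℕ) : ℝ) * (F * (b : ℝ) ^ ((e + 2) * k))) :=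
              mul_le_mul_of_nonneg_left h3 (abs_nonneg _)
          _ = (|(t : ℝ) / M' - a' / Q| * (b : ℝ) ^ ((e + 2) * k)) * (((g * b ^ (c * L) : ℕ) : ℝ) * F) := by ring
          _ ≤ (b : ℝ) ^ (c * L) * (((g * b ^ (c * L) : ℕ) : ℝ) * F) := mul_le_mul_of_nonneg_right hQ3 (by positivity)
          _ = _ := by push_cast; ring
      have h5 : (((1 * Q * t : ℕ) : ℤ) - a' * M' : ℤ) = Q * t - a' * M' := by push_cast; ring
      rw [h5]
      exact_mod_cast h1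

end Pool.Agent.Run7.h536
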