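import Pool.Agent.Run7.h536.PW3
import Pool.Agent.R459.Nbhd
import Pool.Agent.TH872.GQ.Fam

set_option autoImplicit false

/-! Goldbach pairs for all even integers near the values of polynomials of any degree at integers with restricted digits. -/

namespace Pool.Agent.Run7.h536
open Finset Polynomial
open Pool.Agent.TH872.GQ (S)

/-- all the even integers near the values -/
theorem near_poly (b d B A W U m₀ : ℕ) (hb : 2 ≤ b) (hd : 2 ≤ d) (ε : ℝ) (hε : 0 < ε) (Q : ℕ → Prop)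
    (hQ : ∀ m : ℕ, m₀ ≤ m → 2 ∣ m → Pool.Agent.W93.PG.WinP ε A m → Q m) :
    ∃ k₀ : ℕ, ∀ k : ℕ, k₀ ≤ k → ∀ D : ℕ → Finset ℕ, (∀ i < k, D i ⊆ range b ∧ 2 ≤ (D i).card) →
      ∀ f : ℤ[X], f.natDegree = d → ∀ P : ℕ → Prop, [DecidablePred P] →
      (∀ n, P n → f.eval (n : ℤ) ≤ ((k ^ B * b ^ (d * k) : ℕ) : ℤ) ∧
        ∃ m : ℕ, 0 < m ∧ Even m ∧ |(m : ℤ) - f.eval (n : ℤ)| ≤ k ^ W ∧ ¬ Q m) →
      (((S b D k).filter P).card : ℝ) ≤ (S b D k).card / (k : ℝ) ^ U := by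
  classical
  obtain ⟨k₀, h0⟩ := wrap b hb d hd B U (fun N x => x ≤ ((1 : ℕ) : ℤ) * N) (fun N x => ∃ m : ℕ, 0 < m ∧ Even m ∧
    |(((m : ℤ) - x : ℤ) : ℝ)| ≤ Real.log N ^ W ∧ ¬ Q m) (fun h C hh =>
      Pool.Agent.R459.near_even h A 1 C W U m₀ hh ε hε Q hQ)
  obtain ⟨K1, hK1⟩ := log_N b B d hb hd
  refine ⟨k₀ + K1, fun k hk D hD f hf P _ hP => ?_⟩
  refine h0 k (by omega) D hD f hf P ?_
  intro n hn
  obtain ⟨h1, m, h2, h3, h4, h5⟩ := hP n hn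
  obtain ⟨hl, _⟩ := hK1 k (by omega)
  refine ⟨?_, m, h2, h3, ?_, h5⟩
  · rw [Nat.cast_one, one_mul]
    exact h1
  · refine le_trans ?_ (pow_le_pow_left₀ (Nat.cast_nonneg k) hl W)
    exact_mod_cast h4

end Pool.Agent.Run7.h536
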