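import Pool.Agent.Run7.h536.QC5
import Pool.Agent.Run7.h536.TB3

set_option autoImplicit false

/-! Products of integers with restricted digits: the energy of their powers, and of perturbations. -/

namespace Pool.Agent.Run7.h536.QC
open Finset Polynomial
open Pool.Agent.TH212.EH (En large)
open Pool.Agent.H373R2.T7
open Pool.Agent.TH872.Sq (SD SD_card_pos)
open Pool.Agent.Run7.h536 (En_mono poly_energy)
open Pool.Agent.Run7.h536.TB (closure)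

lemma En_equiv {ι ι' : Type} [Fintype ι] [Fintype ι'] (h : ℕ) (v : ι → ℤ) (e : ι' ≃ ι) : En h (fun j => v (e j)) = En h v := by
  apply le_antisymm (En_mono h v e e.injective)
  have h1 := En_mono h (fun j => v (e j)) e.symm e.symm.injective
  simpa using h1

/-- one integer with restricted digits -/
abbrev Ix (b : ℕ) (D : ℕ → Finset ℕ) (k : ℕ) : Type := {n // n ∈ SD b D k}

/-- tuples of integers with restricted digits -/
abbrev Tx (b : ℕ) {r : ℕ} (D : Fin r → ℕ → Finset ℕ) (K : Fin r → ℕ) : Type := (l : Fin r) → Ix b (D l) (K l)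

lemma SD_lt {b : ℕ} {D : ℕ → Finset ℕ} {k : ℕ} (m : Ix b D k) : m.1 < b ^ k := by
  have := m.2
  unfold SD at this
  exact mem_range.1 (mem_filter.1 this).1

lemma log_two_sided (b d A s : ℕ) (hb : 2 ≤ b) (hd : 2 ≤ d) : ∃ k0 : ℕ, ∀ k : ℕ, k0 ≤ k → ∀ M : ℕ, k ≤ M → M ≤ s * (A * k) →
    (k : ℝ) ≤ Real.log ((b ^ (d * M) : ℕ) : ℝ) ∧ Real.log ((b ^ (d * M) : ℕ) : ℝ) ≤ (k : ℝ) ^ 2 := by
  refine ⟨d * b * (s * A) + 1, fun k hk M hM1 hM2 => ?_⟩
  have hb2 : (2 : ℝ) ≤ b := by exact_mod_cast hb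
  have hd2 : (2 : ℝ) ≤ d := by exact_mod_cast hd
  have hk0 : (0 : ℝ) ≤ k := Nat.cast_nonneg k
  have hM0 : (0 : ℝ) ≤ M := Nat.cast_nonneg M
  have e1 : Real.log ((b ^ (d * M) : ℕ) : ℝ) = (d * M) * Real.log b := by
    push_cast
    rw [Real.log_pow]
    push_cast
    ring
  have h3 : Real.log b ≤ b := by
    have := Real.log_le_sub_one_of_pos (by linarith : (0 : ℝ) < b)
    linarith
  have h4 : (1 / 2 : ℝ) ≤ Real.log b := by
    have h5 : Real.log 2 ≤ Real.log b := Real.log_le_log (by norm_num) hb2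
    have := Real.log_two_gt_d9
    linarith
  have hMr1 : (k : ℝ) ≤ M := by exact_mod_cast hM1
  have hMr2 : (M : ℝ) ≤ s * (A * k) := by exact_mod_cast hM2
  rw [e1]
  constructor
  · have h5 : (1 : ℝ) ≤ d * Real.log b := by nlinarith
    nlinarith
  · have h7 : ((d * b * (s * A) + 1 : ℕ) : ℝ) ≤ k := by exact_mod_cast hk
    push_cast at h7
    calc (d : ℝ) * M * Real.log b ≤ d * (s * (A * k)) * b := by
          apply mul_le_mul _ h3 (by linarith) (by positivity)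
          exact mul_le_mul_of_nonneg_left hMr2 (by linarith)
      _ = (d * b * (s * A)) * k := by ring
      _ ≤ (k : ℝ) ^ 2 := by nlinarith

/-- one more factor, with arbitrary perturbations -/
theorem step_energy (b : ℕ) (hb : 2 ≤ b) (d : ℕ) (hd : 2 ≤ d) (A : ℕ) (hA : 1 ≤ A) (r : ℕ)
    (ih : ∃ p C k0 : ℕ, 1 ≤ p ∧ ∀ k : ℕ, k0 ≤ k →
      ∀ K : Fin (r + 1) → ℕ, (∀ l, k ≤ K l ∧ K l ≤ A * k) → ∀ D : Fin (r + 1) → ℕ → Finset ℕ,
      (∀ l, ∀ i < K l, D l i ⊆ range b ∧ 2 ≤ (D l i).card) →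
      (En p (fun m : Tx b D K => (∏ l, (((m l).1 : ℕ) : ℤ)) ^ d) : ℝ) * ((b ^ (d * ∑ l, K l) : ℕ) : ℝ) ≤
        (k : ℝ) ^ C * (Fintype.card (Tx b D K) : ℝ) ^ (2 * p)) :
    ∃ p C k0 : ℕ, 1 ≤ p ∧ ∀ k : ℕ, k0 ≤ k →
      ∀ K : Fin (r + 2) → ℕ, (∀ l, k ≤ K l ∧ K l ≤ A * k) → ∀ D : Fin (r + 2) → ℕ → Finset ℕ,
      (∀ l, ∀ i < K l, D l i ⊆ range b ∧ 2 ≤ (D l i).card) → ∀ κ : ℤ, κ ≠ 0 → ∀ (F : (Fin (r + 1) → ℕ) → ℤ) (G : ℕ → ℤ),
      (En p (fun m : Tx b D K => κ * (∏ l, (((m l).1 : ℕ) : ℤ)) ^ d + F (fun l => (m l.castSucc).1) +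
        G (m (Fin.last (r + 1))).1) : ℝ) * ((b ^ (d * ∑ l, K l) : ℕ) : ℝ) ≤
        (k : ℝ) ^ C * (Fintype.card (Tx b D K) : ℝ) ^ (2 * p) := by
  obtain ⟨p, C, k0, hp, hE⟩ := ih
  obtain ⟨p1, C1, hp1, hC1, hE1⟩ := poly_energy b hb d hd
  obtain ⟨K1, hK1⟩ := exists_nat_ge C1
  obtain ⟨p', C', N₀, hp', hcl⟩ := closure p p1 ((r + 2) * A + 1) 1 (C + 1) hp hp1 (by nlinarith)
  obtain ⟨k1, hk1⟩ := log_two_sided b d A (r + 3) hb hd
  refine ⟨p', 2 * C', k0 + K1 + N₀ + k1 + 1, hp', fun k hk K hK D hD κ hκ F G => ?_⟩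
  have hkr : (1 : ℝ) ≤ k := by exact_mod_cast (by omega : 1 ≤ k)
  obtain ⟨M1, hM1⟩ : ∃ M1, M1 = ∑ l : Fin (r + 1), K l.castSucc := ⟨_, rfl⟩
  obtain ⟨M2, hM2⟩ : ∃ M2, M2 = K (Fin.last (r + 1)) := ⟨_, rfl⟩
  have hsum : ∑ l, K l = M1 + M2 := by rw [Fin.sum_univ_castSucc, ← hM1, ← hM2]
  have hM1a : M1 ≤ (r + 1) * (A * k) := by
    rw [hM1]
    calc ∑ l : Fin (r + 1), K l.castSucc ≤ ∑ _l : Fin (r + 1), A * k := sum_le_sum (fun l _ => (hK _).2)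
      _ = _ := by simp
  have hM1b : k ≤ M1 := by
    rw [hM1]
    exact (hK 0).1.trans (single_le_sum (f := fun l : Fin (r + 1) => K l.castSucc) (fun _ _ => Nat.zero_le _) (mem_univ 0))
  have hM2a : M2 ≤ A * k := by rw [hM2]; exact (hK _).2
  have hM2b : k ≤ M2 := by rw [hM2]; exact (hK _).1
  obtain ⟨X', hX'⟩ : ∃ X', X' = b ^ (d * M1) := ⟨_, rfl⟩
  obtain ⟨Y', hY'⟩ : ∃ Y', Y' = b ^ (d * M2) := ⟨_, rfl⟩
  have hXY : X' * Y' = b ^ (d * ∑ l, K l) := by rw [hX', hY', hsum, ← pow_add, mul_add]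
  obtain ⟨hl1, hl2⟩ := hk1 k (by omega) (∑ l, K l) (by omega) (by rw [hsum]; nlinarith)
  rw [← hXY] at hl1 hl2
  have hbig : N₀ ≤ X' * Y' := by
    rw [hXY]
    have h1 : d * ∑ l, K l < b ^ (d * ∑ l, K l) := Nat.lt_pow_self (by omega)
    have h2 : ∑ l, K l ≤ d * ∑ l, K l := Nat.le_mul_of_pos_left _ (by omega)
    omega
  have hpow1 : X' ≤ Y' ^ ((r + 2) * A + 1 - 1) := by
    rw [hX', hY', ← pow_mul]
    apply Nat.pow_le_pow_right (by omega)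
    have : M1 ≤ M2 * ((r + 2) * A) := by
      calc M1 ≤ (r + 1) * (A * k) := hM1a
        _ ≤ (r + 2) * (A * M2) := Nat.mul_le_mul (by omega) (Nat.mul_le_mul_left A hM2b)
        _ = _ := by ring
    calc d * M1 ≤ d * (M2 * ((r + 2) * A)) := Nat.mul_le_mul_left d this
      _ = d * M2 * ((r + 2) * A + 1 - 1) := by rw [Nat.add_sub_cancel]; ring
  have hpow2 : Y' ≤ X' ^ ((r + 2) * A + 1 - 1) := by
    rw [hX', hY', ← pow_mul]
    apply Nat.pow_le_pow_right (by omega)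
    have : M2 ≤ M1 * ((r + 2) * A) := by
      calc M2 ≤ A * k := hM2a
        _ ≤ A * M1 := Nat.mul_le_mul_left A hM1b
        _ ≤ M1 * ((r + 2) * A) := by nlinarith [Nat.zero_le (r * (A * M1)), Nat.zero_le (A * M1)]
    calc d * M2 ≤ d * (M1 * ((r + 2) * A)) := Nat.mul_le_mul_left d this
      _ = d * M1 * ((r + 2) * A + 1 - 1) := by rw [Nat.add_sub_cancel]; ring
  -- the two families
  have h1 := hE k (by omega) (fun l => K l.castSucc) (fun l => hK _) (fun l => D l.castSucc) (fun l => hD _)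
  have h2 := hE1 (K (Fin.last (r + 1))) (D (Fin.last (r + 1))) (hD _) (X ^ d) (natDegree_X_pow d)
  rw [← hM1, ← hX'] at h1
  rw [← hM2, ← hY'] at h2
  have hb1 : ∀ m : Tx b (fun l : Fin (r + 1) => D l.castSucc) (fun l => K l.castSucc),
      |(∏ l, (((m l).1 : ℕ) : ℤ)) ^ d| ≤ (1 : ℕ) * (X' : ℤ) := by
    intro m
    rw [Nat.cast_one, one_mul, abs_of_nonneg (by positivity), hX', hM1, mul_comm d, pow_mul]
    push_cast
    apply pow_le_pow_left₀ (prod_nonneg (fun l _ => Int.natCast_nonneg _))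
    rw [← prod_pow_eq_pow_sum]
    apply prod_le_prod (fun l _ => Int.natCast_nonneg _)
    intro l _
    exact_mod_cast (SD_lt (m l)).le
  have hb2 : ∀ m : {n // n ∈ SD b (D (Fin.last (r + 1))) M2}, |(X ^ d : ℤ[X]).eval ((m.1 : ℕ) : ℤ)| ≤ (1 : ℕ) * (Y' : ℤ) := by
    intro m
    rw [Nat.cast_one, one_mul, eval_pow, eval_X, abs_of_nonneg (by positivity), hY', mul_comm d, pow_mul]
    push_cast
    apply pow_le_pow_left₀ (Int.natCast_nonneg _)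
    exact_mod_cast (SD_lt m).le
  have h3 := hcl X' Y' hbig hpow1 hpow2 _ _ _ _ hb1 hb2
    (h1.trans (mul_le_mul_of_nonneg_right ((pow_le_pow_left₀ (by linarith) hl1 C).trans
      (pow_le_pow_right₀ (by linarith) (by omega))) (by positivity)))
    (h2.trans (mul_le_mul_of_nonneg_right (by
      have e1 : C1 ≤ Real.log ((X' * Y' : ℕ) : ℝ) := (hK1.trans (by exact_mod_cast (by omega : K1 ≤ k))).trans hl1
      refine e1.trans ?_
      exact le_self_pow₀ (by linarith) (by omega)) (by positivity)))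
    (fun m => F (fun l => (m l).1)) (fun m => G m.1) κ hκ
  subst hM2
  obtain ⟨e, he⟩ : ∃ e : (Tx b (fun l : Fin (r + 1) => D l.castSucc) (fun l => K l.castSucc)) ×
      {n // n ∈ SD b (D (Fin.last (r + 1))) (K (Fin.last (r + 1)))} ≃ Tx b D K,
      ∀ q, ∏ l, (((e q l).1 : ℕ) : ℤ) = (∏ l, (((q.1 l).1 : ℕ) : ℤ)) * ((q.2.1 : ℕ) : ℤ) ∧
        (∀ l : Fin (r + 1), e q l.castSucc = q.1 l) ∧ e q (Fin.last (r + 1)) = q.2 := by
    refine ⟨(Equiv.prodComm _ _).trans (Fin.snocEquiv (fun l : Fin (r + 2) => Ix b (D l) (K l))), fun q => ?_⟩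
    refine ⟨?_, fun l => ?_, ?_⟩
    · rw [Fin.prod_univ_castSucc]
      simp [Fin.snocEquiv]
    · simp [Fin.snocEquiv]
    · simp [Fin.snocEquiv]
  rw [← En_equiv p' (fun m : Tx b D K => κ * (∏ l, (((m l).1 : ℕ) : ℤ)) ^ d + F (fun l => (m l.castSucc).1) +
    G (m (Fin.last (r + 1))).1) e, ← Fintype.card_congr e, ← hXY]
  have e3 : (fun q => κ * (∏ l, (((e q l).1 : ℕ) : ℤ)) ^ d + F (fun l => (e q l.castSucc).1) + G (e q (Fin.last (r + 1))).1) =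
      fun q : (Tx b (fun l : Fin (r + 1) => D l.castSucc) (fun l => K l.castSucc)) ×
        {n // n ∈ SD b (D (Fin.last (r + 1))) (K (Fin.last (r + 1)))} =>
        κ * (∏ l, (((q.1 l).1 : ℕ) : ℤ)) ^ d * (X ^ d : ℤ[X]).eval ((q.2.1 : ℕ) : ℤ) + F (fun l => (q.1 l).1) + G q.2.1 := by
    funext q
    obtain ⟨h4, h5, h6⟩ := he q
    simp only [h5]
    rw [h4, h6, eval_pow, eval_X, mul_pow]
    ring
  rw [e3]
  refine h3.trans ?_
  apply mul_le_mul_of_nonneg_right _ (by positivity)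
  rw [mul_comm 2 C', pow_mul']
  exact pow_le_pow_left₀ (by linarith) hl2 C'

/-- the energy of the `d`-th powers of the products of integers with restricted digits -/
theorem prod_energy (b : ℕ) (hb : 2 ≤ b) (d : ℕ) (hd : 2 ≤ d) (A : ℕ) (hA : 1 ≤ A) (r : ℕ) : ∃ p C k0 : ℕ, 1 ≤ p ∧ ∀ k : ℕ, k0 ≤ k →
    ∀ K : Fin (r + 1) → ℕ, (∀ l, k ≤ K l ∧ K l ≤ A * k) → ∀ D : Fin (r + 1) → ℕ → Finset ℕ,
    (∀ l, ∀ i < K l, D l i ⊆ range b ∧ 2 ≤ (D l i).card) →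
    (En p (fun m : Tx b D K => (∏ l, (((m l).1 : ℕ) : ℤ)) ^ d) : ℝ) * ((b ^ (d * ∑ l, K l) : ℕ) : ℝ) ≤
      (k : ℝ) ^ C * (Fintype.card (Tx b D K) : ℝ) ^ (2 * p) := by
  induction r with
  | zero =>
    obtain ⟨p, C, hp, hC, hE⟩ := poly_energy b hb d hd
    obtain ⟨K1, hK1⟩ := exists_nat_ge C
    refine ⟨p, 1, K1, hp, fun k hk K hK D hD => ?_⟩
    have h1 := hE (K 0) (D 0) (hD 0) (X ^ d) (natDegree_X_pow d)
    have e1 : En p (fun m : Tx b D K => (∏ l, (((m l).1 : ℕ) : ℤ)) ^ d) =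
        En p (fun i : {n // n ∈ SD b (D 0) (K 0)} => (X ^ d : ℤ[X]).eval ((i.1 : ℕ) : ℤ)) := by
      rw [← En_equiv p (fun i : {n // n ∈ SD b (D 0) (K 0)} => (X ^ d : ℤ[X]).eval ((i.1 : ℕ) : ℤ))
        (Equiv.piUnique (fun l : Fin 1 => Ix b (D l) (K l)))]
      congr 1
      funext m
      rw [eval_pow, eval_X]
      simp
    have e2 : Fintype.card (Tx b D K) = Fintype.card {n // n ∈ SD b (D 0) (K 0)} :=
      Fintype.card_congr (Equiv.piUnique (fun l : Fin 1 => Ix b (D l) (K l)))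
    rw [e1, e2]
    simp only [Nat.reduceAdd, Finset.univ_unique, Fin.default_eq_zero, Fin.isValue, sum_singleton]
    refine h1.trans ?_
    apply mul_le_mul_of_nonneg_right _ (by positivity)
    rw [pow_one]
    exact hK1.trans (by exact_mod_cast hk)
  | succ r ih =>
    obtain ⟨p, C, k0, hp, hE⟩ := step_energy b hb d hd A hA r ih
    refine ⟨p, C, k0, hp, fun k hk K hK D hD => ?_⟩
    have h1 := hE k hk K hK D hD 1 one_ne_zero (fun _ => 0) (fun _ => 0)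
    simp only [one_mul, add_zero] at h1
    exact h1

/-- **Powers of products of integers with restricted digits, with arbitrary perturbations.** -/
theorem pert_energy (b : ℕ) (hb : 2 ≤ b) (d : ℕ) (hd : 2 ≤ d) (A : ℕ) (hA : 1 ≤ A) (r : ℕ) : ∃ p C k0 : ℕ, 1 ≤ p ∧ ∀ k : ℕ, k0 ≤ k →
      ∀ K : Fin (r + 2) → ℕ, (∀ l, k ≤ K l ∧ K l ≤ A * k) → ∀ D : Fin (r + 2) → ℕ → Finset ℕ,
      (∀ l, ∀ i < K l, D l i ⊆ range b ∧ 2 ≤ (D l i).card) → ∀ κ : ℤ, κ ≠ 0 → ∀ (F : (Fin (r + 1) → ℕ) → ℤ) (G : ℕ → ℤ),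
      (En p (fun m : Tx b D K => κ * (∏ l, (((m l).1 : ℕ) : ℤ)) ^ d + F (fun l => (m l.castSucc).1) +
        G (m (Fin.last (r + 1))).1) : ℝ) * ((b ^ (d * ∑ l, K l) : ℕ) : ℝ) ≤
        (k : ℝ) ^ C * (Fintype.card (Tx b D K) : ℝ) ^ (2 * p) :=
  step_energy b hb d hd A hA r (prod_energy b hb d hd A hA r)

end Pool.Agent.Run7.h536.QC
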