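import Pool.Agent.Run7.h536.QC3

set_option autoImplicit false

/-! Prime values with almost all constant terms, for arguments from thin families: all initial segments. -/

namespace Pool.Agent.Run7.h536.QC
open Finset
open Pool.Agent.TH212.EH (En dI_le large)
open Pool.Agent.W93.AU (dI)
open Pool.Agent.H373R2.T7
open Pool.Agent.TH872.Sq (th th_nonneg th_le)

open Classical in
/-- almost all vectors of constant terms, all initial segments -/
theorem prefixes (r : ℕ) (p : Fin r → ℕ) (B C T U : ℕ) : ∃ B0 V0 : ℕ, ∀ E : ℕ, ∃ k0 : ℕ, ∀ k : ℕ, k0 ≤ k → ∀ N : Fin r → ℕ,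
    (∀ j, (k : ℝ) ≤ Real.log (N j)) → (∀ j, Real.log (N j) ≤ (k : ℝ) ^ 2) → ∀ S : Finset ℕ, (k : ℝ) ^ V0 ≤ S.card →
    ∀ v : Fin r → ℕ → ℤ, (∀ j, ∀ m ∈ S, |v j m| ≤ B * N j) →
    (∀ j, (En (p j) (fun m : {m // m ∈ S} => v j m.1) : ℝ) * N j ≤ (k : ℝ) ^ C * (S.card : ℝ) ^ (2 * p j)) →
    ∀ z : ℕ, (k : ℝ) ^ B0 ≤ z → (z : ℝ) ≤ (k : ℝ) ^ E → ∀ L : ℕ → ℝ, (∀ n, th n ≤ L n ∧ L n ≤ ArithmeticFunction.vonMangoldt n) → 
    ∀ w : ℕ → ℝ, (∀ m, |w m| ≤ (k : ℝ) ^ T) →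
    (((Fintype.piFinset (fun j => Icc 1 (B * N j))).filter (fun c : Fin r → ℕ => ∃ M : ℕ, S.card / (k : ℝ) ^ U <
      |∑ m ∈ S.filter (fun m => m < M), w m * (∏ j, LI L ((c j : ℤ) + v j m) - ∏ j, lamzI z ((c j : ℤ) + v j m))|)).card : ℝ) ≤
      (∏ j, (N j : ℝ)) / (k : ℝ) ^ U := by
  obtain ⟨V, hV⟩ : ∃ V, V = T + 3 * r + U + 2 := ⟨_, rfl⟩
  obtain ⟨B0, h0⟩ := almost r p B C T (V + 1) (U + 1)
  refine ⟨B0, V, fun E => ?_⟩
  obtain ⟨k0, h1⟩ := h0 E
  obtain ⟨n1, hn1⟩ := Vz_inv_small E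
  obtain ⟨K1, hK1⟩ := exists_nat_ge (Real.log ((2 * B + 1 : ℕ) : ℝ) + 1)
  refine ⟨k0 + n1 + K1 + 8, fun k hk N hkN hNk S hS v hv hE z hz1 hz2 L hL w hw => ?_⟩
  have hk8 : (8 : ℝ) ≤ k := by exact_mod_cast (by omega : 8 ≤ k)
  have hk1 : (1 : ℝ) ≤ k := by linarith
  have hkp : (0 : ℝ) < k := by linarith
  have hP0 : (0 : ℝ) ≤ ∏ j, (N j : ℝ) := prod_nonneg (fun j _ => Nat.cast_nonneg _)
  have hz1' : 1 ≤ z := by
    have h1 : (1 : ℝ) ≤ z := le_trans (one_le_pow₀ hk1) hz1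
    exact_mod_cast h1
  have hNpos : ∀ j, 1 ≤ N j := by
    intro j
    rcases Nat.eq_zero_or_pos (N j) with h | h
    · have := hkN j
      rw [h, Nat.cast_zero, Real.log_zero] at this
      linarith
    · exact h
  have hkj : ∀ j, k ≤ N j := by
    intro j
    have h3 : (0 : ℝ) < N j := by exact_mod_cast hNpos j
    have h4 := Real.log_le_sub_one_of_pos h3
    have h5 : (k : ℝ) ≤ N j := by linarith [hkN j]
    exact_mod_cast h5
  have hK1k : Real.log ((2 * B + 1 : ℕ) : ℝ) + 1 ≤ k := hK1.trans (by exact_mod_cast (by omega : K1 ≤ k))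
  have hLb : ∀ m : ℤ, |LI L m| ≤ |lamI m| := by
    intro m
    rw [abs_of_nonneg (lamI_nonneg m)]
    unfold LI lamI
    split_ifs with h
    · obtain ⟨h3, h4⟩ := hL m.toNat
      have := th_nonneg m.toNat
      rw [abs_of_nonneg (by linarith)]
      exact h4
    · rw [abs_zero]
  -- the grid
  obtain ⟨q, hq⟩ : ∃ q : ℕ, q = ⌊(S.card : ℝ) / (k : ℝ) ^ V⌋₊ + 1 := ⟨_, rfl⟩
  have hq1 : (S.card : ℝ) / (k : ℝ) ^ V < q := by
    rw [hq]
    push_cast
    exact Nat.lt_floor_add_one _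
  have hq2 : (q : ℝ) ≤ 2 * ((S.card : ℝ) / (k : ℝ) ^ V) := by
    rw [hq]
    push_cast
    have h3 : (1 : ℝ) ≤ (S.card : ℝ) / (k : ℝ) ^ V := by
      rw [le_div_iff₀ (by positivity), one_mul]
      exact hS
    have h4 := Nat.floor_le (a := (S.card : ℝ) / (k : ℝ) ^ V) (by positivity)
    linarith
  obtain ⟨R, hR1, hR2⟩ := grid S q (by omega)
  have hRc : (R.card : ℝ) ≤ (k : ℝ) ^ (V + 1) := by
    have h3 : ((S.card / q : ℕ) : ℝ) ≤ (k : ℝ) ^ V := by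
      refine Nat.cast_div_le.trans ?_
      rw [div_le_iff₀ (by exact_mod_cast (by omega : 0 < q))]
      rw [div_lt_iff₀ (by positivity)] at hq1
      linarith
    have h4 : (R.card : ℝ) ≤ ((S.card / q : ℕ) : ℝ) + 1 := by exact_mod_cast hR1
    have h5 : (1 : ℝ) ≤ (k : ℝ) ^ V := one_le_pow₀ hk1
    rw [pow_succ]
    nlinarith
  obtain ⟨D, hD⟩ : ∃ D : (Fin r → ℕ) → ℕ → ℝ, ∀ c m, D c m = ∏ j, LI L ((c j : ℤ) + v j m) - ∏ j, lamzI z ((c j : ℤ) + v j m) :=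
    ⟨_, fun _ _ => rfl⟩
  have hsum : ∀ (c : Fin r → ℕ) (M : ℕ), ∑ i : {m // m ∈ S}, (if i.1 < M then w i.1 else 0) *
      (∏ j, LI L ((c j : ℤ) + v j i.1) - ∏ j, lamzI z ((c j : ℤ) + v j i.1)) = ∑ m ∈ S.filter (fun m => m < M), w m * D c m := by
    intro c M
    rw [sum_filter, ← sum_coe_sort S (fun m => if m < M then w m * D c m else 0)]
    apply sum_congr rfl
    intro i _
    rw [hD]
    split_ifs
    · rfl
    · rw [zero_mul]
  have h2 := h1 k (by omega) N hkN hNk {m // m ∈ S} (fun j i => v j i.1) (fun j i => hv j i.1 i.2)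
    (fun j => by
      have := hE j
      rwa [Fintype.card_coe]) z hz1 hz2 L hL R (fun M i => if i.1 < M then w i.1 else 0) hRc
    (fun g i => by
      split_ifs
      · exact hw i.1
      · rw [abs_zero]; positivity)
  simp only [hsum, Fintype.card_coe] at h2
  have hk2 : (2 : ℝ) ≤ k := by linarith
  have hfin : (∏ j, (N j : ℝ)) / (k : ℝ) ^ (U + 1) ≤ (∏ j, (N j : ℝ)) / (k : ℝ) ^ U := by
    apply div_le_div_of_nonneg_left hP0 (by positivity)
    exact pow_le_pow_right₀ hk1 (by omega)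
  refine le_trans ?_ (h2.trans hfin)
  apply Nat.cast_le.2
  apply card_le_card
  intro c hc
  rw [mem_filter] at hc ⊢
  obtain ⟨hc1, M, hM⟩ := hc
  refine ⟨hc1, ?_⟩
  rw [Fintype.mem_piFinset] at hc1
  simp only [← hD] at hM
  obtain ⟨M', hM'R, hM'M, hblk⟩ := hR2 M
  refine ⟨M', hM'R, ?_⟩
  -- the pointwise bound
  have hpt : ∀ m ∈ S, |w m * D c m| ≤ (k : ℝ) ^ T * (2 * (k : ℝ) ^ (3 * r)) := by
    intro m hm
    have hcv : ∀ l, (c l : ℤ) + v l m ≤ 2 * B * N l := by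
      intro l
      have h4 := (mem_Icc.1 (hc1 l)).2
      have h5 := (abs_le.1 (hv l m hm)).2
      have h6 : (c l : ℤ) ≤ B * N l := by exact_mod_cast h4
      linarith
    have e1 : |∏ l, lamzI z ((c l : ℤ) + v l m)| ≤ ((k : ℝ) ^ 3) ^ r := by
      apply prod_le_pow _ _ _ (one_le_pow₀ hk1)
      intro l _
      have h7 := hn1 (N l) (by have := hkj l; omega) z hz1' (hz2.trans (pow_le_pow_left₀ hkp.le (hkN l) E))
      have h8 : (0 : ℝ) ≤ (Vz z)⁻¹ := inv_nonneg.2 (Vz_pos z).le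
      have h9 : (k : ℝ) ^ 2 ≤ (k : ℝ) ^ 3 := pow_le_pow_right₀ hk1 (by norm_num)
      unfold lamzI lamz
      split_ifs
      · rw [abs_of_nonneg h8]
        linarith [hNk l]
      · rw [abs_zero]; positivity
      · rw [abs_zero]; positivity
    have e2 : |∏ l, LI L ((c l : ℤ) + v l m)| ≤ ((k : ℝ) ^ 3) ^ r := by
      apply prod_le_pow _ _ _ (one_le_pow₀ hk1)
      intro l _
      exact (hLb _).trans (lamI_le B (N l) k hK1k (hNk l) (hNpos l) _ (hcv l))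
    rw [abs_mul]
    apply mul_le_mul (hw m) _ (abs_nonneg _) (by positivity)
    rw [hD]
    refine (abs_sub _ _).trans ?_
    rw [← pow_mul] at e1 e2
    linarith
  have hsplit : ∑ m ∈ S.filter (fun m => m < M), w m * D c m = ∑ m ∈ S.filter (fun m => m < M'), w m * D c m +
      ∑ m ∈ S.filter (fun m => M' ≤ m ∧ m < M), w m * D c m := by
    rw [← sum_union]
    · apply sum_congr _ (fun _ _ => rfl)
      ext m
      simp only [mem_filter, mem_union]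
      constructor
      · rintro ⟨a, b⟩
        rcases Nat.lt_or_ge m M' with h | h
        · exact Or.inl ⟨a, h⟩
        · exact Or.inr ⟨a, h, b⟩
      · rintro (⟨a, b⟩ | ⟨a, b, c⟩)
        · exact ⟨a, b.trans_le hM'M⟩
        · exact ⟨a, c⟩
    · rw [disjoint_filter]
      intro m _ a b
      omega
  have hblock : |∑ m ∈ S.filter (fun m => M' ≤ m ∧ m < M), w m * D c m| ≤ (S.card : ℝ) / (k : ℝ) ^ U * (1 / 2) := by
    refine (abs_sum_le_sum_abs _ _).trans ?_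
    refine (sum_le_sum (fun m hm => hpt m (mem_filter.1 hm).1)).trans ?_
    rw [sum_const, nsmul_eq_mul]
    have h6 : ((S.filter (fun m => M' ≤ m ∧ m < M)).card : ℝ) ≤ 2 * ((S.card : ℝ) / (k : ℝ) ^ V) :=
      le_trans (by exact_mod_cast hblk) hq2
    refine (mul_le_mul_of_nonneg_right h6 (by positivity)).trans ?_
    have h7 : (k : ℝ) ^ V = (k : ℝ) ^ T * (k : ℝ) ^ (3 * r) * (k : ℝ) ^ U * (k : ℝ) ^ 2 := by
      rw [hV]
      rw [pow_add, pow_add, pow_add]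
    rw [h7]
    have h8 : 2 * ((S.card : ℝ) / ((k : ℝ) ^ T * (k : ℝ) ^ (3 * r) * (k : ℝ) ^ U * (k : ℝ) ^ 2)) * ((k : ℝ) ^ T * (2 * (k : ℝ) ^ (3 * r))) =
        (S.card : ℝ) / (k : ℝ) ^ U * (4 / (k : ℝ) ^ 2) := by
      field_simp
      ring
    rw [h8]
    apply mul_le_mul_of_nonneg_left _ (by positivity)
    rw [div_le_div_iff₀ (by positivity) (by norm_num)]
    nlinarith
  have h9 : (S.card : ℝ) / (k : ℝ) ^ U < |∑ m ∈ S.filter (fun m => m < M'), w m * D c m| + (S.card : ℝ) / (k : ℝ) ^ U * (1 / 2) := by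
    refine lt_of_lt_of_le hM ?_
    rw [hsplit]
    refine (abs_add_le _ _).trans ?_
    linarith
  have h10 : (S.card : ℝ) / (k : ℝ) ^ (U + 1) ≤ (S.card : ℝ) / (k : ℝ) ^ U * (1 / 2) := by
    rw [pow_succ]
    have h11 : (S.card : ℝ) / ((k : ℝ) ^ U * k) = (S.card : ℝ) / (k : ℝ) ^ U * (1 / k) := by
      field_simp
    rw [h11]
    apply mul_le_mul_of_nonneg_left _ (by positivity)
    exact one_div_le_one_div_of_le (by norm_num) hk2
  linarith

end Pool.Agent.Run7.h536.QC
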