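import Pool.Agent.Run7.h536.QC1

set_option autoImplicit false

/-! Prime values with almost all constant terms, for arguments from thin families: systems. -/

namespace Pool.Agent.Run7.h536.QC
open Finset
open Pool.Agent.TH212.EH (En dI_le large)
open Pool.Agent.W93.AU (dI)
open Pool.Agent.H373R2.T7

/-- the sum over one coordinate -/
lemma update_sum {r : ℕ} (M : Fin r → ℕ) (j : Fin r) (F : (Fin r → ℕ) → ℝ) :
    ∑ c ∈ Fintype.piFinset (fun l => Icc 1 (M l)), ∑ t ∈ Icc 1 (M j), F (Function.update c j t) =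
      (M j : ℝ) * ∑ c ∈ Fintype.piFinset (fun l => Icc 1 (M l)), F c := by
  classical
  have h1 : (M j : ℝ) * ∑ c ∈ Fintype.piFinset (fun l => Icc 1 (M l)), F c =
      ∑ c ∈ Fintype.piFinset (fun l => Icc 1 (M l)), ∑ _t ∈ Icc 1 (M j), F c := by
    rw [mul_sum]
    apply sum_congr rfl
    intro c _
    rw [sum_const, Nat.card_Icc, nsmul_eq_mul]
    simp
  rw [h1, ← sum_product', ← sum_product']
  apply sum_nbij' (fun q => (Function.update q.1 j q.2, q.1 j)) (fun q => (Function.update q.1 j q.2, q.1 j))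
  · rintro ⟨c, t⟩ hq
    rw [mem_product, Fintype.mem_piFinset] at hq ⊢
    refine ⟨fun l => ?_, hq.1 j⟩
    simp only [Function.update_apply]
    split_ifs with h
    · rw [h]; exact hq.2
    · exact hq.1 l
  · rintro ⟨c, t⟩ hq
    rw [mem_product, Fintype.mem_piFinset] at hq ⊢
    refine ⟨fun l => ?_, hq.1 j⟩
    simp only [Function.update_apply]
    split_ifs with h
    · rw [h]; exact hq.2
    · exact hq.1 l
  · rintro ⟨c, t⟩ _
    simp
  · rintro ⟨c, t⟩ _
    simp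
  · rintro ⟨c, t⟩ _
    rfl

lemma telescope {r : ℕ} (a b : Fin r → ℝ) : ∏ j, a j - ∏ j, b j =
    ∑ j, (a j - b j) * ((∏ l ∈ univ.filter (fun l => l < j), b l) * ∏ l ∈ univ.filter (fun l => j < l), a l) := by
  have h := Finset.prod_sub_ordered univ a (fun j => a j - b j)
  simp only [sub_sub_cancel] at h
  rw [h, sub_sub_cancel]
  apply sum_congr rfl
  intro j _
  ring

lemma prod_le_pow {r : ℕ} (s : Finset (Fin r)) (a : Fin r → ℝ) (L : ℝ) (hL : 1 ≤ L) (h : ∀ j ∈ s, |a j| ≤ L) :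
    |∏ j ∈ s, a j| ≤ L ^ r := by
  rw [abs_prod]
  calc ∏ j ∈ s, |a j| ≤ ∏ _j ∈ s, L := prod_le_prod (fun _ _ => abs_nonneg _) h
    _ = L ^ s.card := by rw [prod_const]
    _ ≤ L ^ r := pow_le_pow_right₀ hL ((card_le_univ s).trans (by simp))

/-- the weight of the telescoping argument -/
noncomputable def wt {r : ℕ} {ι : Type} (z : ℕ) (v : Fin r → ι → ℤ) (w : ι → ℝ) (j : Fin r) (c : Fin r → ℕ) (i : ι) : ℝ :=
  w i * ((∏ l ∈ univ.filter (fun l => l < j), lamzI z ((c l : ℤ) + v l i)) *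
    ∏ l ∈ univ.filter (fun l => j < l), lamI ((c l : ℤ) + v l i))

lemma wt_update {r : ℕ} {ι : Type} (z : ℕ) (v : Fin r → ι → ℤ) (w : ι → ℝ) (j : Fin r) (c : Fin r → ℕ) (i : ι) (t : ℕ) :
    wt z v w j (Function.update c j t) i = wt z v w j c i := by
  unfold wt
  congr 2
  · apply prod_congr rfl
    intro l hl
    rw [mem_filter] at hl
    rw [Function.update_of_ne hl.2.ne]
  · apply prod_congr rfl
    intro l hl
    rw [mem_filter] at hl
    rw [Function.update_of_ne hl.2.ne']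

lemma lamI_le (B N : ℕ) (k : ℝ) (hk : Real.log ((2 * B + 1 : ℕ) : ℝ) + 1 ≤ k) (hNk : Real.log N ≤ k ^ 2) (hN : 1 ≤ N)
    (m : ℤ) (hm : m ≤ 2 * B * N) : |lamI m| ≤ k ^ 3 := by
  have hk1 : 1 ≤ k := by
    have : 0 ≤ Real.log ((2 * B + 1 : ℕ) : ℝ) := Real.log_natCast_nonneg _
    linarith
  have hN0 : (0 : ℝ) < N := by exact_mod_cast hN
  rw [abs_of_nonneg (lamI_nonneg m)]
  unfold lamI
  split_ifs with h
  · refine ArithmeticFunction.vonMangoldt_le_log.trans ?_
    have h1 : ((m.toNat : ℕ) : ℝ) ≤ ((2 * B + 1 : ℕ) : ℝ) * N := by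
      have : m.toNat ≤ (2 * B + 1) * N := by
        zify
        rw [Int.toNat_of_nonneg (by omega)]
        nlinarith
      exact_mod_cast this
    have h2 : (0 : ℝ) < (m.toNat : ℕ) := by exact_mod_cast (by omega : 0 < m.toNat)
    refine (Real.log_le_log h2 h1).trans ?_
    rw [Real.log_mul (by positivity) hN0.ne']
    nlinarith [sq_nonneg (k - 1), mul_nonneg (by linarith : 0 ≤ k - 1) (sq_nonneg k)]
  · positivity

/-- systems -/
theorem sysk (r : ℕ) (p : Fin r → ℕ) (B C T U : ℕ) : ∃ B0 : ℕ, ∀ E : ℕ, ∃ k0 : ℕ, ∀ k : ℕ, k0 ≤ k → ∀ N : Fin r → ℕ,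
    (∀ j, (k : ℝ) ≤ Real.log (N j)) → (∀ j, Real.log (N j) ≤ (k : ℝ) ^ 2) → ∀ (ι : Type) [Fintype ι] (v : Fin r → ι → ℤ),
    (∀ j i, |v j i| ≤ B * N j) → (∀ j, (En (p j) (v j) : ℝ) * N j ≤ (k : ℝ) ^ C * (Fintype.card ι : ℝ) ^ (2 * p j)) →
    ∀ z : ℕ, (k : ℝ) ^ B0 ≤ z → (z : ℝ) ≤ (k : ℝ) ^ E → ∀ w : ι → ℝ, (∀ i, |w i| ≤ (k : ℝ) ^ T) →
    ∑ c ∈ Fintype.piFinset (fun j => Icc 1 (B * N j)),
      |∑ i, w i * (∏ j, lamI ((c j : ℤ) + v j i) - ∏ j, lamzI z ((c j : ℤ) + v j i))| ≤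
      (∏ j, (N j : ℝ)) * Fintype.card ι / (k : ℝ) ^ U := by
  classical
  choose B0 hB0 using fun j => dualk (p j) B C (T + 3 * r + 3 * r) (U + 1)
  refine ⟨∑ j, B0 j, fun E => ?_⟩
  choose k0 hk0 using fun j => hB0 j E
  obtain ⟨n1, hn1⟩ := Vz_inv_small E
  obtain ⟨K1, hK1⟩ := exists_nat_ge (Real.log ((2 * B + 1 : ℕ) : ℝ) + 1)
  refine ⟨∑ j, k0 j + n1 + K1 + B ^ r * r + 1, fun k hk N hkN hNk ι _ v hv hE z hz1 hz2 w hw => ?_⟩
  have hk1 : (1 : ℝ) ≤ k := by exact_mod_cast (by omega : 1 ≤ k)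
  have hkp : (0 : ℝ) < k := by linarith
  have hz1' : 1 ≤ z := by
    have h1 : (1 : ℝ) ≤ z := le_trans (one_le_pow₀ hk1) hz1
    exact_mod_cast h1
  have hNpos : ∀ j, 1 ≤ N j := by
    intro j
    rcases Nat.eq_zero_or_pos (N j) with h | h
    · have := hkN j
      rw [h, Nat.cast_zero, Real.log_zero] at this
      linarith
    · exact h
  have hkj : ∀ j, k ≤ N j := by
    intro j
    have h3 : (0 : ℝ) < N j := by exact_mod_cast hNpos j
    have h4 := Real.log_le_sub_one_of_pos h3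
    have h5 : (k : ℝ) ≤ N j := by linarith [hkN j]
    exact_mod_cast h5
  have hK1k : Real.log ((2 * B + 1 : ℕ) : ℝ) + 1 ≤ k := hK1.trans (by exact_mod_cast (by omega : K1 ≤ k))
  -- the telescoping sum
  have htel : ∀ c : Fin r → ℕ, |∑ i, w i * (∏ j, lamI ((c j : ℤ) + v j i) - ∏ j, lamzI z ((c j : ℤ) + v j i))| ≤
      ∑ j, |∑ i, wt z v w j c i * dI z ((c j : ℤ) + v j i)| := by
    intro c
    refine le_trans (le_of_eq ?_) (abs_sum_le_sum_abs _ _)
    congr 1
    rw [sum_comm]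
    apply sum_congr rfl
    intro i _
    rw [telescope, mul_sum]
    apply sum_congr rfl
    intro j _
    unfold wt dI
    ring
  -- one coordinate
  have hone : ∀ j : Fin r, (B * N j : ℕ) * ∑ c ∈ Fintype.piFinset (fun l => Icc 1 (B * N l)),
      |∑ i, wt z v w j c i * dI z ((c j : ℤ) + v j i)| ≤
      (∏ l, ((B * N l : ℕ) : ℝ)) * (N j * Fintype.card ι / (k : ℝ) ^ (U + 1)) := by
    intro j
    have h1 := update_sum (fun l => B * N l) j (fun c => |∑ i, wt z v w j c i * dI z ((c j : ℤ) + v j i)|)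
    beta_reduce at h1
    rw [← h1]
    have h2 : ∀ c ∈ Fintype.piFinset (fun l => Icc 1 (B * N l)), ∑ t ∈ Icc 1 (B * N j),
        |∑ i, wt z v w j (Function.update c j t) i * dI z (((Function.update c j t) j : ℤ) + v j i)| ≤
        N j * Fintype.card ι / (k : ℝ) ^ (U + 1) := by
      intro c hc
      rw [Fintype.mem_piFinset] at hc
      simp only [wt_update, Function.update_self]
      refine hk0 j k ?_ (N j) (hkN j) (hNk j) ι (v j) (hv j) (hE j) z ?_ hz2 (wt z v w j c) ?_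
      · have : k0 j ≤ ∑ j, k0 j := single_le_sum (f := k0) (fun _ _ => Nat.zero_le _) (mem_univ j)
        omega
      · refine le_trans (pow_le_pow_right₀ hk1 ?_) hz1
        exact single_le_sum (f := B0) (fun _ _ => Nat.zero_le _) (mem_univ j)
      · intro i
        have hcv : ∀ l, (c l : ℤ) + v l i ≤ 2 * B * N l := by
          intro l
          have h4 := (mem_Icc.1 (hc l)).2
          have h5 := (abs_le.1 (hv l i)).2
          have h6 : (c l : ℤ) ≤ B * N l := by exact_mod_cast h4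
          linarith
        have e1 : |∏ l ∈ univ.filter (fun l => l < j), lamzI z ((c l : ℤ) + v l i)| ≤ ((k : ℝ) ^ 3) ^ r := by
          apply prod_le_pow _ _ _ (one_le_pow₀ hk1)
          intro l _
          have h7 := hn1 (N l) (by have := hkj l; omega) z hz1' (hz2.trans (pow_le_pow_left₀ hkp.le (hkN l) E))
          have h8 : (0 : ℝ) ≤ (Vz z)⁻¹ := inv_nonneg.2 (Vz_pos z).le
          have h9 : (k : ℝ) ^ 2 ≤ (k : ℝ) ^ 3 := pow_le_pow_right₀ hk1 (by norm_num)
          unfold lamzI lamz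
          split_ifs
          · rw [abs_of_nonneg h8]
            linarith [hNk l]
          · rw [abs_zero]; positivity
          · rw [abs_zero]; positivity
        have e2 : |∏ l ∈ univ.filter (fun l => j < l), lamI ((c l : ℤ) + v l i)| ≤ ((k : ℝ) ^ 3) ^ r := by
          apply prod_le_pow _ _ _ (one_le_pow₀ hk1)
          intro l _
          exact lamI_le B (N l) k hK1k (hNk l) (hNpos l) _ (hcv l)
        unfold wt
        rw [abs_mul, abs_mul]
        calc |w i| * (|∏ l ∈ univ.filter (fun l => l < j), lamzI z ((c l : ℤ) + v l i)| *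
              |∏ l ∈ univ.filter (fun l => j < l), lamI ((c l : ℤ) + v l i)|)
            ≤ (k : ℝ) ^ T * (((k : ℝ) ^ 3) ^ r * ((k : ℝ) ^ 3) ^ r) := by
              apply mul_le_mul (hw i) _ (by positivity) (by positivity)
              exact mul_le_mul e1 e2 (abs_nonneg _) (by positivity)
          _ = (k : ℝ) ^ (T + 3 * r + 3 * r) := by
              rw [← pow_mul, pow_add, pow_add]
              ring
    refine (sum_le_sum h2).trans (le_of_eq ?_)
    rw [sum_const, nsmul_eq_mul, Fintype.card_piFinset]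
    simp
  -- the sum of the coordinates
  rcases Nat.eq_zero_or_pos B with hB | hB
  · subst hB
    rcases Nat.eq_zero_or_pos r with hr | hr
    · subst hr
      simp
      positivity
    · have h1 : Fintype.piFinset (fun j : Fin r => Icc 1 (0 * N j)) = ∅ := by
        apply eq_empty_of_forall_notMem
        intro c hc
        have h2 := Fintype.mem_piFinset.1 hc ⟨0, hr⟩
        rw [zero_mul, mem_Icc] at h2
        omega
      rw [h1, sum_empty]
      positivity
  have hP0 : (0 : ℝ) ≤ ∏ j, (N j : ℝ) := prod_nonneg (fun j _ => Nat.cast_nonneg _)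
  have hone' : ∀ j : Fin r, ∑ c ∈ Fintype.piFinset (fun l => Icc 1 (B * N l)),
      |∑ i, wt z v w j c i * dI z ((c j : ℤ) + v j i)| ≤
      (B : ℝ) ^ r * ((∏ l, (N l : ℝ)) * Fintype.card ι / (k : ℝ) ^ (U + 1)) := by
    intro j
    have h1 := hone j
    have hB1 : (1 : ℝ) ≤ B := by exact_mod_cast hB
    have hNj : (0 : ℝ) < N j := by exact_mod_cast hNpos j
    have e1 : (∏ l, ((B * N l : ℕ) : ℝ)) = (B : ℝ) ^ r * ∏ l, (N l : ℝ) := by
      push_cast
      rw [prod_mul_distrib, prod_const, card_univ, Fintype.card_fin]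
    rw [e1] at h1
    push_cast at h1
    have h2 : (0 : ℝ) ≤ (B : ℝ) ^ r * ((∏ l, (N l : ℝ)) * Fintype.card ι / (k : ℝ) ^ (U + 1)) := by positivity
    have h3 : (B : ℝ) * N j * ∑ c ∈ Fintype.piFinset (fun l => Icc 1 (B * N l)),
        |∑ i, wt z v w j c i * dI z ((c j : ℤ) + v j i)| ≤
        (B : ℝ) * N j * ((B : ℝ) ^ r * ((∏ l, (N l : ℝ)) * Fintype.card ι / (k : ℝ) ^ (U + 1))) := by
      refine h1.trans ?_
      have e2 : (B : ℝ) ^ r * (∏ l, (N l : ℝ)) * (N j * Fintype.card ι / (k : ℝ) ^ (U + 1)) =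
          N j * ((B : ℝ) ^ r * ((∏ l, (N l : ℝ)) * Fintype.card ι / (k : ℝ) ^ (U + 1))) := by ring
      rw [e2]
      apply mul_le_mul_of_nonneg_right _ h2
      nlinarith
    exact le_of_mul_le_mul_left h3 (by positivity)
  calc ∑ c ∈ Fintype.piFinset (fun j => Icc 1 (B * N j)),
      |∑ i, w i * (∏ j, lamI ((c j : ℤ) + v j i) - ∏ j, lamzI z ((c j : ℤ) + v j i))|
      ≤ ∑ c ∈ Fintype.piFinset (fun j => Icc 1 (B * N j)), ∑ j, |∑ i, wt z v w j c i * dI z ((c j : ℤ) + v j i)| :=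
        sum_le_sum (fun c _ => htel c)
    _ = ∑ j, ∑ c ∈ Fintype.piFinset (fun j => Icc 1 (B * N j)), |∑ i, wt z v w j c i * dI z ((c j : ℤ) + v j i)| :=
        sum_comm
    _ ≤ ∑ _j : Fin r, (B : ℝ) ^ r * ((∏ l, (N l : ℝ)) * Fintype.card ι / (k : ℝ) ^ (U + 1)) :=
        sum_le_sum (fun j _ => hone' j)
    _ = ((B ^ r * r : ℕ) : ℝ) * ((∏ l, (N l : ℝ)) * Fintype.card ι / (k : ℝ) ^ (U + 1)) := by
        rw [sum_const, card_univ, Fintype.card_fin, nsmul_eq_mul]
        push_cast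
        ring
    _ ≤ (k : ℝ) * ((∏ l, (N l : ℝ)) * Fintype.card ι / (k : ℝ) ^ (U + 1)) := by
        apply mul_le_mul_of_nonneg_right _ (by positivity)
        exact_mod_cast (by omega : B ^ r * r ≤ k)
    _ = _ := by
        rw [pow_succ]
        field_simp

end Pool.Agent.Run7.h536.QC
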