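import Pool.Agent.Run7.h536.QC2
import Pool.Agent.TH872.Sq.W12

set_option autoImplicit false

/-! Prime values with almost all constant terms, for arguments from thin families: from the von Mangoldt function to the
logarithm on the primes. -/

namespace Pool.Agent.Run7.h536.QC
open Finset
open Pool.Agent.TH212.EH (En dI_le large)
open Pool.Agent.W93.AU (dI)
open Pool.Agent.H373R2.T7
open Pool.Agent.TH872.Sq (th th_nonneg th_le dev_sum)

/-- extension to the integers -/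
noncomputable def LI (L : ℕ → ℝ) (n : ℤ) : ℝ := if 1 ≤ n then L n.toNat else 0

lemma pow_lt_two (V : ℕ) : ∃ k0 : ℕ, ∀ k : ℕ, k0 ≤ k → (k : ℝ) ^ V ≤ 2 ^ k := by
  have h := (tendsto_pow_const_div_const_pow_of_one_lt V (by norm_num : (1 : ℝ) < 2)).eventually_le_const (by norm_num : (0 : ℝ) < 1)
  obtain ⟨k0, hk0⟩ := Filter.eventually_atTop.1 h
  refine ⟨k0, fun k hk => ?_⟩
  have h1 := hk0 k hk
  rw [div_le_one (by positivity)] at h1
  exact h1

lemma dev_one (L : ℕ → ℝ) (hL : ∀ n, th n ≤ L n ∧ L n ≤ ArithmeticFunction.vonMangoldt n) (X : ℕ) (v : ℤ) (hX : 1 ≤ X)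
    (hv : |v| ≤ X) : ∑ t ∈ Icc 1 X, |LI L ((t : ℤ) + v) - lamI ((t : ℤ) + v)| ≤
      2 * Real.sqrt ((2 * X : ℕ) : ℝ) * Real.log ((2 * X : ℕ) : ℝ) := by
  classical
  refine le_trans ?_ (dev_sum (2 * X) (by omega))
  have h1 : ∀ t ∈ Icc 1 X, |LI L ((t : ℤ) + v) - lamI ((t : ℤ) + v)| ≤
      if 1 ≤ (t : ℤ) + v then ArithmeticFunction.vonMangoldt ((t : ℤ) + v).toNat - th ((t : ℤ) + v).toNat else 0 := by
    intro t _
    unfold LI lamI
    split_ifs with h
    · obtain ⟨h2, h3⟩ := hL ((t : ℤ) + v).toNat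
      rw [abs_sub_comm, abs_of_nonneg (by linarith)]
      linarith
    · rw [sub_zero, abs_zero]
  refine (sum_le_sum h1).trans ?_
  rw [← sum_filter]
  have h2 : ∑ t ∈ (Icc 1 X).filter (fun t : ℕ => 1 ≤ (t : ℤ) + v),
      (ArithmeticFunction.vonMangoldt ((t : ℤ) + v).toNat - th ((t : ℤ) + v).toNat) =
      ∑ m ∈ ((Icc 1 X).filter (fun t : ℕ => 1 ≤ (t : ℤ) + v)).image (fun t : ℕ => ((t : ℤ) + v).toNat),
        (ArithmeticFunction.vonMangoldt m - th m) := by
    rw [sum_image]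
    intro t ht t' ht' h
    rw [mem_coe, mem_filter] at ht ht'
    have := ht.2
    have := ht'.2
    simp only at h
    omega
  rw [h2]
  apply sum_le_sum_of_subset_of_nonneg
  · intro m hm
    rw [mem_image] at hm
    obtain ⟨t, ht, rfl⟩ := hm
    rw [mem_filter, mem_Icc] at ht
    have h3 := (abs_le.1 hv).2
    rw [mem_Icc]
    omega
  · intro m _ _
    have := th_le m
    linarith

/-- systems, for every function between the logarithm on the primes and the von Mangoldt function -/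
theorem sysL (r : ℕ) (p : Fin r → ℕ) (B C T U : ℕ) : ∃ B0 : ℕ, ∀ E : ℕ, ∃ k0 : ℕ, ∀ k : ℕ, k0 ≤ k → ∀ N : Fin r → ℕ,
    (∀ j, (k : ℝ) ≤ Real.log (N j)) → (∀ j, Real.log (N j) ≤ (k : ℝ) ^ 2) → ∀ (ι : Type) [Fintype ι] (v : Fin r → ι → ℤ),
    (∀ j i, |v j i| ≤ B * N j) → (∀ j, (En (p j) (v j) : ℝ) * N j ≤ (k : ℝ) ^ C * (Fintype.card ι : ℝ) ^ (2 * p j)) →
    ∀ z : ℕ, (k : ℝ) ^ B0 ≤ z → (z : ℝ) ≤ (k : ℝ) ^ E → ∀ L : ℕ → ℝ, (∀ n, th n ≤ L n ∧ L n ≤ ArithmeticFunction.vonMangoldt n) →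
    ∀ w : ι → ℝ, (∀ i, |w i| ≤ (k : ℝ) ^ T) →
    ∑ c ∈ Fintype.piFinset (fun j => Icc 1 (B * N j)),
      |∑ i, w i * (∏ j, LI L ((c j : ℤ) + v j i) - ∏ j, lamzI z ((c j : ℤ) + v j i))| ≤
      (∏ j, (N j : ℝ)) * Fintype.card ι / (k : ℝ) ^ U := by
  classical
  obtain ⟨B0, h0⟩ := sysk r p B C T (U + 1)
  refine ⟨B0, fun E => ?_⟩
  obtain ⟨k0, h1⟩ := h0 E
  obtain ⟨W, hW⟩ : ∃ W, W = T + 3 * r + 3 * r + U + 1 := ⟨_, rfl⟩
  obtain ⟨k1, h2⟩ := pow_lt_two (2 * (W + 4))
  obtain ⟨K1, hK1⟩ := exists_nat_ge (Real.log ((2 * B + 1 : ℕ) : ℝ) + 1)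
  refine ⟨k0 + k1 + K1 + 4 * B ^ r * (r + 1) + 2, fun k hk N hkN hNk ι _ v hv hE z hz1 hz2 L hL w hw => ?_⟩
  have hk2 : (2 : ℝ) ≤ k := by exact_mod_cast (by omega : 2 ≤ k)
  have hk1 : (1 : ℝ) ≤ k := by linarith
  have hkp : (0 : ℝ) < k := by linarith
  have hNpos : ∀ j, 1 ≤ N j := by
    intro j
    rcases Nat.eq_zero_or_pos (N j) with h | h
    · have := hkN j
      rw [h, Nat.cast_zero, Real.log_zero] at this
      linarith
    · exact h
  have hK1k : Real.log ((2 * B + 1 : ℕ) : ℝ) + 1 ≤ k := hK1.trans (by exact_mod_cast (by omega : K1 ≤ k))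
  have hP0 : (0 : ℝ) ≤ ∏ j, (N j : ℝ) := prod_nonneg (fun j _ => Nat.cast_nonneg _)
  have hLb : ∀ m : ℤ, |LI L m| ≤ |lamI m| := by
    intro m
    rw [abs_of_nonneg (lamI_nonneg m)]
    unfold LI lamI
    split_ifs with h
    · obtain ⟨h3, h4⟩ := hL m.toNat
      have := th_nonneg m.toNat
      rw [abs_of_nonneg (by linarith)]
      exact h4
    · rw [abs_zero]
  rcases Nat.eq_zero_or_pos B with hB | hB
  · subst hB
    rcases Nat.eq_zero_or_pos r with hr | hr
    · subst hr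
      simp
      positivity
    · have h1 : Fintype.piFinset (fun j : Fin r => Icc 1 (0 * N j)) = ∅ := by
        apply eq_empty_of_forall_notMem
        intro c hc
        have h2 := Fintype.mem_piFinset.1 hc ⟨0, hr⟩
        rw [zero_mul, mem_Icc] at h2
        omega
      rw [h1, sum_empty]
      positivity
  have hB1 : (1 : ℝ) ≤ B := by exact_mod_cast hB
  -- the telescoping sum
  have htel : ∀ c ∈ Fintype.piFinset (fun j => Icc 1 (B * N j)), |∑ i, w i * (∏ j, LI L ((c j : ℤ) + v j i) - ∏ j, lamI ((c j : ℤ) + v j i))| ≤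
      ∑ i, ∑ j, (k : ℝ) ^ (T + 3 * r + 3 * r) * |LI L ((c j : ℤ) + v j i) - lamI ((c j : ℤ) + v j i)| := by
    intro c hc
    rw [Fintype.mem_piFinset] at hc
    refine (abs_sum_le_sum_abs _ _).trans ?_
    apply sum_le_sum
    intro i _
    have hcv : ∀ l, (c l : ℤ) + v l i ≤ 2 * B * N l := by
      intro l
      have h4 := (mem_Icc.1 (hc l)).2
      have h5 := (abs_le.1 (hv l i)).2
      have h6 : (c l : ℤ) ≤ B * N l := by exact_mod_cast h4
      linarith
    rw [telescope, mul_sum]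
    refine (abs_sum_le_sum_abs _ _).trans ?_
    apply sum_le_sum
    intro j _
    have e1 : |∏ l ∈ univ.filter (fun l => l < j), lamI ((c l : ℤ) + v l i)| ≤ ((k : ℝ) ^ 3) ^ r := by
      apply prod_le_pow _ _ _ (one_le_pow₀ hk1)
      intro l _
      exact lamI_le B (N l) k hK1k (hNk l) (hNpos l) _ (hcv l)
    have e2 : |∏ l ∈ univ.filter (fun l => j < l), LI L ((c l : ℤ) + v l i)| ≤ ((k : ℝ) ^ 3) ^ r := by
      apply prod_le_pow _ _ _ (one_le_pow₀ hk1)
      intro l _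
      exact (hLb _).trans (lamI_le B (N l) k hK1k (hNk l) (hNpos l) _ (hcv l))
    rw [abs_mul, abs_mul, abs_mul]
    calc |w i| * (|LI L ((c j : ℤ) + v j i) - lamI ((c j : ℤ) + v j i)| *
          (|∏ l ∈ univ.filter (fun l => l < j), lamI ((c l : ℤ) + v l i)| * |∏ l ∈ univ.filter (fun l => j < l), LI L ((c l : ℤ) + v l i)|))
        ≤ (k : ℝ) ^ T * (|LI L ((c j : ℤ) + v j i) - lamI ((c j : ℤ) + v j i)| * (((k : ℝ) ^ 3) ^ r * ((k : ℝ) ^ 3) ^ r)) := by
          apply mul_le_mul (hw i) _ (by positivity) (by positivity)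
          apply mul_le_mul_of_nonneg_left _ (abs_nonneg _)
          exact mul_le_mul e1 e2 (abs_nonneg _) (by positivity)
      _ = _ := by
          rw [← pow_mul, pow_add, pow_add]
          ring
  -- one coordinate
  have hone : ∀ (j : Fin r) (i : ι), ∑ c ∈ Fintype.piFinset (fun l => Icc 1 (B * N l)), |LI L ((c j : ℤ) + v j i) - lamI ((c j : ℤ) + v j i)| ≤
      (∏ l, (N l : ℝ)) * ((B : ℝ) ^ r * (4 * (k : ℝ) ^ 3 / Real.sqrt (N j))) := by
    intro j i
    have hNj : (1 : ℝ) ≤ N j := by exact_mod_cast hNpos j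
    have h3 := update_sum (fun l => B * N l) j (fun c => |LI L ((c j : ℤ) + v j i) - lamI ((c j : ℤ) + v j i)|)
    simp only [Function.update_self] at h3
    have h4 := dev_one L hL (B * N j) (v j i) (Nat.mul_pos hB (hNpos j)) (by exact_mod_cast hv j i)
    have h5 : ∑ c ∈ Fintype.piFinset (fun l => Icc 1 (B * N l)), ∑ t ∈ Icc 1 (B * N j), |LI L ((t : ℤ) + v j i) - lamI ((t : ℤ) + v j i)| ≤
        (∏ l, ((B * N l : ℕ) : ℝ)) * (2 * Real.sqrt ((2 * (B * N j) : ℕ) : ℝ) * Real.log ((2 * (B * N j) : ℕ) : ℝ)) := by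
      rw [sum_const, nsmul_eq_mul, Fintype.card_piFinset]
      simp only [Nat.card_Icc, Nat.add_sub_cancel, Nat.cast_prod]
      exact mul_le_mul_of_nonneg_left h4 (prod_nonneg (fun l _ => Nat.cast_nonneg _))
    rw [h3] at h5
    have e1 : (∏ l, ((B * N l : ℕ) : ℝ)) = (B : ℝ) ^ r * ∏ l, (N l : ℝ) := by
      push_cast
      rw [prod_mul_distrib, prod_const, card_univ, Fintype.card_fin]
    rw [e1] at h5
    have hlog : Real.log ((2 * (B * N j) : ℕ) : ℝ) ≤ (k : ℝ) ^ 3 := by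
      have h6 : ((2 * (B * N j) : ℕ) : ℝ) ≤ ((2 * B + 1 : ℕ) : ℝ) * N j := by
        push_cast
        nlinarith
      refine (Real.log_le_log (by push_cast; positivity) h6).trans ?_
      rw [Real.log_mul (by positivity) (by positivity)]
      have := hNk j
      nlinarith [sq_nonneg ((k : ℝ) - 1), mul_nonneg (by linarith : 0 ≤ (k : ℝ) - 1) (sq_nonneg (k : ℝ))]
    have hsq : Real.sqrt ((2 * (B * N j) : ℕ) : ℝ) ≤ 2 * (B * N j) / Real.sqrt (N j) := by
      rw [le_div_iff₀ (Real.sqrt_pos.2 (by linarith)), ← Real.sqrt_mul (Nat.cast_nonneg _)]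
      rw [Real.sqrt_le_left (by positivity)]
      push_cast
      nlinarith [mul_nonneg (by linarith : (0 : ℝ) ≤ B - 1) (by positivity : (0 : ℝ) ≤ (N j : ℝ) ^ 2 * B)]
    have hlog0 : 0 ≤ Real.log ((2 * (B * N j) : ℕ) : ℝ) := Real.log_natCast_nonneg _
    have h7 : ((B * N j : ℕ) : ℝ) * ∑ c ∈ Fintype.piFinset (fun l => Icc 1 (B * N l)), |LI L ((c j : ℤ) + v j i) - lamI ((c j : ℤ) + v j i)| ≤
        ((B * N j : ℕ) : ℝ) * ((∏ l, (N l : ℝ)) * ((B : ℝ) ^ r * (4 * (k : ℝ) ^ 3 / Real.sqrt (N j)))) := by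
      refine h5.trans ?_
      calc (B : ℝ) ^ r * (∏ l, (N l : ℝ)) * (2 * Real.sqrt ((2 * (B * N j) : ℕ) : ℝ) * Real.log ((2 * (B * N j) : ℕ) : ℝ))
          ≤ (B : ℝ) ^ r * (∏ l, (N l : ℝ)) * (2 * (2 * (B * N j) / Real.sqrt (N j)) * (k : ℝ) ^ 3) := by
            apply mul_le_mul_of_nonneg_left _ (by positivity)
            apply mul_le_mul _ hlog hlog0 (by positivity)
            exact mul_le_mul_of_nonneg_left hsq (by norm_num)
        _ = _ := by
            push_cast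
            ring
    exact le_of_mul_le_mul_left h7 (by exact_mod_cast Nat.mul_pos hB (hNpos j))
  have hdev : ∑ c ∈ Fintype.piFinset (fun j => Icc 1 (B * N j)), |∑ i, w i * (∏ j, LI L ((c j : ℤ) + v j i) - ∏ j, lamI ((c j : ℤ) + v j i))| ≤
      (∏ j, (N j : ℝ)) * Fintype.card ι / (k : ℝ) ^ (U + 1) := by
    calc _ ≤ ∑ c ∈ Fintype.piFinset (fun j => Icc 1 (B * N j)), ∑ i, ∑ j, (k : ℝ) ^ (T + 3 * r + 3 * r) *
            |LI L ((c j : ℤ) + v j i) - lamI ((c j : ℤ) + v j i)| := sum_le_sum htel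
      _ = ∑ i, ∑ j, (k : ℝ) ^ (T + 3 * r + 3 * r) * ∑ c ∈ Fintype.piFinset (fun j => Icc 1 (B * N j)),
            |LI L ((c j : ℤ) + v j i) - lamI ((c j : ℤ) + v j i)| := by
          rw [sum_comm]
          apply sum_congr rfl
          intro i _
          rw [sum_comm]
          apply sum_congr rfl
          intro j _
          rw [mul_sum]
      _ ≤ ∑ _i : ι, ∑ _j : Fin r, (∏ j, (N j : ℝ)) / ((r + 1) * (k : ℝ) ^ (U + 1)) := by
          apply sum_le_sum
          intro i _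
          apply sum_le_sum
          intro j _
          refine (mul_le_mul_of_nonneg_left (hone j i) (by positivity)).trans ?_
          have hNe : (2 : ℝ) ^ k ≤ N j := by
            have h6 : Real.exp k ≤ N j := by
              rw [← Real.le_log_iff_exp_le (by exact_mod_cast hNpos j)]
              exact hkN j
            have h7 : (2 : ℝ) ^ k ≤ Real.exp 1 ^ k := pow_le_pow_left₀ (by norm_num) (by linarith [Real.exp_one_gt_d9]) k
            rw [← Real.exp_nat_mul, mul_one] at h7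
            exact h7.trans h6
          have hsq : (k : ℝ) ^ (W + 4) ≤ Real.sqrt (N j) := by
            apply Real.le_sqrt_of_sq_le
            rw [← pow_mul, mul_comm (W + 4) 2]
            exact (h2 k (by omega)).trans hNe
          have hkB : ((4 * B ^ r * (r + 1) : ℕ) : ℝ) ≤ k := by exact_mod_cast (by omega : 4 * B ^ r * (r + 1) ≤ k)
          push_cast at hkB
          have hs0 : 0 < Real.sqrt (N j) := lt_of_lt_of_le (by positivity) hsq
          rw [le_div_iff₀ (by positivity)]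
          have e3 : (k : ℝ) ^ (T + 3 * r + 3 * r) * ((∏ l, (N l : ℝ)) * ((B : ℝ) ^ r * (4 * (k : ℝ) ^ 3 / Real.sqrt (N j)))) *
              ((r + 1) * (k : ℝ) ^ (U + 1)) = (∏ l, (N l : ℝ)) * ((4 * (B : ℝ) ^ r * (r + 1)) * (k : ℝ) ^ (W + 3) / Real.sqrt (N j)) := by
            rw [hW]
            rw [show T + 3 * r + 3 * r + U + 1 + 3 = (T + 3 * r + 3 * r) + (U + 1) + 3 by ring, pow_add (k : ℝ) (T + 3 * r + 3 * r + (U + 1)),
              pow_add (k : ℝ) (T + 3 * r + 3 * r)]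
            ring
          rw [e3]
          refine (mul_le_mul_of_nonneg_left ?_ hP0).trans (le_of_eq (mul_one _))
          rw [div_le_one hs0]
          calc (4 * (B : ℝ) ^ r * (r + 1)) * (k : ℝ) ^ (W + 3) ≤ k * (k : ℝ) ^ (W + 3) := mul_le_mul_of_nonneg_right hkB (by positivity)
            _ = (k : ℝ) ^ (W + 4) := by ring
            _ ≤ _ := hsq
      _ = Fintype.card ι * (r * ((∏ j, (N j : ℝ)) / ((r + 1) * (k : ℝ) ^ (U + 1)))) := by
          rw [sum_const, sum_const, card_univ, card_univ, Fintype.card_fin, nsmul_eq_mul, nsmul_eq_mul]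
      _ ≤ _ := by
          have e4 : (Fintype.card ι : ℝ) * (r * ((∏ j, (N j : ℝ)) / ((r + 1) * (k : ℝ) ^ (U + 1)))) =
              ((∏ j, (N j : ℝ)) * Fintype.card ι / (k : ℝ) ^ (U + 1)) * (r / (r + 1)) := by
            field_simp
          rw [e4]
          refine (mul_le_mul_of_nonneg_left ?_ (by positivity)).trans (le_of_eq (mul_one _))
          rw [div_le_one (by positivity)]
          linarith
  have hmain := h1 k (by omega) N hkN hNk ι v hv hE z hz1 hz2 w hw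
  calc ∑ c ∈ Fintype.piFinset (fun j => Icc 1 (B * N j)),
      |∑ i, w i * (∏ j, LI L ((c j : ℤ) + v j i) - ∏ j, lamzI z ((c j : ℤ) + v j i))|
      ≤ ∑ c ∈ Fintype.piFinset (fun j => Icc 1 (B * N j)),
        (|∑ i, w i * (∏ j, LI L ((c j : ℤ) + v j i) - ∏ j, lamI ((c j : ℤ) + v j i))| +
          |∑ i, w i * (∏ j, lamI ((c j : ℤ) + v j i) - ∏ j, lamzI z ((c j : ℤ) + v j i))|) := by
        apply sum_le_sum
        intro c _
        refine le_trans (le_of_eq ?_) (abs_add_le _ _)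
        congr 1
        rw [← sum_add_distrib]
        apply sum_congr rfl
        intro i _
        ring
    _ = _ := sum_add_distrib
    _ ≤ (∏ j, (N j : ℝ)) * Fintype.card ι / (k : ℝ) ^ (U + 1) + (∏ j, (N j : ℝ)) * Fintype.card ι / (k : ℝ) ^ (U + 1) :=
        add_le_add hdev hmain
    _ ≤ _ := by
        have e5 : (∏ j, (N j : ℝ)) * Fintype.card ι / (k : ℝ) ^ (U + 1) = (∏ j, (N j : ℝ)) * Fintype.card ι / (k : ℝ) ^ U * (1 / k) := by
          rw [pow_succ]
          field_simp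
        rw [e5]
        have e6 : (1 : ℝ) / k ≤ 1 / 2 := one_div_le_one_div_of_le (by norm_num) hk2
        have e7 : (0 : ℝ) ≤ (∏ j, (N j : ℝ)) * Fintype.card ι / (k : ℝ) ^ U := by positivity
        nlinarith

end Pool.Agent.Run7.h536.QC
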