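import Pool.Agent.Run7.h536.QC2b

set_option autoImplicit false

/-! Prime values with almost all constant terms, for arguments from thin families: all initial segments. -/

namespace Pool.Agent.Run7.h536.QC
open Finset
open Pool.Agent.TH212.EH (En dI_le large)
open Pool.Agent.W93.AU (dI)
open Pool.Agent.H373R2.T7
open Pool.Agent.TH872.Sq (th th_nonneg th_le)

open Classical in
/-- almost all vectors of constant terms, several weights -/
theorem almost (r : ℕ) (p : Fin r → ℕ) (B C T V U : ℕ) : ∃ B0 : ℕ, ∀ E : ℕ, ∃ k0 : ℕ, ∀ k : ℕ, k0 ≤ k → ∀ N : Fin r → ℕ,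
    (∀ j, (k : ℝ) ≤ Real.log (N j)) → (∀ j, Real.log (N j) ≤ (k : ℝ) ^ 2) → ∀ (ι : Type) [Fintype ι] (v : Fin r → ι → ℤ),
    (∀ j i, |v j i| ≤ B * N j) → (∀ j, (En (p j) (v j) : ℝ) * N j ≤ (k : ℝ) ^ C * (Fintype.card ι : ℝ) ^ (2 * p j)) →
    ∀ z : ℕ, (k : ℝ) ^ B0 ≤ z → (z : ℝ) ≤ (k : ℝ) ^ E → ∀ L : ℕ → ℝ, (∀ n, th n ≤ L n ∧ L n ≤ ArithmeticFunction.vonMangoldt n) → 
    ∀ (R : Finset ℕ) (w : ℕ → ι → ℝ), (R.card : ℝ) ≤ (k : ℝ) ^ V →
    (∀ g i, |w g i| ≤ (k : ℝ) ^ T) →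
    (((Fintype.piFinset (fun j => Icc 1 (B * N j))).filter (fun c : Fin r → ℕ => ∃ g ∈ R, Fintype.card ι / (k : ℝ) ^ U <
      |∑ i, w g i * (∏ j, LI L ((c j : ℤ) + v j i) - ∏ j, lamzI z ((c j : ℤ) + v j i))|)).card : ℝ) ≤
      (∏ j, (N j : ℝ)) / (k : ℝ) ^ U := by
  obtain ⟨B0, h0⟩ := sysL r p B C T (U + U + V)
  refine ⟨B0, fun E => ?_⟩
  obtain ⟨k0, h1⟩ := h0 E
  refine ⟨k0 + 1, fun k hk N hkN hNk ι _ v hv hE z hz1 hz2 L hL R w hR hw => ?_⟩
  have hk1 : (1 : ℝ) ≤ k := by exact_mod_cast (by omega : 1 ≤ k)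
  have hkp : (0 : ℝ) < k := by linarith
  have hP0 : (0 : ℝ) ≤ ∏ j, (N j : ℝ) := prod_nonneg (fun j _ => Nat.cast_nonneg _)
  rcases Nat.eq_zero_or_pos (Fintype.card ι) with h00 | h00
  · have hemp : IsEmpty ι := Fintype.card_eq_zero_iff.1 h00
    have : (Fintype.piFinset (fun j => Icc 1 (B * N j))).filter (fun c : Fin r → ℕ => ∃ g ∈ R, Fintype.card ι / (k : ℝ) ^ U <
      |∑ i, w g i * (∏ j, LI L ((c j : ℤ) + v j i) - ∏ j, lamzI z ((c j : ℤ) + v j i))|) = ∅ := by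
      apply filter_eq_empty_iff.2
      intro c _
      push Not
      intro g _
      rw [univ_eq_empty, sum_empty, abs_zero]
      positivity
    rw [this, card_empty, Nat.cast_zero]
    positivity
  have hc0 : (0 : ℝ) < Fintype.card ι := by exact_mod_cast h00
  obtain ⟨F, hF⟩ : ∃ F : ℕ → (Fin r → ℕ) → ℝ, ∀ g c, F g c =
    |∑ i, w g i * (∏ j, LI L ((c j : ℤ) + v j i) - ∏ j, lamzI z ((c j : ℤ) + v j i))| := ⟨_, fun _ _ => rfl⟩
  have hF0 : ∀ g c, 0 ≤ F g c := fun g c => by rw [hF]; exact abs_nonneg _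
  simp only [← hF]
  have h2 : ∀ g, ∑ c ∈ Fintype.piFinset (fun j => Icc 1 (B * N j)), F g c ≤
      (∏ j, (N j : ℝ)) * Fintype.card ι / (k : ℝ) ^ (U + U + V) := by
    intro g
    simp only [hF]
    exact h1 k (by omega) N hkN hNk ι v hv hE z hz1 hz2 L hL (w g) (hw g)
  obtain ⟨Bd, hBd⟩ : ∃ Bd, Bd = (Fintype.piFinset (fun j => Icc 1 (B * N j))).filter (fun c : Fin r → ℕ => ∃ g ∈ R,
    Fintype.card ι / (k : ℝ) ^ U < F g c) := ⟨_, rfl⟩
  rw [← hBd]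
  have h3 : (Bd.card : ℝ) * (Fintype.card ι / (k : ℝ) ^ U) ≤ (k : ℝ) ^ V * ((∏ j, (N j : ℝ)) * Fintype.card ι / (k : ℝ) ^ (U + U + V)) := by
    calc (Bd.card : ℝ) * (Fintype.card ι / (k : ℝ) ^ U) = ∑ _c ∈ Bd, (Fintype.card ι / (k : ℝ) ^ U) := by
          rw [sum_const, nsmul_eq_mul]
      _ ≤ ∑ c ∈ Bd, ∑ g ∈ R, F g c := by
          apply sum_le_sum
          intro c hc
          rw [hBd, mem_filter] at hc
          obtain ⟨_, g, hg, h4⟩ := hc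
          exact h4.le.trans (single_le_sum (f := fun g => F g c) (fun g _ => hF0 g c) hg)
      _ ≤ ∑ c ∈ Fintype.piFinset (fun j => Icc 1 (B * N j)), ∑ g ∈ R, F g c := by
          apply sum_le_sum_of_subset_of_nonneg
          · rw [hBd]; exact filter_subset _ _
          · intro c _ _
            exact sum_nonneg (fun g _ => hF0 g c)
      _ = ∑ g ∈ R, ∑ c ∈ Fintype.piFinset (fun j => Icc 1 (B * N j)), F g c := sum_comm
      _ ≤ ∑ _g ∈ R, ((∏ j, (N j : ℝ)) * Fintype.card ι / (k : ℝ) ^ (U + U + V)) := sum_le_sum (fun g _ => h2 g)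
      _ = R.card * ((∏ j, (N j : ℝ)) * Fintype.card ι / (k : ℝ) ^ (U + U + V)) := by rw [sum_const, nsmul_eq_mul]
      _ ≤ _ := mul_le_mul_of_nonneg_right hR (by positivity)
  have h5 : (k : ℝ) ^ V * ((∏ j, (N j : ℝ)) * Fintype.card ι / (k : ℝ) ^ (U + U + V)) =
      (∏ j, (N j : ℝ)) / (k : ℝ) ^ U * (Fintype.card ι / (k : ℝ) ^ U) := by
    rw [pow_add, pow_add]
    field_simp
  rw [h5] at h3
  exact le_of_mul_le_mul_right h3 (by positivity)

/-- a grid for initial segments -/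
lemma grid (S : Finset ℕ) (q : ℕ) (hq : 1 ≤ q) : ∃ R : Finset ℕ, R.card ≤ S.card / q + 1 ∧
    ∀ M : ℕ, ∃ M' ∈ R, M' ≤ M ∧ (S.filter (fun m => M' ≤ m ∧ m < M)).card ≤ q := by
  classical
  obtain ⟨cnt, hcnt⟩ : ∃ cnt : ℕ → ℕ, ∀ M, cnt M = (S.filter (fun m => m < M)).card := ⟨_, fun _ => rfl⟩
  have hle : ∀ M, cnt M ≤ S.card := fun M => by rw [hcnt]; exact card_le_card (filter_subset _ _)
  refine ⟨(range (S.card / q + 1)).image (fun g => sInf {M | g * q ≤ cnt M}), ?_, fun M => ?_⟩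
  · exact card_image_le.trans (by rw [card_range])
  have h1 : (cnt M / q) * q ≤ cnt M := Nat.div_mul_le_self _ _
  have hne : {M' | (cnt M / q) * q ≤ cnt M'}.Nonempty := ⟨M, h1⟩
  have h2 : (cnt M / q) * q ≤ cnt (sInf {M' | (cnt M / q) * q ≤ cnt M'}) := Nat.sInf_mem hne
  have h3 : sInf {M' | (cnt M / q) * q ≤ cnt M'} ≤ M := Nat.sInf_le h1
  refine ⟨sInf {M' | (cnt M / q) * q ≤ cnt M'}, ?_, h3, ?_⟩
  · rw [mem_image]
    refine ⟨cnt M / q, ?_, rfl⟩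
    rw [mem_range]
    exact Nat.lt_succ_of_le (Nat.div_le_div_right (hle M))
  obtain ⟨M', hM'⟩ : ∃ M', M' = sInf {M' | (cnt M / q) * q ≤ cnt M'} := ⟨_, rfl⟩
  rw [← hM'] at h2 h3 ⊢
  have h4 : cnt M = cnt M' + (S.filter (fun m => M' ≤ m ∧ m < M)).card := by
    rw [hcnt, hcnt, ← card_union_of_disjoint]
    · congr 1
      ext m
      simp only [mem_filter, mem_union]
      constructor
      · rintro ⟨a, b⟩
        rcases Nat.lt_or_ge m M' with h | h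
        · exact Or.inl ⟨a, h⟩
        · exact Or.inr ⟨a, h, b⟩
      · rintro (⟨a, b⟩ | ⟨a, b, c⟩)
        · exact ⟨a, b.trans_le h3⟩
        · exact ⟨a, c⟩
    · rw [disjoint_filter]
      intro m _ a b
      omega
  have h5 : cnt M < (cnt M / q) * q + q := by
    have := Nat.lt_div_mul_add (a := cnt M) (b := q) (by omega)
    exact this
  omega

end Pool.Agent.Run7.h536.QC
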