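import Pool.Agent.Run7.h536.QC6

set_option autoImplicit false

/-! Prime values with almost all constant terms at products of integers with restricted digits. -/

namespace Pool.Agent.Run7.h536.QC
open Finset Polynomial
open Pool.Agent.TH212.EH (En large)
open Pool.Agent.H373R2.T7
open Pool.Agent.TH872.Sq (SD th)

open Classical in
/-- from natural numbers to integers as constant terms -/
theorem almost_int (r : ℕ) (p : Fin r → ℕ) (B C T U : ℕ) : ∃ B0 : ℕ, ∀ E : ℕ, ∃ k0 : ℕ, ∀ k : ℕ, k0 ≤ k → ∀ N : Fin r → ℕ,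
    (∀ j, (k : ℝ) ≤ Real.log (N j)) → (∀ j, Real.log (N j) ≤ (k : ℝ) ^ 2) → ∀ (ι : Type) [Fintype ι] (v : Fin r → ι → ℤ),
    (∀ j i, |v j i| ≤ B * N j) →
    (∀ j, (En (p j) (fun i => v j i - (B * N j + 1)) : ℝ) * N j ≤ (k : ℝ) ^ C * (Fintype.card ι : ℝ) ^ (2 * p j)) →
    ∀ z : ℕ, (k : ℝ) ^ B0 ≤ z → (z : ℝ) ≤ (k : ℝ) ^ E → ∀ L : ℕ → ℝ, (∀ n, th n ≤ L n ∧ L n ≤ ArithmeticFunction.vonMangoldt n) →
    ∀ w : ι → ℝ, (∀ i, |w i| ≤ (k : ℝ) ^ T) →
    (((Fintype.piFinset (fun j => Icc (-((B : ℤ) * N j)) ((B : ℤ) * N j))).filter (fun c : Fin r → ℤ => Fintype.card ι / (k : ℝ) ^ U <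
      |∑ i, w i * (∏ j, LI L (v j i + c j) - ∏ j, lamzI z (v j i + c j))|)).card : ℝ) ≤
      (∏ j, (N j : ℝ)) / (k : ℝ) ^ U := by
  obtain ⟨B0, h0⟩ := almost r p (2 * B + 1) C T 0 U
  refine ⟨B0, fun E => ?_⟩
  obtain ⟨k0, h1⟩ := h0 E
  refine ⟨k0 + 1, fun k hk N hkN hNk ι _ v hv hE z hz1 hz2 L hL w hw => ?_⟩
  have hk1 : (1 : ℝ) ≤ k := by exact_mod_cast (by omega : 1 ≤ k)
  have hNpos : ∀ j, 1 ≤ N j := by
    intro j
    rcases Nat.eq_zero_or_pos (N j) with h | h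
    · have := hkN j
      rw [h, Nat.cast_zero, Real.log_zero] at this
      linarith
    · exact h
  have h5 := h1 k (by omega) N hkN hNk ι (fun j i => v j i - (B * N j + 1)) ?_ hE z hz1 hz2 L hL {0} (fun _ => w) (by simp) (fun _ => hw)
  · refine le_trans ?_ h5
    apply Nat.cast_le.2
    apply card_le_card_of_injOn (fun (c : Fin r → ℤ) (j : Fin r) => (c j + ((B : ℤ) * N j + 1)).toNat)
    · intro c hc
      rw [mem_coe, mem_filter, Fintype.mem_piFinset] at hc ⊢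
      obtain ⟨hc1, hM⟩ := hc
      have hcj : ∀ j, (((c j + (B * N j + 1)).toNat : ℕ) : ℤ) = c j + (B * N j + 1) := by
        intro j
        have := mem_Icc.1 (hc1 j)
        omega
      refine ⟨fun j => ?_, 0, mem_singleton_self 0, ?_⟩
      · have h6 := mem_Icc.1 (hc1 j)
        have h7 := hcj j
        rw [mem_Icc]
        constructor
        · change 1 ≤ (c j + ((B : ℤ) * N j + 1)).toNat
          have h9 : (1 : ℤ) ≤ ((c j + ((B : ℤ) * N j + 1)).toNat : ℕ) := by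
            rw [h7]
            linarith [h6.1]
          exact_mod_cast h9
        · have h8 : ((((c j + (B * N j + 1)).toNat : ℕ) : ℤ)) ≤ (((2 * B + 1) * N j : ℕ) : ℤ) := by
            rw [h7]
            push_cast
            have := hNpos j
            nlinarith
          exact_mod_cast h8
      · refine lt_of_lt_of_le hM (le_of_eq ?_)
        congr 1
        apply sum_congr rfl
        intro i _
        have e1 : ∀ j, ((c j + (B * N j + 1)).toNat : ℤ) + (v j i - (B * N j + 1)) = v j i + c j := by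
          intro j
          rw [hcj]
          ring
        simp only [e1]
    · intro c hc c' hc' h6
      rw [mem_coe, mem_filter, Fintype.mem_piFinset] at hc hc'
      funext j
      have h7 := congrFun h6 j
      have h8 := mem_Icc.1 (hc.1 j)
      have h9 := mem_Icc.1 (hc'.1 j)
      simp only at h7
      omega
  · intro j i
    have h6 := abs_le.1 (hv j i)
    have := hNpos j
    push_cast
    rw [abs_le]
    constructor <;> nlinarith [h6.1, h6.2]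

/-- the value -/
def zv (b : ℕ) {r : ℕ} (D : Fin (r + 2) → ℕ → Finset ℕ) (K : Fin (r + 2) → ℕ) (d : ℕ) (κ : ℤ) (F : (Fin (r + 1) → ℕ) → ℤ) (G : ℕ → ℤ)
    (m : Tx b D K) : ℤ :=
  κ * (∏ l, (((m l).1 : ℕ) : ℤ)) ^ d + F (fun l => (m l.castSucc).1) + G (m (Fin.last (r + 1))).1

open Classical in
/-- **Systems at products of integers with restricted digits.** -/
theorem prod_sys (b : ℕ) (hb : 2 ≤ b) (s : ℕ) (d : Fin s → ℕ) (hd : ∀ j, 2 ≤ d j) (A : ℕ) (hA : 1 ≤ A) (r B T U : ℕ) :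
    ∃ B0 : ℕ, ∀ E : ℕ, ∃ k0 : ℕ, ∀ k : ℕ, k0 ≤ k → ∀ K : Fin (r + 2) → ℕ, (∀ l, k ≤ K l ∧ K l ≤ A * k) →
    ∀ D : Fin (r + 2) → ℕ → Finset ℕ, (∀ l, ∀ i < K l, D l i ⊆ range b ∧ 2 ≤ (D l i).card) →
    ∀ κ : Fin s → ℤ, (∀ j, κ j ≠ 0) → ∀ (F : Fin s → (Fin (r + 1) → ℕ) → ℤ) (G : Fin s → ℕ → ℤ),
    (∀ j m, |zv b D K (d j) (κ j) (F j) (G j) m| ≤ (B : ℤ) * (b ^ (d j * ∑ l, K l) : ℕ)) →
    ∀ z : ℕ, (k : ℝ) ^ B0 ≤ z → (z : ℝ) ≤ (k : ℝ) ^ E → ∀ L : ℕ → ℝ, (∀ n, th n ≤ L n ∧ L n ≤ ArithmeticFunction.vonMangoldt n) →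
    ∀ w : Tx b D K → ℝ, (∀ i, |w i| ≤ (k : ℝ) ^ T) →
    (((Fintype.piFinset (fun j => Icc (-((B : ℤ) * (b ^ (d j * ∑ l, K l) : ℕ))) ((B : ℤ) * (b ^ (d j * ∑ l, K l) : ℕ)))).filter
      (fun c : Fin s → ℤ => Fintype.card (Tx b D K) / (k : ℝ) ^ U <
      |∑ m, w m * (∏ j, LI L (zv b D K (d j) (κ j) (F j) (G j) m + c j) - ∏ j, lamzI z (zv b D K (d j) (κ j) (F j) (G j) m + c j))|)).card : ℝ) ≤
      (∏ j, ((b ^ (d j * ∑ l, K l) : ℕ) : ℝ)) / (k : ℝ) ^ U := by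
  choose p C k1 hp hE using fun j => pert_energy b hb (d j) (hd j) A hA r
  obtain ⟨B0, h0⟩ := almost_int s p B (∑ j, C j) T U
  refine ⟨B0, fun E => ?_⟩
  obtain ⟨k0, h1⟩ := h0 E
  choose k2 hk2 using fun j => log_two_sided b (d j) A (r + 3) hb (hd j)
  refine ⟨k0 + ∑ j, k1 j + ∑ j, k2 j + 1, fun k hk K hK D hD κ hκ F G hv z hz1 hz2 L hL w hw => ?_⟩
  have hk1 : (1 : ℝ) ≤ k := by exact_mod_cast (by omega : 1 ≤ k)
  have hs1 : ∀ j, k1 j ≤ k := by
    intro j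
    have : k1 j ≤ ∑ j, k1 j := single_le_sum (f := k1) (fun _ _ => Nat.zero_le _) (mem_univ j)
    omega
  have hs2 : ∀ j, k2 j ≤ k := by
    intro j
    have : k2 j ≤ ∑ j, k2 j := single_le_sum (f := k2) (fun _ _ => Nat.zero_le _) (mem_univ j)
    omega
  have hM1 : k ≤ ∑ l, K l := (hK 0).1.trans (single_le_sum (f := K) (fun _ _ => Nat.zero_le _) (mem_univ 0))
  have hM2 : ∑ l, K l ≤ (r + 3) * (A * k) := by
    calc ∑ l, K l ≤ ∑ _l : Fin (r + 2), A * k := sum_le_sum (fun l _ => (hK l).2)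
      _ = (r + 2) * (A * k) := by simp
      _ ≤ _ := Nat.mul_le_mul_right _ (by omega)
  refine h1 k (by omega) (fun j => b ^ (d j * ∑ l, K l)) (fun j => (hk2 j k (hs2 j) _ hM1 hM2).1) (fun j => (hk2 j k (hs2 j) _ hM1 hM2).2)
    (Tx b D K) (fun j m => zv b D K (d j) (κ j) (F j) (G j) m) hv ?_ z hz1 hz2 L hL w hw
  intro j
  have h2 := hE j k (hs1 j) K hK D hD (κ j) (hκ j) (F j) (fun n => G j n - (B * (b ^ (d j * ∑ l, K l) : ℕ) + 1))
  have e1 : (fun m : Tx b D K => κ j * (∏ l, (((m l).1 : ℕ) : ℤ)) ^ d j + F j (fun l => (m l.castSucc).1) +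
      (G j (m (Fin.last (r + 1))).1 - (B * (b ^ (d j * ∑ l, K l) : ℕ) + 1))) =
      fun m => zv b D K (d j) (κ j) (F j) (G j) m - (B * (b ^ (d j * ∑ l, K l) : ℕ) + 1) := by
    funext m
    unfold zv
    ring
  rw [e1] at h2
  refine h2.trans ?_
  apply mul_le_mul_of_nonneg_right _ (by positivity)
  apply pow_le_pow_right₀ hk1
  exact single_le_sum (f := C) (fun _ _ => Nat.zero_le _) (mem_univ j)

end Pool.Agent.Run7.h536.QC
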