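import Pool.Agent.Run7.h536.QC2b
import Pool.Agent.Run7.h536.TB3

set_option autoImplicit false

/-! The variance of the primes in the translates of thin families, on average over a parameter of the family. -/

namespace Pool.Agent.Run7.h536.QC
open Finset
open Pool.Agent.TH212.EH (En S1 maxi dI_le large)
open Pool.Agent.W93.AU (dI)
open Pool.Agent.H373R2.T7
open Pool.Agent.Run7.h536.TB (df rep_le)

lemma dI_nonpos (z : ℕ) (n : ℤ) (hn : n ≤ 0) : dI z n = 0 := by
  unfold dI lamI lamzI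
  rw [if_neg (by omega), if_neg (by omega), sub_zero]

/-- correlation sums as differences of sums over initial segments -/
lemma corr (z M : ℕ) (x y : ℤ) (G : ℕ → ℝ) (hG : ∀ n : ℕ, (n : ℤ) ≤ x + M → G n = dI z n) :
    ∑ c ∈ Icc 1 M, dI z ((c : ℤ) + x) * dI z ((c : ℤ) + y) =
      S1 G z (x + M).toNat (y - x) - S1 G z x.toNat (y - x) := by
  classical
  unfold S1
  have hsub : Icc 1 x.toNat ⊆ Icc 1 (x + M).toNat := by
    apply Icc_subset_Icc_right
    omega
  rw [← sum_sdiff hsub, add_sub_cancel_right]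
  have h1 : ∑ c ∈ Icc 1 M, dI z ((c : ℤ) + x) * dI z ((c : ℤ) + y) =
      ∑ c ∈ (Icc 1 M).filter (fun c : ℕ => 1 ≤ (c : ℤ) + x), dI z ((c : ℤ) + x) * dI z ((c : ℤ) + y) := by
    rw [sum_filter]
    apply sum_congr rfl
    intro c _
    split_ifs with h
    · rfl
    · rw [dI_nonpos z _ (by omega), zero_mul]
  rw [h1]
  apply sum_bij (fun (c : ℕ) _ => ((c : ℤ) + x).toNat)
  · intro c hc
    rw [mem_filter, mem_Icc] at hc
    rw [mem_sdiff, mem_Icc, mem_Icc]
    omega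
  · intro c hc c' hc' h
    rw [mem_filter] at hc hc'
    omega
  · intro n hn
    rw [mem_sdiff, mem_Icc, mem_Icc] at hn
    refine ⟨((n : ℤ) - x).toNat, ?_, ?_⟩
    · rw [mem_filter, mem_Icc]
      omega
    · omega
  · intro c hc
    rw [mem_filter, mem_Icc] at hc
    have e1 : ((((c : ℤ) + x).toNat : ℕ) : ℤ) = (c : ℤ) + x := Int.toNat_of_nonneg (by omega)
    rw [hG _ (by rw [e1]; omega), e1]
    congr 2
    ring

/-- the energy of the differences -/
lemma En_diff {ι : Type} [Fintype ι] (h : ℕ) (w : ι → ℤ) :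
    En h (fun q : ι × ι => w q.2 - w q.1) ≤ Fintype.card ι ^ (2 * h) * En h w := by
  classical
  have h1 : En h (fun q : ι × ι => w q.2 - w q.1) =
      (univ.filter (fun x : (Fin h → ι × ι) × (Fin h → ι × ι) => df h (fun q : ι × ι => w q.2 - w q.1) x = 0)).card :=
    (Pool.Agent.Run7.h536.TB.En_eq h _).symm
  rw [h1]
  have h2 : (univ.filter (fun x : (Fin h → ι × ι) × (Fin h → ι × ι) => df h (fun q : ι × ι => w q.2 - w q.1) x = 0)).card =
      ∑ y : (Fin h → ι) × (Fin h → ι), (univ.filter (fun x : (Fin h → ι × ι) × (Fin h → ι × ι) =>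
        df h (fun q : ι × ι => w q.2 - w q.1) x = 0 ∧ ((fun l => (x.1 l).1), (fun l => (x.2 l).1)) = y)).card := by
    rw [card_eq_sum_card_fiberwise (f := fun x : (Fin h → ι × ι) × (Fin h → ι × ι) => ((fun l => (x.1 l).1), (fun l => (x.2 l).1)))
      (t := univ) (fun _ _ => mem_univ _)]
    apply sum_congr rfl
    intro y _
    rw [filter_filter]
  rw [h2]
  calc ∑ y : (Fin h → ι) × (Fin h → ι), (univ.filter (fun x : (Fin h → ι × ι) × (Fin h → ι × ι) =>
        df h (fun q : ι × ι => w q.2 - w q.1) x = 0 ∧ ((fun l => (x.1 l).1), (fun l => (x.2 l).1)) = y)).card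
      ≤ ∑ y : (Fin h → ι) × (Fin h → ι), En h w := by
        apply sum_le_sum
        intro y _
        refine le_trans ?_ (rep_le h w (df h w y))
        apply card_le_card_of_injOn (fun x => ((fun l => (x.1 l).2), (fun l => (x.2 l).2)))
        · intro x hx
          rw [mem_coe, mem_filter] at hx ⊢
          obtain ⟨_, h3, h4⟩ := hx
          refine ⟨mem_univ _, ?_⟩
          rw [← h4]
          unfold df at h3 ⊢
          simp only [sum_sub_distrib] at h3
          simp only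
          linarith
        · intro x hx x' hx' h5
          rw [mem_coe, mem_filter] at hx hx'
          have h6 := hx.2.2.trans hx'.2.2.symm
          simp only [Prod.mk.injEq] at h5 h6
          apply Prod.ext
          · funext l
            exact Prod.ext (congrFun h6.1 l) (congrFun h5.1 l)
          · funext l
            exact Prod.ext (congrFun h6.2 l) (congrFun h5.2 l)
    _ = _ := by
        rw [sum_const, card_univ, Fintype.card_prod, Fintype.card_fun, Fintype.card_fin, smul_eq_mul, ← pow_add, two_mul]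

/-- **Variance.** -/
theorem variance (p B C T U : ℕ) : ∃ B0 : ℕ, ∀ E : ℕ, ∃ k0 : ℕ, ∀ k : ℕ, k0 ≤ k → ∀ N : ℕ, (k : ℝ) ≤ Real.log N →
    Real.log N ≤ (k : ℝ) ^ 2 → ∀ (ι ι' : Type) [Fintype ι] [Fintype ι'] (zf : ι → ι' → ℤ), (∀ i j, |zf i j| ≤ B * N) →
    (En p (fun q : ι × (ι' × ι') => zf q.1 q.2.2 - zf q.1 q.2.1) : ℝ) * N ≤
      (k : ℝ) ^ C * (Fintype.card (ι × (ι' × ι')) : ℝ) ^ (2 * p) →
    ∀ z : ℕ, (k : ℝ) ^ B0 ≤ z → (z : ℝ) ≤ (k : ℝ) ^ E → ∀ a : ι → ι' → ℝ, (∀ i j, |a i j| ≤ (k : ℝ) ^ T) →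
    ∑ i, ∑ c ∈ Icc 1 (B * N), (∑ j, a i j * dI z ((c : ℤ) + zf i j)) ^ 2 ≤
      N * (Fintype.card ι * (Fintype.card ι' : ℝ) ^ 2) / (k : ℝ) ^ U := by
  classical
  obtain ⟨B0, h0⟩ := maxi p (2 * B) C 2 (2 * T + U + 1)
  refine ⟨2 * B0, fun E => ?_⟩
  obtain ⟨N0, h1⟩ := h0 E
  obtain ⟨n1, hn1⟩ := Vz_inv_small E
  obtain ⟨K1, hK1⟩ := exists_nat_ge (Real.log ((2 * B + 1 : ℕ) : ℝ))
  refine ⟨N0 + n1 + K1 + 3, fun k hk N hkN hNk ι ι' _ _ zf hzf hE z hz1 hz2 a ha => ?_⟩
  have hk3 : (3 : ℝ) ≤ k := by exact_mod_cast (by omega : 3 ≤ k)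
  have hkp : (0 : ℝ) < k := by linarith
  have hk1 : (1 : ℝ) ≤ k := by linarith
  have hL0 : (0 : ℝ) < Real.log N := by linarith
  have hNpos : 1 ≤ N := by
    rcases Nat.eq_zero_or_pos N with h | h
    · rw [h, Nat.cast_zero, Real.log_zero] at hL0
      exact absurd hL0 (lt_irrefl _)
    · exact h
  have hNr : (1 : ℝ) ≤ N := by exact_mod_cast hNpos
  have hkN' : k ≤ N := by
    have h4 := Real.log_le_sub_one_of_pos (by linarith : (0 : ℝ) < N)
    have h5 : (k : ℝ) ≤ N := by linarith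
    exact_mod_cast h5
  have hz1' : 1 ≤ z := by
    have h1 : (1 : ℝ) ≤ z := le_trans (one_le_pow₀ hk1) hz1
    exact_mod_cast h1
  obtain ⟨G, hG⟩ : ∃ G : ℕ → ℝ, ∀ n, G n = if (n : ℤ) ≤ 2 * B * N then dI z n else 0 := ⟨_, fun _ => rfl⟩
  have hlogX : Real.log (((2 * B + 1) * N : ℕ) : ℝ) ≤ Real.log N ^ 2 := by
    push_cast
    rw [Real.log_mul (by positivity) (by positivity)]
    have h5 : Real.log (2 * (B : ℝ) + 1) ≤ k := by
      have h6 := hK1.trans (by exact_mod_cast (by omega : K1 ≤ k) : (K1 : ℝ) ≤ k)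
      push_cast at h6
      exact h6
    nlinarith
  have hVX : (Vz z)⁻¹ ≤ Real.log (((2 * B + 1) * N : ℕ) : ℝ) := by
    refine (hn1 N (by omega) z hz1' (hz2.trans (pow_le_pow_left₀ hkp.le hkN E))).trans ?_
    apply Real.log_le_log (by linarith)
    push_cast
    nlinarith [Nat.cast_nonneg (α := ℝ) B]
  have hGb : ∀ n, |G n| ≤ Real.log N ^ 2 := by
    intro n
    rw [hG]
    split_ifs with h
    · refine (dI_le z ((2 * B + 1) * N) _ rfl hVX n ?_).trans hlogX
      push_cast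
      nlinarith
    · rw [abs_zero]; positivity
  have hδ : ∀ q : ι × (ι' × ι'), |zf q.1 q.2.2 - zf q.1 q.2.1| ≤ ((2 * B : ℕ) : ℤ) * N := by
    intro q
    have h3 := abs_le.1 (hzf q.1 q.2.1)
    have h4 := abs_le.1 (hzf q.1 q.2.2)
    push_cast
    rw [abs_le]
    constructor <;> linarith [h3.1, h3.2, h4.1, h4.2]
  have hzB : Real.log N ^ B0 ≤ z := by
    refine le_trans ?_ hz1
    rw [pow_mul]
    exact pow_le_pow_left₀ hL0.le hNk B0
  have hE' : (En p (fun q : ι × (ι' × ι') => zf q.1 q.2.2 - zf q.1 q.2.1) : ℝ) * N ≤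
      Real.log N ^ C * (Fintype.card (ι × (ι' × ι')) : ℝ) ^ (2 * p) :=
    hE.trans (mul_le_mul_of_nonneg_right (pow_le_pow_left₀ hkp.le hkN C) (by positivity))
  have hA1 : ∀ q : ι × (ι' × ι'), ((zf q.1 q.2.1 + ((B * N : ℕ) : ℤ)).toNat) ≤ 2 * B * N := by
    intro q
    have h3 := (abs_le.1 (hzf q.1 q.2.1)).2
    have h4 : zf q.1 q.2.1 + ((B * N : ℕ) : ℤ) ≤ ((2 * B * N : ℕ) : ℤ) := by
      push_cast
      linarith
    omega
  have hA2 : ∀ q : ι × (ι' × ι'), (zf q.1 q.2.1).toNat ≤ 2 * B * N := by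
    intro q
    have h3 := (abs_le.1 (hzf q.1 q.2.1)).2
    have h4 : zf q.1 q.2.1 ≤ ((2 * B * N : ℕ) : ℤ) := by
      push_cast
      nlinarith [Int.natCast_nonneg (B * N)]
    omega
  have m1 := (h1 N (by omega) (ι × (ι' × ι')) (fun q => zf q.1 q.2.2 - zf q.1 q.2.1) hδ hE' z hzB
    (hz2.trans (pow_le_pow_left₀ hkp.le hkN E)) G hGb (fun q => (zf q.1 q.2.1 + ((B * N : ℕ) : ℤ)).toNat) hA1).1
  have m2 := (h1 N (by omega) (ι × (ι' × ι')) (fun q => zf q.1 q.2.2 - zf q.1 q.2.1) hδ hE' z hzB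
    (hz2.trans (pow_le_pow_left₀ hkp.le hkN E)) G hGb (fun q => (zf q.1 q.2.1).toNat) hA2).1
  have hexp : ∑ i, ∑ c ∈ Icc 1 (B * N), (∑ j, a i j * dI z ((c : ℤ) + zf i j)) ^ 2 =
      ∑ q : ι × (ι' × ι'), a q.1 q.2.1 * a q.1 q.2.2 *
        (S1 G z (zf q.1 q.2.1 + ((B * N : ℕ) : ℤ)).toNat (zf q.1 q.2.2 - zf q.1 q.2.1) -
          S1 G z (zf q.1 q.2.1).toNat (zf q.1 q.2.2 - zf q.1 q.2.1)) := by
    rw [Fintype.sum_prod_type]
    apply sum_congr rfl
    intro i _
    rw [Fintype.sum_prod_type]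
    simp only [sq, sum_mul_sum]
    rw [sum_comm]
    apply sum_congr rfl
    intro j _
    rw [sum_comm]
    apply sum_congr rfl
    intro j' _
    rw [← corr z (B * N) (zf i j) (zf i j') G ?_, mul_sum]
    · apply sum_congr rfl
      intro c _
      ring
    · intro n hn
      rw [hG, if_pos]
      have h3 := (abs_le.1 (hzf i j)).2
      push_cast at hn
      linarith
  rw [hexp]
  have hcard : ((Fintype.card (ι × (ι' × ι')) : ℕ) : ℝ) = Fintype.card ι * (Fintype.card ι' : ℝ) ^ 2 := by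
    rw [Fintype.card_prod, Fintype.card_prod]
    push_cast
    ring
  calc _ ≤ ∑ q : ι × (ι' × ι'), (k : ℝ) ^ (2 * T) *
        (|S1 G z (zf q.1 q.2.1 + ((B * N : ℕ) : ℤ)).toNat (zf q.1 q.2.2 - zf q.1 q.2.1)| +
          |S1 G z (zf q.1 q.2.1).toNat (zf q.1 q.2.2 - zf q.1 q.2.1)|) := by
        apply sum_le_sum
        intro q _
        refine (le_abs_self _).trans ?_
        rw [abs_mul, abs_mul]
        apply mul_le_mul _ (abs_sub _ _) (abs_nonneg _) (by positivity)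
        rw [two_mul, pow_add]
        exact mul_le_mul (ha _ _) (ha _ _) (abs_nonneg _) (by positivity)
    _ = (k : ℝ) ^ (2 * T) * (∑ q : ι × (ι' × ι'), |S1 G z (zf q.1 q.2.1 + ((B * N : ℕ) : ℤ)).toNat (zf q.1 q.2.2 - zf q.1 q.2.1)| +
          ∑ q : ι × (ι' × ι'), |S1 G z (zf q.1 q.2.1).toNat (zf q.1 q.2.2 - zf q.1 q.2.1)|) := by
        rw [← sum_add_distrib, mul_sum]
    _ ≤ (k : ℝ) ^ (2 * T) * (N * Fintype.card (ι × (ι' × ι')) / Real.log N ^ (2 * T + U + 1) +
          N * Fintype.card (ι × (ι' × ι')) / Real.log N ^ (2 * T + U + 1)) :=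
        mul_le_mul_of_nonneg_left (add_le_add m1 m2) (by positivity)
    _ ≤ (k : ℝ) ^ (2 * T) * (N * Fintype.card (ι × (ι' × ι')) / (k : ℝ) ^ (2 * T + U + 1) +
          N * Fintype.card (ι × (ι' × ι')) / (k : ℝ) ^ (2 * T + U + 1)) := by
        have h3 : (N : ℝ) * Fintype.card (ι × (ι' × ι')) / Real.log N ^ (2 * T + U + 1) ≤
            (N : ℝ) * Fintype.card (ι × (ι' × ι')) / (k : ℝ) ^ (2 * T + U + 1) := by
          apply div_le_div_of_nonneg_left (by positivity) (by positivity)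
          exact pow_le_pow_left₀ hkp.le hkN _
        apply mul_le_mul_of_nonneg_left _ (by positivity)
        linarith
    _ = (N * (Fintype.card ι * (Fintype.card ι' : ℝ) ^ 2) / (k : ℝ) ^ U) * (2 / k) := by
        rw [hcard, pow_succ, pow_add]
        field_simp
        ring
    _ ≤ _ := by
        refine (mul_le_mul_of_nonneg_left ?_ (by positivity)).trans (le_of_eq (mul_one _))
        rw [div_le_one hkp]
        linarith

end Pool.Agent.Run7.h536.QC
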