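import Pool.Agent.Run7.h536.QC8

set_option autoImplicit false

/-! Primes in almost all translates of the families `j ↦ κ v i * w j + G j`, for almost all `i`. -/

namespace Pool.Agent.Run7.h536.QC
open Finset
open Pool.Agent.TH212.EH (En S1 maxi dI_le large)
open Pool.Agent.W93.AU (dI)
open Pool.Agent.H373R2.T7
open Pool.Agent.TH872.Sq (th th_nonneg th_le)
open Pool.Agent.Run7.h536.TB (closure)

lemma markov_card {α : Type} (s : Finset α) (P : α → Prop) [DecidablePred P] (f : α → ℝ) (t b : ℝ) (ht : 0 < t)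
    (hf0 : ∀ c ∈ s, 0 ≤ f c) (hf : ∀ c ∈ s, P c → t ≤ f c) (hb : ∑ c ∈ s, f c ≤ b) : ((s.filter P).card : ℝ) * t ≤ b := by
  calc ((s.filter P).card : ℝ) * t = ∑ _c ∈ s.filter P, t := by rw [sum_const, nsmul_eq_mul]
    _ ≤ ∑ c ∈ s.filter P, f c := sum_le_sum (fun c hc => hf c (mem_filter.1 hc).1 (mem_filter.1 hc).2)
    _ ≤ ∑ c ∈ s, f c := sum_le_sum_of_subset_of_nonneg (filter_subset _ _) (fun c hc _ => hf0 c hc)
    _ ≤ b := hb

open Classical in
/-- natural constant terms -/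
theorem bdh_nat (h h' r B C T U : ℕ) (hh : 1 ≤ h) (hh' : 1 ≤ h') (hr : 2 ≤ r) : ∃ B0 : ℕ, ∀ E : ℕ, ∃ k0 : ℕ, ∀ k : ℕ, k0 ≤ k →
    ∀ X Y : ℕ, (k : ℝ) ≤ Real.log ((X * Y : ℕ) : ℝ) → Real.log ((X * Y : ℕ) : ℝ) ≤ (k : ℝ) ^ 2 → X ≤ Y ^ (r - 1) → Y ≤ X ^ (r - 1) →
    ∀ (ι ι' : Type) [Fintype ι] [Fintype ι'] (v : ι → ℤ) (w : ι' → ℤ), (∀ i, |v i| ≤ B * X) → (∀ j, |w j| ≤ B * Y) →
    (En h v : ℝ) * X ≤ (k : ℝ) ^ C * (Fintype.card ι : ℝ) ^ (2 * h) →
    (En h' w : ℝ) * Y ≤ (k : ℝ) ^ C * (Fintype.card ι' : ℝ) ^ (2 * h') →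
    ∀ (κ : ℤ), κ ≠ 0 → ∀ (F : ι → ℤ) (G : ι' → ℤ), (∀ i j, |κ * v i * w j + F i + G j| ≤ B * (X * Y : ℕ)) →
    ∀ z : ℕ, (k : ℝ) ^ B0 ≤ z → (z : ℝ) ≤ (k : ℝ) ^ E → ∀ L : ℕ → ℝ, (∀ n, th n ≤ L n ∧ L n ≤ ArithmeticFunction.vonMangoldt n) →
    ∀ a : ι → ι' → ℝ, (∀ i j, |a i j| ≤ (k : ℝ) ^ T) →
    ((univ.filter (fun i : ι => ((X * Y : ℕ) : ℝ) / (k : ℝ) ^ U < (((Icc 1 (B * (X * Y))).filter (fun c : ℕ =>
      Fintype.card ι' / (k : ℝ) ^ U < |∑ j, a i j * (LI L ((c : ℤ) + (κ * v i * w j + F i + G j)) -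
        lamzI z ((c : ℤ) + (κ * v i * w j + F i + G j)))|)).card : ℝ))).card : ℝ) ≤ Fintype.card ι / (k : ℝ) ^ U := by
  obtain ⟨p, C', N₀, hp, hcl⟩ := closure h h' r (2 * B) C hh hh' hr
  obtain ⟨B0, h0⟩ := variance p B (2 * C') T (4 * U + 1)
  refine ⟨B0, fun E => ?_⟩
  obtain ⟨k0, h1⟩ := h0 E
  obtain ⟨k1, h2⟩ := pow_lt_two (2 * (T + 2 * U + 5))
  obtain ⟨K1, hK1⟩ := exists_nat_ge (Real.log ((2 * B + 1 : ℕ) : ℝ) + 1)
  refine ⟨k0 + N₀ + k1 + K1 + 32 * (B + 1) + 8, fun k hk X Y hkN hNk hXY hYX ι ι' _ _ v w hv hw hEv hEw κ hκ F G hzb z hz1 hz2 L hL a ha => ?_⟩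
  obtain ⟨N, hN⟩ : ∃ N, N = X * Y := ⟨_, rfl⟩
  rw [← hN] at hkN hNk hzb ⊢
  have hk8 : (8 : ℝ) ≤ k := by exact_mod_cast (by omega : 8 ≤ k)
  have hk1 : (1 : ℝ) ≤ k := by linarith
  have hkp : (0 : ℝ) < k := by linarith
  have hL0 : (0 : ℝ) < Real.log N := by linarith
  have hNpos : 1 ≤ N := by
    rcases Nat.eq_zero_or_pos N with h | h
    · rw [h, Nat.cast_zero, Real.log_zero] at hL0
      exact absurd hL0 (lt_irrefl _)
    · exact h
  have hNr : (1 : ℝ) ≤ N := by exact_mod_cast hNpos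
  have hkN' : k ≤ N := by
    have h4 := Real.log_le_sub_one_of_pos (by linarith : (0 : ℝ) < N)
    have h5 : (k : ℝ) ≤ N := by linarith
    exact_mod_cast h5
  obtain ⟨zf, hzf⟩ : ∃ zf : ι → ι' → ℤ, ∀ i j, zf i j = κ * v i * w j + F i + G j := ⟨_, fun _ _ => rfl⟩
  simp only [← hzf] at hzb ⊢
  -- the energy of the differences
  have hen : (En p (fun q : ι × (ι' × ι') => zf q.1 q.2.2 - zf q.1 q.2.1) : ℝ) * N ≤
      (k : ℝ) ^ (2 * C') * (Fintype.card (ι × (ι' × ι')) : ℝ) ^ (2 * p) := by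
    have e1 := hcl X Y (by rw [← hN]; omega) hXY hYX ι (ι' × ι') v (fun q => w q.2 - w q.1)
      (fun i => (hv i).trans (by push_cast; nlinarith [Int.natCast_nonneg (B * X)]))
      (fun q => by
        have a1 := abs_le.1 (hw q.1)
        have a2 := abs_le.1 (hw q.2)
        push_cast
        rw [abs_le]
        constructor <;> linarith [a1.1, a1.2, a2.1, a2.2])
      (hEv.trans (mul_le_mul_of_nonneg_right (pow_le_pow_left₀ hkp.le (by rw [← hN]; exact hkN) C) (by positivity)))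
      (by
        have a1 : (En h' (fun q : ι' × ι' => w q.2 - w q.1) : ℝ) ≤ (Fintype.card ι' : ℝ) ^ (2 * h') * En h' w := by
          exact_mod_cast En_diff h' w
        calc (En h' (fun q : ι' × ι' => w q.2 - w q.1) : ℝ) * Y ≤ (Fintype.card ι' : ℝ) ^ (2 * h') * En h' w * Y :=
              mul_le_mul_of_nonneg_right a1 (Nat.cast_nonneg _)
          _ = (Fintype.card ι' : ℝ) ^ (2 * h') * (En h' w * Y) := by ring
          _ ≤ (Fintype.card ι' : ℝ) ^ (2 * h') * ((k : ℝ) ^ C * (Fintype.card ι' : ℝ) ^ (2 * h')) :=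
              mul_le_mul_of_nonneg_left hEw (by positivity)
          _ ≤ (Fintype.card ι' : ℝ) ^ (2 * h') * (Real.log ((X * Y : ℕ) : ℝ) ^ C * (Fintype.card ι' : ℝ) ^ (2 * h')) := by
              apply mul_le_mul_of_nonneg_left _ (by positivity)
              apply mul_le_mul_of_nonneg_right _ (by positivity)
              exact pow_le_pow_left₀ hkp.le (by rw [← hN]; exact hkN) C
          _ = _ := by
              rw [Fintype.card_prod]
              push_cast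
              ring)
      (fun _ => 0) (fun q => G q.2 - G q.1) κ hκ
    have e2 : (fun q : ι × (ι' × ι') => κ * v q.1 * (w q.2.2 - w q.2.1) + 0 + (G q.2.2 - G q.2.1)) =
        fun q => zf q.1 q.2.2 - zf q.1 q.2.1 := by
      funext q
      rw [hzf, hzf]
      ring
    rw [e2, ← hN] at e1
    refine e1.trans ?_
    apply mul_le_mul_of_nonneg_right _ (by positivity)
    rw [pow_mul]
    exact pow_le_pow_left₀ hL0.le hNk C'
  have hvar := h1 k (by omega) N hkN hNk ι ι' zf hzb hen z hz1 hz2 a ha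
  rcases Nat.eq_zero_or_pos (Fintype.card ι') with hc | hc
  · have hemp : IsEmpty ι' := Fintype.card_eq_zero_iff.1 hc
    have : (univ.filter (fun i : ι => (N : ℝ) / (k : ℝ) ^ U < (((Icc 1 (B * N)).filter (fun c : ℕ =>
      Fintype.card ι' / (k : ℝ) ^ U < |∑ j, a i j * (LI L ((c : ℤ) + zf i j) - lamzI z ((c : ℤ) + zf i j))|)).card : ℝ))) = ∅ := by
      apply filter_eq_empty_iff.2
      intro i _
      rw [not_lt]
      have e1 : (Icc 1 (B * N)).filter (fun c : ℕ =>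
        Fintype.card ι' / (k : ℝ) ^ U < |∑ j, a i j * (LI L ((c : ℤ) + zf i j) - lamzI z ((c : ℤ) + zf i j))|) = ∅ := by
        apply filter_eq_empty_iff.2
        intro c _
        rw [not_lt, univ_eq_empty, sum_empty, abs_zero]
        positivity
      rw [e1, card_empty, Nat.cast_zero]
      positivity
    rw [this, card_empty, Nat.cast_zero]
    positivity
  have hc0 : (0 : ℝ) < Fintype.card ι' := by exact_mod_cast hc
  obtain ⟨n', hn'⟩ : ∃ n' : ℝ, n' = Fintype.card ι' := ⟨_, rfl⟩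
  rw [← hn'] at hvar hc0 ⊢
  -- the prime powers
  have hdev : ∀ i, ((((Icc 1 (B * N)).filter (fun c : ℕ => n' / (k : ℝ) ^ U / 2 <
      |∑ j, a i j * (LI L ((c : ℤ) + zf i j) - lamI ((c : ℤ) + zf i j))|)).card : ℕ) : ℝ) ≤ N / (k : ℝ) ^ U / 2 := by
    intro i
    rcases Nat.eq_zero_or_pos B with hB | hB
    · subst hB
      simp
      positivity
    have hB1 : (1 : ℝ) ≤ B := by exact_mod_cast hB
    have e1 : ∑ c ∈ Icc 1 (B * N), |∑ j, a i j * (LI L ((c : ℤ) + zf i j) - lamI ((c : ℤ) + zf i j))| ≤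
        (k : ℝ) ^ T * (n' * (2 * Real.sqrt ((2 * (B * N) : ℕ) : ℝ) * Real.log ((2 * (B * N) : ℕ) : ℝ))) := by
      calc _ ≤ ∑ c ∈ Icc 1 (B * N), ∑ j, (k : ℝ) ^ T * |LI L ((c : ℤ) + zf i j) - lamI ((c : ℤ) + zf i j)| := by
            apply sum_le_sum
            intro c _
            refine (abs_sum_le_sum_abs _ _).trans ?_
            apply sum_le_sum
            intro j _
            rw [abs_mul]
            exact mul_le_mul_of_nonneg_right (ha i j) (abs_nonneg _)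
        _ = ∑ j, (k : ℝ) ^ T * ∑ c ∈ Icc 1 (B * N), |LI L ((c : ℤ) + zf i j) - lamI ((c : ℤ) + zf i j)| := by
            rw [sum_comm]
            apply sum_congr rfl
            intro j _
            rw [mul_sum]
        _ ≤ ∑ _j : ι', (k : ℝ) ^ T * (2 * Real.sqrt ((2 * (B * N) : ℕ) : ℝ) * Real.log ((2 * (B * N) : ℕ) : ℝ)) := by
            apply sum_le_sum
            intro j _
            apply mul_le_mul_of_nonneg_left _ (by positivity)
            exact dev_one L hL (B * N) (zf i j) (Nat.mul_pos hB hNpos) (by exact_mod_cast hzb i j)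
        _ = _ := by
            rw [sum_const, card_univ, nsmul_eq_mul, ← hn']
            ring
    have e2 := markov_card (Icc 1 (B * N)) (fun c : ℕ => n' / (k : ℝ) ^ U / 2 <
      |∑ j, a i j * (LI L ((c : ℤ) + zf i j) - lamI ((c : ℤ) + zf i j))|) _ (n' / (k : ℝ) ^ U / 2) _ (by positivity)
      (fun c _ => abs_nonneg _) (fun c _ hc => hc.le) e1
    have hlog : Real.log ((2 * (B * N) : ℕ) : ℝ) ≤ (k : ℝ) ^ 3 := by
      have h6 : ((2 * (B * N) : ℕ) : ℝ) ≤ ((2 * B + 1 : ℕ) : ℝ) * N := by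
        push_cast
        nlinarith
      refine (Real.log_le_log (by push_cast; positivity) h6).trans ?_
      rw [Real.log_mul (by positivity) (by positivity)]
      have h7 : Real.log ((2 * B + 1 : ℕ) : ℝ) + 1 ≤ k := hK1.trans (by exact_mod_cast (by omega : K1 ≤ k))
      nlinarith [sq_nonneg ((k : ℝ) - 1), mul_nonneg (by linarith : 0 ≤ (k : ℝ) - 1) (sq_nonneg (k : ℝ))]
    have hNe : (2 : ℝ) ^ k ≤ N := by
      have h6 : Real.exp k ≤ N := by
        rw [← Real.le_log_iff_exp_le (by linarith)]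
        exact hkN
      have h7 : (2 : ℝ) ^ k ≤ Real.exp 1 ^ k := pow_le_pow_left₀ (by norm_num) (by linarith [Real.exp_one_gt_d9]) k
      rw [← Real.exp_nat_mul, mul_one] at h7
      exact h7.trans h6
    have hsN : (k : ℝ) ^ (T + 2 * U + 5) ≤ Real.sqrt N := by
      apply Real.le_sqrt_of_sq_le
      rw [← pow_mul, mul_comm (T + 2 * U + 5) 2]
      exact (h2 k (by omega)).trans hNe
    have hsq : Real.sqrt ((2 * (B * N) : ℕ) : ℝ) ≤ 2 * B * Real.sqrt N := by
      rw [show (((2 * (B * N) : ℕ) : ℝ)) = (2 * B : ℝ) * N by push_cast; ring, Real.sqrt_mul (by positivity)]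
      apply mul_le_mul_of_nonneg_right _ (Real.sqrt_nonneg _)
      rw [Real.sqrt_le_left (by positivity)]
      nlinarith
    have hlog0 : 0 ≤ Real.log ((2 * (B * N) : ℕ) : ℝ) := Real.log_natCast_nonneg _
    have hs0 : 0 < Real.sqrt N := Real.sqrt_pos.2 (by linarith)
    have hss : Real.sqrt N * Real.sqrt N = N := Real.mul_self_sqrt (by linarith)
    have hk32 : (32 * (B + 1) : ℝ) ≤ k := by exact_mod_cast (by omega : 32 * (B + 1) ≤ k)
    have e3 : (k : ℝ) ^ T * (n' * (2 * Real.sqrt ((2 * (B * N) : ℕ) : ℝ) * Real.log ((2 * (B * N) : ℕ) : ℝ))) ≤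
        (N / (k : ℝ) ^ U / 2) * (n' / (k : ℝ) ^ U / 2) := by
      calc _ ≤ (k : ℝ) ^ T * (n' * (2 * (2 * B * Real.sqrt N) * (k : ℝ) ^ 3)) := by
            apply mul_le_mul_of_nonneg_left _ (by positivity)
            apply mul_le_mul_of_nonneg_left _ hc0.le
            apply mul_le_mul _ hlog hlog0 (by positivity)
            exact mul_le_mul_of_nonneg_left hsq (by norm_num)
        _ = (4 * B) * (k : ℝ) ^ (T + 3) * (n' * Real.sqrt N) := by rw [pow_add]; ring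
        _ ≤ (k / 8) * (k : ℝ) ^ (T + 3) * (n' * Real.sqrt N) := by
            apply mul_le_mul_of_nonneg_right _ (by positivity)
            apply mul_le_mul_of_nonneg_right _ (by positivity)
            linarith
        _ ≤ (1 / 4) * ((k : ℝ) ^ (T + 2 * U + 5) / (k : ℝ) ^ (2 * U)) * (n' * Real.sqrt N) := by
            apply mul_le_mul_of_nonneg_right _ (by positivity)
            rw [show T + 2 * U + 5 = (T + 3) + 2 + 2 * U by ring, pow_add _ (T + 3 + 2) (2 * U), mul_div_assoc,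
              div_self (by positivity), mul_one, pow_add _ (T + 3) 2]
            have : (0 : ℝ) ≤ (k : ℝ) ^ (T + 3) := by positivity
            nlinarith [mul_nonneg this (by nlinarith : (0 : ℝ) ≤ k ^ 2 / 4 - k / 8)]
        _ ≤ (1 / 4) * (Real.sqrt N / (k : ℝ) ^ (2 * U)) * (n' * Real.sqrt N) := by
            apply mul_le_mul_of_nonneg_right _ (by positivity)
            apply mul_le_mul_of_nonneg_left _ (by norm_num)
            exact div_le_div_of_nonneg_right hsN (by positivity)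
        _ = (Real.sqrt N * Real.sqrt N / (k : ℝ) ^ U / 2) * (n' / (k : ℝ) ^ U / 2) := by
            rw [two_mul, pow_add]
            field_simp
            ring
        _ = _ := by rw [hss]
    exact le_of_mul_le_mul_right (e2.trans e3) (by positivity)
  -- the exceptional parameters
  obtain ⟨Bd, hBd⟩ : ∃ Bd, Bd = univ.filter (fun i : ι => (N : ℝ) / (k : ℝ) ^ U < (((Icc 1 (B * N)).filter (fun c : ℕ =>
      n' / (k : ℝ) ^ U < |∑ j, a i j * (LI L ((c : ℤ) + zf i j) - lamzI z ((c : ℤ) + zf i j))|)).card : ℝ)) := ⟨_, rfl⟩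
  rw [← hBd]
  have hlow : ∀ i ∈ Bd, (N / (k : ℝ) ^ U / 2) * (n' / (k : ℝ) ^ U / 2) ^ 2 ≤
      ∑ c ∈ Icc 1 (B * N), (∑ j, a i j * dI z ((c : ℤ) + zf i j)) ^ 2 := by
    intro i hi
    rw [hBd, mem_filter] at hi
    have e1 : (((Icc 1 (B * N)).filter (fun c : ℕ =>
        n' / (k : ℝ) ^ U < |∑ j, a i j * (LI L ((c : ℤ) + zf i j) - lamzI z ((c : ℤ) + zf i j))|)).card : ℝ) ≤
        (((Icc 1 (B * N)).filter (fun c : ℕ => n' / (k : ℝ) ^ U / 2 < |∑ j, a i j * (LI L ((c : ℤ) + zf i j) - lamI ((c : ℤ) + zf i j))|)).card : ℝ) +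
        (((Icc 1 (B * N)).filter (fun c : ℕ => n' / (k : ℝ) ^ U / 2 < |∑ j, a i j * dI z ((c : ℤ) + zf i j)|)).card : ℝ) := by
      rw [← Nat.cast_add]
      apply Nat.cast_le.2
      refine le_trans (card_le_card ?_) (card_union_le _ _)
      intro c hc
      rw [mem_union, mem_filter, mem_filter]
      rw [mem_filter] at hc
      by_contra hcon
      push Not at hcon
      obtain ⟨q1, q2⟩ := hcon
      have q1' := q1 hc.1
      have q2' := q2 hc.1
      have e2 : ∑ j, a i j * (LI L ((c : ℤ) + zf i j) - lamzI z ((c : ℤ) + zf i j)) =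
          ∑ j, a i j * (LI L ((c : ℤ) + zf i j) - lamI ((c : ℤ) + zf i j)) + ∑ j, a i j * dI z ((c : ℤ) + zf i j) := by
        rw [← sum_add_distrib]
        apply sum_congr rfl
        intro j _
        unfold dI
        ring
      have e3 := hc.2
      rw [e2] at e3
      have e4 := abs_add_le (∑ j, a i j * (LI L ((c : ℤ) + zf i j) - lamI ((c : ℤ) + zf i j))) (∑ j, a i j * dI z ((c : ℤ) + zf i j))
      linarith
    have e5 := hdev i
    have e6 : (N : ℝ) / (k : ℝ) ^ U / 2 ≤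
        (((Icc 1 (B * N)).filter (fun c : ℕ => n' / (k : ℝ) ^ U / 2 < |∑ j, a i j * dI z ((c : ℤ) + zf i j)|)).card : ℝ) := by
      linarith [hi.2]
    have e7 := markov_card (Icc 1 (B * N)) (fun c : ℕ => n' / (k : ℝ) ^ U / 2 < |∑ j, a i j * dI z ((c : ℤ) + zf i j)|)
      (fun c : ℕ => (∑ j, a i j * dI z ((c : ℤ) + zf i j)) ^ 2) ((n' / (k : ℝ) ^ U / 2) ^ 2)
      (∑ c ∈ Icc 1 (B * N), (∑ j, a i j * dI z ((c : ℤ) + zf i j)) ^ 2) (by positivity) (fun c _ => sq_nonneg _)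
      (fun c _ hc => by
        rw [← sq_abs (∑ j, a i j * dI z ((c : ℤ) + zf i j))]
        exact pow_le_pow_left₀ (by positivity) hc.le 2) le_rfl
    exact (mul_le_mul_of_nonneg_right e6 (by positivity)).trans e7
  have hsum : (Bd.card : ℝ) * ((N / (k : ℝ) ^ U / 2) * (n' / (k : ℝ) ^ U / 2) ^ 2) ≤
      N * (Fintype.card ι * n' ^ 2) / (k : ℝ) ^ (4 * U + 1) := by
    calc (Bd.card : ℝ) * ((N / (k : ℝ) ^ U / 2) * (n' / (k : ℝ) ^ U / 2) ^ 2) =
          ∑ _i ∈ Bd, ((N / (k : ℝ) ^ U / 2) * (n' / (k : ℝ) ^ U / 2) ^ 2) := by rw [sum_const, nsmul_eq_mul]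
      _ ≤ ∑ i ∈ Bd, ∑ c ∈ Icc 1 (B * N), (∑ j, a i j * dI z ((c : ℤ) + zf i j)) ^ 2 := sum_le_sum hlow
      _ ≤ ∑ i, ∑ c ∈ Icc 1 (B * N), (∑ j, a i j * dI z ((c : ℤ) + zf i j)) ^ 2 :=
          sum_le_sum_of_subset_of_nonneg (subset_univ _) (fun i _ _ => sum_nonneg (fun c _ => sq_nonneg _))
      _ ≤ _ := hvar
  have hfin : N * (Fintype.card ι * n' ^ 2) / (k : ℝ) ^ (4 * U + 1) =
      (Fintype.card ι / (k : ℝ) ^ U * (8 / k)) * ((N / (k : ℝ) ^ U / 2) * (n' / (k : ℝ) ^ U / 2) ^ 2) := by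
    rw [show 4 * U + 1 = U + U + U + U + 1 by ring, pow_add, pow_add, pow_add, pow_add, pow_one]
    field_simp
    ring
  rw [hfin] at hsum
  have hN0 : (0 : ℝ) < N := by linarith
  have h9 := le_of_mul_le_mul_right hsum (by positivity)
  refine h9.trans ((mul_le_mul_of_nonneg_left ?_ (by positivity)).trans (le_of_eq (mul_one _)))
  rw [div_le_one hkp]
  exact hk8

end Pool.Agent.Run7.h536.QC
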