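import Pool.Agent.Run7.h536.QC9
import Pool.Agent.Run7.h536.QC3

set_option autoImplicit false

/-! Abstract lemmas: telescoping over systems with an outer parameter; initial segments. -/

namespace Pool.Agent.Run7.h536.RD
open Finset
open Pool.Agent.Run7.h536.QC (telescope prod_le_pow grid)

/-- the sum over one coordinate -/
lemma upd_sum {s : ℕ} (X : Fin s → Finset ℤ) (j : Fin s) (F : (Fin s → ℤ) → ℝ) :
    ∑ c ∈ Fintype.piFinset X, ∑ t ∈ X j, F (Function.update c j t) =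
      ((X j).card : ℝ) * ∑ c ∈ Fintype.piFinset X, F c := by
  classical
  have h1 : ((X j).card : ℝ) * ∑ c ∈ Fintype.piFinset X, F c =
      ∑ c ∈ Fintype.piFinset X, ∑ _t ∈ X j, F c := by
    rw [mul_sum]
    apply sum_congr rfl
    intro c _
    rw [sum_const, nsmul_eq_mul]
  rw [h1, ← sum_product', ← sum_product']
  apply sum_nbij' (fun q => (Function.update q.1 j q.2, q.1 j)) (fun q => (Function.update q.1 j q.2, q.1 j))
  · rintro ⟨c, t⟩ hq
    rw [mem_product, Fintype.mem_piFinset] at hq ⊢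
    refine ⟨fun l => ?_, hq.1 j⟩
    simp only [Function.update_apply]
    split_ifs with h
    · rw [h]; exact hq.2
    · exact hq.1 l
  · rintro ⟨c, t⟩ hq
    rw [mem_product, Fintype.mem_piFinset] at hq ⊢
    refine ⟨fun l => ?_, hq.1 j⟩
    simp only [Function.update_apply]
    split_ifs with h
    · rw [h]; exact hq.2
    · exact hq.1 l
  · rintro ⟨c, t⟩ _
    simp
  · rintro ⟨c, t⟩ _
    simp
  · rintro ⟨c, t⟩ _
    rfl

/-- the weight of the telescoping argument -/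
noncomputable def wto {s : ℕ} {ι J : Type} (A A' : Fin s → ι → J → ℤ → ℝ) (a : ι → J → ℝ) (l : Fin s) (c : Fin s → ℤ)
    (i : ι) (j : J) : ℝ :=
  a i j * ((∏ m ∈ univ.filter (fun m => m < l), A' m i j (c m)) * ∏ m ∈ univ.filter (fun m => l < m), A m i j (c m))

lemma wto_update {s : ℕ} {ι J : Type} (A A' : Fin s → ι → J → ℤ → ℝ) (a : ι → J → ℝ) (l : Fin s) (c : Fin s → ℤ)
    (i : ι) (j : J) (t : ℤ) : wto A A' a l (Function.update c l t) i j = wto A A' a l c i j := by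
  unfold wto
  congr 2
  · apply prod_congr rfl
    intro m hm
    rw [mem_filter] at hm
    rw [Function.update_of_ne hm.2.ne]
  · apply prod_congr rfl
    intro m hm
    rw [mem_filter] at hm
    rw [Function.update_of_ne hm.2.ne']

/-- telescoping with an outer parameter -/
theorem tele {s : ℕ} {ι J : Type} [Fintype ι] [Fintype J] (X : Fin s → Finset ℤ) (hX : ∀ l, (X l).Nonempty)
    (A A' : Fin s → ι → J → ℤ → ℝ) (K W : ℝ) (hK : 1 ≤ K) (hW : 0 ≤ W)
    (hA : ∀ l i j, ∀ c ∈ X l, |A l i j c| ≤ K) (hA' : ∀ l i j, ∀ c ∈ X l, |A' l i j c| ≤ K)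
    (a : ι → J → ℝ) (ha : ∀ i j, |a i j| ≤ W) (e : Fin s → ℝ)
    (h : ∀ l, ∀ b : ι → J → ℝ, (∀ i j, |b i j| ≤ W * (K ^ s * K ^ s)) →
      ∑ i, ∑ c ∈ X l, |∑ j, b i j * (A l i j c - A' l i j c)| ≤ (X l).card * e l) :
    ∑ i, ∑ c ∈ Fintype.piFinset X, |∑ j, a i j * (∏ l, A l i j (c l) - ∏ l, A' l i j (c l))| ≤
      (∑ l, e l) * ∏ l, ((X l).card : ℝ) := by
  classical
  have htel : ∀ (i : ι) (c : Fin s → ℤ), |∑ j, a i j * (∏ l, A l i j (c l) - ∏ l, A' l i j (c l))| ≤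
      ∑ l, |∑ j, wto A A' a l c i j * (A l i j (c l) - A' l i j (c l))| := by
    intro i c
    refine le_trans (le_of_eq ?_) (abs_sum_le_sum_abs _ _)
    congr 1
    rw [sum_comm]
    apply sum_congr rfl
    intro j _
    rw [telescope, mul_sum]
    apply sum_congr rfl
    intro l _
    unfold wto
    ring
  have hone : ∀ l : Fin s, ∑ i, ∑ c ∈ Fintype.piFinset X, |∑ j, wto A A' a l c i j * (A l i j (c l) - A' l i j (c l))| ≤
      e l * ∏ l, ((X l).card : ℝ) := by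
    intro l
    have hc0 : (0 : ℝ) < (X l).card := by exact_mod_cast (hX l).card_pos
    have h1 : ((X l).card : ℝ) * ∑ i, ∑ c ∈ Fintype.piFinset X, |∑ j, wto A A' a l c i j * (A l i j (c l) - A' l i j (c l))| ≤
        ((X l).card : ℝ) * (e l * ∏ l, ((X l).card : ℝ)) := by
      calc ((X l).card : ℝ) * ∑ i, ∑ c ∈ Fintype.piFinset X, |∑ j, wto A A' a l c i j * (A l i j (c l) - A' l i j (c l))| =
          ∑ i, ∑ c ∈ Fintype.piFinset X, ∑ t ∈ X l, |∑ j, wto A A' a l c i j * (A l i j t - A' l i j t)| := by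
            rw [mul_sum]
            apply sum_congr rfl
            intro i _
            rw [← upd_sum X l (fun c => |∑ j, wto A A' a l c i j * (A l i j (c l) - A' l i j (c l))|)]
            simp only [wto_update, Function.update_self]
        _ = ∑ c ∈ Fintype.piFinset X, ∑ i, ∑ t ∈ X l, |∑ j, wto A A' a l c i j * (A l i j t - A' l i j t)| := sum_comm
        _ ≤ ∑ _c ∈ Fintype.piFinset X, ((X l).card : ℝ) * e l := by
            apply sum_le_sum
            intro c hc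
            rw [Fintype.mem_piFinset] at hc
            apply h l
            intro i j
            unfold wto
            rw [abs_mul, abs_mul]
            apply mul_le_mul (ha i j) _ (by positivity) hW
            apply mul_le_mul _ _ (abs_nonneg _) (by positivity)
            · exact prod_le_pow _ _ _ hK (fun m _ => hA' m i j _ (hc m))
            · exact prod_le_pow _ _ _ hK (fun m _ => hA m i j _ (hc m))
        _ = _ := by
            rw [sum_const, nsmul_eq_mul, Fintype.card_piFinset]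
            push_cast
            ring
    exact le_of_mul_le_mul_left h1 hc0
  calc ∑ i, ∑ c ∈ Fintype.piFinset X, |∑ j, a i j * (∏ l, A l i j (c l) - ∏ l, A' l i j (c l))| ≤
      ∑ i, ∑ c ∈ Fintype.piFinset X, ∑ l, |∑ j, wto A A' a l c i j * (A l i j (c l) - A' l i j (c l))| :=
        sum_le_sum fun i _ => sum_le_sum fun c _ => htel i c
    _ = ∑ l, ∑ i, ∑ c ∈ Fintype.piFinset X, |∑ j, wto A A' a l c i j * (A l i j (c l) - A' l i j (c l))| := by
        simp only [sum_comm (s := Fintype.piFinset X) (t := (univ : Finset (Fin s)))]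
        rw [sum_comm]
    _ ≤ ∑ l, e l * ∏ l, ((X l).card : ℝ) := sum_le_sum fun l _ => hone l
    _ = _ := by rw [← sum_mul]

open Classical in
/-- initial segments, almost all outer parameters, almost all constant terms -/
theorem pref {ι γ : Type} [Fintype ι] (X : Finset γ) (S : Finset ℕ) (Φ : ι → γ → ℕ → ℝ) (k T K U : ℕ) (hk : 8 ≤ k)
    (P : ℝ) (hP : 0 < P) (hS : (k : ℝ) ^ (T + K + U + 2) ≤ S.card) (hΦ : ∀ i, ∀ c ∈ X, ∀ m ∈ S, |Φ i c m| ≤ 2 * (k : ℝ) ^ K)
    (a : ι → ℕ → ℝ) (ha : ∀ i m, |a i m| ≤ (k : ℝ) ^ T)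
    (h : ∀ b : ι → ℕ → ℝ, (∀ i m, |b i m| ≤ (k : ℝ) ^ T) → ∑ i, ∑ c ∈ X, |∑ m ∈ S, b i m * Φ i c m| ≤
      P * Fintype.card ι * S.card / (k : ℝ) ^ (3 * (U + 1) + (T + K + U + 3))) :
    ((univ.filter (fun i : ι => P / (k : ℝ) ^ U < ((X.filter (fun c => ∃ M : ℕ, S.card / (k : ℝ) ^ U <
      |∑ m ∈ S.filter (fun m => m < M), a i m * Φ i c m|)).card : ℝ))).card : ℝ) ≤ Fintype.card ι / (k : ℝ) ^ U := by
  obtain ⟨V, hV⟩ : ∃ V, V = T + K + U + 2 := ⟨_, rfl⟩
  rw [← hV] at hS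
  have hk8 : (8 : ℝ) ≤ k := by exact_mod_cast hk
  have hk1 : (1 : ℝ) ≤ k := by linarith
  have hkp : (0 : ℝ) < k := by linarith
  have hk2 : (2 : ℝ) ≤ k := by linarith
  have hS0 : (0 : ℝ) < S.card := lt_of_lt_of_le (by positivity) hS
  obtain ⟨q, hq⟩ : ∃ q : ℕ, q = ⌊(S.card : ℝ) / (k : ℝ) ^ V⌋₊ + 1 := ⟨_, rfl⟩
  have hq1 : (S.card : ℝ) / (k : ℝ) ^ V < q := by
    rw [hq]
    push_cast
    exact Nat.lt_floor_add_one _
  have hq2 : (q : ℝ) ≤ 2 * ((S.card : ℝ) / (k : ℝ) ^ V) := by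
    rw [hq]
    push_cast
    have h3 : (1 : ℝ) ≤ (S.card : ℝ) / (k : ℝ) ^ V := by
      rw [le_div_iff₀ (by positivity), one_mul]
      exact hS
    have h4 := Nat.floor_le (a := (S.card : ℝ) / (k : ℝ) ^ V) (by positivity)
    linarith
  obtain ⟨R, hR1, hR2⟩ := grid S q (by omega)
  have hRc : (R.card : ℝ) ≤ (k : ℝ) ^ (V + 1) := by
    have h3 : ((S.card / q : ℕ) : ℝ) ≤ (k : ℝ) ^ V := by
      refine Nat.cast_div_le.trans ?_
      rw [div_le_iff₀ (by exact_mod_cast (by omega : 0 < q))]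
      rw [div_lt_iff₀ (by positivity)] at hq1
      linarith
    have h4 : (R.card : ℝ) ≤ ((S.card / q : ℕ) : ℝ) + 1 := by exact_mod_cast hR1
    have h5 : (1 : ℝ) ≤ (k : ℝ) ^ V := one_le_pow₀ hk1
    rw [pow_succ]
    nlinarith
  obtain ⟨Ψ, hΨ⟩ : ∃ Ψ : ι → γ → ℕ → ℝ, ∀ i c g, Ψ i c g = |∑ m ∈ S.filter (fun m => m < g), a i m * Φ i c m| := ⟨_, fun _ _ _ => rfl⟩
  have hΨ0 : ∀ i c g, 0 ≤ Ψ i c g := fun i c g => by rw [hΨ]; exact abs_nonneg _
  -- the sum over the grid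
  have hgrid : ∑ i, ∑ c ∈ X, ∑ g ∈ R, Ψ i c g ≤ P * Fintype.card ι * S.card / (k : ℝ) ^ (3 * (U + 1)) := by
    have h3 : ∀ g : ℕ, ∑ i, ∑ c ∈ X, Ψ i c g ≤ P * Fintype.card ι * S.card / (k : ℝ) ^ (3 * (U + 1) + (V + 1)) := by
      intro g
      have h4 := h (fun i m => if m < g then a i m else 0) (fun i m => by
        split_ifs
        · exact ha i m
        · rw [abs_zero]; positivity)
      rw [show V + 1 = T + K + U + 3 by omega]
      refine le_trans (le_of_eq ?_) h4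
      apply sum_congr rfl
      intro i _
      apply sum_congr rfl
      intro c _
      rw [hΨ, sum_filter]
      congr 1
      apply sum_congr rfl
      intro m _
      split_ifs
      · rfl
      · rw [zero_mul]
    calc ∑ i, ∑ c ∈ X, ∑ g ∈ R, Ψ i c g = ∑ g ∈ R, ∑ i, ∑ c ∈ X, Ψ i c g := by
          simp only [sum_comm (s := X) (t := R)]
          rw [sum_comm]
      _ ≤ ∑ _g ∈ R, P * Fintype.card ι * S.card / (k : ℝ) ^ (3 * (U + 1) + (V + 1)) := sum_le_sum fun g _ => h3 g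
      _ = R.card * (P * Fintype.card ι * S.card / (k : ℝ) ^ (3 * (U + 1) + (V + 1))) := by rw [sum_const, nsmul_eq_mul]
      _ ≤ (k : ℝ) ^ (V + 1) * (P * Fintype.card ι * S.card / (k : ℝ) ^ (3 * (U + 1) + (V + 1))) :=
          mul_le_mul_of_nonneg_right hRc (by positivity)
      _ = _ := by
          rw [pow_add (k : ℝ) (3 * (U + 1)) (V + 1)]
          field_simp
  -- from the grid to all initial segments
  have hbad : ∀ i, ∀ c ∈ X, (∃ M : ℕ, S.card / (k : ℝ) ^ U < |∑ m ∈ S.filter (fun m => m < M), a i m * Φ i c m|) →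
      (S.card : ℝ) / (k : ℝ) ^ (U + 1) ≤ ∑ g ∈ R, Ψ i c g := by
    rintro i c hc ⟨M, hM⟩
    obtain ⟨M', hM'R, hM'M, hblk⟩ := hR2 M
    have hpt : ∀ m ∈ S, |a i m * Φ i c m| ≤ (k : ℝ) ^ T * (2 * (k : ℝ) ^ K) := by
      intro m hm
      rw [abs_mul]
      exact mul_le_mul (ha i m) (hΦ i c hc m hm) (abs_nonneg _) (by positivity)
    have hsplit : ∑ m ∈ S.filter (fun m => m < M), a i m * Φ i c m = ∑ m ∈ S.filter (fun m => m < M'), a i m * Φ i c m +
        ∑ m ∈ S.filter (fun m => M' ≤ m ∧ m < M), a i m * Φ i c m := by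
      rw [← sum_union]
      · apply sum_congr _ (fun _ _ => rfl)
        ext m
        simp only [mem_filter, mem_union]
        constructor
        · rintro ⟨x, y⟩
          rcases Nat.lt_or_ge m M' with h | h
          · exact Or.inl ⟨x, h⟩
          · exact Or.inr ⟨x, h, y⟩
        · rintro (⟨x, y⟩ | ⟨x, y, w⟩)
          · exact ⟨x, y.trans_le hM'M⟩
          · exact ⟨x, w⟩
      · rw [disjoint_filter]
        intro m _ x y
        omega
    have hblock : |∑ m ∈ S.filter (fun m => M' ≤ m ∧ m < M), a i m * Φ i c m| ≤ (S.card : ℝ) / (k : ℝ) ^ U * (1 / 2) := by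
      refine (abs_sum_le_sum_abs _ _).trans ?_
      refine (sum_le_sum (fun m hm => hpt m (mem_filter.1 hm).1)).trans ?_
      rw [sum_const, nsmul_eq_mul]
      have h6 : ((S.filter (fun m => M' ≤ m ∧ m < M)).card : ℝ) ≤ 2 * ((S.card : ℝ) / (k : ℝ) ^ V) :=
        le_trans (by exact_mod_cast hblk) hq2
      refine (mul_le_mul_of_nonneg_right h6 (by positivity)).trans ?_
      have h7 : (k : ℝ) ^ V = (k : ℝ) ^ T * (k : ℝ) ^ K * (k : ℝ) ^ U * (k : ℝ) ^ 2 := by
        rw [hV]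
        rw [pow_add, pow_add, pow_add]
      rw [h7]
      have h8 : 2 * ((S.card : ℝ) / ((k : ℝ) ^ T * (k : ℝ) ^ K * (k : ℝ) ^ U * (k : ℝ) ^ 2)) * ((k : ℝ) ^ T * (2 * (k : ℝ) ^ K)) =
          (S.card : ℝ) / (k : ℝ) ^ U * (4 / (k : ℝ) ^ 2) := by
        field_simp
        ring
      rw [h8]
      apply mul_le_mul_of_nonneg_left _ (by positivity)
      rw [div_le_div_iff₀ (by positivity) (by norm_num)]
      nlinarith
    have h9 : (S.card : ℝ) / (k : ℝ) ^ U < Ψ i c M' + (S.card : ℝ) / (k : ℝ) ^ U * (1 / 2) := by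
      refine lt_of_lt_of_le hM ?_
      rw [hsplit, hΨ]
      refine (abs_add_le _ _).trans ?_
      linarith
    have h10 : (S.card : ℝ) / (k : ℝ) ^ (U + 1) ≤ (S.card : ℝ) / (k : ℝ) ^ U * (1 / 2) := by
      rw [pow_succ]
      have h11 : (S.card : ℝ) / ((k : ℝ) ^ U * k) = (S.card : ℝ) / (k : ℝ) ^ U * (1 / k) := by
        field_simp
      rw [h11]
      apply mul_le_mul_of_nonneg_left _ (by positivity)
      exact one_div_le_one_div_of_le (by norm_num) hk2
    have h12 : Ψ i c M' ≤ ∑ g ∈ R, Ψ i c g := single_le_sum (f := fun g => Ψ i c g) (fun g _ => hΨ0 i c g) hM'R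
    linarith
  -- the exceptional parameters
  obtain ⟨Bd, hBd⟩ : ∃ Bd, Bd = univ.filter (fun i : ι => P / (k : ℝ) ^ U < ((X.filter (fun c => ∃ M : ℕ, S.card / (k : ℝ) ^ U <
      |∑ m ∈ S.filter (fun m => m < M), a i m * Φ i c m|)).card : ℝ)) := ⟨_, rfl⟩
  rw [← hBd]
  have hlow : ∀ i ∈ Bd, (P / (k : ℝ) ^ U) * (S.card / (k : ℝ) ^ (U + 1)) ≤ ∑ c ∈ X, ∑ g ∈ R, Ψ i c g := by
    intro i hi
    rw [hBd, mem_filter] at hi
    calc (P / (k : ℝ) ^ U) * (S.card / (k : ℝ) ^ (U + 1)) ≤ ((X.filter (fun c => ∃ M : ℕ, S.card / (k : ℝ) ^ U <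
          |∑ m ∈ S.filter (fun m => m < M), a i m * Φ i c m|)).card : ℝ) * (S.card / (k : ℝ) ^ (U + 1)) :=
          mul_le_mul_of_nonneg_right hi.2.le (by positivity)
      _ = ∑ _c ∈ X.filter (fun c => ∃ M : ℕ, S.card / (k : ℝ) ^ U <
          |∑ m ∈ S.filter (fun m => m < M), a i m * Φ i c m|), ((S.card : ℝ) / (k : ℝ) ^ (U + 1)) := by
          rw [sum_const, nsmul_eq_mul]
      _ ≤ ∑ c ∈ X.filter (fun c => ∃ M : ℕ, S.card / (k : ℝ) ^ U <
          |∑ m ∈ S.filter (fun m => m < M), a i m * Φ i c m|), ∑ g ∈ R, Ψ i c g := by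
          apply sum_le_sum
          intro c hc
          rw [mem_filter] at hc
          exact hbad i c hc.1 hc.2
      _ ≤ _ := sum_le_sum_of_subset_of_nonneg (filter_subset _ _) (fun c _ _ => sum_nonneg fun g _ => hΨ0 i c g)
  have hsum : (Bd.card : ℝ) * ((P / (k : ℝ) ^ U) * (S.card / (k : ℝ) ^ (U + 1))) ≤
      P * Fintype.card ι * S.card / (k : ℝ) ^ (3 * (U + 1)) := by
    calc (Bd.card : ℝ) * ((P / (k : ℝ) ^ U) * (S.card / (k : ℝ) ^ (U + 1))) =
          ∑ _i ∈ Bd, ((P / (k : ℝ) ^ U) * (S.card / (k : ℝ) ^ (U + 1))) := by rw [sum_const, nsmul_eq_mul]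
      _ ≤ ∑ i ∈ Bd, ∑ c ∈ X, ∑ g ∈ R, Ψ i c g := sum_le_sum hlow
      _ ≤ ∑ i, ∑ c ∈ X, ∑ g ∈ R, Ψ i c g :=
          sum_le_sum_of_subset_of_nonneg (subset_univ _) (fun i _ _ => sum_nonneg fun c _ => sum_nonneg fun g _ => hΨ0 i c g)
      _ ≤ _ := hgrid
  have hfin : P * Fintype.card ι * S.card / (k : ℝ) ^ (3 * (U + 1)) =
      (Fintype.card ι / (k : ℝ) ^ U * (1 / (k : ℝ) ^ 2)) * ((P / (k : ℝ) ^ U) * (S.card / (k : ℝ) ^ (U + 1))) := by
    rw [show 3 * (U + 1) = U + U + (U + 1) + 2 by ring, pow_add, pow_add, pow_add]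
    field_simp
  rw [hfin] at hsum
  have h9 := le_of_mul_le_mul_right hsum (by positivity)
  refine h9.trans ((mul_le_mul_of_nonneg_left ?_ (by positivity)).trans (le_of_eq (mul_one _)))
  rw [div_le_one (by positivity)]
  exact one_le_pow₀ hk1

end Pool.Agent.Run7.h536.RD
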