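import Pool.Agent.Run7.h536.RD1

set_option autoImplicit false

/-! The first moment over outer parameters and constant terms, for functions of the absolute value. -/

namespace Pool.Agent.Run7.h536.RD
open Finset
open Pool.Agent.TH212.EH (En)
open Pool.Agent.W93.AU (dI)
open Pool.Agent.H373R2.T7
open Pool.Agent.TH872.Sq (th th_nonneg th_le)
open Pool.Agent.Run7.h536.QC (LI dev_one variance pow_lt_two En_diff)
open Pool.Agent.Run7.h536.TB (closure)

/-- `L(|n|)` -/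
noncomputable def AL (L : ℕ → ℝ) (n : ℤ) : ℝ := LI L n + LI L (-n)

/-- the model at `|n|` -/
noncomputable def AM (z : ℕ) (n : ℤ) : ℝ := lamzI z n + lamzI z (-n)

lemma shiftc (B N : ℕ) (hN : 1 ≤ N) (H : ℤ → ℝ) (hH : ∀ c, 0 ≤ H c) :
    ∑ c ∈ Icc (-((B : ℤ) * N)) ((B : ℤ) * N), H c ≤ ∑ t ∈ Icc 1 ((2 * B + 1) * N), H ((t : ℤ) - (B * N + 1)) := by
  classical
  have h1 : ∑ c ∈ Icc (-((B : ℤ) * N)) ((B : ℤ) * N), H c =
      ∑ t ∈ (Icc (-((B : ℤ) * N)) ((B : ℤ) * N)).image (fun c : ℤ => (c + ((B : ℤ) * N + 1)).toNat), H ((t : ℤ) - (B * N + 1)) := by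
    rw [sum_image]
    · apply sum_congr rfl
      intro c hc
      rw [mem_Icc] at hc
      congr 1
      omega
    · intro c hc c' hc' h
      rw [mem_coe, mem_Icc] at hc hc'
      simp only at h
      omega
  rw [h1]
  apply sum_le_sum_of_subset_of_nonneg
  · intro t ht
    rw [mem_image] at ht
    obtain ⟨c, hc, rfl⟩ := ht
    rw [mem_Icc] at hc ⊢
    have h2 : (((c + ((B : ℤ) * N + 1)).toNat : ℕ) : ℤ) = c + (B * N + 1) := by omega
    constructor
    · have : (1 : ℤ) ≤ (((c + ((B : ℤ) * N + 1)).toNat : ℕ) : ℤ) := by rw [h2]; linarith [hc.1]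
      exact_mod_cast this
    · have : (((c + ((B : ℤ) * N + 1)).toNat : ℕ) : ℤ) ≤ (((2 * B + 1) * N : ℕ) : ℤ) := by
        rw [h2]
        push_cast
        have : (1 : ℤ) ≤ N := by exact_mod_cast hN
        nlinarith [hc.2]
      exact_mod_cast this
  · intro t _ _
    exact hH _

lemma En_neg (p : ℕ) {ι : Type} [Fintype ι] (v : ι → ℤ) : En p (fun i => -v i) = En p v := by
  unfold En
  simp only [sum_neg_distrib, neg_inj]

/-- Cauchy's inequality -/
lemma cs {α : Type} (s : Finset α) (f : α → ℝ) (Q : ℝ) (hf : ∀ x ∈ s, 0 ≤ f x) (h : (s.card : ℝ) * ∑ x ∈ s, f x ^ 2 ≤ Q ^ 2) (hQ : 0 ≤ Q) :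
    ∑ x ∈ s, f x ≤ Q := by
  have h1 : (∑ x ∈ s, f x) ^ 2 ≤ (s.card : ℝ) * ∑ x ∈ s, f x ^ 2 := sq_sum_le_card_mul_sum_sq
  exact (sq_le_sq₀ (sum_nonneg hf) hQ).1 (h1.trans h)

/-- the first moment for the von Mangoldt function minus its model -/
theorem fm1 (p B C T U : ℕ) : ∃ B0 : ℕ, ∀ E : ℕ, ∃ k0 : ℕ, ∀ k : ℕ, k0 ≤ k → ∀ N : ℕ, (k : ℝ) ≤ Real.log N →
    Real.log N ≤ (k : ℝ) ^ 2 → ∀ (ι ι' : Type) [Fintype ι] [Fintype ι'] (zf : ι → ι' → ℤ), (∀ i j, |zf i j| ≤ B * N) →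
    (En p (fun q : ι × (ι' × ι') => zf q.1 q.2.2 - zf q.1 q.2.1) : ℝ) * N ≤
      (k : ℝ) ^ C * (Fintype.card (ι × (ι' × ι')) : ℝ) ^ (2 * p) →
    ∀ z : ℕ, (k : ℝ) ^ B0 ≤ z → (z : ℝ) ≤ (k : ℝ) ^ E → ∀ a : ι → ι' → ℝ, (∀ i j, |a i j| ≤ (k : ℝ) ^ T) →
    ∑ i, ∑ c ∈ Icc (-((B : ℤ) * N)) ((B : ℤ) * N), |∑ j, a i j * dI z (zf i j + c)| ≤
      N * (Fintype.card ι * (Fintype.card ι' : ℝ)) / (k : ℝ) ^ U := by
  classical
  obtain ⟨B0, h0⟩ := variance p (2 * B + 1) C T (2 * U + 2)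
  refine ⟨B0, fun E => ?_⟩
  obtain ⟨k0, h1⟩ := h0 E
  refine ⟨k0 + 2 * B + 2, fun k hk N hkN hNk ι ι' _ _ zf hzf hE z hz1 hz2 a ha => ?_⟩
  have hk2 : (2 : ℝ) ≤ k := by exact_mod_cast (by omega : 2 ≤ k)
  have hkB : ((2 * B + 1 : ℕ) : ℝ) ≤ k := by exact_mod_cast (by omega : 2 * B + 1 ≤ k)
  have hkp : (0 : ℝ) < k := by linarith
  have hNpos : 1 ≤ N := by
    rcases Nat.eq_zero_or_pos N with h | h
    · rw [h, Nat.cast_zero, Real.log_zero] at hkN
      linarith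
    · exact h
  have h2 := h1 k (by omega) N hkN hNk ι ι' (fun i j => zf i j - (B * N + 1)) (fun i j => by
      have := abs_le.1 (hzf i j)
      have h3 : (1 : ℤ) ≤ N := by exact_mod_cast hNpos
      push_cast
      rw [abs_le]
      constructor <;> nlinarith [this.1, this.2]) (by
      refine le_trans (le_of_eq ?_) hE
      congr 2
      congr 1
      funext q
      ring) z hz1 hz2 a ha
  have h4 : ∀ i, ∑ c ∈ Icc (-((B : ℤ) * N)) ((B : ℤ) * N), |∑ j, a i j * dI z (zf i j + c)| ≤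
      ∑ c ∈ Icc 1 ((2 * B + 1) * N), |∑ j, a i j * dI z ((c : ℤ) + (zf i j - (B * N + 1)))| := by
    intro i
    refine (shiftc B N hNpos (fun c => |∑ j, a i j * dI z (zf i j + c)|) (fun _ => abs_nonneg _)).trans (le_of_eq ?_)
    apply sum_congr rfl
    intro t _
    congr 1
    apply sum_congr rfl
    intro j _
    congr 2
    ring
  refine (sum_le_sum fun i _ => h4 i).trans ?_
  rw [← sum_product']
  apply cs
  · intro x _
    exact abs_nonneg _
  · rw [card_product, Nat.card_Icc, card_univ, Nat.add_sub_cancel]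
    simp only [sq_abs]
    rw [sum_product' univ (Icc 1 ((2 * B + 1) * N)) (fun i c => (∑ j, a i j * dI z ((c : ℤ) + (zf i j - (B * N + 1)))) ^ 2)]
    calc (((Fintype.card ι * ((2 * B + 1) * N) : ℕ)) : ℝ) * ∑ i, ∑ c ∈ Icc 1 ((2 * B + 1) * N),
          (∑ j, a i j * dI z ((c : ℤ) + (zf i j - (B * N + 1)))) ^ 2 ≤
        (((Fintype.card ι * ((2 * B + 1) * N) : ℕ)) : ℝ) * (N * (Fintype.card ι * (Fintype.card ι' : ℝ) ^ 2) / (k : ℝ) ^ (2 * U + 2)) :=
          mul_le_mul_of_nonneg_left h2 (Nat.cast_nonneg _)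
      _ = ((2 * B + 1 : ℕ) : ℝ) / (k : ℝ) ^ 2 * (N * (Fintype.card ι * (Fintype.card ι' : ℝ)) / (k : ℝ) ^ U) ^ 2 := by
          rw [pow_add, div_pow, ← pow_mul, mul_comm U 2]
          push_cast
          field_simp
      _ ≤ 1 * (N * (Fintype.card ι * (Fintype.card ι' : ℝ)) / (k : ℝ) ^ U) ^ 2 := by
          apply mul_le_mul_of_nonneg_right _ (by positivity)
          rw [div_le_one (by positivity)]
          nlinarith
      _ = _ := one_mul _
  · positivity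

/-- the first moment for functions of the absolute value -/
theorem fm (p B C T U : ℕ) : ∃ B0 : ℕ, ∀ E : ℕ, ∃ k0 : ℕ, ∀ k : ℕ, k0 ≤ k → ∀ N : ℕ, (k : ℝ) ≤ Real.log N →
    Real.log N ≤ (k : ℝ) ^ 2 → ∀ (ι ι' : Type) [Fintype ι] [Fintype ι'] (zf : ι → ι' → ℤ), (∀ i j, |zf i j| ≤ B * N) →
    (En p (fun q : ι × (ι' × ι') => zf q.1 q.2.2 - zf q.1 q.2.1) : ℝ) * N ≤
      (k : ℝ) ^ C * (Fintype.card (ι × (ι' × ι')) : ℝ) ^ (2 * p) →
    ∀ z : ℕ, (k : ℝ) ^ B0 ≤ z → (z : ℝ) ≤ (k : ℝ) ^ E → ∀ L : ℕ → ℝ, (∀ n, th n ≤ L n ∧ L n ≤ ArithmeticFunction.vonMangoldt n) →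
    ∀ a : ι → ι' → ℝ, (∀ i j, |a i j| ≤ (k : ℝ) ^ T) →
    ∑ i, ∑ c ∈ Icc (-((B : ℤ) * N)) ((B : ℤ) * N), |∑ j, a i j * (AL L (zf i j + c) - AM z (zf i j + c))| ≤
      N * (Fintype.card ι * (Fintype.card ι' : ℝ)) / (k : ℝ) ^ U := by
  classical
  obtain ⟨B0, h0⟩ := fm1 p B C T (U + 2)
  refine ⟨B0, fun E => ?_⟩
  obtain ⟨k0, h1⟩ := h0 E
  obtain ⟨k1, h2⟩ := pow_lt_two (2 * (T + U + 6))
  obtain ⟨K1, hK1⟩ := exists_nat_ge (Real.log ((4 * B + 3 : ℕ) : ℝ) + 1)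
  refine ⟨k0 + k1 + K1 + 8 * (2 * B + 1) + 8, fun k hk N hkN hNk ι ι' _ _ zf hzf hE z hz1 hz2 L hL a ha => ?_⟩
  have hk8 : (8 : ℝ) ≤ k := by exact_mod_cast (by omega : 8 ≤ k)
  have hkp : (0 : ℝ) < k := by linarith
  have hk1 : (1 : ℝ) ≤ k := by linarith
  have hNpos : 1 ≤ N := by
    rcases Nat.eq_zero_or_pos N with h | h
    · rw [h, Nat.cast_zero, Real.log_zero] at hkN
      linarith
    · exact h
  have hNr : (1 : ℝ) ≤ N := by exact_mod_cast hNpos
  obtain ⟨Rt, hRt⟩ : ∃ Rt : ℝ, Rt = N * (Fintype.card ι * (Fintype.card ι' : ℝ)) / (k : ℝ) ^ U := ⟨_, rfl⟩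
  have hRt0 : 0 ≤ Rt := by rw [hRt]; positivity
  have hQ : N * (Fintype.card ι * (Fintype.card ι' : ℝ)) / (k : ℝ) ^ (U + 2) ≤ Rt / 8 := by
    rw [hRt, pow_add, ← div_div]
    rw [hRt] at hRt0
    apply div_le_div_of_nonneg_left hRt0 (by norm_num)
    nlinarith
  rw [← hRt]
  -- positive part
  have a1 := (h1 k (by omega) N hkN hNk ι ι' zf hzf hE z hz1 hz2 a ha).trans hQ
  -- negative part
  have a2' := (h1 k (by omega) N hkN hNk ι ι' (fun i j => -zf i j) (fun i j => by rw [abs_neg]; exact hzf i j) (by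
    have e1 : (fun q : ι × (ι' × ι') => -zf q.1 q.2.2 - -zf q.1 q.2.1) = fun q => -(zf q.1 q.2.2 - zf q.1 q.2.1) := by
      funext q
      ring
    rw [e1, En_neg]
    exact hE) z hz1 hz2 a ha).trans hQ
  have hneg : ∀ H : ℤ → ℝ, ∑ c ∈ Icc (-((B : ℤ) * N)) ((B : ℤ) * N), H (-c) = ∑ c ∈ Icc (-((B : ℤ) * N)) ((B : ℤ) * N), H c := by
    intro H
    apply sum_nbij' (fun c => -c) (fun c => -c)
    · intro c hc
      rw [mem_Icc] at hc ⊢
      constructor <;> linarith [hc.1, hc.2]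
    · intro c hc
      rw [mem_Icc] at hc ⊢
      constructor <;> linarith [hc.1, hc.2]
    · intro c _
      ring
    · intro c _
      ring
    · intro c _
      rfl
  have a2 : ∑ i, ∑ c ∈ Icc (-((B : ℤ) * N)) ((B : ℤ) * N), |∑ j, a i j * dI z (-(zf i j + c))| ≤ Rt / 8 := by
    refine le_trans (le_of_eq ?_) a2'
    apply sum_congr rfl
    intro i _
    rw [← hneg (fun c => |∑ j, a i j * dI z (-zf i j + c)|)]
    apply sum_congr rfl
    intro c _
    congr 1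
    apply sum_congr rfl
    intro j _
    congr 2
    ring
  -- prime powers
  obtain ⟨X, hX⟩ : ∃ X, X = (2 * B + 1) * N := ⟨_, rfl⟩
  have hXpos : 1 ≤ X := by rw [hX]; exact Nat.mul_pos (by omega) hNpos
  have hdev : ∀ y : ℤ, |y| ≤ B * N → ∑ c ∈ Icc (-((B : ℤ) * N)) ((B : ℤ) * N), |LI L (y + c) - lamI (y + c)| ≤
      2 * Real.sqrt ((2 * X : ℕ) : ℝ) * Real.log ((2 * X : ℕ) : ℝ) := by
    intro y hy
    refine (shiftc B N hNpos (fun c => |LI L (y + c) - lamI (y + c)|) (fun _ => abs_nonneg _)).trans ?_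
    have h5 := dev_one L hL X (y - (B * N + 1)) hXpos (by
      have := abs_le.1 hy
      have h3 : (1 : ℤ) ≤ N := by exact_mod_cast hNpos
      rw [hX]
      push_cast
      rw [abs_le]
      constructor <;> nlinarith [this.1, this.2])
    rw [hX] at h5 ⊢
    refine le_trans (le_of_eq ?_) h5
    apply sum_congr rfl
    intro t _
    have e1 : y + ((t : ℤ) - (B * N + 1)) = (t : ℤ) + (y - (B * N + 1)) := by ring
    rw [e1]
  have hnum : (k : ℝ) ^ T * (2 * Real.sqrt ((2 * X : ℕ) : ℝ) * Real.log ((2 * X : ℕ) : ℝ)) ≤ N / (k : ℝ) ^ U / 8 := by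
    have hlog : Real.log ((2 * X : ℕ) : ℝ) ≤ (k : ℝ) ^ 3 := by
      have h6 : ((2 * X : ℕ) : ℝ) ≤ ((4 * B + 3 : ℕ) : ℝ) * N := by
        rw [hX]
        push_cast
        nlinarith
      refine (Real.log_le_log (by exact_mod_cast (by omega : 0 < 2 * X)) h6).trans ?_
      rw [Real.log_mul (by positivity) (by positivity)]
      have h7 : Real.log ((4 * B + 3 : ℕ) : ℝ) + 1 ≤ k := hK1.trans (by exact_mod_cast (by omega : K1 ≤ k))
      nlinarith [sq_nonneg ((k : ℝ) - 1), mul_nonneg (by linarith : 0 ≤ (k : ℝ) - 1) (sq_nonneg (k : ℝ))]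
    have hNe : (2 : ℝ) ^ k ≤ N := by
      have h6 : Real.exp k ≤ N := by
        rw [← Real.le_log_iff_exp_le (by linarith)]
        exact hkN
      have h7 : (2 : ℝ) ^ k ≤ Real.exp 1 ^ k := pow_le_pow_left₀ (by norm_num) (by linarith [Real.exp_one_gt_d9]) k
      rw [← Real.exp_nat_mul, mul_one] at h7
      exact h7.trans h6
    have hsN : (k : ℝ) ^ (T + U + 6) ≤ Real.sqrt N := by
      apply Real.le_sqrt_of_sq_le
      rw [← pow_mul, mul_comm (T + U + 6) 2]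
      exact (h2 k (by omega)).trans hNe
    have hsq : Real.sqrt ((2 * X : ℕ) : ℝ) ≤ 2 * (2 * B + 1) * Real.sqrt N := by
      rw [hX, show (((2 * ((2 * B + 1) * N) : ℕ)) : ℝ) = (2 * (2 * B + 1) : ℝ) * N by push_cast; ring, Real.sqrt_mul (by positivity)]
      apply mul_le_mul_of_nonneg_right _ (Real.sqrt_nonneg _)
      rw [Real.sqrt_le_left (by positivity)]
      have : (0 : ℝ) ≤ B := Nat.cast_nonneg _
      nlinarith
    have hlog0 : 0 ≤ Real.log ((2 * X : ℕ) : ℝ) := Real.log_natCast_nonneg _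
    have hs0 : 0 < Real.sqrt N := Real.sqrt_pos.2 (by linarith)
    have hss : Real.sqrt N * Real.sqrt N = N := Real.mul_self_sqrt (by linarith)
    have hk32 : (8 * (2 * B + 1) : ℝ) ≤ k := by exact_mod_cast (by omega : 8 * (2 * B + 1) ≤ k)
    calc (k : ℝ) ^ T * (2 * Real.sqrt ((2 * X : ℕ) : ℝ) * Real.log ((2 * X : ℕ) : ℝ)) ≤
        (k : ℝ) ^ T * (2 * (2 * (2 * B + 1) * Real.sqrt N) * (k : ℝ) ^ 3) := by
          apply mul_le_mul_of_nonneg_left _ (by positivity)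
          apply mul_le_mul _ hlog hlog0 (by positivity)
          exact mul_le_mul_of_nonneg_left hsq (by norm_num)
      _ = (4 * (2 * B + 1)) * (k : ℝ) ^ (T + 3) * Real.sqrt N := by rw [pow_add]; ring
      _ ≤ k * (k : ℝ) ^ (T + 3) * Real.sqrt N := by
          apply mul_le_mul_of_nonneg_right _ hs0.le
          apply mul_le_mul_of_nonneg_right _ (by positivity)
          have : (0 : ℝ) ≤ B := Nat.cast_nonneg _
          linarith
      _ ≤ (Real.sqrt N / (k : ℝ) ^ U / 8) * Real.sqrt N := by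
          apply mul_le_mul_of_nonneg_right _ hs0.le
          rw [le_div_iff₀ (by norm_num), le_div_iff₀ (by positivity)]
          refine le_trans ?_ hsN
          have e1 : (k : ℝ) * (k : ℝ) ^ (T + 3) * 8 * (k : ℝ) ^ U = (k : ℝ) ^ (T + U + 4) * 8 := by ring
          rw [e1, show T + U + 6 = (T + U + 4) + 2 by ring, pow_add (k : ℝ) (T + U + 4) 2]
          apply mul_le_mul_of_nonneg_left _ (by positivity)
          nlinarith
      _ = Real.sqrt N * Real.sqrt N / (k : ℝ) ^ U / 8 := by ring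
      _ = _ := by rw [hss]
  have hdiff : ∀ (y : ι → ι' → ℤ), (∀ i j, |y i j| ≤ B * N) →
      ∑ i, ∑ c ∈ Icc (-((B : ℤ) * N)) ((B : ℤ) * N), |∑ j, a i j * (LI L (y i j + c) - lamI (y i j + c))| ≤ Rt / 8 := by
    intro y hy
    calc ∑ i, ∑ c ∈ Icc (-((B : ℤ) * N)) ((B : ℤ) * N), |∑ j, a i j * (LI L (y i j + c) - lamI (y i j + c))| ≤
        ∑ i, ∑ c ∈ Icc (-((B : ℤ) * N)) ((B : ℤ) * N), ∑ j, (k : ℝ) ^ T * |LI L (y i j + c) - lamI (y i j + c)| := by
          apply sum_le_sum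
          intro i _
          apply sum_le_sum
          intro c _
          refine (abs_sum_le_sum_abs _ _).trans ?_
          apply sum_le_sum
          intro j _
          rw [abs_mul]
          exact mul_le_mul_of_nonneg_right (ha i j) (abs_nonneg _)
      _ = ∑ i, ∑ j, (k : ℝ) ^ T * ∑ c ∈ Icc (-((B : ℤ) * N)) ((B : ℤ) * N), |LI L (y i j + c) - lamI (y i j + c)| := by
          apply sum_congr rfl
          intro i _
          rw [sum_comm]
          apply sum_congr rfl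
          intro j _
          rw [mul_sum]
      _ ≤ ∑ _i : ι, ∑ _j : ι', (N / (k : ℝ) ^ U / 8) := by
          apply sum_le_sum
          intro i _
          apply sum_le_sum
          intro j _
          exact (mul_le_mul_of_nonneg_left (hdev _ (hy i j)) (by positivity)).trans hnum
      _ = Rt / 8 := by
          rw [sum_const, sum_const, card_univ, card_univ, nsmul_eq_mul, nsmul_eq_mul, hRt]
          ring
  have b1 := hdiff zf hzf
  have b2' := hdiff (fun i j => -zf i j) (fun i j => by rw [abs_neg]; exact hzf i j)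
  have b2 : ∑ i, ∑ c ∈ Icc (-((B : ℤ) * N)) ((B : ℤ) * N), |∑ j, a i j * (LI L (-(zf i j + c)) - lamI (-(zf i j + c)))| ≤ Rt / 8 := by
    refine le_trans (le_of_eq ?_) b2'
    apply sum_congr rfl
    intro i _
    rw [← hneg (fun c => |∑ j, a i j * (LI L (-zf i j + c) - lamI (-zf i j + c))|)]
    apply sum_congr rfl
    intro c _
    congr 1
    apply sum_congr rfl
    intro j _
    have e1 : -(zf i j + c) = -zf i j + -c := by ring
    rw [e1]
  calc ∑ i, ∑ c ∈ Icc (-((B : ℤ) * N)) ((B : ℤ) * N), |∑ j, a i j * (AL L (zf i j + c) - AM z (zf i j + c))| ≤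
      ∑ i, ∑ c ∈ Icc (-((B : ℤ) * N)) ((B : ℤ) * N), (|∑ j, a i j * dI z (zf i j + c)| + |∑ j, a i j * dI z (-(zf i j + c))| +
        (|∑ j, a i j * (LI L (zf i j + c) - lamI (zf i j + c))| + |∑ j, a i j * (LI L (-(zf i j + c)) - lamI (-(zf i j + c)))|)) := by
        apply sum_le_sum
        intro i _
        apply sum_le_sum
        intro c _
        have e1 : ∑ j, a i j * (AL L (zf i j + c) - AM z (zf i j + c)) = (∑ j, a i j * dI z (zf i j + c) + ∑ j, a i j * dI z (-(zf i j + c))) +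
            (∑ j, a i j * (LI L (zf i j + c) - lamI (zf i j + c)) + ∑ j, a i j * (LI L (-(zf i j + c)) - lamI (-(zf i j + c)))) := by
          rw [← sum_add_distrib, ← sum_add_distrib, ← sum_add_distrib]
          apply sum_congr rfl
          intro j _
          unfold AL AM dI
          ring
        rw [e1]
        refine (abs_add_le _ _).trans ?_
        exact add_le_add (abs_add_le _ _) (abs_add_le _ _)
    _ = (∑ i, ∑ c ∈ Icc (-((B : ℤ) * N)) ((B : ℤ) * N), |∑ j, a i j * dI z (zf i j + c)| +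
        ∑ i, ∑ c ∈ Icc (-((B : ℤ) * N)) ((B : ℤ) * N), |∑ j, a i j * dI z (-(zf i j + c))|) +
        (∑ i, ∑ c ∈ Icc (-((B : ℤ) * N)) ((B : ℤ) * N), |∑ j, a i j * (LI L (zf i j + c) - lamI (zf i j + c))| +
        ∑ i, ∑ c ∈ Icc (-((B : ℤ) * N)) ((B : ℤ) * N), |∑ j, a i j * (LI L (-(zf i j + c)) - lamI (-(zf i j + c)))|) := by
        simp only [sum_add_distrib]
    _ ≤ (Rt / 8 + Rt / 8) + (Rt / 8 + Rt / 8) := add_le_add (add_le_add a1 a2) (add_le_add b1 b2)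
    _ ≤ Rt := by linarith

/-- the energy of the differences of bilinear combinations -/
theorem diff_energy (h h' r B C : ℕ) (hh : 1 ≤ h) (hh' : 1 ≤ h') (hr : 2 ≤ r) : ∃ p C' k0 : ℕ, ∀ k : ℕ, k0 ≤ k →
    ∀ X Y : ℕ, (k : ℝ) ≤ Real.log ((X * Y : ℕ) : ℝ) → Real.log ((X * Y : ℕ) : ℝ) ≤ (k : ℝ) ^ 2 → X ≤ Y ^ (r - 1) → Y ≤ X ^ (r - 1) →
    ∀ (ι ι' : Type) [Fintype ι] [Fintype ι'] (v : ι → ℤ) (w : ι' → ℤ), (∀ i, |v i| ≤ B * X) → (∀ j, |w j| ≤ B * Y) →
    (En h v : ℝ) * X ≤ (k : ℝ) ^ C * (Fintype.card ι : ℝ) ^ (2 * h) →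
    (En h' w : ℝ) * Y ≤ (k : ℝ) ^ C * (Fintype.card ι' : ℝ) ^ (2 * h') →
    ∀ (κ : ℤ), κ ≠ 0 → ∀ (F : ι → ℤ) (G : ι' → ℤ),
    (En p (fun q : ι × (ι' × ι') => (κ * v q.1 * w q.2.2 + F q.1 + G q.2.2) - (κ * v q.1 * w q.2.1 + F q.1 + G q.2.1)) : ℝ) * ((X * Y : ℕ) : ℝ) ≤
      (k : ℝ) ^ C' * (Fintype.card (ι × (ι' × ι')) : ℝ) ^ (2 * p) := by
  obtain ⟨p, C', N₀, hp, hcl⟩ := closure h h' r (2 * B) C hh hh' hr
  refine ⟨p, 2 * C', N₀ + 1, fun k hk X Y hkN hNk hXY hYX ι ι' _ _ v w hv hw hEv hEw κ hκ F G => ?_⟩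
  obtain ⟨N, hN⟩ : ∃ N, N = X * Y := ⟨_, rfl⟩
  rw [← hN] at hkN hNk ⊢
  have hk1 : (1 : ℝ) ≤ k := by exact_mod_cast (by omega : 1 ≤ k)
  have hkp : (0 : ℝ) < k := by linarith
  have hL0 : (0 : ℝ) < Real.log N := by linarith
  have hNpos : 1 ≤ N := by
    rcases Nat.eq_zero_or_pos N with h | h
    · rw [h, Nat.cast_zero, Real.log_zero] at hL0
      exact absurd hL0 (lt_irrefl _)
    · exact h
  have hkN' : k ≤ N := by
    have h3 : (0 : ℝ) < N := by exact_mod_cast hNpos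
    have h4 := Real.log_le_sub_one_of_pos h3
    have h5 : (k : ℝ) ≤ N := by linarith
    exact_mod_cast h5
  have e1 := hcl X Y (by rw [← hN]; omega) hXY hYX ι (ι' × ι') v (fun q => w q.2 - w q.1)
    (fun i => (hv i).trans (by push_cast; nlinarith [Int.natCast_nonneg (B * X)]))
    (fun q => by
      have a1 := abs_le.1 (hw q.1)
      have a2 := abs_le.1 (hw q.2)
      push_cast
      rw [abs_le]
      constructor <;> linarith [a1.1, a1.2, a2.1, a2.2])
    (hEv.trans (mul_le_mul_of_nonneg_right (pow_le_pow_left₀ hkp.le (by rw [← hN]; exact hkN) C) (by positivity)))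
    (by
      have a1 : (En h' (fun q : ι' × ι' => w q.2 - w q.1) : ℝ) ≤ (Fintype.card ι' : ℝ) ^ (2 * h') * En h' w := by
        exact_mod_cast En_diff h' w
      calc (En h' (fun q : ι' × ι' => w q.2 - w q.1) : ℝ) * Y ≤ (Fintype.card ι' : ℝ) ^ (2 * h') * En h' w * Y :=
            mul_le_mul_of_nonneg_right a1 (Nat.cast_nonneg _)
        _ = (Fintype.card ι' : ℝ) ^ (2 * h') * (En h' w * Y) := by ring
        _ ≤ (Fintype.card ι' : ℝ) ^ (2 * h') * ((k : ℝ) ^ C * (Fintype.card ι' : ℝ) ^ (2 * h')) :=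
            mul_le_mul_of_nonneg_left hEw (by positivity)
        _ ≤ (Fintype.card ι' : ℝ) ^ (2 * h') * (Real.log ((X * Y : ℕ) : ℝ) ^ C * (Fintype.card ι' : ℝ) ^ (2 * h')) := by
            apply mul_le_mul_of_nonneg_left _ (by positivity)
            apply mul_le_mul_of_nonneg_right _ (by positivity)
            exact pow_le_pow_left₀ hkp.le (by rw [← hN]; exact hkN) C
        _ = _ := by
            rw [Fintype.card_prod]
            push_cast
            ring)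
    (fun _ => 0) (fun q => G q.2 - G q.1) κ hκ
  have e2 : (fun q : ι × (ι' × ι') => κ * v q.1 * (w q.2.2 - w q.2.1) + 0 + (G q.2.2 - G q.2.1)) =
      fun q => (κ * v q.1 * w q.2.2 + F q.1 + G q.2.2) - (κ * v q.1 * w q.2.1 + F q.1 + G q.2.1) := by
    funext q
    ring
  rw [e2, ← hN] at e1
  refine e1.trans ?_
  apply mul_le_mul_of_nonneg_right _ (by positivity)
  rw [pow_mul]
  exact pow_le_pow_left₀ hL0.le hNk C'

end Pool.Agent.Run7.h536.RD
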