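import Pool.Agent.Run7.h536.RD2

set_option autoImplicit false

/-! Systems of bilinear combinations with perturbations: almost all outer parameters, almost all constant terms, all
initial segments. -/

namespace Pool.Agent.Run7.h536.RD
open Finset
open Pool.Agent.TH212.EH (En)
open Pool.Agent.W93.AU (dI)
open Pool.Agent.H373R2.T7
open Pool.Agent.TH872.Sq (th th_nonneg th_le)
open Pool.Agent.Run7.h536.QC (LI pow_lt_two lamI_le)

lemma AL_le (B N : ℕ) (k : ℝ) (hk : Real.log ((2 * B + 1 : ℕ) : ℝ) + 1 ≤ k) (hNk : Real.log N ≤ k ^ 2) (hN : 1 ≤ N)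
    (L : ℕ → ℝ) (hL : ∀ n, th n ≤ L n ∧ L n ≤ ArithmeticFunction.vonMangoldt n) (m : ℤ) (hm : |m| ≤ 2 * B * N) :
    |AL L m| ≤ 2 * k ^ 3 := by
  have hLb : ∀ m : ℤ, |LI L m| ≤ |lamI m| := by
    intro m
    rw [abs_of_nonneg (lamI_nonneg m)]
    unfold LI lamI
    split_ifs with h
    · obtain ⟨h3, h4⟩ := hL m.toNat
      have := th_nonneg m.toNat
      rw [abs_of_nonneg (by linarith)]
      exact h4
    · rw [abs_zero]
  have h1 := abs_le.1 hm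
  have h2 := (hLb m).trans (lamI_le B N k hk hNk hN m h1.2)
  have h3 := (hLb (-m)).trans (lamI_le B N k hk hNk hN (-m) (by linarith [h1.1]))
  unfold AL
  refine (abs_add_le _ _).trans ?_
  linarith

lemma AM_le (N z k : ℕ) (hk1 : (1 : ℝ) ≤ k) (hNk : Real.log N ≤ (k : ℝ) ^ 2) (h7 : (Vz z)⁻¹ ≤ Real.log N) (m : ℤ) :
    |AM z m| ≤ 2 * (k : ℝ) ^ 3 := by
  have h8 : (0 : ℝ) ≤ (Vz z)⁻¹ := inv_nonneg.2 (Vz_pos z).le
  have h9 : (k : ℝ) ^ 2 ≤ (k : ℝ) ^ 3 := pow_le_pow_right₀ hk1 (by norm_num)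
  have h10 : ∀ m : ℤ, |lamzI z m| ≤ (k : ℝ) ^ 3 := by
    intro m
    unfold lamzI lamz
    split_ifs
    · rw [abs_of_nonneg h8]
      linarith
    · rw [abs_zero]; positivity
    · rw [abs_zero]; positivity
  unfold AM
  refine (abs_add_le _ _).trans ?_
  have := h10 m
  have := h10 (-m)
  linarith

open Classical in
/-- **Systems, almost all outer parameters, almost all constant terms, all initial segments.** -/
theorem genD (s : ℕ) (p : Fin s → ℕ) (B C T U : ℕ) (hB : 1 ≤ B) :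
    ∃ B0 V0 : ℕ, ∀ E : ℕ, ∃ k0 : ℕ, ∀ k : ℕ, k0 ≤ k → ∀ N : Fin s → ℕ,
    (∀ l, (k : ℝ) ≤ Real.log (N l)) → (∀ l, Real.log (N l) ≤ (k : ℝ) ^ 2) →
    ∀ (ι : Type) [Fintype ι] (S : Finset ℕ), (k : ℝ) ^ V0 ≤ S.card → ∀ (zf : Fin s → ι → ℕ → ℤ),
    (∀ l i, ∀ m ∈ S, |zf l i m| ≤ B * N l) →
    (∀ l, (En (p l) (fun q : ι × ({m // m ∈ S} × {m // m ∈ S}) => zf l q.1 q.2.2.1 - zf l q.1 q.2.1.1) : ℝ) * N l ≤
      (k : ℝ) ^ C * (Fintype.card (ι × ({m // m ∈ S} × {m // m ∈ S})) : ℝ) ^ (2 * p l)) →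
    ∀ z : ℕ, (k : ℝ) ^ B0 ≤ z → (z : ℝ) ≤ (k : ℝ) ^ E → ∀ L : ℕ → ℝ, (∀ n, th n ≤ L n ∧ L n ≤ ArithmeticFunction.vonMangoldt n) →
    ∀ a : ι → ℕ → ℝ, (∀ i m, |a i m| ≤ (k : ℝ) ^ T) →
    ((univ.filter (fun i : ι => (∏ l, (N l : ℝ)) / (k : ℝ) ^ U <
      (((Fintype.piFinset (fun l => Icc (-((B : ℤ) * N l)) ((B : ℤ) * N l))).filter (fun c : Fin s → ℤ =>
        ∃ M : ℕ, S.card / (k : ℝ) ^ U < |∑ m ∈ S.filter (fun m => m < M), a i m *
          (∏ l, AL L (zf l i m + c l) - ∏ l, AM z (zf l i m + c l))|)).card : ℝ))).card : ℝ) ≤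
      Fintype.card ι / (k : ℝ) ^ U := by
  obtain ⟨K, hK⟩ : ∃ K, K = 4 * s := ⟨_, rfl⟩
  obtain ⟨W, hW⟩ : ∃ W, W = 3 * (U + 1) + (T + K + U + 3) := ⟨_, rfl⟩
  choose B0 hB0 using fun l => fm (p l) B C (T + K + K) (W + s + 1)
  refine ⟨∑ l, B0 l, T + K + U + 2, fun E => ?_⟩
  choose k0 hk0 using fun l => hB0 l E
  obtain ⟨n1, hn1⟩ := Vz_inv_small E
  obtain ⟨K1, hK1⟩ := exists_nat_ge (Real.log ((2 * B + 1 : ℕ) : ℝ) + 1)
  refine ⟨∑ l, k0 l + n1 + K1 + s + 3 * B + 8, fun k hk N hkN hNk ι _ S hS zf hzb hEn z hz1 hz2 L hL a ha => ?_⟩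
  have hk8 : (8 : ℝ) ≤ k := by exact_mod_cast (by omega : 8 ≤ k)
  have hk1' : (1 : ℝ) ≤ k := by linarith
  have hkp : (0 : ℝ) < k := by linarith
  have hNpos : ∀ l, 1 ≤ N l := by
    intro l
    rcases Nat.eq_zero_or_pos (N l) with h | h
    · have := hkN l
      rw [h, Nat.cast_zero, Real.log_zero] at this
      linarith
    · exact h
  have hkj : ∀ l, k ≤ N l := by
    intro l
    have h3 : (0 : ℝ) < N l := by exact_mod_cast hNpos l
    have h4 := Real.log_le_sub_one_of_pos h3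
    have h5 : (k : ℝ) ≤ N l := by linarith [hkN l]
    exact_mod_cast h5
  have hK1k : Real.log ((2 * B + 1 : ℕ) : ℝ) + 1 ≤ k := hK1.trans (by exact_mod_cast (by omega : K1 ≤ k))
  have hz1' : 1 ≤ z := by
    have h1 : (1 : ℝ) ≤ z := le_trans (one_le_pow₀ hk1') hz1
    exact_mod_cast h1
  have hs0 : ∀ l, k0 l ≤ k := by
    intro l
    have : k0 l ≤ ∑ l, k0 l := single_le_sum (f := k0) (fun _ _ => Nat.zero_le _) (mem_univ l)
    omega
  obtain ⟨X', hX'⟩ : ∃ X' : Fin s → Finset ℤ, ∀ l, X' l = Icc (-((B : ℤ) * N l)) ((B : ℤ) * N l) := ⟨_, fun _ => rfl⟩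
  have hX'c : ∀ l, ((X' l).card : ℝ) ≤ (3 * B) * N l := by
    intro l
    have h1 : (X' l).card = 2 * B * N l + 1 := by
      rw [hX', Int.card_Icc]
      have : ((B : ℤ) * N l + 1 - -((B : ℤ) * N l)) = ((2 * B * N l + 1 : ℕ) : ℤ) := by push_cast; ring
      rw [this, Int.toNat_natCast]
    have h2 : 1 ≤ B * N l := Nat.mul_pos hB (hNpos l)
    have h3 : (X' l).card ≤ 3 * B * N l := by
      rw [h1]
      nlinarith
    exact_mod_cast h3
  have hX'c2 : ∀ l, (N l : ℝ) ≤ ((X' l).card : ℝ) := by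
    intro l
    have h1 : (X' l).card = 2 * B * N l + 1 := by
      rw [hX', Int.card_Icc]
      have : ((B : ℤ) * N l + 1 - -((B : ℤ) * N l)) = ((2 * B * N l + 1 : ℕ) : ℤ) := by push_cast; ring
      rw [this, Int.toNat_natCast]
    rw [h1]
    exact_mod_cast (by nlinarith : N l ≤ 2 * B * N l + 1)
  have hX'ne : ∀ l, (X' l).Nonempty := by
    intro l
    rw [hX']
    exact ⟨0, by rw [mem_Icc]; constructor <;> [(have := mul_nonneg (Int.natCast_nonneg B) (Int.natCast_nonneg (N l)); omega); positivity]⟩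
  -- bounds
  have hval : ∀ l i, ∀ m ∈ S, ∀ c ∈ X' l, |zf l i m + c| ≤ 2 * B * N l := by
    intro l i m hm c hc
    rw [hX', mem_Icc] at hc
    have h1 := abs_le.1 (hzb l i m hm)
    rw [abs_le]
    constructor <;> linarith [h1.1, h1.2, hc.1, hc.2]
  have hkb : 2 * (k : ℝ) ^ 3 ≤ (k : ℝ) ^ 4 := by
    have : (0 : ℝ) ≤ (k : ℝ) ^ 3 := by positivity
    nlinarith
  have hbA : ∀ l i, ∀ m ∈ S, ∀ c ∈ X' l, |AL L (zf l i m + c)| ≤ (k : ℝ) ^ 4 := fun l i m hm c hc =>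
    (AL_le B (N l) k hK1k (hNk l) (hNpos l) L hL _ (hval l i m hm c hc)).trans hkb
  have hbM : ∀ l (n : ℤ), |AM z n| ≤ (k : ℝ) ^ 4 := fun l n =>
    (AM_le (N l) z k hk1' (hNk l) (hn1 (N l) (by have := hkj l; omega) z hz1' (hz2.trans (pow_le_pow_left₀ hkp.le (hkN l) E))) n).trans hkb
  obtain ⟨P, hP⟩ : ∃ P : ℝ, P = ∏ l, (N l : ℝ) := ⟨_, rfl⟩
  have hP0 : 0 < P := by
    rw [hP]
    exact prod_pos fun l _ => by exact_mod_cast hNpos l
  rw [← hP]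
  obtain ⟨X'', hX''⟩ : ∃ X'' : Finset (Fin s → ℤ), X'' = Fintype.piFinset X' := ⟨_, rfl⟩
  have hXX : Fintype.piFinset (fun l => Icc (-((B : ℤ) * N l)) ((B : ℤ) * N l)) = X'' := by
    rw [hX'']
    congr 1
    funext l
    rw [hX']
  rw [hXX]
  have hmemX : ∀ c ∈ X'', ∀ l, c l ∈ X' l := by
    intro c hc l
    rw [hX'', Fintype.mem_piFinset] at hc
    exact hc l
  refine pref X'' S (fun i c m => ∏ l, AL L (zf l i m + c l) - ∏ l, AM z (zf l i m + c l)) k T K U (by omega) P hP0 hS ?_ a ha ?_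
  · intro i c hc m hm
    have e1 : |∏ l, AL L (zf l i m + c l)| ≤ ((k : ℝ) ^ 4) ^ s := by
      have := Pool.Agent.Run7.h536.QC.prod_le_pow univ (fun l => AL L (zf l i m + c l)) ((k : ℝ) ^ 4) (one_le_pow₀ hk1')
        (fun l _ => hbA l i m hm _ (hmemX c hc l))
      exact this
    have e2 : |∏ l, AM z (zf l i m + c l)| ≤ ((k : ℝ) ^ 4) ^ s := by
      have := Pool.Agent.Run7.h536.QC.prod_le_pow univ (fun l => AM z (zf l i m + c l)) ((k : ℝ) ^ 4) (one_le_pow₀ hk1')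
        (fun l _ => hbM l _)
      exact this
    rw [← pow_mul, ← hK] at e1 e2
    refine (abs_sub _ _).trans ?_
    linarith
  · intro b hb
    have hcoe : ∀ (i : ι) (c : Fin s → ℤ), ∑ m ∈ S, b i m * (∏ l, AL L (zf l i m + c l) - ∏ l, AM z (zf l i m + c l)) =
        ∑ m : {m // m ∈ S}, b i m.1 * (∏ l, AL L (zf l i m.1 + c l) - ∏ l, AM z (zf l i m.1 + c l)) := by
      intro i c
      rw [← sum_coe_sort S (fun m => b i m * (∏ l, AL L (zf l i m + c l) - ∏ l, AM z (zf l i m + c l)))]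
    simp only [hcoe]
    have hSc : Fintype.card {m // m ∈ S} = S.card := Fintype.card_coe _
    have h1 := tele X' hX'ne (fun l i (m : {m // m ∈ S}) c => AL L (zf l i m.1 + c)) (fun l i m c => AM z (zf l i m.1 + c))
      ((k : ℝ) ^ 4) ((k : ℝ) ^ T) (one_le_pow₀ hk1') (by positivity) (fun l i m c hc => hbA l i m.1 m.2 c hc)
      (fun l i m c _ => hbM l _) (fun i m => b i m.1) (fun i m => hb i m.1)
      (fun l => Fintype.card ι * (S.card : ℝ) / (k : ℝ) ^ (W + s + 1)) ?_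
    · rw [← hX''] at h1
      refine h1.trans ?_
      rw [sum_const, card_univ, Fintype.card_fin, nsmul_eq_mul]
      have h2 : ∏ l, ((X' l).card : ℝ) ≤ (k : ℝ) ^ s * P := by
        calc ∏ l, ((X' l).card : ℝ) ≤ ∏ l, ((k : ℝ) * N l) := by
              apply prod_le_prod
              · intro l _
                exact Nat.cast_nonneg _
              · intro l _
                refine (hX'c l).trans ?_
                apply mul_le_mul_of_nonneg_right _ (Nat.cast_nonneg _)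
                exact_mod_cast (by omega : 3 * B ≤ k)
          _ = (k : ℝ) ^ s * P := by rw [prod_mul_distrib, prod_const, card_univ, Fintype.card_fin, hP]
      have h3 : (s : ℝ) ≤ k := by exact_mod_cast (by omega : s ≤ k)
      calc (s : ℝ) * (Fintype.card ι * (S.card : ℝ) / (k : ℝ) ^ (W + s + 1)) * ∏ l, ((X' l).card : ℝ) ≤
          (k : ℝ) * (Fintype.card ι * (S.card : ℝ) / (k : ℝ) ^ (W + s + 1)) * ((k : ℝ) ^ s * P) := by
            apply mul_le_mul _ h2 (prod_nonneg fun l _ => Nat.cast_nonneg _) (by positivity)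
            exact mul_le_mul_of_nonneg_right h3 (by positivity)
        _ = P * Fintype.card ι * S.card / (k : ℝ) ^ W := by
            rw [show W + s + 1 = W + (s + 1) by ring, pow_add (k : ℝ) W (s + 1), pow_succ (k : ℝ) s]
            field_simp
        _ = _ := by rw [hW]
    · intro l b' hb'
      have h4 := hk0 l k (hs0 l) (N l) (hkN l) (hNk l) ι {m // m ∈ S} (fun i m => zf l i m.1) (fun i m => hzb l i m.1 m.2)
        (hEn l) z (by
          refine le_trans (pow_le_pow_right₀ hk1' ?_) hz1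
          exact single_le_sum (f := B0) (fun _ _ => Nat.zero_le _) (mem_univ l)) hz2 L hL b' (fun i m => by
          refine (hb' i m).trans (le_of_eq ?_)
          rw [← pow_mul, ← hK, ← pow_add, ← pow_add, ← add_assoc])
      rw [← hX', hSc] at h4
      refine h4.trans ?_
      calc (N l : ℝ) * (Fintype.card ι * (S.card : ℝ)) / (k : ℝ) ^ (W + s + 1) =
          N l * (Fintype.card ι * (S.card : ℝ) / (k : ℝ) ^ (W + s + 1)) := by ring
        _ ≤ _ := mul_le_mul_of_nonneg_right (hX'c2 l) (by positivity)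

open Classical in
/-- **Systems of bilinear combinations with arbitrary perturbations.** -/
theorem gen (s : ℕ) (h h' : Fin s → ℕ) (r B C T U : ℕ) (hh : ∀ l, 1 ≤ h l) (hh' : ∀ l, 1 ≤ h' l) (hr : 2 ≤ r) (hB : 1 ≤ B) :
    ∃ B0 V0 : ℕ, ∀ E : ℕ, ∃ k0 : ℕ, ∀ k : ℕ, k0 ≤ k → ∀ X Y : Fin s → ℕ,
    (∀ l, (k : ℝ) ≤ Real.log ((X l * Y l : ℕ) : ℝ)) → (∀ l, Real.log ((X l * Y l : ℕ) : ℝ) ≤ (k : ℝ) ^ 2) →
    (∀ l, X l ≤ Y l ^ (r - 1)) → (∀ l, Y l ≤ X l ^ (r - 1)) →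
    ∀ (ι : Type) [Fintype ι] (S : Finset ℕ), (k : ℝ) ^ V0 ≤ S.card → ∀ (v : Fin s → ι → ℤ) (w : Fin s → ℕ → ℤ),
    (∀ l i, |v l i| ≤ B * X l) → (∀ l, ∀ m ∈ S, |w l m| ≤ B * Y l) →
    (∀ l, (En (h l) (v l) : ℝ) * X l ≤ (k : ℝ) ^ C * (Fintype.card ι : ℝ) ^ (2 * h l)) →
    (∀ l, (En (h' l) (fun m : {m // m ∈ S} => w l m.1) : ℝ) * Y l ≤ (k : ℝ) ^ C * (S.card : ℝ) ^ (2 * h' l)) →
    ∀ (κ : Fin s → ℤ), (∀ l, κ l ≠ 0) → ∀ (F : Fin s → ι → ℤ) (G : Fin s → ℕ → ℤ),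
    (∀ l i, ∀ m ∈ S, |κ l * v l i * w l m + F l i + G l m| ≤ B * (X l * Y l : ℕ)) →
    ∀ z : ℕ, (k : ℝ) ^ B0 ≤ z → (z : ℝ) ≤ (k : ℝ) ^ E → ∀ L : ℕ → ℝ, (∀ n, th n ≤ L n ∧ L n ≤ ArithmeticFunction.vonMangoldt n) →
    ∀ a : ι → ℕ → ℝ, (∀ i m, |a i m| ≤ (k : ℝ) ^ T) →
    ((univ.filter (fun i : ι => (∏ l, ((X l * Y l : ℕ) : ℝ)) / (k : ℝ) ^ U <
      (((Fintype.piFinset (fun l => Icc (-((B : ℤ) * (X l * Y l : ℕ))) ((B : ℤ) * (X l * Y l : ℕ)))).filter (fun c : Fin s → ℤ =>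
        ∃ M : ℕ, S.card / (k : ℝ) ^ U < |∑ m ∈ S.filter (fun m => m < M), a i m *
          (∏ l, AL L (κ l * v l i * w l m + F l i + G l m + c l) - ∏ l, AM z (κ l * v l i * w l m + F l i + G l m + c l))|)).card : ℝ))).card : ℝ) ≤
      Fintype.card ι / (k : ℝ) ^ U := by
  choose p C' k1 hde using fun l => diff_energy (h l) (h' l) r B C (hh l) (hh' l) hr
  obtain ⟨B0, V0, h0⟩ := genD s p B (∑ l, C' l) T U hB
  refine ⟨B0, V0, fun E => ?_⟩
  obtain ⟨k0, h1⟩ := h0 E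
  refine ⟨k0 + ∑ l, k1 l + 1, fun k hk X Y hkN hNk hXY hYX ι _ S hS v w hv hw hEv hEw κ hκ F G hzb z hz1 hz2 L hL a ha => ?_⟩
  have hk1' : (1 : ℝ) ≤ k := by exact_mod_cast (by omega : 1 ≤ k)
  refine h1 k (by omega) (fun l => X l * Y l) hkN hNk ι S hS (fun l i m => κ l * v l i * w l m + F l i + G l m) hzb (fun l => ?_) z hz1 hz2 L hL a ha
  have hs1 : k1 l ≤ k := by
    have : k1 l ≤ ∑ l, k1 l := single_le_sum (f := k1) (fun _ _ => Nat.zero_le _) (mem_univ l)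
    omega
  have hSc : Fintype.card {m // m ∈ S} = S.card := Fintype.card_coe _
  have h5 := hde l k hs1 (X l) (Y l) (hkN l) (hNk l) (hXY l) (hYX l)
    ι {m // m ∈ S} (v l) (fun m => w l m.1) (hv l) (fun m => hw l m.1 m.2) (hEv l) (by rw [hSc]; exact hEw l)
    (κ l) (hκ l) (F l) (fun m => G l m.1)
  refine h5.trans ?_
  apply mul_le_mul_of_nonneg_right _ (by positivity)
  apply pow_le_pow_right₀ hk1'
  exact single_le_sum (f := C') (fun _ _ => Nat.zero_le _) (mem_univ l)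

open Classical in
/-- **Systems without an outer parameter.** -/
theorem gen0 (s : ℕ) (p : Fin s → ℕ) (B C T U : ℕ) (hB : 1 ≤ B) :
    ∃ B0 V0 : ℕ, ∀ E : ℕ, ∃ k0 : ℕ, ∀ k : ℕ, k0 ≤ k → ∀ N : Fin s → ℕ,
    (∀ l, (k : ℝ) ≤ Real.log (N l)) → (∀ l, Real.log (N l) ≤ (k : ℝ) ^ 2) →
    ∀ (S : Finset ℕ), (k : ℝ) ^ V0 ≤ S.card → ∀ (zf : Fin s → ℕ → ℤ),
    (∀ l, ∀ m ∈ S, |zf l m| ≤ B * N l) →
    (∀ l, (En (p l) (fun m : {m // m ∈ S} => zf l m.1) : ℝ) * N l ≤ (k : ℝ) ^ C * (S.card : ℝ) ^ (2 * p l)) →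
    ∀ z : ℕ, (k : ℝ) ^ B0 ≤ z → (z : ℝ) ≤ (k : ℝ) ^ E → ∀ L : ℕ → ℝ, (∀ n, th n ≤ L n ∧ L n ≤ ArithmeticFunction.vonMangoldt n) →
    ∀ a : ℕ → ℝ, (∀ m, |a m| ≤ (k : ℝ) ^ T) →
    (((Fintype.piFinset (fun l => Icc (-((B : ℤ) * N l)) ((B : ℤ) * N l))).filter (fun c : Fin s → ℤ =>
        ∃ M : ℕ, S.card / (k : ℝ) ^ U < |∑ m ∈ S.filter (fun m => m < M), a m *
          (∏ l, AL L (zf l m + c l) - ∏ l, AM z (zf l m + c l))|)).card : ℝ) ≤ (∏ l, (N l : ℝ)) / (k : ℝ) ^ U := by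
  obtain ⟨B0, V0, h0⟩ := genD s p B C T (U + 1) hB
  refine ⟨B0, V0, fun E => ?_⟩
  obtain ⟨k0, h1⟩ := h0 E
  refine ⟨k0 + 2, fun k hk N hkN hNk S hS zf hzb hEn z hz1 hz2 L hL a ha => ?_⟩
  have hk2 : (2 : ℝ) ≤ k := by exact_mod_cast (by omega : 2 ≤ k)
  have hk1' : (1 : ℝ) ≤ k := by linarith
  have hkp : (0 : ℝ) < k := by linarith
  have hP0 : (0 : ℝ) ≤ ∏ l, (N l : ℝ) := prod_nonneg fun l _ => Nat.cast_nonneg _
  have h2 := h1 k (by omega) N hkN hNk Unit S hS (fun l _ m => zf l m) (fun l _ m hm => hzb l m hm) (fun l => by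
    have e1 : (En (p l) (fun q : Unit × ({m // m ∈ S} × {m // m ∈ S}) => zf l q.2.2.1 - zf l q.2.1.1)) =
        En (p l) (fun q : {m // m ∈ S} × {m // m ∈ S} => zf l q.2.1 - zf l q.1.1) := by
      unfold En
      refine Nat.card_congr ?_
      refine Equiv.subtypeEquiv (Equiv.prodCongr (Equiv.arrowCongr (Equiv.refl _) (Equiv.punitProd _))
        (Equiv.arrowCongr (Equiv.refl _) (Equiv.punitProd _))) ?_
      intro q
      rfl
    have e2 : (En (p l) (fun q : {m // m ∈ S} × {m // m ∈ S} => zf l q.2.1 - zf l q.1.1) : ℝ) ≤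
        (S.card : ℝ) ^ (2 * p l) * En (p l) (fun m : {m // m ∈ S} => zf l m.1) := by
      have := Pool.Agent.Run7.h536.QC.En_diff (p l) (fun m : {m // m ∈ S} => zf l m.1)
      rw [Fintype.card_coe] at this
      exact_mod_cast this
    rw [e1]
    calc (En (p l) (fun q : {m // m ∈ S} × {m // m ∈ S} => zf l q.2.1 - zf l q.1.1) : ℝ) * N l ≤
        (S.card : ℝ) ^ (2 * p l) * En (p l) (fun m : {m // m ∈ S} => zf l m.1) * N l :=
          mul_le_mul_of_nonneg_right e2 (Nat.cast_nonneg _)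
      _ = (S.card : ℝ) ^ (2 * p l) * (En (p l) (fun m : {m // m ∈ S} => zf l m.1) * N l) := by ring
      _ ≤ (S.card : ℝ) ^ (2 * p l) * ((k : ℝ) ^ C * (S.card : ℝ) ^ (2 * p l)) :=
          mul_le_mul_of_nonneg_left (hEn l) (by positivity)
      _ = _ := by
          rw [Fintype.card_prod, Fintype.card_prod, Fintype.card_unit, Fintype.card_coe]
          push_cast
          ring) z hz1 hz2 L hL (fun _ => a) (fun _ => ha)
  by_contra hcon
  push Not at hcon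
  have hbig : ∀ c : Fin s → ℤ, (∃ M : ℕ, S.card / (k : ℝ) ^ U < |∑ m ∈ S.filter (fun m => m < M), a m *
          (∏ l, AL L (zf l m + c l) - ∏ l, AM z (zf l m + c l))|) → (∃ M : ℕ, S.card / (k : ℝ) ^ (U + 1) < |∑ m ∈ S.filter (fun m => m < M), a m *
          (∏ l, AL L (zf l m + c l) - ∏ l, AM z (zf l m + c l))|) := by
    rintro c ⟨M, hM⟩
    refine ⟨M, lt_of_le_of_lt ?_ hM⟩
    apply div_le_div_of_nonneg_left (Nat.cast_nonneg _) (by positivity)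
    exact pow_le_pow_right₀ hk1' (by omega)
  have h3 : (∏ l, (N l : ℝ)) / (k : ℝ) ^ (U + 1) < (((Fintype.piFinset (fun l => Icc (-((B : ℤ) * N l)) ((B : ℤ) * N l))).filter (fun c : Fin s → ℤ =>
        ∃ M : ℕ, S.card / (k : ℝ) ^ (U + 1) < |∑ m ∈ S.filter (fun m => m < M), a m *
          (∏ l, AL L (zf l m + c l) - ∏ l, AM z (zf l m + c l))|)).card : ℝ) := by
    refine lt_of_le_of_lt ?_ (lt_of_lt_of_le hcon ?_)
    · apply div_le_div_of_nonneg_left hP0 (by positivity)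
      exact pow_le_pow_right₀ hk1' (by omega)
    · apply Nat.cast_le.2
      apply card_le_card
      intro c hc
      rw [mem_filter] at hc ⊢
      exact ⟨hc.1, hbig c hc.2⟩
  have h4 : ((univ.filter (fun _ : Unit => (∏ l, (N l : ℝ)) / (k : ℝ) ^ (U + 1) < (((Fintype.piFinset (fun l => Icc (-((B : ℤ) * N l)) ((B : ℤ) * N l))).filter (fun c : Fin s → ℤ =>
        ∃ M : ℕ, S.card / (k : ℝ) ^ (U + 1) < |∑ m ∈ S.filter (fun m => m < M), a m *
          (∏ l, AL L (zf l m + c l) - ∏ l, AM z (zf l m + c l))|)).card : ℝ))).card : ℝ) = 1 := by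
    rw [filter_true_of_mem (fun _ _ => h3)]
    simp
  rw [h4, Fintype.card_unit, Nat.cast_one] at h2
  have h5 : (1 : ℝ) / (k : ℝ) ^ (U + 1) ≤ 1 / 2 := by
    apply one_div_le_one_div_of_le (by norm_num)
    calc (2 : ℝ) ≤ k := hk2
      _ = (k : ℝ) ^ 1 := (pow_one _).symm
      _ ≤ _ := pow_le_pow_right₀ hk1' (by omega)
  linarith

end Pool.Agent.Run7.h536.RD
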