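import Pool.Agent.Run7.h536.TB1
import Pool.Agent.H316R2.LS

set_option autoImplicit false

/-! Bilinear combinations of two thin families of integers, with arbitrary perturbations: the energy. -/

namespace Pool.Agent.Run7.h536.TB
open Finset
open Pool.Agent.H807R2.Dav
open Pool.Agent.H373R2.T7 (conj_ee orth sq_expand)
open Pool.Agent.TH212.EH (En)

/-- equal products -/
noncomputable def QQ (H H' : ℕ) : Finset ((ℤ × ℤ) × (ℤ × ℤ)) :=
  ((Icc (-(H : ℤ)) H ×ˢ Icc (-(H' : ℤ)) H') ×ˢ (Icc (-(H : ℤ)) H ×ˢ Icc (-(H' : ℤ)) H')).filter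
    (fun q => q.1.2 ≠ 0 ∧ q.2.2 ≠ 0 ∧ q.1.1 * q.1.2 = q.2.1 * q.2.2)

lemma sign_mem (x : ℤ) (hx : x ≠ 0) : x.sign ∈ ({1, -1} : Finset ℤ) := by
  rcases lt_or_gt_of_ne hx with h | h
  · rw [Int.sign_eq_neg_one_of_neg h]; simp
  · rw [Int.sign_eq_one_of_pos h]; simp

lemma QQ_card (H H' : ℕ) (hH : 1 ≤ H) (hH' : 1 ≤ H') :
    ((QQ H H').card : ℝ) ≤ 4 * (H' : ℝ) ^ 2 + 16 * ((H * H' : ℕ) * (1 + Real.log (H * H' : ℕ)) ^ 4) := by
  classical
  obtain ⟨K, hK⟩ : ∃ K, K = H * H' := ⟨_, rfl⟩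
  have hK1 : 1 ≤ K := by rw [hK]; exact Nat.mul_pos hH hH'
  obtain ⟨U, hU⟩ : ∃ U : Finset ((ℕ × ℕ) × (ℕ × ℕ)), U = (Icc 1 K).biUnion (fun k => k.divisorsAntidiagonal ×ˢ k.divisorsAntidiagonal) :=
    ⟨_, rfl⟩
  have h1 : ((QQ H H').filter (fun q => q.1.1 = 0)).card ≤ (2 * H') * (2 * H') := by
    have e1 : ((Icc (-(H' : ℤ)) H').erase 0).card = 2 * H' := by
      rw [card_erase_of_mem (by rw [mem_Icc]; omega), Int.card_Icc]
      omega
    rw [← e1, ← card_product]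
    apply card_le_card_of_injOn (fun q => (q.1.2, q.2.2))
    · intro q hq
      rw [mem_coe, mem_filter] at hq
      unfold QQ at hq
      rw [mem_filter, mem_product, mem_product, mem_product] at hq
      rw [mem_coe, mem_product, mem_erase, mem_erase]
      exact ⟨⟨hq.1.2.1, hq.1.1.1.2⟩, ⟨hq.1.2.2.1, hq.1.1.2.2⟩⟩
    · intro q hq q' hq' hqq
      rw [mem_coe, mem_filter] at hq hq'
      unfold QQ at hq hq'
      rw [mem_filter] at hq hq'
      obtain ⟨⟨_, a1, a2, a3⟩, a4⟩ := hq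
      obtain ⟨⟨_, b1, b2, b3⟩, b4⟩ := hq'
      simp only [Prod.mk.injEq] at hqq
      have a5 : q.2.1 = 0 := by
        rw [a4, zero_mul] at a3
        rcases mul_eq_zero.1 a3.symm with h | h
        · exact h
        · exact absurd h a2
      have b5 : q'.2.1 = 0 := by
        rw [b4, zero_mul] at b3
        rcases mul_eq_zero.1 b3.symm with h | h
        · exact h
        · exact absurd h b2
      apply Prod.ext
      · apply Prod.ext
        · rw [a4, b4]
        · exact hqq.1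
      · apply Prod.ext
        · rw [a5, b5]
        · exact hqq.2
  have h2 : ((QQ H H').filter (fun q => ¬ q.1.1 = 0)).card ≤ 16 * U.card := by
    have e1 : (((({1, -1} : Finset ℤ) ×ˢ ({1, -1} : Finset ℤ)) ×ˢ (({1, -1} : Finset ℤ) ×ˢ ({1, -1} : Finset ℤ))) ×ˢ U).card = 16 * U.card := by
      rw [card_product]
      congr 1
    rw [← e1]
    apply card_le_card_of_injOn (fun q => (((q.1.1.sign, q.1.2.sign), (q.2.1.sign, q.2.2.sign)),
      ((q.1.1.natAbs, q.1.2.natAbs), (q.2.1.natAbs, q.2.2.natAbs))))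
    · intro q hq
      rw [mem_coe, mem_filter] at hq
      unfold QQ at hq
      rw [mem_filter, mem_product, mem_product, mem_product, mem_Icc, mem_Icc] at hq
      obtain ⟨⟨⟨⟨⟨c1, c2⟩, ⟨c3, c4⟩⟩, _⟩, a1, a2, a3⟩, a4⟩ := hq
      have a5 : q.2.1 ≠ 0 := by
        intro h
        rw [h, zero_mul] at a3
        rcases mul_eq_zero.1 a3 with h | h
        · exact a4 h
        · exact a1 h
      rw [mem_coe, mem_product, mem_product, mem_product, mem_product]
      refine ⟨⟨⟨sign_mem _ a4, sign_mem _ a1⟩, ⟨sign_mem _ a5, sign_mem _ a2⟩⟩, ?_⟩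
      rw [hU, mem_biUnion]
      have n1 : q.1.1.natAbs * q.1.2.natAbs = q.2.1.natAbs * q.2.2.natAbs := by
        rw [← Int.natAbs_mul, ← Int.natAbs_mul, a3]
      have n2 : 0 < q.1.1.natAbs := Int.natAbs_pos.2 a4
      have n3 : 0 < q.1.2.natAbs := Int.natAbs_pos.2 a1
      refine ⟨q.1.1.natAbs * q.1.2.natAbs, ?_, ?_⟩
      · rw [mem_Icc, hK]
        exact ⟨Nat.mul_pos n2 n3, Nat.mul_le_mul (by omega) (by omega)⟩
      · rw [mem_product, Nat.mem_divisorsAntidiagonal, Nat.mem_divisorsAntidiagonal]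
        have n4 : q.1.1.natAbs * q.1.2.natAbs ≠ 0 := (Nat.mul_pos n2 n3).ne'
        exact ⟨⟨rfl, n4⟩, ⟨n1.symm, n4⟩⟩
    · intro q _ q' _ hqq
      simp only [Prod.mk.injEq] at hqq
      obtain ⟨⟨⟨s1, s2⟩, s3, s4⟩, ⟨n1, n2⟩, n3, n4⟩ := hqq
      have key : ∀ x y : ℤ, x.sign = y.sign → x.natAbs = y.natAbs → x = y := by
        intro x y h1 h2
        rw [← Int.sign_mul_natAbs x, ← Int.sign_mul_natAbs y, h1, h2]
      apply Prod.ext
      · exact Prod.ext (key _ _ s1 n1) (key _ _ s2 n2)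
      · exact Prod.ext (key _ _ s3 n3) (key _ _ s4 n4)
  have h3 : (U.card : ℝ) ≤ K * (1 + Real.log K) ^ 4 := by
    have e1 : (U.card : ℝ) ≤ ∑ k ∈ Icc 1 K, (k.divisors.card : ℝ) ^ 2 := by
      have e2 : U.card ≤ ∑ k ∈ Icc 1 K, (k.divisorsAntidiagonal ×ˢ k.divisorsAntidiagonal).card := by
        rw [hU]
        exact card_biUnion_le
      have e3 : ∀ k : ℕ, ((k.divisorsAntidiagonal ×ˢ k.divisorsAntidiagonal).card : ℝ) = (k.divisors.card : ℝ) ^ 2 := by
        intro k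
        have : (k.divisorsAntidiagonal.card : ℝ) = k.divisors.card := by
          rw [← Nat.map_div_right_divisors, card_map]
        rw [card_product, Nat.cast_mul, this, sq]
      calc (U.card : ℝ) ≤ ((∑ k ∈ Icc 1 K, (k.divisorsAntidiagonal ×ˢ k.divisorsAntidiagonal).card : ℕ) : ℝ) := by exact_mod_cast e2
        _ = ∑ k ∈ Icc 1 K, ((k.divisorsAntidiagonal ×ˢ k.divisorsAntidiagonal).card : ℝ) := by push_cast; rfl
        _ = _ := sum_congr rfl fun k _ => e3 k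
    refine e1.trans ?_
    have e4 := Pool.Agent.H316R2.tau_sq_sum_le K
    calc ∑ k ∈ Icc 1 K, (k.divisors.card : ℝ) ^ 2 ≤ ∑ k ∈ Icc 1 K, K * ((k.divisors.card : ℝ) ^ 2 / k) := by
          apply sum_le_sum
          intro k hk
          rw [mem_Icc] at hk
          have hk0 : (0 : ℝ) < k := by exact_mod_cast (by omega : 0 < k)
          have hkK : (k : ℝ) ≤ K := by exact_mod_cast hk.2
          rw [← mul_div_assoc, le_div_iff₀ hk0, mul_comm]
          exact mul_le_mul_of_nonneg_right hkK (by positivity)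
      _ = K * ∑ k ∈ Icc 1 K, (k.divisors.card : ℝ) ^ 2 / k := by rw [mul_sum]
      _ ≤ _ := mul_le_mul_of_nonneg_left e4 (Nat.cast_nonneg _)
  have h4 : (QQ H H').card = ((QQ H H').filter (fun q => q.1.1 = 0)).card + ((QQ H H').filter (fun q => ¬ q.1.1 = 0)).card :=
    (card_filter_add_card_filter_not _).symm
  have h5 : ((QQ H H').card : ℝ) ≤ ((2 * H') * (2 * H') : ℕ) + (16 * U.card : ℕ) := by
    rw [h4]
    exact_mod_cast Nat.add_le_add h1 h2
  refine h5.trans ?_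
  rw [← hK]
  push_cast
  nlinarith

/-- **The energy of bilinear combinations with arbitrary perturbations.** -/
theorem energy_ineq {ι ι' : Type} [Fintype ι] [Fintype ι'] [Nonempty ι] [Nonempty ι'] (h h' r : ℕ) (hh : 1 ≤ h) (hh' : 1 ≤ h')
    (hr : 2 ≤ r) (v : ι → ℤ) (v' : ι' → ℤ) (F : ι → ℤ) (G : ι' → ℤ) (κ : ℤ) (hκ : κ ≠ 0) (H H' : ℕ)
    (hH : ∀ x, |df h v x| ≤ H) (hH' : ∀ y, |df h' v' y| ≤ H') :
    (En (2 * h * h' * r) (fun p : ι × ι' => κ * v p.1 * v' p.2 + F p.1 + G p.2) : ℝ) ≤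
      ((Fintype.card ι' : ℝ) ^ ((2 * h - 1) * (2 * h')) * (Fintype.card ι : ℝ) ^ (2 * h * (2 * h' - 1))) ^ r *
        (2 ^ (r - 1) * (((Fintype.card ι : ℝ) ^ (2 * h) * En h' v') ^ r +
          ((Fintype.card ι : ℝ) ^ (2 * h) * (Fintype.card ι' : ℝ) ^ (2 * h')) ^ (r - 2) *
            (((En h v : ℝ) * En h' v') ^ 2 * (QQ H H').card))) := by
  classical
  obtain ⟨val, hval⟩ : ∃ val : ((Fin h → ι) × (Fin h → ι)) × ((Fin h' → ι') × (Fin h' → ι')) → ℤ,
    ∀ q, val q = df h v q.1 * df h' v' q.2 := ⟨_, fun _ => rfl⟩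
  obtain ⟨M, hM⟩ : ∃ M : ℕ, M = 1 + ∑ i, ∑ j, (κ * val i - κ * val j).natAbs := ⟨_, rfl⟩
  have hM1 : 1 ≤ M := by omega
  have hMr : (0 : ℝ) < M := by exact_mod_cast hM1
  have hMbig : ∀ i j, |κ * val i - κ * val j| < M := by
    intro i j
    have e1 : (κ * val i - κ * val j).natAbs ≤ ∑ j, (κ * val i - κ * val j).natAbs :=
      single_le_sum (f := fun j => (κ * val i - κ * val j).natAbs) (fun _ _ => Nat.zero_le _) (mem_univ j)
    have e2 : ∑ j, (κ * val i - κ * val j).natAbs ≤ ∑ i, ∑ j, (κ * val i - κ * val j).natAbs :=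
      single_le_sum (f := fun i => ∑ j, (κ * val i - κ * val j).natAbs) (fun _ _ => Nat.zero_le _) (mem_univ i)
    rw [Int.abs_eq_natAbs]
    exact_mod_cast (by omega : (κ * val i - κ * val j).natAbs < M)
  obtain ⟨NZ, hNZ⟩ : ∃ NZ : Finset (((Fin h → ι) × (Fin h → ι)) × ((Fin h' → ι') × (Fin h' → ι'))),
    NZ = univ.filter (fun q => ¬ df h' v' q.2 = 0) := ⟨_, rfl⟩
  obtain ⟨Z, hZ⟩ : ∃ Z : Finset (((Fin h → ι) × (Fin h → ι)) × ((Fin h' → ι') × (Fin h' → ι'))),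
    Z = univ.filter (fun q => df h' v' q.2 = 0) := ⟨_, rfl⟩
  have hcX : (Fintype.card ((Fin h → ι) × (Fin h → ι)) : ℝ) = (Fintype.card ι : ℝ) ^ (2 * h) := by
    rw [Fintype.card_prod, Fintype.card_fun, Fintype.card_fin]
    push_cast
    rw [two_mul, pow_add]
  have hcY : (Fintype.card ((Fin h' → ι') × (Fin h' → ι')) : ℝ) = (Fintype.card ι' : ℝ) ^ (2 * h') := by
    rw [Fintype.card_prod, Fintype.card_fun, Fintype.card_fin]
    push_cast
    rw [two_mul, pow_add]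
  have hZc : (Z.card : ℝ) = (Fintype.card ι : ℝ) ^ (2 * h) * En h' v' := by
    have e1 : Z = univ ×ˢ (univ.filter (fun y => df h' v' y = 0)) := by
      rw [hZ]
      ext q
      simp
    rw [e1, card_product, Nat.cast_mul, card_univ, hcX, En_eq]
  -- the bilinear sums
  obtain ⟨T, hT⟩ : ∃ T : ℕ → ℝ, ∀ t, T t = ∑ x : (Fin h → ι) × (Fin h → ι), ‖∑ j, ee (((t : ℝ) * (κ / M)) * df h v x * v' j)‖ ^ (2 * h') :=
    ⟨_, fun _ => rfl⟩
  obtain ⟨T', hT'⟩ : ∃ T' : ℕ → ℝ, ∀ t, T' t = ‖∑ q ∈ NZ, ee ((t : ℝ) * (((κ * val q : ℤ) : ℝ) / M))‖ := ⟨_, fun _ => rfl⟩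
  have hT0 : ∀ t, 0 ≤ T t := fun t => by rw [hT]; exact sum_nonneg fun _ _ => by positivity
  have hT'0 : ∀ t, 0 ≤ T' t := fun t => by rw [hT']; exact norm_nonneg _
  have hTT : ∀ t, T t ≤ Z.card + T' t := by
    intro t
    have e1 : ((T t : ℝ) : ℂ) = ∑ q : ((Fin h → ι) × (Fin h → ι)) × ((Fin h' → ι') × (Fin h' → ι')),
        ee ((t : ℝ) * (((κ * val q : ℤ) : ℝ) / M)) := by
      rw [hT, Complex.ofReal_sum]
      refine Eq.trans ?_ (Fintype.sum_prod_type _).symm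
      apply sum_congr rfl
      intro x _
      rw [expand]
      apply sum_congr rfl
      intro y _
      congr 1
      rw [hval]
      unfold df
      push_cast
      simp only [← mul_sum, ← mul_sub]
      ring
    have e2 : ∑ q ∈ Z, ee ((t : ℝ) * (((κ * val q : ℤ) : ℝ) / M)) = (Z.card : ℂ) := by
      rw [card_eq_sum_ones]
      push_cast
      apply sum_congr rfl
      intro q hq
      rw [hZ, mem_filter] at hq
      rw [hval, hq.2, mul_zero]
      simp [ee_zero]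
    have e3 : ((T t : ℝ) : ℂ) = (Z.card : ℂ) + ∑ q ∈ NZ, ee ((t : ℝ) * (((κ * val q : ℤ) : ℝ) / M)) := by
      rw [e1, ← e2, hZ, hNZ]
      exact (sum_filter_add_sum_filter_not _ _ _).symm
    calc T t = ‖((T t : ℝ) : ℂ)‖ := by rw [Complex.norm_real, Real.norm_of_nonneg (hT0 t)]
      _ = ‖(Z.card : ℂ) + ∑ q ∈ NZ, ee ((t : ℝ) * (((κ * val q : ℤ) : ℝ) / M))‖ := by rw [e3]
      _ ≤ ‖(Z.card : ℂ)‖ + ‖∑ q ∈ NZ, ee ((t : ℝ) * (((κ * val q : ℤ) : ℝ) / M))‖ := norm_add_le _ _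
      _ = _ := by rw [hT', Complex.norm_natCast]
  have hT'1 : ∀ t, T' t ≤ (Fintype.card ι : ℝ) ^ (2 * h) * (Fintype.card ι' : ℝ) ^ (2 * h') := by
    intro t
    rw [hT']
    refine (norm_sum_le _ _).trans ?_
    simp only [norm_ee]
    rw [sum_const, nsmul_eq_mul, mul_one, ← hcX, ← hcY, ← Nat.cast_mul, ← Fintype.card_prod]
    exact_mod_cast card_le_univ _
  have hsec : ∑ t ∈ range M, T' t ^ 2 ≤ M * (((En h v : ℝ) * En h' v') ^ 2 * (QQ H H').card) := by
    have e1 := sq_expand NZ (fun _ => 1) (fun q => κ * val q) M hM1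
    simp only [one_mul, map_one, ← hT'] at e1
    have e2 : ∀ i j, (if (M : ℤ) ∣ κ * val i - κ * val j then (M : ℂ) else 0) = ((if val i = val j then (M : ℝ) else 0 : ℝ) : ℂ) := by
      intro i j
      by_cases hij : val i = val j
      · rw [if_pos hij, if_pos (by rw [hij, sub_self]; exact dvd_zero _)]
        push_cast
        rfl
      · rw [if_neg hij, if_neg, Complex.ofReal_zero]
        intro hd
        have h0 := Int.eq_zero_of_abs_lt_dvd hd (hMbig i j)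
        have h1 : κ * (val i - val j) = 0 := by rw [mul_sub]; exact h0
        rcases mul_eq_zero.1 h1 with h2 | h2
        · exact hκ h2
        · exact hij (by omega)
    simp only [e2] at e1
    have e3 : ∑ t ∈ range M, T' t ^ 2 = ∑ i ∈ NZ, ∑ j ∈ NZ, (if val i = val j then (M : ℝ) else 0) := by exact_mod_cast e1
    rw [e3, ← sum_product', ← sum_filter, sum_const, nsmul_eq_mul, mul_comm]
    apply mul_le_mul_of_nonneg_left _ hMr.le
    have e4 : ((NZ ×ˢ NZ).filter (fun q => val q.1 = val q.2)).card ≤ ((En h v * En h' v') * (En h v * En h' v')) * (QQ H H').card := by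
      apply card_le_mul_card_image_of_maps_to (f := fun q => ((df h v q.1.1, df h' v' q.1.2), (df h v q.2.1, df h' v' q.2.2)))
      · intro q hq
        rw [mem_filter, mem_product, hNZ, mem_filter, mem_filter, hval, hval] at hq
        unfold QQ
        rw [mem_filter, mem_product, mem_product, mem_product, mem_Icc, mem_Icc, mem_Icc, mem_Icc]
        exact ⟨⟨⟨abs_le.1 (hH _), abs_le.1 (hH' _)⟩, ⟨abs_le.1 (hH _), abs_le.1 (hH' _)⟩⟩, hq.1.1.2, hq.1.2.2, hq.2⟩
      · rintro ⟨⟨a, c⟩, ⟨a', c'⟩⟩ _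
        have e5 : ((NZ ×ˢ NZ).filter (fun q => val q.1 = val q.2)).filter (fun q =>
            ((df h v q.1.1, df h' v' q.1.2), (df h v q.2.1, df h' v' q.2.2)) = ((a, c), (a', c'))) ⊆
            ((univ.filter (fun x => df h v x = a)) ×ˢ (univ.filter (fun y => df h' v' y = c))) ×ˢ
            ((univ.filter (fun x => df h v x = a')) ×ˢ (univ.filter (fun y => df h' v' y = c'))) := by
          intro q hq
          rw [mem_filter] at hq
          simp only [Prod.mk.injEq] at hq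
          simp only [mem_product, mem_filter, mem_univ, true_and]
          exact hq.2
        refine (card_le_card e5).trans ?_
        rw [card_product, card_product, card_product]
        exact Nat.mul_le_mul (Nat.mul_le_mul (rep_le _ _ _) (rep_le _ _ _)) (Nat.mul_le_mul (rep_le _ _ _) (rep_le _ _ _))
    calc (((NZ ×ˢ NZ).filter (fun q => val q.1 = val q.2)).card : ℝ) ≤
        ((((En h v * En h' v') * (En h v * En h' v')) * (QQ H H').card : ℕ) : ℝ) := by exact_mod_cast e4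
      _ = _ := by push_cast; ring
  have hTr : ∀ t, T t ^ r ≤ 2 ^ (r - 1) * ((Z.card : ℝ) ^ r +
      ((Fintype.card ι : ℝ) ^ (2 * h) * (Fintype.card ι' : ℝ) ^ (2 * h')) ^ (r - 2) * T' t ^ 2) := by
    intro t
    refine (pow_le_pow_left₀ (hT0 t) (hTT t) r).trans ((add_pow_le (Nat.cast_nonneg _) (hT'0 t) r).trans ?_)
    apply mul_le_mul_of_nonneg_left _ (by positivity)
    apply add_le_add le_rfl
    have : T' t ^ r = T' t ^ (r - 2) * T' t ^ 2 := by rw [← pow_add]; congr 1; omega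
    rw [this]
    exact mul_le_mul_of_nonneg_right (pow_le_pow_left₀ (hT'0 t) (hT'1 t) _) (sq_nonneg _)
  obtain ⟨K0, hK0⟩ : ∃ K0 : ℝ, K0 = (Fintype.card ι' : ℝ) ^ ((2 * h - 1) * (2 * h')) * (Fintype.card ι : ℝ) ^ (2 * h * (2 * h' - 1)) :=
    ⟨_, rfl⟩
  have hK00 : 0 ≤ K0 := by rw [hK0]; positivity
  rw [← hK0]
  have hmain := Pool.Agent.TH872.GQ.En_le (2 * h * h' * r) (fun p : ι × ι' => κ * v p.1 * v' p.2 + F p.1 + G p.2) M hM1
  have hS : ∀ t ∈ range M, ‖∑ p : ι × ι', ee ((t : ℝ) * (((κ * v p.1 * v' p.2 + F p.1 + G p.2 : ℤ) : ℝ) / M))‖ ^ (2 * (2 * h * h' * r)) ≤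
      K0 ^ r * T t ^ r := by
    intro t _
    have e1 := core_ineq h h' hh hh' v v' (fun i => (t : ℝ) * (F i / M)) (fun j => (t : ℝ) * (G j / M)) ((t : ℝ) * (κ / M))
    rw [← hT, ← hK0] at e1
    have e2 : ∑ p : ι × ι', ee ((t : ℝ) * (((κ * v p.1 * v' p.2 + F p.1 + G p.2 : ℤ) : ℝ) / M)) =
        ∑ p : ι × ι', ee (((t : ℝ) * (κ / M)) * v p.1 * v' p.2 + (t : ℝ) * (F p.1 / M) + (t : ℝ) * (G p.2 / M)) := by
      apply sum_congr rfl
      intro p _
      congr 1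
      push_cast
      ring
    rw [e2]
    have e3 : 2 * (2 * h * h' * r) = (2 * h * (2 * h')) * r := by ring
    rw [e3, pow_mul, ← mul_pow]
    exact pow_le_pow_left₀ (by positivity) e1 r
  have hfin : (M : ℝ) * (En (2 * h * h' * r) (fun p : ι × ι' => κ * v p.1 * v' p.2 + F p.1 + G p.2) : ℝ) ≤
      M * (K0 ^ r * (2 ^ (r - 1) * ((Z.card : ℝ) ^ r + ((Fintype.card ι : ℝ) ^ (2 * h) * (Fintype.card ι' : ℝ) ^ (2 * h')) ^ (r - 2) *
        (((En h v : ℝ) * En h' v') ^ 2 * (QQ H H').card)))) := by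
    refine hmain.trans ((sum_le_sum hS).trans ?_)
    rw [← mul_sum]
    obtain ⟨P2, hP2⟩ : ∃ P2 : ℝ, P2 = ((Fintype.card ι : ℝ) ^ (2 * h) * (Fintype.card ι' : ℝ) ^ (2 * h')) ^ (r - 2) := ⟨_, rfl⟩
    have hP20 : 0 ≤ P2 := by rw [hP2]; positivity
    rw [← hP2] at hTr ⊢
    calc K0 ^ r * ∑ t ∈ range M, T t ^ r ≤ K0 ^ r * ∑ t ∈ range M, 2 ^ (r - 1) * ((Z.card : ℝ) ^ r + P2 * T' t ^ 2) := by
          apply mul_le_mul_of_nonneg_left _ (by positivity)
          exact sum_le_sum fun t _ => hTr t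
      _ = K0 ^ r * (2 ^ (r - 1) * (M * (Z.card : ℝ) ^ r + P2 * ∑ t ∈ range M, T' t ^ 2)) := by
          rw [← mul_sum, sum_add_distrib, sum_const, card_range, nsmul_eq_mul, ← mul_sum]
      _ ≤ K0 ^ r * (2 ^ (r - 1) * (M * (Z.card : ℝ) ^ r + P2 * (M * (((En h v : ℝ) * En h' v') ^ 2 * (QQ H H').card)))) := by
          apply mul_le_mul_of_nonneg_left _ (by positivity)
          apply mul_le_mul_of_nonneg_left _ (by positivity)
          apply add_le_add le_rfl
          exact mul_le_mul_of_nonneg_left hsec hP20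
      _ = _ := by ring
  rw [← hZc]
  exact le_of_mul_le_mul_left hfin hMr

end Pool.Agent.Run7.h536.TB
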